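import Pool.Agent.Singer.Cube.ChessStmt
import Pool.Agent.Singer.Stmt3

/-!
# CAT(0) cube complexes, given by their one-skeletons

* `IsMedian M` : the graph `M` is a median graph; the median graphs are the one-skeletons of the `CAT(0)` cube complexes,
  and the cube complex is determined by the graph: its cubes are the induced subgraphs which are graphs of cubes;
* `link M x` : the one-skeleton of the link of the vertex `x`; the link is the clique complex of this graph.
-/

set_option autoImplicit false
set_option linter.unusedVariables false

namespace CubeComplex

/-- median graphs: connected, and any three vertices `x`, `y`, `z` have exactly one median, that is, exactly one vertex `m`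
which lies on geodesics from `x` to `y`, from `y` to `z` and from `x` to `z` -/
structure IsMedian {X : Type} (M : SimpleGraph X) : Prop where
  conn : M.Connected
  med : ∀ x y z, ∃! m, M.dist x m + M.dist m y = M.dist x y ∧ M.dist y m + M.dist m z = M.dist y z ∧
    M.dist x m + M.dist m z = M.dist x z

/-- the link of the vertex `x`: its vertices are the neighbours of `x` (the edges at `x`), and two of them are adjacent if
they have a common neighbour besides `x` (if the two edges span a square) -/
def link {X : Type} (M : SimpleGraph X) (x : X) : SimpleGraph (M.neighborSet x) where
  Adj a b := a ≠ b ∧ ∃ m, m ≠ x ∧ M.Adj a m ∧ M.Adj b m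
  symm := ⟨fun a b ⟨h, m, h1, h2, h3⟩ => ⟨h.symm, m, h1, h3, h2⟩⟩
  loopless := ⟨fun a h => h.1 rfl⟩

end CubeComplex
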