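import Pool.Agent.Singer.Rank

/-!
# Project NPC: dimensions of spaces of functions on a free `Γ`-set with finitely many orbits

`Cof Γ Y`: the action of `Γ` on `Y` is free with finitely many orbits.  `act g`: the action on `ℓ²(Y)`; `Inv Γ V`,
`Mdl Γ V` (invariant and closed), `Equi Γ T`; `pr V`: the projection onto the closure of `V`; `dl y`: the delta function;
`vd Γ V`: the von Neumann dimension of the closure of `V`.
-/

set_option autoImplicit false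
set_option linter.unusedSectionVars false

open scoped ComplexConjugate InnerProductSpace
open Filter Topology

namespace Npc

open Singer (L2 pull push mul pull_apply push_apply)

/-- a free action with finitely many orbits -/
class Cof (Γ Y : Type*) [Group Γ] [MulAction Γ Y] : Prop where
  free : ∀ (g : Γ) (y : Y), g • y = y → g = 1
  fin : Finite (MulAction.orbitRel.Quotient Γ Y)

attribute [instance] Cof.fin

section defs
variable {Γ : Type*} [Group Γ] {X Y Z : Type*} [MulAction Γ X] [MulAction Γ Y] [MulAction Γ Z]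

/-- the action on functions -/
noncomputable def act (g : Γ) : L2 Y →L[ℂ] L2 Y := pull (fun y : Y => g⁻¹ • y) (MulAction.injective g⁻¹)

@[simp] theorem act_apply (g : Γ) (f : L2 Y) (y : Y) : act g f y = f (g⁻¹ • y) := rfl

theorem act_one (f : L2 Y) : act (1 : Γ) f = f := by
  ext y
  rw [act_apply, inv_one, one_smul]

theorem act_act (g h : Γ) (f : L2 Y) : act g (act h f) = act (g * h) f := by
  ext y
  rw [act_apply, act_apply, act_apply, mul_inv_rev, mul_smul]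

theorem act_inv_act (g : Γ) (f : L2 Y) : act g⁻¹ (act g f) = f := by
  rw [act_act, inv_mul_cancel, act_one]

theorem act_act_inv (g : Γ) (f : L2 Y) : act g (act g⁻¹ f) = f := by
  rw [act_act, mul_inv_cancel, act_one]

theorem norm_act (g : Γ) (f : L2 Y) : ‖act g f‖ = ‖f‖ :=
  Singer.norm_pull_equiv (MulAction.toPerm (g⁻¹ : Γ) : Equiv.Perm Y) f

theorem inner_act_act (g : Γ) (f h : L2 Y) : ⟪act g f, act g h⟫_ℂ = ⟪f, h⟫_ℂ := by
  rw [Singer.inner_eq, Singer.inner_eq]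
  exact (MulAction.toPerm (g⁻¹ : Γ) : Equiv.Perm Y).tsum_eq fun y => conj (f y) * h y

theorem inner_act_left (g : Γ) (f h : L2 Y) : ⟪act g f, h⟫_ℂ = ⟪f, act g⁻¹ h⟫_ℂ := by
  rw [← inner_act_act g f, act_act_inv]

open Classical in
/-- the delta function -/
noncomputable def dl (y : Y) : L2 Y := lp.single 2 y (1 : ℂ)

theorem inner_dl_left (y : Y) (f : L2 Y) : ⟪dl y, f⟫_ℂ = f y := by
  classical
  unfold dl
  rw [lp.inner_single_left]
  simp

theorem inner_dl_right (y : Y) (f : L2 Y) : ⟪f, dl y⟫_ℂ = conj (f y) := by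
  rw [← inner_conj_symm, inner_dl_left]

theorem dl_apply_self (y : Y) : dl y y = 1 := by
  unfold dl
  simp

theorem dl_apply_ne {y z : Y} (h : z ≠ y) : dl y z = 0 := by
  unfold dl
  simp [lp.single_apply, h]

theorem act_dl (g : Γ) (y : Y) : act g (dl y) = dl (g • y) := by
  ext z
  rw [act_apply]
  by_cases h : z = g • y
  · rw [h, inv_smul_smul, dl_apply_self, dl_apply_self]
  · rw [dl_apply_ne h, dl_apply_ne]
    intro h1
    exact h (by rw [← h1, smul_inv_smul])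

variable (Γ) in
/-- invariant subspaces -/
def Inv (V : Submodule ℂ (L2 Y)) : Prop := ∀ (g : Γ), ∀ f ∈ V, act g f ∈ V

variable (Γ) in
/-- equivariant operators -/
def Equi (T : L2 Y →L[ℂ] L2 Z) : Prop := ∀ (g : Γ) (f : L2 Y), T (act g f) = act g (T f)

variable (Γ) in
/-- closed invariant subspaces -/
structure Mdl (V : Submodule ℂ (L2 Y)) : Prop where
  inv : Inv Γ V
  cl : IsClosed (V : Set (L2 Y))

/-! ### equivariant operators -/

theorem equi_one : Equi Γ (1 : L2 Y →L[ℂ] L2 Y) := fun _ _ => rfl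

theorem equi_zero : Equi Γ (0 : L2 Y →L[ℂ] L2 Z) := fun _ _ => by simp

theorem Equi.add {T S : L2 Y →L[ℂ] L2 Z} (hT : Equi Γ T) (hS : Equi Γ S) : Equi Γ (T + S) := fun g f => by
  rw [add_apply, add_apply, hT, hS, map_add]

theorem Equi.sub {T S : L2 Y →L[ℂ] L2 Z} (hT : Equi Γ T) (hS : Equi Γ S) : Equi Γ (T - S) := fun g f => by
  rw [sub_apply, sub_apply, hT, hS, map_sub]

theorem Equi.neg {T : L2 Y →L[ℂ] L2 Z} (hT : Equi Γ T) : Equi Γ (-T) := fun g f => by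
  rw [neg_apply, neg_apply, hT, map_neg]

theorem Equi.smul {T : L2 Y →L[ℂ] L2 Z} (c : ℂ) (hT : Equi Γ T) : Equi Γ (c • T) := fun g f => by
  rw [smul_apply, smul_apply, hT, map_smul]

theorem Equi.comp {T : L2 Y →L[ℂ] L2 Z} {S : L2 X →L[ℂ] L2 Y} (hT : Equi Γ T) (hS : Equi Γ S) : Equi Γ (T.comp S) :=
  fun g f => by
    rw [ContinuousLinearMap.comp_apply, ContinuousLinearMap.comp_apply, hS, hT]

theorem Equi.sum {α : Type*} {s : Finset α} {T : α → L2 Y →L[ℂ] L2 Z} (h : ∀ a ∈ s, Equi Γ (T a)) :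
    Equi Γ (∑ a ∈ s, T a) := by
  classical
  induction s using Finset.induction_on with
  | empty => simpa using equi_zero
  | insert a s ha ih =>
    rw [Finset.sum_insert ha]
    exact (h a (Finset.mem_insert_self a s)).add (ih fun b hb => h b (Finset.mem_insert_of_mem hb))

theorem Equi.pow {T : L2 Y →L[ℂ] L2 Y} (hT : Equi Γ T) (n : ℕ) : Equi Γ (T ^ n) := by
  induction n with
  | zero =>
    rw [pow_zero]
    exact equi_one
  | succ n ih =>
    rw [pow_succ]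
    exact ih.comp hT

theorem Equi.adjoint {T : L2 Y →L[ℂ] L2 Z} (hT : Equi Γ T) : Equi Γ (ContinuousLinearMap.adjoint T) := by
  intro g f
  refine ext_inner_left ℂ fun x => ?_
  rw [ContinuousLinearMap.adjoint_inner_right]
  have h1 := inner_act_left g⁻¹ x (ContinuousLinearMap.adjoint T f)
  rw [inv_inv] at h1
  rw [← h1, ContinuousLinearMap.adjoint_inner_right, hT, inner_act_left, inv_inv]

/-- composition with an equivariant injective map -/
theorem equi_pull {p : X → Y} (hp : Function.Injective p) (h : ∀ (g : Γ) (x : X), p (g • x) = g • p x) :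
    Equi Γ (pull p hp) := fun g f => by
  ext x
  rw [pull_apply, act_apply, act_apply, pull_apply, h]

/-- extension by zero along an equivariant injective map -/
theorem equi_push {p : X → Y} (hp : Function.Injective p) (h : ∀ (g : Γ) (x : X), p (g • x) = g • p x) :
    Equi Γ (push p hp) := fun g f => by
  ext y
  rw [act_apply]
  by_cases hy : y ∈ Set.range p
  · obtain ⟨x, rfl⟩ := hy
    rw [← h, push_apply, push_apply, act_apply]
  · rw [Singer.push_apply_of_notMem p hp _ hy, Singer.push_apply_of_notMem p hp _]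
    rintro ⟨x, hx⟩
    exact hy ⟨g • x, by rw [h, hx, smul_inv_smul]⟩

/-- multiplication by an invariant function -/
theorem equi_mul {m : Y → ℂ} (hm : ∀ y, ‖m y‖ ≤ 1) (h : ∀ (g : Γ) (y : Y), m (g • y) = m y) : Equi Γ (mul m hm) :=
  fun g f => by
    ext y
    rw [Singer.mul_apply, act_apply, act_apply, Singer.mul_apply, h]

/-! ### invariant subspaces -/

theorem inv_top : Inv Γ (⊤ : Submodule ℂ (L2 Y)) := fun _ _ _ => trivial

theorem inv_bot : Inv Γ (⊥ : Submodule ℂ (L2 Y)) := by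
  intro g f hf
  rw [Submodule.mem_bot] at hf ⊢
  rw [hf, map_zero]

theorem Inv.inf {V W : Submodule ℂ (L2 Y)} (hV : Inv Γ V) (hW : Inv Γ W) : Inv Γ (V ⊓ W) :=
  fun g f hf => ⟨hV g f hf.1, hW g f hf.2⟩

theorem Inv.iInf {α : Type*} {V : α → Submodule ℂ (L2 Y)} (hV : ∀ a, Inv Γ (V a)) : Inv Γ (⨅ a, V a) := by
  intro g f hf
  rw [Submodule.mem_iInf] at hf ⊢
  exact fun a => hV a g f (hf a)

theorem Inv.sup {V W : Submodule ℂ (L2 Y)} (hV : Inv Γ V) (hW : Inv Γ W) : Inv Γ (V ⊔ W) := by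
  intro g f hf
  obtain ⟨v, hv, w, hw, rfl⟩ := Submodule.mem_sup.1 hf
  rw [map_add]
  exact Submodule.add_mem_sup (hV g v hv) (hW g w hw)

theorem Inv.closure {V : Submodule ℂ (L2 Y)} (hV : Inv Γ V) : Inv Γ V.topologicalClosure := by
  intro g f hf
  have h1 : V.topologicalClosure ≤ V.topologicalClosure.comap ((act g : L2 Y →L[ℂ] L2 Y) : L2 Y →ₗ[ℂ] L2 Y) := by
    refine V.topologicalClosure_minimal (fun x hx => V.le_topologicalClosure (hV g x hx)) ?_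
    exact (Submodule.isClosed_topologicalClosure V).preimage (act g).continuous
  exact h1 hf

theorem Inv.orthogonal {V : Submodule ℂ (L2 Y)} (hV : Inv Γ V) : Inv Γ Vᗮ := by
  intro g f hf
  rw [Submodule.mem_orthogonal] at hf ⊢
  intro u hu
  have h1 := inner_act_left g⁻¹ u f
  rw [inv_inv] at h1
  rw [← h1]
  exact hf _ (hV _ _ hu)

theorem Inv.map {V : Submodule ℂ (L2 Y)} (hV : Inv Γ V) {T : L2 Y →L[ℂ] L2 Z} (hT : Equi Γ T) :
    Inv Γ (V.map (T : L2 Y →ₗ[ℂ] L2 Z)) := by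
  rintro g _ ⟨f, hf, rfl⟩
  exact ⟨act g f, hV g f hf, hT g f⟩

theorem Inv.comap {V : Submodule ℂ (L2 Z)} (hV : Inv Γ V) {T : L2 Y →L[ℂ] L2 Z} (hT : Equi Γ T) :
    Inv Γ (V.comap (T : L2 Y →ₗ[ℂ] L2 Z)) := by
  intro g f hf
  show T (act g f) ∈ V
  rw [hT]
  exact hV g _ hf

theorem inv_ker {T : L2 Y →L[ℂ] L2 Z} (hT : Equi Γ T) : Inv Γ (LinearMap.ker (T : L2 Y →ₗ[ℂ] L2 Z)) := by
  intro g f hf
  have h1 : T f = 0 := hf
  show T (act g f) = 0
  rw [hT, h1, map_zero]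

theorem mdl_top : Mdl Γ (⊤ : Submodule ℂ (L2 Y)) := ⟨inv_top, isClosed_univ⟩

theorem mdl_bot : Mdl Γ (⊥ : Submodule ℂ (L2 Y)) := ⟨inv_bot, isClosed_singleton⟩

theorem Mdl.inf {V W : Submodule ℂ (L2 Y)} (hV : Mdl Γ V) (hW : Mdl Γ W) : Mdl Γ (V ⊓ W) :=
  ⟨hV.inv.inf hW.inv, hV.cl.inter hW.cl⟩

theorem Mdl.iInf {α : Type*} {V : α → Submodule ℂ (L2 Y)} (hV : ∀ a, Mdl Γ (V a)) : Mdl Γ (⨅ a, V a) := by
  refine ⟨Inv.iInf fun a => (hV a).inv, ?_⟩
  rw [Submodule.coe_iInf]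
  exact isClosed_iInter fun a => (hV a).cl

theorem Mdl.closure {V : Submodule ℂ (L2 Y)} (hV : Inv Γ V) : Mdl Γ V.topologicalClosure :=
  ⟨hV.closure, Submodule.isClosed_topologicalClosure V⟩

theorem Mdl.orthogonal {V : Submodule ℂ (L2 Y)} (hV : Inv Γ V) : Mdl Γ Vᗮ :=
  ⟨hV.orthogonal, Submodule.isClosed_orthogonal V⟩

theorem Mdl.comap {V : Submodule ℂ (L2 Z)} (hV : Mdl Γ V) {T : L2 Y →L[ℂ] L2 Z} (hT : Equi Γ T) :
    Mdl Γ (V.comap (T : L2 Y →ₗ[ℂ] L2 Z)) := ⟨hV.inv.comap hT, hV.cl.preimage T.continuous⟩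

theorem mdl_ker {T : L2 Y →L[ℂ] L2 Z} (hT : Equi Γ T) : Mdl Γ (LinearMap.ker (T : L2 Y →ₗ[ℂ] L2 Z)) :=
  ⟨inv_ker hT, ContinuousLinearMap.isClosed_ker T⟩

/-! ### projections -/

/-- orthogonal projection onto the closure -/
noncomputable def pr (V : Submodule ℂ (L2 Y)) : L2 Y →L[ℂ] L2 Y := V.topologicalClosure.starProjection

theorem pr_mem_closure (V : Submodule ℂ (L2 Y)) (f : L2 Y) : pr V f ∈ V.topologicalClosure :=
  Submodule.starProjection_apply_mem _ _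

theorem pr_mem {V : Submodule ℂ (L2 Y)} (hV : IsClosed (V : Set (L2 Y))) (f : L2 Y) : pr V f ∈ V := by
  have h := pr_mem_closure V f
  rwa [IsClosed.submodule_topologicalClosure_eq hV] at h

theorem pr_eq_of_mem {V : Submodule ℂ (L2 Y)} {f : L2 Y} (h : f ∈ V.topologicalClosure) : pr V f = f :=
  Submodule.starProjection_eq_self_iff.2 h

theorem sub_pr_mem (V : Submodule ℂ (L2 Y)) (f : L2 Y) : f - pr V f ∈ Vᗮ := by
  rw [← Submodule.orthogonal_closure V]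
  exact Submodule.sub_starProjection_mem_orthogonal f

/-- characterisation of the projection -/
theorem pr_unique {V : Submodule ℂ (L2 Y)} {f v : L2 Y} (hv : v ∈ V.topologicalClosure) (h : f - v ∈ Vᗮ) :
    pr V f = v := by
  refine Submodule.eq_starProjection_of_mem_orthogonal (K := V.topologicalClosure) hv ?_
  rwa [Submodule.orthogonal_closure]

theorem pr_inner (V : Submodule ℂ (L2 Y)) (f g : L2 Y) : ⟪pr V f, g⟫_ℂ = ⟪f, pr V g⟫_ℂ :=
  Submodule.inner_starProjection_left_eq_right _ _ _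

theorem pr_closure (V : Submodule ℂ (L2 Y)) : pr V.topologicalClosure = pr V := by
  ext1 f
  refine pr_unique ?_ ?_
  · exact V.topologicalClosure.le_topologicalClosure (pr_mem_closure V f)
  · rw [Submodule.orthogonal_closure]
    exact sub_pr_mem V f

theorem equi_pr {V : Submodule ℂ (L2 Y)} (hV : Inv Γ V) : Equi Γ (pr V) := by
  intro g f
  refine pr_unique (hV.closure g _ (pr_mem_closure V f)) ?_
  rw [← map_sub]
  exact hV.orthogonal g _ (sub_pr_mem V f)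

/-- the projection commutes with an operator which preserves the subspace and whose adjoint preserves it -/
theorem pr_comm {V : Submodule ℂ (L2 Y)} {T S : L2 Y →L[ℂ] L2 Y} (hTS : ∀ f h : L2 Y, ⟪T f, h⟫_ℂ = ⟪f, S h⟫_ℂ)
    (hT : ∀ f ∈ V, T f ∈ V) (hS : ∀ f ∈ V, S f ∈ V) (f : L2 Y) : pr V (T f) = T (pr V f) := by
  refine pr_unique ?_ ?_
  · have h1 : V.topologicalClosure ≤ V.topologicalClosure.comap (T : L2 Y →ₗ[ℂ] L2 Y) := by
      refine V.topologicalClosure_minimal (fun x hx => V.le_topologicalClosure (hT x hx)) ?_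
      exact (Submodule.isClosed_topologicalClosure V).preimage T.continuous
    exact h1 (pr_mem_closure V f)
  · rw [← map_sub, Submodule.mem_orthogonal']
    intro u hu
    rw [hTS]
    exact (Submodule.mem_orthogonal' V _).1 (sub_pr_mem V f) _ (hS u hu)

theorem re_inner_pr (V : Submodule ℂ (L2 Y)) (f : L2 Y) : ‖pr V f‖ ^ 2 = (⟪pr V f, f⟫_ℂ).re := by
  have h : pr V (pr V f) = pr V f := pr_eq_of_mem (pr_mem_closure _ _)
  have h2 : ⟪pr V f, f⟫_ℂ = ⟪pr V f, pr V f⟫_ℂ := by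
    conv_lhs => rw [← h, pr_inner]
  rw [h2, inner_self_eq_norm_sq_to_K (𝕜 := ℂ)]
  norm_cast

/-- the diagonal entries of a projection are constant on orbits -/
theorem norm_pr_dl_smul {V : Submodule ℂ (L2 Y)} (hV : Inv Γ V) (g : Γ) (y : Y) : ‖pr V (dl (g • y))‖ = ‖pr V (dl y)‖ := by
  rw [← act_dl, equi_pr hV, norm_act]

end defs

/-! ### the dimension -/

section dim
variable {Γ : Type*} [Group Γ] {X Y Z : Type*} [MulAction Γ X] [MulAction Γ Y] [MulAction Γ Z]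
  [Cof Γ X] [Cof Γ Y] [Cof Γ Z]

variable (Γ) in
/-- the orbits -/
abbrev Orb (Y : Type*) [MulAction Γ Y] := MulAction.orbitRel.Quotient Γ Y

variable (Γ) in
noncomputable instance (Y : Type*) [MulAction Γ Y] [Cof Γ Y] : Fintype (Orb Γ Y) := Fintype.ofFinite _

variable (Γ) in
/-- von Neumann dimension (of the closure) -/
noncomputable def vd (V : Submodule ℂ (L2 Y)) : ℝ := ∑ q : Orb Γ Y, ‖pr V (dl q.out)‖ ^ 2

theorem vd_nonneg (V : Submodule ℂ (L2 Y)) : 0 ≤ vd Γ V := Finset.sum_nonneg fun _ _ => by positivity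

theorem vd_closure (V : Submodule ℂ (L2 Y)) : vd Γ V.topologicalClosure = vd Γ V := by
  unfold vd
  rw [pr_closure]

/-- the dimension, computed with any transversal -/
theorem vd_eq_sum {V : Submodule ℂ (L2 Y)} (hV : Inv Γ V) {τ : Type*} [Fintype τ] (t : τ → Y)
    (ht : ∀ y, ∃! a, ∃ g : Γ, g • t a = y) : vd Γ V = ∑ a, ‖pr V (dl (t a))‖ ^ 2 := by
  have hb : Function.Bijective fun a => (Quotient.mk'' (t a) : Orb Γ Y) := by
    constructor
    · intro a b hab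
      have h1 : MulAction.orbitRel Γ Y (t a) (t b) := Quotient.eq''.1 hab
      obtain ⟨g, hg⟩ := h1
      exact (ht (t a)).unique ⟨1, one_smul _ _⟩ ⟨g, hg⟩
    · intro q
      induction q using Quotient.inductionOn' with
      | h y =>
        obtain ⟨a, ⟨g, hg⟩, -⟩ := ht y
        refine ⟨a, Quotient.eq''.2 ?_⟩
        exact ⟨g⁻¹, by
          show g⁻¹ • y = t a
          rw [← hg, inv_smul_smul]⟩
  unfold vd
  rw [← (Equiv.ofBijective _ hb).sum_comp]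
  refine Finset.sum_congr rfl fun a _ => ?_
  have h1 : MulAction.orbitRel Γ Y (Quotient.out (Quotient.mk'' (t a) : Orb Γ Y)) (t a) := Quotient.mk_out (t a)
  obtain ⟨g, hg⟩ := h1
  have h2 : Quotient.out (Equiv.ofBijective _ hb a) = g • t a := hg.symm
  rw [h2, norm_pr_dl_smul hV]

/-! transport to `ℓ²(Γ × orbits)` -/

variable (Γ Y) in
/-- `Γ × orbits = Y` -/
noncomputable def eqv : Γ × Orb Γ Y ≃ Y :=
  Equiv.ofBijective (fun x => x.1 • x.2.out) (by
    constructor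
    · rintro ⟨g, q⟩ ⟨h, r⟩ hx
      have hx' : g • q.out = h • r.out := hx
      have h1 : q = r := by
        rw [← Quotient.out_eq' q, ← Quotient.out_eq' r]
        refine Quotient.eq''.2 ⟨g⁻¹ * h, ?_⟩
        show (g⁻¹ * h) • r.out = q.out
        rw [mul_smul, ← hx', inv_smul_smul]
      subst h1
      have h2 : (g⁻¹ * h) • q.out = q.out := by
        rw [mul_smul, ← hx', inv_smul_smul]
      have h3 := Cof.free _ _ h2
      rw [inv_mul_eq_one] at h3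
      rw [h3]
    · intro y
      have h1 : MulAction.orbitRel Γ Y (Quotient.out (Quotient.mk'' y : Orb Γ Y)) y := Quotient.mk_out y
      obtain ⟨g, hg⟩ := h1
      refine ⟨(g⁻¹, Quotient.mk'' y), ?_⟩
      show g⁻¹ • Quotient.out (Quotient.mk'' y : Orb Γ Y) = y
      have h2 : g • y = Quotient.out (Quotient.mk'' y : Orb Γ Y) := hg
      rw [← h2, inv_smul_smul])

variable (Γ Y) in
/-- transport of functions -/
noncomputable def U : L2 Y →L[ℂ] Singer.E Γ (Orb Γ Y) := pull (eqv Γ Y) (eqv Γ Y).injective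

variable (Γ Y) in
noncomputable def U' : Singer.E Γ (Orb Γ Y) →L[ℂ] L2 Y := pull (eqv Γ Y).symm (eqv Γ Y).symm.injective

theorem U_U' (f : Singer.E Γ (Orb Γ Y)) : U Γ Y (U' Γ Y f) = f := by
  ext x
  show f ((eqv Γ Y).symm (eqv Γ Y x)) = f x
  rw [Equiv.symm_apply_apply]

theorem U'_U (f : L2 Y) : U' Γ Y (U Γ Y f) = f := by
  ext x
  show f (eqv Γ Y ((eqv Γ Y).symm x)) = f x
  rw [Equiv.apply_symm_apply]

theorem U_act (g : Γ) (f : L2 Y) : U Γ Y (act g f) = Singer.lam g (U Γ Y f) := by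
  ext x
  show f (g⁻¹ • x.1 • x.2.out) = f ((g⁻¹ * x.1) • x.2.out)
  rw [mul_smul]

theorem U'_lam (g : Γ) (f : Singer.E Γ (Orb Γ Y)) : U' Γ Y (Singer.lam g f) = act g (U' Γ Y f) := by
  obtain ⟨h, rfl⟩ : ∃ h, U Γ Y h = f := ⟨_, U_U' f⟩
  rw [← U_act, U'_U, U'_U]

theorem inner_U (f h : L2 Y) : ⟪U Γ Y f, U Γ Y h⟫_ℂ = ⟪f, h⟫_ℂ := by
  rw [Singer.inner_eq, Singer.inner_eq]
  exact (eqv Γ Y).tsum_eq fun y => conj (f y) * h y

theorem U_dl (q : Orb Γ Y) : U Γ Y (dl q.out) = Singer.del 1 q := by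
  refine ext_inner_right ℂ fun x => ?_
  rw [Singer.inner_del_left]
  have h1 := inner_U (Γ := Γ) (dl q.out : L2 Y) (U' Γ Y x)
  rw [U_U', inner_dl_left] at h1
  have h2 : (eqv Γ Y).symm q.out = (1, q) := by
    rw [Equiv.symm_apply_eq]
    show q.out = (1 : Γ) • q.out
    rw [one_smul]
  rw [h1, ← h2]
  rfl

/-- the transported subspace -/
noncomputable def tp (V : Submodule ℂ (L2 Y)) : Submodule ℂ (Singer.E Γ (Orb Γ Y)) :=
  V.comap (U' Γ Y : Singer.E Γ (Orb Γ Y) →ₗ[ℂ] L2 Y)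

theorem mem_tp {V : Submodule ℂ (L2 Y)} {f : Singer.E Γ (Orb Γ Y)} : f ∈ tp V ↔ U' Γ Y f ∈ V := Iff.rfl

theorem U_mem_tp {V : Submodule ℂ (L2 Y)} {f : L2 Y} : U Γ Y f ∈ tp V ↔ f ∈ V := by
  rw [mem_tp, U'_U]

theorem tp_inf (V W : Submodule ℂ (L2 Y)) : tp (Γ := Γ) (V ⊓ W) = tp V ⊓ tp W := rfl

theorem tp_sup (V W : Submodule ℂ (L2 Y)) : tp (Γ := Γ) (V ⊔ W) = tp V ⊔ tp W := by
  refine le_antisymm ?_ (sup_le (Submodule.comap_mono le_sup_left) (Submodule.comap_mono le_sup_right))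
  intro f hf
  obtain ⟨v, hv, w, hw, h⟩ := Submodule.mem_sup.1 (mem_tp.1 hf)
  rw [← U_U' f, ← h, map_add]
  exact Submodule.add_mem_sup (U_mem_tp.2 hv) (U_mem_tp.2 hw)

theorem tp_mono {V W : Submodule ℂ (L2 Y)} (h : V ≤ W) : tp (Γ := Γ) V ≤ tp W := Submodule.comap_mono h

theorem le_of_tp_le {V W : Submodule ℂ (L2 Y)} (h : tp (Γ := Γ) V ≤ tp W) : V ≤ W := fun _ hf =>
  U_mem_tp.1 (h (U_mem_tp.2 hf))

theorem tp_inj {V W : Submodule ℂ (L2 Y)} (h : tp (Γ := Γ) V = tp W) : V = W :=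
  le_antisymm (le_of_tp_le h.le) (le_of_tp_le h.ge)

theorem tp_closure (V : Submodule ℂ (L2 Y)) : tp (Γ := Γ) V.topologicalClosure = (tp V).topologicalClosure := by
  refine le_antisymm ?_ ?_
  · intro f hf
    have h1 : V.topologicalClosure ≤ ((tp (Γ := Γ) V).topologicalClosure).comap
        (U Γ Y : L2 Y →ₗ[ℂ] Singer.E Γ (Orb Γ Y)) := by
      refine V.topologicalClosure_minimal (fun x hx => ?_) ?_
      · exact (tp V).le_topologicalClosure (U_mem_tp.2 hx)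
      · exact (Submodule.isClosed_topologicalClosure _).preimage (U Γ Y).continuous
    have h2 := h1 (mem_tp.1 hf)
    have h3 : U Γ Y (U' Γ Y f) ∈ (tp (Γ := Γ) V).topologicalClosure := h2
    rwa [U_U'] at h3
  · refine Submodule.topologicalClosure_minimal _ (tp_mono V.le_topologicalClosure) ?_
    exact (Submodule.isClosed_topologicalClosure V).preimage (U' Γ Y).continuous

theorem tp_cl {V : Submodule ℂ (L2 Y)} (hV : IsClosed (V : Set (L2 Y))) :
    IsClosed ((tp (Γ := Γ) V : Submodule ℂ (Singer.E Γ (Orb Γ Y))) : Set (Singer.E Γ (Orb Γ Y))) :=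
  hV.preimage (U' Γ Y).continuous

theorem tp_inv {V : Submodule ℂ (L2 Y)} (hV : Inv Γ V) : Singer.Inv (tp (Γ := Γ) V) := by
  intro g f hf
  rw [mem_tp, U'_lam]
  exact hV g _ hf

theorem tp_orthogonal (V : Submodule ℂ (L2 Y)) : tp (Γ := Γ) Vᗮ = (tp V)ᗮ := by
  ext f
  rw [mem_tp, Submodule.mem_orthogonal, Submodule.mem_orthogonal]
  constructor
  · intro h u hu
    rw [← U_U' f, ← U_U' u, inner_U]
    exact h _ hu
  · intro h u hu
    have h1 := h (U Γ Y u) (U_mem_tp.2 hu)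
    rw [← U_U' f, inner_U] at h1
    exact h1

theorem prj_U (V : Submodule ℂ (L2 Y)) (f : L2 Y) : Singer.prj (tp V) (U Γ Y f) = U Γ Y (pr V f) := by
  refine Singer.prj_unique ?_ ?_
  · rw [← tp_closure, U_mem_tp]
    exact pr_mem_closure V f
  · rw [← map_sub, ← tp_orthogonal, U_mem_tp]
    exact sub_pr_mem V f

theorem norm_U (f : L2 Y) : ‖U Γ Y f‖ = ‖f‖ := Singer.norm_pull_equiv (eqv Γ Y) f

/-- comparison of the dimensions -/
theorem vdim_tp (V : Submodule ℂ (L2 Y)) : Singer.vdim (tp (Γ := Γ) V) = vd Γ V := by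
  unfold Singer.vdim vd
  refine Finset.sum_congr rfl fun q _ => ?_
  rw [← U_dl, prj_U, norm_U]

/-- transport of operators -/
noncomputable def tpo (T : L2 Y →L[ℂ] L2 Z) : Singer.E Γ (Orb Γ Y) →L[ℂ] Singer.E Γ (Orb Γ Z) :=
  (U Γ Z).comp (T.comp (U' Γ Y))

theorem tpo_apply (T : L2 Y →L[ℂ] L2 Z) (f : Singer.E Γ (Orb Γ Y)) : tpo T f = U Γ Z (T (U' Γ Y f)) := rfl

theorem tpo_equi {T : L2 Y →L[ℂ] L2 Z} (hT : Equi Γ T) : Singer.Equi (tpo (Γ := Γ) T) := by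
  intro g f
  rw [tpo_apply, tpo_apply, U'_lam, hT, U_act]

theorem tp_map (T : L2 Y →L[ℂ] L2 Z) (V : Submodule ℂ (L2 Y)) :
    tp (Γ := Γ) (V.map (T : L2 Y →ₗ[ℂ] L2 Z)) =
      (tp V).map ((tpo (Γ := Γ) T : Singer.E Γ (Orb Γ Y) →L[ℂ] Singer.E Γ (Orb Γ Z)) :
        Singer.E Γ (Orb Γ Y) →ₗ[ℂ] Singer.E Γ (Orb Γ Z)) := by
  ext f
  rw [mem_tp]
  constructor
  · rintro ⟨v, hv, h⟩
    refine ⟨U Γ Y v, U_mem_tp.2 hv, ?_⟩
    show tpo T (U Γ Y v) = f
    rw [tpo_apply, U'_U]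
    have h1 : T v = U' Γ Z f := h
    rw [h1, U_U']
  · rintro ⟨v, hv, h⟩
    refine ⟨U' Γ Y v, hv, ?_⟩
    show T (U' Γ Y v) = U' Γ Z f
    have h1 : tpo T v = f := h
    rw [← h1, tpo_apply, U'_U]

theorem tp_ker (T : L2 Y →L[ℂ] L2 Z) : tp (Γ := Γ) (LinearMap.ker (T : L2 Y →ₗ[ℂ] L2 Z)) =
    LinearMap.ker ((tpo (Γ := Γ) T : Singer.E Γ (Orb Γ Y) →L[ℂ] Singer.E Γ (Orb Γ Z)) :
      Singer.E Γ (Orb Γ Y) →ₗ[ℂ] Singer.E Γ (Orb Γ Z)) := by
  ext f
  rw [mem_tp, LinearMap.mem_ker, LinearMap.mem_ker]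
  constructor
  · intro h
    have h1 : T (U' Γ Y f) = 0 := h
    show tpo T f = 0
    rw [tpo_apply, h1, map_zero]
  · intro h
    have h1 : tpo T f = 0 := h
    show T (U' Γ Y f) = 0
    rw [tpo_apply] at h1
    rw [← U'_U (Γ := Γ) (T (U' Γ Y f)), h1, map_zero]

theorem tp_comap (T : L2 Y →L[ℂ] L2 Z) (V : Submodule ℂ (L2 Z)) :
    tp (Γ := Γ) (V.comap (T : L2 Y →ₗ[ℂ] L2 Z)) =
      (tp V).comap ((tpo (Γ := Γ) T : Singer.E Γ (Orb Γ Y) →L[ℂ] Singer.E Γ (Orb Γ Z)) :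
        Singer.E Γ (Orb Γ Y) →ₗ[ℂ] Singer.E Γ (Orb Γ Z)) := by
  ext f
  rw [mem_tp, Submodule.mem_comap, Submodule.mem_comap]
  show T (U' Γ Y f) ∈ V ↔ U' Γ Z (U Γ Z (T (U' Γ Y f))) ∈ V
  rw [U'_U]

/-! ### properties of the dimension -/

theorem vd_bot : vd Γ (⊥ : Submodule ℂ (L2 Y)) = 0 := by
  rw [← vdim_tp]
  have h : tp (Γ := Γ) (⊥ : Submodule ℂ (L2 Y)) = ⊥ := by
    rw [eq_bot_iff]
    intro f hf
    rw [mem_tp, Submodule.mem_bot] at hf
    rw [Submodule.mem_bot, ← U_U' f, hf, map_zero]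
  rw [h, Singer.vdim_bot]

theorem vd_top : vd Γ (⊤ : Submodule ℂ (L2 Y)) = Fintype.card (Orb Γ Y) := by
  rw [← vdim_tp]
  exact Singer.vdim_top

theorem vd_mono {V W : Submodule ℂ (L2 Y)} (h : V ≤ W) : vd Γ V ≤ vd Γ W := by
  rw [← vdim_tp, ← vdim_tp]
  exact Singer.vdim_mono (tp_mono h)

theorem vd_le_card (V : Submodule ℂ (L2 Y)) : vd Γ V ≤ Fintype.card (Orb Γ Y) := by
  rw [← vd_top]
  exact vd_mono le_top

theorem eq_bot_of_vd {V : Submodule ℂ (L2 Y)} (hI : Inv Γ V) (h : vd Γ V ≤ 0) : V = ⊥ := by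
  rw [← vdim_tp] at h
  have h1 := Singer.eq_bot_of_vdim (tp_inv hI) h
  rw [eq_bot_iff]
  intro f hf
  have h2 : U Γ Y f ∈ tp (Γ := Γ) V := U_mem_tp.2 hf
  rw [h1, Submodule.mem_bot] at h2
  rw [Submodule.mem_bot, ← U'_U (Γ := Γ) f, h2, map_zero]

theorem eq_of_vd_le {V W : Submodule ℂ (L2 Y)} (hV : Inv Γ V) (hW : Inv Γ W) (hcV : IsClosed (V : Set (L2 Y)))
    (h : V ≤ W) (hd : vd Γ W ≤ vd Γ V) : V = W := by
  rw [← vdim_tp, ← vdim_tp] at hd
  exact tp_inj (Singer.eq_of_vdim_le (tp_inv hV) (tp_inv hW) (tp_cl hcV) (tp_mono h) hd)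

/-- dimension of sums -/
theorem vd_sup_add_inf {V W : Submodule ℂ (L2 Y)} (hV : Mdl Γ V) (hW : Mdl Γ W) :
    vd Γ (V ⊔ W) + vd Γ (V ⊓ W) = vd Γ V + vd Γ W := by
  rw [← vdim_tp, ← vdim_tp, ← vdim_tp, ← vdim_tp, tp_inf, tp_sup]
  exact Singer.vdim_sup_add_inf (tp_inv hV.inv) (tp_inv hW.inv) (tp_cl hV.cl) (tp_cl hW.cl)

theorem vd_sup_of_le_orthogonal {V W : Submodule ℂ (L2 Y)} (h : V ≤ Wᗮ) : vd Γ (V ⊔ W) = vd Γ V + vd Γ W := by
  rw [← vdim_tp, ← vdim_tp, ← vdim_tp, tp_sup]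
  refine Singer.vdim_sup_of_le_orthogonal ?_
  rw [← tp_orthogonal]
  exact tp_mono h

theorem vd_orthogonal (V : Submodule ℂ (L2 Y)) : vd Γ Vᗮ = Fintype.card (Orb Γ Y) - vd Γ V := by
  rw [← vdim_tp, ← vdim_tp, tp_orthogonal]
  exact Singer.vdim_orthogonal _

/-- rank-nullity on a closed invariant subspace -/
theorem vd_map_add {T : L2 Y →L[ℂ] L2 Z} (hT : Equi Γ T) {V : Submodule ℂ (L2 Y)} (hV : Mdl Γ V) :
    vd Γ (V.map (T : L2 Y →ₗ[ℂ] L2 Z)) + vd Γ (V ⊓ LinearMap.ker (T : L2 Y →ₗ[ℂ] L2 Z)) = vd Γ V := by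
  rw [← vdim_tp, ← vdim_tp, ← vdim_tp, tp_inf, tp_ker, tp_map]
  exact Singer.vdim_map_add (tpo_equi hT) (tp_inv hV.inv) (tp_cl hV.cl)

/-- the dimension of the image under an injective operator -/
theorem vd_map_of_injective {T : L2 Y →L[ℂ] L2 Z} (hT : Equi Γ T) {V : Submodule ℂ (L2 Y)} (hV : Mdl Γ V)
    (hi : ∀ f ∈ V, T f = 0 → f = 0) : vd Γ (V.map (T : L2 Y →ₗ[ℂ] L2 Z)) = vd Γ V := by
  have h1 : V ⊓ LinearMap.ker (T : L2 Y →ₗ[ℂ] L2 Z) = ⊥ := by
    rw [eq_bot_iff]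
    rintro f ⟨hf1, hf2⟩
    rw [Submodule.mem_bot]
    exact hi f hf1 hf2
  have h2 := vd_map_add hT hV
  rw [h1, vd_bot, add_zero] at h2
  exact h2

theorem vd_map_le {T : L2 Y →L[ℂ] L2 Z} (hT : Equi Γ T) {V : Submodule ℂ (L2 Y)} (hV : Mdl Γ V) :
    vd Γ (V.map (T : L2 Y →ₗ[ℂ] L2 Z)) ≤ vd Γ V := by
  have h := vd_map_add hT hV
  have h1 := vd_nonneg (Γ := Γ) (V ⊓ LinearMap.ker (T : L2 Y →ₗ[ℂ] L2 Z))
  linarith

/-- dimension of a preimage of a submodule of the closure of the image -/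
theorem vd_comap {T : L2 Y →L[ℂ] L2 Z} (hT : Equi Γ T) {X : Submodule ℂ (L2 Y)} (hX : Mdl Γ X)
    {V : Submodule ℂ (L2 Z)} (hV : Mdl Γ V) (hle : V ≤ (X.map (T : L2 Y →ₗ[ℂ] L2 Z)).topologicalClosure) :
    vd Γ (X ⊓ V.comap (T : L2 Y →ₗ[ℂ] L2 Z)) + vd Γ (X.map (T : L2 Y →ₗ[ℂ] L2 Z)) = vd Γ X + vd Γ V := by
  rw [← vdim_tp, ← vdim_tp, ← vdim_tp, ← vdim_tp, tp_inf, tp_comap, tp_map]
  refine Singer.vdim_comap (tpo_equi hT) (tp_inv hX.inv) (tp_cl hX.cl) (tp_inv hV.inv) (tp_cl hV.cl) ?_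
  rw [← tp_map, ← tp_closure]
  exact tp_mono hle

/-- the preimages of a submodule of the closure of the image have dense image -/
theorem dense_image {T : L2 Y →L[ℂ] L2 Z} (hT : Equi Γ T) {X : Submodule ℂ (L2 Y)} (hX : Mdl Γ X)
    {V : Submodule ℂ (L2 Z)} (hV : Mdl Γ V) (hle : V ≤ (X.map (T : L2 Y →ₗ[ℂ] L2 Z)).topologicalClosure) :
    ((X ⊓ V.comap (T : L2 Y →ₗ[ℂ] L2 Z)).map (T : L2 Y →ₗ[ℂ] L2 Z)).topologicalClosure = V := by
  refine tp_inj (Γ := Γ) ?_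
  rw [tp_closure, tp_map, tp_inf, tp_comap]
  refine Singer.dense_image (tpo_equi hT) (tp_inv hX.inv) (tp_cl hX.cl) (tp_inv hV.inv) (tp_cl hV.cl) ?_
  rw [← tp_map, ← tp_closure]
  exact tp_mono hle

/-- an operator with trace zero on the projection: if `ρ` is an involution which commutes with the projection to `V`
and `⟨pr V (ρ δ_y), δ_y⟩ = 0` for all `y`, then the antisymmetric part of `V` has half of the dimension -/
theorem vd_anti {V : Submodule ℂ (L2 Y)} (hV : Mdl Γ V) {ρ : L2 Y →L[ℂ] L2 Y}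
    (hinv : ∀ f, ρ (ρ f) = f) (hsa : ∀ f h : L2 Y, ⟪ρ f, h⟫_ℂ = ⟪f, ρ h⟫_ℂ) (hVρ : ∀ f ∈ V, ρ f ∈ V)
    (h0 : ∀ y : Y, pr V (ρ (dl y)) y = 0) :
    2 * vd Γ (V ⊓ LinearMap.ker ((1 + ρ : L2 Y →L[ℂ] L2 Y) : L2 Y →ₗ[ℂ] L2 Y)) = vd Γ V ∧
      2 * vd Γ (V ⊓ LinearMap.ker ((1 - ρ : L2 Y →L[ℂ] L2 Y) : L2 Y →ₗ[ℂ] L2 Y)) = vd Γ V := by
  have key : ∀ (ε : ℂ) (hε : ε = 1 ∨ ε = -1), ∀ W : Submodule ℂ (L2 Y),
      (∀ f, f ∈ W ↔ f ∈ V ∧ ρ f = ε • f) → 2 * vd Γ W = vd Γ V := by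
    intro ε hε W hW
    have hεε : ε * ε = 1 := by rcases hε with rfl | rfl <;> norm_num
    have hcc : conj (2⁻¹ : ℂ) = 2⁻¹ := by
      have h6 : (2⁻¹ : ℂ) = ((2⁻¹ : ℝ) : ℂ) := by norm_num
      rw [h6, Complex.conj_ofReal]
    have hεc : conj ε = ε := by rcases hε with rfl | rfl <;> simp
    have hVcl : V.topologicalClosure = V := IsClosed.submodule_topologicalClosure_eq hV.cl
    have h1 : ∀ f, pr W f = (2⁻¹ : ℂ) • (pr V f + ε • pr V (ρ f)) := by
      intro f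
      have h2 : pr V (ρ f) = ρ (pr V f) := pr_comm (S := ρ) hsa hVρ hVρ f
      refine pr_unique (W.le_topologicalClosure ((hW _).2 ⟨?_, ?_⟩)) ?_
      · exact Submodule.smul_mem _ _ (Submodule.add_mem _ (pr_mem hV.cl f) (Submodule.smul_mem _ _ (pr_mem hV.cl _)))
      · rw [map_smul, map_add, map_smul, h2, hinv]
        have h6 : ε • (2⁻¹ : ℂ) • (pr V f + ε • ρ (pr V f)) = (2⁻¹ : ℂ) • (ε • pr V f + (ε * ε) • ρ (pr V f)) := by
          rw [smul_comm, smul_add ε, smul_smul ε ε]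
        rw [h6, hεε, one_smul, add_comm]
      · rw [Submodule.mem_orthogonal']
        intro u hu
        obtain ⟨hu1, hu2⟩ := (hW u).1 hu
        have h3 : ⟪f, u⟫_ℂ = ⟪pr V f, u⟫_ℂ := by
          rw [pr_inner, pr_eq_of_mem (V.le_topologicalClosure hu1)]
        have h4 : ⟪pr V (ρ f), u⟫_ℂ = ε * ⟪f, u⟫_ℂ := by
          rw [pr_inner, pr_eq_of_mem (V.le_topologicalClosure hu1), hsa, hu2, inner_smul_right]
        rw [inner_sub_left, inner_smul_left, inner_add_left, inner_smul_left, h4, ← h3, hεc, ← mul_assoc, hεε, one_mul]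
        rw [hcc]
        ring
    unfold vd
    rw [Finset.mul_sum]
    refine Finset.sum_congr rfl fun q _ => ?_
    rw [re_inner_pr, re_inner_pr, h1, inner_smul_left, inner_add_left, inner_smul_left, inner_dl_right (f := pr V (ρ _)),
      h0, map_zero, mul_zero, add_zero]
    have h5 : (2⁻¹ : ℂ) = ((2⁻¹ : ℝ) : ℂ) := by norm_num
    rw [hcc, h5, Complex.re_ofReal_mul]
    ring
  constructor
  · refine key (-1) (Or.inr rfl) _ fun f => ?_
    rw [Submodule.mem_inf, LinearMap.mem_ker]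
    refine and_congr_right fun _ => ?_
    show f + ρ f = 0 ↔ ρ f = (-1 : ℂ) • f
    rw [neg_one_smul, add_comm, add_eq_zero_iff_eq_neg]
  · refine key 1 (Or.inl rfl) _ fun f => ?_
    rw [Submodule.mem_inf, LinearMap.mem_ker]
    refine and_congr_right fun _ => ?_
    show f - ρ f = 0 ↔ ρ f = (1 : ℂ) • f
    rw [one_smul, sub_eq_zero, eq_comm]

end dim

end Npc
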