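import Pool.Agent.SQ.Fin
import Pool.Agent.SQ.LemAll
import Pool.Agent.SQ.Tower
import Pool.Agent.Singer.TVan
import Pool.Agent.Singer.DualAsm
import Pool.Agent.Singer.Stmt3Conv

/-!
# NPC cube complexes: the links are flag homology spheres

`bet_of_goodQ` : the `ℓ²`-Betti numbers of the right-angled Coxeter group of a flag homology sphere of dimension `n - 1`
vanish in the degrees `i` with `2 * i ≠ n`.
-/

set_option autoImplicit false
set_option linter.unusedSectionVars false
set_option linter.unusedVariables false

namespace Npc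

open Singer

/-- the `ℓ²`-Betti numbers of the right-angled Coxeter groups of the flag homology spheres -/
theorem bet_of_goodQ {n : ℕ} {V : Type} [Fintype V] [DecidableEq V] {G : SimpleGraph V}
    (h : GoodQ (fun n {V} [Fintype V] (G : SimpleGraph V) => QS.{0} n G) n G) {i : ℕ} (hi : 2 * i ≠ n) :
    bet G i = 0 := by
  have hr : Function.Injective (rk : V → ℕ) := rk_inj
  have hPD : IsPD n (ker2 G) := isPD_of_goodQ h (finiteIndex_ker2 G) (noInv_ker2 G)
  obtain ⟨R, hR⟩ := exists_finRes_of_noInv (finiteIndex_ker2 G) (noInv_ker2 G)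
  have h1 : R.VanE i := SQ.vanE_of_rows SQ.lem SQ.tower G (Subgroup.inclusion (SQ.FinSt.ker2_le_commutator G))
    (Subgroup.inclusion_injective _) hPD R i hi
  have hfi : (ker2 G).subtype.range.FiniteIndex := by
    rw [Subgroup.range_subtype]
    exact finiteIndex_ker2 G
  have h2 : (davisResC G hr).Z i ≤ (davisResC G hr).B i :=
    ((davisResC G hr).van_iff_index (ker2 G).subtype (ker2 G).subtype_injective hfi R i).1
      ((FinRes.van_iff_vanE R i).2 h1)
  rw [bet_eq_bn G hr]
  exact bn_eq_zero_of_le hr ((davisResC_le_iff hr i).1 h2)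

/-- the same for the definition of the statements -/
theorem bet_of_hsphere {n : ℕ} {V : Type} [Fintype V] [DecidableEq V] {G : SimpleGraph V}
    (h : SingerCube.HSphere n G) {i : ℕ} (hi : 2 * i ≠ n) : bet G i = 0 :=
  bet_of_goodQ (SingerCube.goodQ_of_hsphere h) hi

end Npc
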