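import Pool.Agent.Npc.Lab

/-!
# NPC cube complexes: chains

* `St` : the states glued, cut, mirrored of a label; `Rl i ψ σ f = 0` : the relation of the letter `i`, label `ψ`, state `σ`;
* `Ch s j` : the chains of degree `j` in the state `s`; `Cyc s j` : the cycles of degree `j + 1`;
* `Xm s j` : the marked chains of degree `j` (the letter `0` is the marker), `D1` : their boundary operator;
* `Chh s h j` : the chains which do not cross the hyperplane `h`;
* `Km s j` : marked cycles which are limits of boundaries of chains not crossing the marker.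
-/

set_option autoImplicit false
set_option linter.unusedSectionVars false
set_option linter.unusedVariables false

open scoped ComplexConjugate InnerProductSpace
open Filter Topology

namespace Npc

open Singer

/-- the states of a label -/
inductive St
  /-- glued -/
  | g
  /-- cut -/
  | c
  /-- mirrored -/
  | m

section chain
variable {H P G : Type*} [Group G] [MulAction G H] [MulAction G P]
variable (S : Sys H P G) (F : Type*) [AddCommGroup F] [Fintype F] {j : ℕ}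

/-- the relation of the letter `i` with the label `ψ` in the state `σ` -/
noncomputable def Rl (i : Fin j) (ψ : AddChar F ℂ) : St → (L2 (Cell S F j) →L[ℂ] L2 (Cell S F j))
  | St.g => (1 + Gl S F i).comp (Ep S F i ψ)
  | St.c => Ep S F i ψ
  | St.m => (1 + Mi S F i).comp (Ep S F i ψ)

/-- the sign -/
noncomputable def sgn (π : Equiv.Perm (Fin j)) : ℂ := ((Equiv.Perm.sign π : ℤ) : ℂ)

lemma sgn_one : sgn (1 : Equiv.Perm (Fin j)) = 1 := by simp [sgn]

lemma sgn_mul (π ρ : Equiv.Perm (Fin j)) : sgn (π * ρ) = sgn π * sgn ρ := by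
  simp [sgn]

lemma sgn_sq (π : Equiv.Perm (Fin j)) : sgn π * sgn π = 1 := by
  rw [← sgn_mul]
  unfold sgn
  rw [Equiv.Perm.sign_mul, Int.units_mul_self]
  simp

lemma sgn_ex (π : Equiv.Perm (Fin j)) : sgn (Cell.ex π) = sgn π := by
  unfold sgn
  rw [Cell.sign_ex]

lemma sgn_swap {i i' : Fin j} (h : i ≠ i') : sgn (Equiv.swap i i') = -1 := by
  unfold sgn
  rw [Equiv.Perm.sign_swap h]
  simp

variable (j) in
/-- the chains of degree `j` -/
def Ch (s : AddChar F ℂ → St) : Submodule ℂ (L2 (Cell S F j)) where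
  carrier := {f | (∀ π, Pm S F π f = sgn π • f) ∧ ∀ i ψ, Rl S F i ψ (s ψ) f = 0}
  zero_mem' := ⟨fun π => by rw [map_zero, smul_zero], fun i ψ => map_zero _⟩
  add_mem' := by
    rintro f g ⟨h1, h2⟩ ⟨h3, h4⟩
    exact ⟨fun π => by rw [map_add, smul_add, h1, h3], fun i ψ => by rw [map_add, h2, h4, add_zero]⟩
  smul_mem' := by
    rintro c f ⟨h1, h2⟩
    exact ⟨fun π => by rw [map_smul, h1, smul_comm], fun i ψ => by rw [map_smul, h2, smul_zero]⟩

variable (j) in
/-- the marked chains of degree `j` -/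
def Xm (s : AddChar F ℂ → St) : Submodule ℂ (L2 (Cell S F (j + 1))) where
  carrier := {f | (∀ π : Equiv.Perm (Fin j), Pm S F (Cell.ex π) f = sgn π • f) ∧
    ∀ (i : Fin j) ψ, Rl S F i.succ ψ (s ψ) f = 0}
  zero_mem' := ⟨fun π => by rw [map_zero, smul_zero], fun i ψ => map_zero _⟩
  add_mem' := by
    rintro f g ⟨h1, h2⟩ ⟨h3, h4⟩
    exact ⟨fun π => by rw [map_add, smul_add, h1, h3], fun i ψ => by rw [map_add, h2, h4, add_zero]⟩
  smul_mem' := by
    rintro c f ⟨h1, h2⟩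
    exact ⟨fun π => by rw [map_smul, h1, smul_comm], fun i ψ => by rw [map_smul, h2, smul_zero]⟩

/-- the cells which do not cross `h` -/
def offS (h : H) : Set (Cell S F j) := {y | ∀ i, y.τ i ≠ h}

/-- the cells with marker `h` -/
def onS (h : H) : Set (Cell S F (j + 1)) := {y | y.τ 0 = h}

variable (j) in
/-- the chains of degree `j` which do not cross `h` -/
noncomputable def Chh (s : AddChar F ℂ → St) (h : H) : Submodule ℂ (L2 (Cell S F j)) :=
  Ch S F j s ⊓ LinearMap.ker ((1 - ind (offS S F h) : L2 (Cell S F j) →L[ℂ] L2 (Cell S F j)) :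
    L2 (Cell S F j) →ₗ[ℂ] L2 (Cell S F j))

variable (j) in
/-- the closure of the boundaries of the chains which do not cross `h` -/
noncomputable def Bdh (s : AddChar F ℂ → St) (h : H) : Submodule ℂ (L2 (Cell S F j)) :=
  ((Chh S F (j + 1) s h).map ((DD S F : L2 (Cell S F (j + 1)) →L[ℂ] L2 (Cell S F j)) :
    L2 (Cell S F (j + 1)) →ₗ[ℂ] L2 (Cell S F j))).topologicalClosure

/-- the boundary operator of the marked chains -/
noncomputable def D1 : ∀ j : ℕ, L2 (Cell S F (j + 1)) →L[ℂ] L2 (Cell S F j)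
  | 0 => 0
  | _ + 1 => (DD S F).comp (Pm S F (Equiv.swap 0 1))

variable (j) in
/-- the cycles of degree `j + 1` -/
noncomputable def Cyc (s : AddChar F ℂ → St) : Submodule ℂ (L2 (Cell S F (j + 1))) :=
  Ch S F (j + 1) s ⊓ LinearMap.ker ((DD S F : L2 (Cell S F (j + 1)) →L[ℂ] L2 (Cell S F j)) :
    L2 (Cell S F (j + 1)) →ₗ[ℂ] L2 (Cell S F j))

variable (j) in
/-- the marked cycles of degree `j` which are limits of boundaries of chains which do not cross the marker -/
noncomputable def Km (s : AddChar F ℂ → St) : Submodule ℂ (L2 (Cell S F (j + 1))) :=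
  (Xm S F j s ⊓ LinearMap.ker (D1 S F j : L2 (Cell S F (j + 1)) →ₗ[ℂ] L2 (Cell S F j))) ⊓
    ⨅ h : H, (Bdh S F j s h).comap (((DD S F).comp (ind (onS S F h)) : L2 (Cell S F (j + 1)) →L[ℂ] L2 (Cell S F j)) :
      L2 (Cell S F (j + 1)) →ₗ[ℂ] L2 (Cell S F j))

variable (j) in
/-- the antisymmetric part for the glue move of the marker -/
noncomputable def asG : Submodule ℂ (L2 (Cell S F (j + 1))) :=
  LinearMap.ker ((1 + Gl S F 0 : L2 (Cell S F (j + 1)) →L[ℂ] L2 (Cell S F (j + 1))) :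
    L2 (Cell S F (j + 1)) →ₗ[ℂ] L2 (Cell S F (j + 1)))

variable (j) in
/-- the antisymmetric part for the mirror move of the marker -/
noncomputable def asM : Submodule ℂ (L2 (Cell S F (j + 1))) :=
  LinearMap.ker ((1 + Mi S F 0 : L2 (Cell S F (j + 1)) →L[ℂ] L2 (Cell S F (j + 1))) :
    L2 (Cell S F (j + 1)) →ₗ[ℂ] L2 (Cell S F (j + 1)))

variable (j) in
/-- the marker has the label `ψ` -/
noncomputable def ran (ψ : AddChar F ℂ) : Submodule ℂ (L2 (Cell S F (j + 1))) :=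
  LinearMap.ker ((1 - Ep S F 0 ψ : L2 (Cell S F (j + 1)) →L[ℂ] L2 (Cell S F (j + 1))) :
    L2 (Cell S F (j + 1)) →ₗ[ℂ] L2 (Cell S F (j + 1)))

variable {S F} {s : AddChar F ℂ → St}

lemma mem_Ch {f : L2 (Cell S F j)} : f ∈ Ch S F j s ↔
    (∀ π, Pm S F π f = sgn π • f) ∧ ∀ i ψ, Rl S F i ψ (s ψ) f = 0 := Iff.rfl

lemma mem_Xm {f : L2 (Cell S F (j + 1))} : f ∈ Xm S F j s ↔
    (∀ π : Equiv.Perm (Fin j), Pm S F (Cell.ex π) f = sgn π • f) ∧ ∀ (i : Fin j) ψ, Rl S F i.succ ψ (s ψ) f = 0 :=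
  Iff.rfl

lemma mem_Chh {h : H} {f : L2 (Cell S F j)} : f ∈ Chh S F j s h ↔ f ∈ Ch S F j s ∧ ind (offS S F h) f = f := by
  refine and_congr Iff.rfl ?_
  show f - ind (offS S F h) f = 0 ↔ _
  rw [sub_eq_zero, eq_comm]

lemma mem_Cyc {f : L2 (Cell S F (j + 1))} : f ∈ Cyc S F j s ↔ f ∈ Ch S F (j + 1) s ∧ DD S F f = 0 := Iff.rfl

lemma mem_Km {f : L2 (Cell S F (j + 1))} : f ∈ Km S F j s ↔
    (f ∈ Xm S F j s ∧ D1 S F j f = 0) ∧ ∀ h, DD S F (ind (onS S F h) f) ∈ Bdh S F j s h := by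
  unfold Km
  rw [Submodule.mem_inf, Submodule.mem_iInf]
  exact Iff.rfl

lemma mem_asG {f : L2 (Cell S F (j + 1))} : f ∈ asG S F j ↔ Gl S F 0 f = -f := by
  show f + Gl S F 0 f = 0 ↔ _
  rw [add_comm f, add_eq_zero_iff_eq_neg]

lemma mem_asM {f : L2 (Cell S F (j + 1))} : f ∈ asM S F j ↔ Mi S F 0 f = -f := by
  show f + Mi S F 0 f = 0 ↔ _
  rw [add_comm f, add_eq_zero_iff_eq_neg]

lemma mem_ran {ψ : AddChar F ℂ} {f : L2 (Cell S F (j + 1))} : f ∈ ran S F j ψ ↔ Ep S F 0 ψ f = f := by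
  show f - Ep S F 0 ψ f = 0 ↔ _
  rw [sub_eq_zero, eq_comm]

/-- intertwiners and relations -/
lemma Itw.rl {j j' : ℕ} {B : L2 (Cell S F j) →L[ℂ] L2 (Cell S F j')} {i : Fin j} {i' : Fin j'} (hB : Itw B i i')
    (ψ : AddChar F ℂ) (σ : St) (f : L2 (Cell S F j)) : B (Rl S F i ψ σ f) = Rl S F i' ψ σ (B f) := by
  cases σ with
  | g =>
    show B (Ep S F i ψ f + Gl S F i (Ep S F i ψ f)) = Ep S F i' ψ (B f) + Gl S F i' (Ep S F i' ψ (B f))
    rw [map_add, hB.gl, hB.ep]
  | c => exact hB.ep ψ f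
  | m =>
    show B (Ep S F i ψ f + Mi S F i (Ep S F i ψ f)) = Ep S F i' ψ (B f) + Mi S F i' (Ep S F i' ψ (B f))
    rw [map_add, hB.mi, hB.ep]

/-- a relation holds if the letter does not have the label -/
lemma rl_of_ep {i : Fin j} {ψ : AddChar F ℂ} {f : L2 (Cell S F j)} (h : Ep S F i ψ f = 0) (σ : St) :
    Rl S F i ψ σ f = 0 := by
  cases σ with
  | g =>
    show Ep S F i ψ f + Gl S F i (Ep S F i ψ f) = 0
    rw [h, map_zero, add_zero]
  | c => exact h
  | m =>
    show Ep S F i ψ f + Mi S F i (Ep S F i ψ f) = 0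
    rw [h, map_zero, add_zero]

lemma rl_g {i : Fin j} {ψ : AddChar F ℂ} {f : L2 (Cell S F j)} :
    Rl S F i ψ St.g f = Ep S F i ψ f + Gl S F i (Ep S F i ψ f) := rfl

lemma rl_m {i : Fin j} {ψ : AddChar F ℂ} {f : L2 (Cell S F j)} :
    Rl S F i ψ St.m f = Ep S F i ψ f + Mi S F i (Ep S F i ψ f) := rfl

lemma rl_c {i : Fin j} {ψ : AddChar F ℂ} {f : L2 (Cell S F j)} : Rl S F i ψ St.c f = Ep S F i ψ f := rfl

/-- all relations follow from one letter -/
lemma ep_all {f : L2 (Cell S F (j + 1))} (hf : ∀ π, Pm S F π f = sgn π • f) {ψ : AddChar F ℂ} (h : Ep S F 0 ψ f = 0)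
    (i : Fin (j + 1)) : Ep S F i ψ f = 0 := by
  have h1 := (itw_Pm (S := S) (F := F) (Equiv.swap 0 i) 0).ep ψ f
  rw [h, map_zero, Equiv.swap_apply_left, hf, map_smul] at h1
  have h2 := congrArg (fun u => sgn (Equiv.swap 0 i) • u) h1
  simp only [smul_zero, smul_smul, sgn_sq, one_smul] at h2
  exact h2.symm

/-- the boundary of a chain is a chain -/
theorem DD_mem_Ch {f : L2 (Cell S F (j + 1))} (hf : f ∈ Ch S F (j + 1) s) : DD S F f ∈ Ch S F j s := by
  refine ⟨fun π => ?_, fun i ψ => ?_⟩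
  · rw [← DD_Pm, hf.1, map_smul, sgn_ex]
  · rw [← (itw_DD i).rl, hf.2, map_zero]

theorem DD_DD {f : L2 (Cell S F (j + 2))} (hf : ∀ π, Pm S F π f = sgn π • f) : DD S F (DD S F f) = 0 := by
  have h1 := DD_DD_swap (S := S) (F := F) f
  rw [hf, map_smul, map_smul, sgn_swap (by simp), neg_one_smul] at h1
  have h2 : (2 : ℂ) • DD S F (DD S F f) = 0 := by
    rw [two_smul]
    nth_rewrite 1 [← h1]
    rw [neg_add_cancel]
  exact (smul_eq_zero.1 h2).resolve_left two_ne_zero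

end chain

end Npc
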