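import Pool.Agent.Npc.Ops
import Pool.Agent.Npc.Dim

/-!
# NPC cube complexes: the cube complex itself

* `Ht S x0 ht` : `ht` is a height function (the distance from `x0` in a median graph);
* `PCell S j` : ordered cells `(k, τ)` of the cube complex, with the action of `G`;
* `PGl i`, `PPm π`, `PDD` : operators on `L2 (PCell S j)`;
* `PCh j`, `PCyc j`, `PBd j` : chains, cycles (of degree `j + 1`), closure of the boundaries;
* `pbet i` : the `ℓ²`-Betti numbers.
-/

set_option autoImplicit false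
set_option linter.unusedSectionVars false
set_option linter.unusedVariables false

open scoped ComplexConjugate InnerProductSpace
open Filter Topology

namespace Npc

open Singer

section geo
variable {H P G : Type*} [Group G] [MulAction G H] [MulAction G P]

/-- a height function -/
structure Ht (S : Sys H P G) (x0 : P) (ht : P → ℕ) : Prop where
  zero : ht x0 = 0
  step : ∀ t k, t ∈ S.dir k → ht (S.fl t k) = ht k + 1 ∨ ht k = ht (S.fl t k) + 1
  desc : ∀ k, k ≠ x0 → ∃ t ∈ S.dir k, ht (S.fl t k) < ht k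
  adj : ∀ t u k, t ∈ S.dir k → u ∈ S.dir k → t ≠ u → ht (S.fl t k) < ht k → ht (S.fl u k) < ht k → S.C.Adj t u
  inv : ∀ t u k, S.C.Adj t u → t ∈ S.dir k → u ∈ S.dir k →
    (ht (S.fl u (S.fl t k)) < ht (S.fl t k) ↔ ht (S.fl u k) < ht k)

/-- ordered cells of the cube complex -/
@[ext] structure PCell (S : Sys H P G) (j : ℕ) where
  k : P
  τ : Fin j → H
  dir : ∀ i, τ i ∈ S.dir k
  adj : ∀ i i', i ≠ i' → S.C.Adj (τ i) (τ i')

namespace PCell
variable {S : Sys H P G} {j : ℕ}

instance : MulAction G (PCell S j) where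
  smul g y := ⟨g • y.k, fun i => g • y.τ i, fun i => (S.dir_smul _ _ _).2 (y.dir i),
    fun i i' h => (S.adj _ _ _).2 (y.adj i i' h)⟩
  one_smul y := PCell.ext (one_smul _ _) (funext fun i => one_smul _ _)
  mul_smul g g' y := PCell.ext (mul_smul _ _ _) (funext fun i => mul_smul _ _ _)

lemma smul_k (g : G) (y : PCell S j) : (g • y).k = g • y.k := rfl
lemma smul_τ (g : G) (y : PCell S j) (i : Fin j) : (g • y).τ i = g • y.τ i := rfl

/-- the glue move -/
def gl (i : Fin j) (y : PCell S j) : PCell S j :=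
  ⟨S.fl (y.τ i) y.k, y.τ, fun i' => by
    by_cases h : i' = i
    · subst h
      exact S.dir_self _ _ (y.dir _)
    · exact S.dir_adj _ _ _ (y.adj i i' (Ne.symm h)) (y.dir i) (y.dir i'), y.adj⟩

/-- permutation of the letters -/
def pm (π : Equiv.Perm (Fin j)) (y : PCell S j) : PCell S j :=
  ⟨y.k, fun i => y.τ (π i), fun i => y.dir _, fun i i' h => y.adj _ _ fun h' => h (π.injective h')⟩

/-- the face: the first letter is removed -/
def tail (y : PCell S (j + 1)) : PCell S j :=
  ⟨y.k, fun i => y.τ i.succ, fun i => y.dir _, fun i i' h => y.adj _ _ fun h' => h (Fin.succ_injective _ h')⟩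

section simp
variable (i : Fin j) (y : PCell S j) (π : Equiv.Perm (Fin j))
@[simp] lemma gl_k : (gl i y).k = S.fl (y.τ i) y.k := rfl
@[simp] lemma gl_τ : (gl i y).τ = y.τ := rfl
@[simp] lemma pm_k : (pm π y).k = y.k := rfl
@[simp] lemma pm_τ : (pm π y).τ i = y.τ (π i) := rfl
@[simp] lemma tail_k (y : PCell S (j + 1)) : (tail y).k = y.k := rfl
@[simp] lemma tail_τ (y : PCell S (j + 1)) : (tail y).τ i = y.τ i.succ := rfl
end simp

lemma gl_gl (i : Fin j) (y : PCell S j) : gl i (gl i y) = y := PCell.ext (S.fl_fl _ _ (y.dir i)) rfl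

lemma gl_comm {i i' : Fin j} (h : i ≠ i') (y : PCell S j) : gl i (gl i' y) = gl i' (gl i y) :=
  PCell.ext (S.fl_comm _ _ _ (y.adj i i' h) (y.dir i) (y.dir i')) rfl

lemma pm_pm (π ρ : Equiv.Perm (Fin j)) (y : PCell S j) : pm ρ (pm π y) = pm (π * ρ) y := rfl

@[simp] lemma pm_one (y : PCell S j) : pm 1 y = y := rfl

lemma smul_gl (g : G) (i : Fin j) (y : PCell S j) : gl i (g • y) = g • gl i y :=
  PCell.ext (S.fl_smul _ _ _ (y.dir i)) rfl

lemma smul_pm (g : G) (π : Equiv.Perm (Fin j)) (y : PCell S j) : pm π (g • y) = g • pm π y := rfl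

lemma smul_tail (g : G) (y : PCell S (j + 1)) : tail (g • y) = g • tail y := rfl

/-- the fibres of `tail` -/
lemma fibre : Fibre (tail : PCell S (j + 1) → PCell S j) S.bd := by
  classical
  have key : ∀ y : PCell S j, Set.InjOn (fun z : PCell S (j + 1) => z.τ 0) {z | tail z = y} := by
    rintro y z rfl z' hz' h
    have hz2 : tail z' = tail z := hz'
    have e2 : z'.k = z.k := congrArg (fun y : PCell S j => y.k) hz2
    have e3 : ∀ i : Fin j, z'.τ i.succ = z.τ i.succ := fun i => congrFun (congrArg (fun y : PCell S j => y.τ) hz2) i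
    refine PCell.ext e2.symm (funext fun i => ?_)
    refine Fin.cases h (fun i => (e3 i).symm) i
  have h2 : ∀ y : PCell S j, Set.MapsTo (fun z : PCell S (j + 1) => z.τ 0) {z | tail z = y} (S.dir y.k : Set H) := by
    rintro y z rfl
    exact z.dir 0
  refine ⟨fun y => Set.Finite.of_injOn (h2 y) (key y) (Finset.finite_toSet _), fun y => ?_⟩
  calc {z : PCell S (j + 1) | tail z = y}.ncard ≤ (S.dir y.k : Set H).ncard :=
        Set.ncard_le_ncard_of_injOn _ (h2 y) (key y) (Finset.finite_toSet _)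
    _ = (S.dir y.k).card := Set.ncard_coe_finset _
    _ ≤ S.bd := S.card_dir _

end PCell

variable (S : Sys H P G) {j : ℕ}

/-- the glue move -/
noncomputable def PGl (i : Fin j) : L2 (PCell S j) →L[ℂ] L2 (PCell S j) :=
  pull (PCell.gl i) (Function.LeftInverse.injective (g := PCell.gl i) (PCell.gl_gl i))

/-- permutation of the letters -/
noncomputable def PPm (π : Equiv.Perm (Fin j)) : L2 (PCell S j) →L[ℂ] L2 (PCell S j) :=
  pull (PCell.pm π) (Function.LeftInverse.injective (g := PCell.pm π⁻¹)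
    fun y => by rw [PCell.pm_pm, mul_inv_cancel, PCell.pm_one])

/-- the boundary operator -/
noncomputable def PDD : L2 (PCell S (j + 1)) →L[ℂ] L2 (PCell S j) := psf (PCell.fibre (S := S))

variable (j) in
/-- the chains of degree `j` -/
def PCh : Submodule ℂ (L2 (PCell S j)) where
  carrier := {f | (∀ π : Equiv.Perm (Fin j), PPm S π f = ((Equiv.Perm.sign π : ℤ) : ℂ) • f) ∧ ∀ i, PGl S i f = -f}
  zero_mem' := ⟨fun π => by rw [map_zero, smul_zero], fun i => by rw [map_zero, neg_zero]⟩
  add_mem' := by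
    rintro f g ⟨h1, h2⟩ ⟨h3, h4⟩
    exact ⟨fun π => by rw [map_add, smul_add, h1, h3], fun i => by rw [map_add, h2, h4, neg_add]⟩
  smul_mem' := by
    rintro c f ⟨h1, h2⟩
    exact ⟨fun π => by rw [map_smul, h1, smul_comm], fun i => by rw [map_smul, h2, smul_neg]⟩

variable (j) in
/-- the cycles of degree `j + 1` -/
noncomputable def PCyc : Submodule ℂ (L2 (PCell S (j + 1))) :=
  PCh S (j + 1) ⊓ LinearMap.ker ((PDD S : L2 (PCell S (j + 1)) →L[ℂ] L2 (PCell S j)) :
    L2 (PCell S (j + 1)) →ₗ[ℂ] L2 (PCell S j))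

variable (j) in
/-- the closure of the boundaries, in degree `j` -/
noncomputable def PBd : Submodule ℂ (L2 (PCell S j)) :=
  ((PCh S (j + 1)).map ((PDD S : L2 (PCell S (j + 1)) →L[ℂ] L2 (PCell S j)) :
    L2 (PCell S (j + 1)) →ₗ[ℂ] L2 (PCell S j))).topologicalClosure

/-- the `ℓ²`-Betti numbers of the cube complex -/
noncomputable def pbet [∀ j, Cof G (PCell S j)] : ℕ → ℝ
  | 0 => vd G (PCh S 0) - vd G (PBd S 0)
  | i + 1 => vd G (PCyc S i) - vd G (PBd S (i + 1))

end geo

end Npc
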