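import Pool.Agent.Npc.Chain
import Pool.Agent.Npc.Geo

/-!
# NPC cube complexes: finiteness and equivariance
-/

set_option autoImplicit false
set_option linter.unusedSectionVars false
set_option linter.unusedVariables false

open scoped ComplexConjugate InnerProductSpace
open Filter Topology

namespace Npc

open Singer

section cofs
variable {H P G : Type*} [Group G] [MulAction G H] [MulAction G P]

instance cof_PCell (S : Sys H P G) (j : ℕ) [Cof G P] : Cof G (PCell S j) where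
  free g y h := S.free g y.k (congrArg PCell.k h)
  fin := by
    have h1 : Finite {y : PCell S j // ∃ q : Orb G P, y.k = q.out} := by
      refine Finite.of_injective (β := Σ q : Orb G P, (Fin j → {t // t ∈ S.dir q.out}))
        (fun y => ⟨y.2.choose, fun i => ⟨y.1.τ i, by rw [← y.2.choose_spec]; exact y.1.dir i⟩⟩) ?_
      rintro ⟨y, hy⟩ ⟨z, hz⟩ h
      simp only [Sigma.mk.injEq] at h
      obtain ⟨h1, h2⟩ := h
      refine Subtype.ext (PCell.ext ?_ ?_)
      · rw [hy.choose_spec, hz.choose_spec, h1]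
      · funext i
        have key : ∀ (q q' : Orb G P) (e : q = q') (f : Fin j → {t // t ∈ S.dir q.out})
            (f' : Fin j → {t // t ∈ S.dir q'.out}), HEq f f' → (f i : H) = f' i := by
          rintro q q' rfl f f' h
          rw [eq_of_heq h]
        exact key _ _ h1 _ _ h2
    refine Finite.of_surjective
      (fun y : {y : PCell S j // ∃ q : Orb G P, y.k = q.out} => (Quotient.mk'' y.1 : Orb G (PCell S j))) ?_
    intro q
    induction q using Quotient.inductionOn' with | h y => ?_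
    obtain ⟨g, hg⟩ : ∃ g : G, g • y.k = (Quotient.mk'' y.k : Orb G P).out := by
      have := Quotient.mk_out (s := MulAction.orbitRel G P) y.k
      obtain ⟨g, hg⟩ := this
      exact ⟨g, hg⟩
    refine ⟨⟨g • y, Quotient.mk'' y.k, hg⟩, ?_⟩
    exact Quotient.sound' ⟨g, rfl⟩

instance cof_Cell (S : Sys H P G) (F : Type*) [AddCommGroup F] (j : ℕ) [Cof G P] : Cof (Gh S F) (Cell S F j) where
  free := Cell.smul_free
  fin := by
    refine Finite.of_surjective
      (fun q : Orb G (PCell S j) => (Quotient.mk'' (⟨1, q.out.k, q.out.τ, q.out.dir, q.out.adj⟩ : Cell S F j) :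
        Orb (Gh S F) (Cell S F j))) ?_
    intro q
    induction q using Quotient.inductionOn' with | h y => ?_
    let y' : PCell S j := ⟨y.k, y.τ, y.dir, y.adj⟩
    obtain ⟨g, hg⟩ : ∃ g : G, g • y' = (Quotient.mk'' y' : Orb G (PCell S j)).out :=
      Quotient.mk_out (s := MulAction.orbitRel G (PCell S j)) y'
    refine ⟨Quotient.mk'' y', Quotient.sound' ⟨⟨(g • y.n)⁻¹, g⟩, ?_⟩⟩
    refine Cell.ext ?_ ?_ ?_
    · show (g • y.n)⁻¹ * g • y.n = 1
      rw [inv_mul_cancel]
    · show g • y.k = (Quotient.mk'' y' : Orb G (PCell S j)).out.k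
      rw [← hg]
      rfl
    · funext i
      show g • y.τ i = (Quotient.mk'' y' : Orb G (PCell S j)).out.τ i
      rw [← hg]
      rfl

end cofs

section equi
variable {H P G : Type*} [Group G] [MulAction G H] [MulAction G P]
variable {S : Sys H P G} {F : Type*} [AddCommGroup F] {j : ℕ}

lemma equi_Tl (i : Fin j) (x : F) : Equi (Gh S F) (Tl S F i x) := equi_pull _ fun g y => Cell.smul_tl g i x y
lemma equi_Mi (i : Fin j) : Equi (Gh S F) (Mi S F i) := equi_pull _ fun g y => Cell.smul_mi g i y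
lemma equi_Gl (i : Fin j) : Equi (Gh S F) (Gl S F i) := equi_pull _ fun g y => Cell.smul_gl g i y
lemma equi_Pm (π : Equiv.Perm (Fin j)) : Equi (Gh S F) (Pm S F π) := equi_pull _ fun g y => Cell.smul_pm g π y

/-- sums over fibres are equivariant -/
lemma equi_psf {Γ : Type*} [Group Γ] {Y Z : Type*} [MulAction Γ Y] [MulAction Γ Z] {r : Z → Y} {M : ℕ}
    (h : Fibre r M) (hr : ∀ (g : Γ) z, r (g • z) = g • r z) : Equi Γ (psf h) := by
  have h1 : Equi Γ (plf h) := fun g f => by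
    ext z
    show f (g⁻¹ • r z) = f (r (g⁻¹ • z))
    rw [hr]
  exact h1.adjoint

lemma equi_DD : Equi (Gh S F) (DD S F : L2 (Cell S F (j + 1)) →L[ℂ] L2 (Cell S F j)) :=
  equi_psf _ fun g z => Cell.smul_tail g z

variable [Fintype F]

lemma equi_av {Γ : Type*} [Group Γ] {Y : Type*} [MulAction Γ Y] {T : F → L2 Y →L[ℂ] L2 Y} (hT : ∀ x, Equi Γ (T x))
    (ψ : AddChar F ℂ) : Equi Γ (av T ψ) := (Equi.sum fun x _ => (hT x).smul _).smul _

lemma equi_Ep (i : Fin j) (ψ : AddChar F ℂ) : Equi (Gh S F) (Ep S F i ψ) := equi_av (equi_Tl i) ψ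

lemma equi_Rl (i : Fin j) (ψ : AddChar F ℂ) (σ : St) : Equi (Gh S F) (Rl S F i ψ σ) := by
  cases σ with
  | g => exact (equi_one.add (equi_Gl i)).comp (equi_Ep i ψ)
  | c => exact equi_Ep i ψ
  | m => exact (equi_one.add (equi_Mi i)).comp (equi_Ep i ψ)

lemma equi_D1 : ∀ j, Equi (Gh S F) (D1 S F j)
  | 0 => equi_zero
  | _ + 1 => equi_DD.comp (equi_Pm _)

/-- submodules given by equations -/
lemma mdl_of_ker {Γ : Type*} [Group Γ] {Y Z : Type*} [MulAction Γ Y] [MulAction Γ Z] {V : Submodule ℂ (L2 Y)}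
    {α : Type*} {T : α → L2 Y →L[ℂ] L2 Z} (hT : ∀ a, Equi Γ (T a)) (hV : ∀ f, f ∈ V ↔ ∀ a, T a f = 0) : Mdl Γ V := by
  have h : V = ⨅ a, LinearMap.ker (T a : L2 Y →ₗ[ℂ] L2 Z) := by
    ext f
    rw [hV, Submodule.mem_iInf]
    rfl
  rw [h]
  exact Mdl.iInf fun a => mdl_ker (hT a)

variable {s : AddChar F ℂ → St}

lemma mdl_Ch : Mdl (Gh S F) (Ch S F j s) := by
  refine mdl_of_ker (α := Equiv.Perm (Fin j) ⊕ Fin j × AddChar F ℂ)
    (T := Sum.elim (fun π => Pm S F π - sgn π • 1) (fun p => Rl S F p.1 p.2 (s p.2))) ?_ ?_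
  · rintro (π | ⟨i, ψ⟩)
    · exact (equi_Pm π).sub (equi_one.smul _)
    · exact equi_Rl i ψ _
  · intro f
    constructor
    · rintro ⟨h1, h2⟩ (π | ⟨i, ψ⟩)
      · show Pm S F π f - sgn π • f = 0
        rw [h1, sub_self]
      · exact h2 i ψ
    · intro h
      exact ⟨fun π => sub_eq_zero.1 (h (Sum.inl π)), fun i ψ => h (Sum.inr (i, ψ))⟩

lemma mdl_Xm : Mdl (Gh S F) (Xm S F j s) := by
  refine mdl_of_ker (α := Equiv.Perm (Fin j) ⊕ Fin j × AddChar F ℂ)
    (T := Sum.elim (fun π => Pm S F (Cell.ex π) - sgn π • 1) (fun p => Rl S F p.1.succ p.2 (s p.2))) ?_ ?_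
  · rintro (π | ⟨i, ψ⟩)
    · exact (equi_Pm _).sub (equi_one.smul _)
    · exact equi_Rl _ ψ _
  · intro f
    constructor
    · rintro ⟨h1, h2⟩ (π | ⟨i, ψ⟩)
      · show Pm S F (Cell.ex π) f - sgn π • f = 0
        rw [h1, sub_self]
      · exact h2 i ψ
    · intro h
      exact ⟨fun π => sub_eq_zero.1 (h (Sum.inl π)), fun i ψ => h (Sum.inr (i, ψ))⟩

lemma mdl_Cyc : Mdl (Gh S F) (Cyc S F j s) := mdl_Ch.inf (mdl_ker equi_DD)

lemma mdl_asG : Mdl (Gh S F) (asG S F j) := mdl_ker (equi_one.add (equi_Gl 0))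

lemma mdl_asM : Mdl (Gh S F) (asM S F j) := mdl_ker (equi_one.add (equi_Mi 0))

lemma mdl_ran (ψ : AddChar F ℂ) : Mdl (Gh S F) (ran S F j ψ) := mdl_ker (equi_one.sub (equi_Ep 0 ψ))

end equi

end Npc
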