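import Pool.Agent.Npc.Step

/-!
# NPC cube complexes: the marked cycles `Km`

`mdl_Km` : closed and invariant; `ind_mem_Km` : invariance under indicator functions of good sets;
`Tl_mem_Km` : invariance under the translations of the label of the marker.
-/

set_option autoImplicit false
set_option linter.unusedSectionVars false
set_option linter.unusedVariables false

open scoped ComplexConjugate InnerProductSpace
open Filter Topology

namespace Npc

open Singer

/-- a bounded operator maps the closure of a subspace into a closed subspace which contains the image -/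
theorem map_closure_le {Y Z : Type*} (T : L2 Y →L[ℂ] L2 Z) {V : Submodule ℂ (L2 Y)} {W : Submodule ℂ (L2 Z)}
    (hW : IsClosed (W : Set (L2 Z))) (h : ∀ f ∈ V, T f ∈ W) {f : L2 Y} (hf : f ∈ V.topologicalClosure) : T f ∈ W := by
  have h1 : V.topologicalClosure ≤ W.comap (T : L2 Y →ₗ[ℂ] L2 Z) :=
    Submodule.topologicalClosure_minimal _ (fun f hf => h f hf) (hW.preimage T.continuous)
  exact h1 hf

section km
variable {H P G : Type*} [Group G] [MulAction G H] [MulAction G P]
variable {S : Sys H P G} {F : Type*} [AddCommGroup F] [Fintype F] {j : ℕ} {s : AddChar F ℂ → St}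

lemma act_onS (g : Gh S F) (h : H) (f : L2 (Cell S F (j + 1))) :
    ind (onS S F h) (act g f) = act g (ind (onS S F (g.right⁻¹ • h)) f) := by
  unfold act
  rw [ind_pull]
  have e : (fun y : Cell S F (j + 1) => g⁻¹ • y) ⁻¹' onS S F (g.right⁻¹ • h) = onS S F h := by
    ext y
    show (g⁻¹).right • y.τ 0 = g.right⁻¹ • h ↔ y.τ 0 = h
    rw [SemidirectProduct.inv_right]
    exact (MulAction.injective g.right⁻¹).eq_iff
  rw [e]

lemma act_offS (g : Gh S F) (h : H) (f : L2 (Cell S F j)) :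
    ind (offS S F h) (act g f) = act g (ind (offS S F (g.right⁻¹ • h)) f) := by
  unfold act
  rw [ind_pull]
  have e : (fun y : Cell S F j => g⁻¹ • y) ⁻¹' offS S F (g.right⁻¹ • h) = offS S F h := by
    ext y
    show (∀ i, (g⁻¹).right • y.τ i ≠ g.right⁻¹ • h) ↔ ∀ i, y.τ i ≠ h
    rw [SemidirectProduct.inv_right]
    exact forall_congr' fun i => (MulAction.injective g.right⁻¹).ne_iff
  rw [e]

lemma act_mem_Chh (g : Gh S F) (h : H) {f : L2 (Cell S F j)} (hf : f ∈ Chh S F j s (g.right⁻¹ • h)) :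
    act g f ∈ Chh S F j s h := by
  rw [mem_Chh] at hf ⊢
  refine ⟨mdl_Ch.inv g f hf.1, ?_⟩
  rw [act_offS, hf.2]

lemma act_mem_Bdh (g : Gh S F) (h : H) {f : L2 (Cell S F j)} (hf : f ∈ Bdh S F j s (g.right⁻¹ • h)) :
    act g f ∈ Bdh S F j s h := by
  refine map_closure_le (act g) (Submodule.isClosed_topologicalClosure _) ?_ hf
  rintro _ ⟨c, hc, rfl⟩
  show act g (DD S F c) ∈ _
  rw [← equi_DD]
  exact Submodule.le_topologicalClosure _ ⟨_, act_mem_Chh g h hc, rfl⟩

theorem mdl_Km : Mdl (Gh S F) (Km S F j s) := by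
  constructor
  · intro g f hf
    rw [mem_Km] at hf ⊢
    refine ⟨⟨mdl_Xm.inv g f hf.1.1, ?_⟩, fun h => ?_⟩
    · rw [equi_D1, hf.1.2, map_zero]
    · rw [act_onS, equi_DD]
      exact act_mem_Bdh g h (hf.2 _)
  · have h : (Km S F j s : Set (L2 (Cell S F (j + 1)))) = ((Xm S F j s : Set (L2 (Cell S F (j + 1)))) ∩
        {f | D1 S F j f = 0}) ∩ ⋂ h : H, ((DD S F).comp (ind (onS S F h))) ⁻¹' (Bdh S F j s h : Set (L2 (Cell S F j))) := by
      ext f
      rw [SetLike.mem_coe, mem_Km]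
      simp only [Set.mem_inter_iff, Set.mem_iInter]
      exact Iff.rfl
    rw [h]
    refine IsClosed.inter (IsClosed.inter mdl_Xm.cl (isClosed_eq (D1 S F j).continuous continuous_const)) ?_
    exact isClosed_iInter fun h => (Submodule.isClosed_topologicalClosure _).preimage (ContinuousLinearMap.continuous _)

/-! ### good sets -/

/-- `T h` is invariant under the moves of the hyperplanes different from `h` -/
structure Good (T : H → Set (NN S F)) : Prop where
  w : ∀ h t, t ≠ h → ∀ n, n * sW t ∈ T h ↔ n ∈ T h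
  a : ∀ h t, t ≠ h → ∀ x n, n * eA t x ∈ T h ↔ n ∈ T h

/-- the set of the cells with `n` in the set of the marker -/
def mk (T : H → Set (NN S F)) : Set (Cell S F (j + 1)) := {y | y.n ∈ T (y.τ 0)}

/-- the set of the cells with `n` in `A` -/
def nT (A : Set (NN S F)) : Set (Cell S F j) := {y | y.n ∈ A}

lemma itw_nT {T : H → Set (NN S F)} (hT : Good T) (h : H) (i : Fin j) :
    Itw (ind (nT (T h) ∩ offS S F h) : L2 (Cell S F j) →L[ℂ] L2 (Cell S F j)) i i := by
  refine itw_ind (fun x y => ?_) (fun y => ?_) fun y => ?_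
  · exact and_congr_left fun hy => hT.a h _ (hy i) x y.n
  · exact and_congr_left fun hy => hT.w h _ (hy i) y.n
  · exact and_congr_left fun hy => hT.w h _ (hy i) y.n

lemma nT_mem_Chh {T : H → Set (NN S F)} (hT : Good T) (h : H) {f : L2 (Cell S F j)} (hf : f ∈ Chh S F j s h) :
    ind (nT (T h)) f ∈ Chh S F j s h := by
  rw [mem_Chh] at hf ⊢
  have e : ind (nT (T h)) f = ind (nT (T h) ∩ offS S F h) f := by
    rw [← ind_ind, hf.2]
  refine ⟨⟨fun π => ?_, fun i ψ => ?_⟩, ?_⟩
  · have h1 : Pm S F π (ind (nT (T h)) f) = ind (nT (T h)) (Pm S F π f) := by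
      unfold Pm
      rw [ind_pull]
      rfl
    rw [h1, hf.1.1, map_smul]
  · rw [e, ← (itw_nT hT h i).rl, hf.1.2, map_zero]
  · rw [ind_ind, Set.inter_comm, ← ind_ind, hf.2]

lemma nT_mem_Bdh {T : H → Set (NN S F)} (hT : Good T) (h : H) {f : L2 (Cell S F j)} (hf : f ∈ Bdh S F j s h) :
    ind (nT (T h)) f ∈ Bdh S F j s h := by
  refine map_closure_le (ind (nT (T h))) (Submodule.isClosed_topologicalClosure _) ?_ hf
  rintro _ ⟨c, hc, rfl⟩
  show ind (nT (T h)) (DD S F c) ∈ _
  have e : ind (nT (T h)) (DD S F c) = DD S F (ind (nT (T h)) c) := by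
    unfold DD
    rw [ind_psf]
    rfl
  rw [e]
  exact Submodule.le_topologicalClosure _ ⟨_, nT_mem_Chh hT h hc, rfl⟩

/-- **invariance under the indicator functions of good sets** -/
theorem ind_mem_Km {T : H → Set (NN S F)} (hT : Good T) {f : L2 (Cell S F (j + 1))} (hf : f ∈ Km S F j s) :
    ind (mk T) f ∈ Km S F j s := by
  rw [mem_Km] at hf ⊢
  have hne : ∀ (y : Cell S F (j + 1)) (i : Fin j), y.τ i.succ ≠ y.τ 0 := fun y i h => by
    have h1 := y.adj 0 i.succ (Fin.succ_ne_zero i).symm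
    rw [h] at h1
    exact S.C.loopless.irrefl _ h1
  refine ⟨⟨⟨fun π => ?_, fun i ψ => ?_⟩, ?_⟩, fun h => ?_⟩
  · have h1 : Pm S F (Cell.ex π) (ind (mk T) f) = ind (mk T) (Pm S F (Cell.ex π) f) := by
      unfold Pm
      rw [ind_pull]
      have e : (Cell.pm (Cell.ex π) : Cell S F (j + 1) → Cell S F (j + 1)) ⁻¹' mk T = mk T := by
        ext y
        show y.n ∈ T (y.τ (Cell.ex π 0)) ↔ y.n ∈ T (y.τ 0)
        rw [Cell.ex_zero]
      rw [e]
    rw [h1, hf.1.1.1, map_smul]
  · have h1 : Itw (ind (mk T) : L2 (Cell S F (j + 1)) →L[ℂ] L2 (Cell S F (j + 1))) i.succ i.succ :=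
      itw_ind (fun x y => hT.a _ _ (hne y i) x y.n) (fun y => hT.w _ _ (hne y i) y.n) fun y => hT.w _ _ (hne y i) y.n
    rw [← h1.rl, hf.1.1.2, map_zero]
  · cases j with
    | zero => rfl
    | succ j =>
      have h0 : DD S F (Pm S F (Equiv.swap 0 1) f) = 0 := hf.1.2
      show DD S F (Pm S F (Equiv.swap 0 1) (ind (mk T) f)) = 0
      have e : DD S F (Pm S F (Equiv.swap 0 1) (ind (mk T) f)) = ind (mk T) (DD S F (Pm S F (Equiv.swap 0 1) f)) := by
        unfold DD Pm
        rw [ind_psf, ind_pull]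
        have e : (Cell.pm (Equiv.swap 0 1) : Cell S F (j + 2) → Cell S F (j + 2)) ⁻¹' mk T =
            (Cell.tail ⁻¹' mk T : Set (Cell S F (j + 2))) := by
          ext y
          show y.n ∈ T (y.τ (Equiv.swap 0 1 0)) ↔ y.n ∈ T (y.τ (Fin.succ 0))
          rw [Equiv.swap_apply_left, Fin.succ_zero_eq_one]
        rw [e]
      rw [e, h0, map_zero]
  · have e : DD S F (ind (onS S F h) (ind (mk T) f)) = ind (nT (T h)) (DD S F (ind (onS S F h) f)) := by
      unfold DD
      rw [ind_psf, ind_ind, ind_ind]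
      have e : (onS S F h ∩ mk T : Set (Cell S F (j + 1))) = Cell.tail ⁻¹' nT (T h) ∩ onS S F h := by
        ext y
        show (y.τ 0 = h ∧ y.n ∈ T (y.τ 0)) ↔ (y.n ∈ T h ∧ y.τ 0 = h)
        constructor
        · rintro ⟨rfl, h2⟩
          exact ⟨h2, rfl⟩
        · rintro ⟨h2, rfl⟩
          exact ⟨rfl, h2⟩
      rw [e]
    rw [e]
    exact nT_mem_Bdh hT h (hf.2 h)

/-! ### translations of the label of the marker -/

lemma La_off (h : H) (x : F) (f : L2 (Cell S F j)) :
    ind (offS S F h) (La S F h x f) = La S F h x (ind (offS S F h) f) := by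
  unfold La
  rw [ind_pull]
  rfl

lemma La_on (h : H) (x : F) (f : L2 (Cell S F (j + 1))) :
    ind (onS S F h) (Tl S F 0 x f) = La S F h x (ind (onS S F h) f) := by
  classical
  ext y
  rw [La_apply, ind_apply, ind_apply]
  by_cases hy : y ∈ onS S F h
  · have hy' : lt S F h x y ∈ onS S F h := hy
    rw [if_pos hy, if_pos hy', Tl_apply, tl_eq_lt, show y.τ 0 = h from hy]
  · have hy' : lt S F h x y ∉ onS S F h := hy
    rw [if_neg hy, if_neg hy']

lemma La_mem_Chh (h : H) (x : F) {f : L2 (Cell S F j)} (hf : f ∈ Chh S F j s h) : La S F h x f ∈ Chh S F j s h := by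
  rw [mem_Chh] at hf ⊢
  refine ⟨⟨fun π => ?_, fun i ψ => ?_⟩, ?_⟩
  · rw [← La_Pm, hf.1.1, map_smul]
  · rw [← (itw_La h x i).rl, hf.1.2, map_zero]
  · rw [La_off, hf.2]

lemma La_mem_Bdh (h : H) (x : F) {f : L2 (Cell S F j)} (hf : f ∈ Bdh S F j s h) : La S F h x f ∈ Bdh S F j s h := by
  refine map_closure_le (La S F h x) (Submodule.isClosed_topologicalClosure _) ?_ hf
  rintro _ ⟨c, hc, rfl⟩
  show La S F h x (DD S F c) ∈ _
  rw [← DD_La]
  exact Submodule.le_topologicalClosure _ ⟨_, La_mem_Chh h x hc, rfl⟩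

/-- **invariance under the translations of the label of the marker** -/
theorem Tl_mem_Km (x : F) {f : L2 (Cell S F (j + 1))} (hf : f ∈ Km S F j s) : Tl S F 0 x f ∈ Km S F j s := by
  rw [mem_Km] at hf ⊢
  refine ⟨⟨⟨fun π => ?_, fun i ψ => ?_⟩, ?_⟩, fun h => ?_⟩
  · rw [(itw_Pm (Cell.ex π) 0).tl, Cell.ex_zero, hf.1.1.1, map_smul]
  · rw [← (itw_Tl (i := 0) (i' := i.succ) x).rl, hf.1.1.2, map_zero]
  · cases j with
    | zero => rfl
    | succ j =>
      have h0 : DD S F (Pm S F (Equiv.swap 0 1) f) = 0 := hf.1.2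
      show DD S F (Pm S F (Equiv.swap 0 1) (Tl S F 0 x f)) = 0
      rw [(itw_Pm (Equiv.swap 0 1) 0).tl, Equiv.swap_apply_left, ← Fin.succ_zero_eq_one, (itw_DD 0).tl,
        Fin.succ_zero_eq_one, h0, map_zero]
  · rw [La_on, DD_La]
    exact La_mem_Bdh h x (hf.2 h)

end km

end Npc
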