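import Mathlib

/-!
# NPC cube complexes: the telescoping argument

States `(p, q)` with `p ≤ q ≤ N`: the labels `< p` are mirrored, the labels in `[p, q)` are cut, the other labels are glued.
-/

set_option autoImplicit false

namespace Npc

open Finset

/-- the inequalities of the state sums -/
structure Tel (N : ℕ) (C : ℝ) (z φ : ℕ → ℕ → ℝ) : Prop where
  cut : ∀ p q, p ≤ q → q < N → z p q - z p (q + 1) ≤ φ p q / N
  mir : ∀ p q, p < q → q ≤ N → φ p q / N ≤ z (p + 1) q - z p q
  nonneg : ∀ p q, p ≤ q → q ≤ N → 0 ≤ φ p q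
  le : ∀ p q, p ≤ q → q ≤ N → φ p q ≤ C

variable {N : ℕ} {C : ℝ} {z φ : ℕ → ℕ → ℝ}

lemma Tel.C_nonneg (h : Tel N C z φ) : 0 ≤ C := (h.nonneg 0 0 le_rfl (Nat.zero_le _)).trans (h.le 0 0 le_rfl (Nat.zero_le _))

lemma Tel.div_nonneg (h : Tel N C z φ) : 0 ≤ C / N := _root_.div_nonneg h.C_nonneg (Nat.cast_nonneg _)

lemma Tel.cut_many (h : Tel N C z φ) (p : ℕ) : ∀ c q, p ≤ q → q + c ≤ N → z p q - z p (q + c) ≤ c * (C / N) := by
  intro c
  induction c with
  | zero => intro q _ _; simp
  | succ c ih =>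
    intro q hp hq
    have h1 := ih q hp (by omega)
    have h2 := h.cut p (q + c) (by omega) (by omega)
    have h3 := h.le p (q + c) (by omega) (by omega)
    have h4 : φ p (q + c) / N ≤ C / N := div_le_div_of_nonneg_right h3 (Nat.cast_nonneg _)
    rw [← add_assoc]
    push_cast
    linarith

lemma Tel.mir_many (h : Tel N C z φ) : ∀ p, p ≤ N → z p N ≤ z N N := by
  intro p hp
  obtain ⟨k, rfl⟩ : ∃ k, N = p + k := ⟨N - p, by omega⟩
  have key : ∀ j, j ≤ k → z p (p + k) ≤ z (p + j) (p + k) := by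
    intro j
    induction j with
    | zero => intro _; simp
    | succ j ih =>
      intro hj
      have h1 := ih (by omega)
      have h2 := h.mir (p + j) (p + k) (by omega) le_rfl
      have h3 := h.nonneg (p + j) (p + k) (by omega) le_rfl
      have h4 : 0 ≤ φ (p + j) (p + k) / (p + k : ℕ) := _root_.div_nonneg h3 (Nat.cast_nonneg _)
      rw [← add_assoc]
      linarith
  exact key k le_rfl

lemma Tel.step (h : Tel N C z φ) {p c : ℕ} (hc : p + c < N) :
    (φ p (p + (c + 1)) - φ p (p + c)) / N ≤ z (p + 1) (p + 1 + c) - z p (p + c) := by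
  have h1 := h.cut p (p + c) (by omega) hc
  have h2 := h.mir p (p + (c + 1)) (by omega) (by omega)
  have e1 : p + c + 1 = p + (c + 1) := by ring
  have e2 : p + 1 + c = p + (c + 1) := by ring
  rw [e1] at h1
  rw [e2, sub_div]
  linarith

theorem Tel.main (h : Tel N C z φ) {L : ℕ} (hL : L ≤ N) (hN : 0 < N) :
    -C - L * (L * (C / N)) ≤ L * (z N N - z 0 0) := by
  have hCN := h.div_nonneg
  -- the rows
  have row : ∀ p, p + L ≤ N → -(C / N) ≤ ∑ c ∈ range L, (z (p + 1) (p + 1 + c) - z p (p + c)) := by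
    intro p hp
    have h1 : ∑ c ∈ range L, (φ p (p + (c + 1)) - φ p (p + c)) / N ≤
        ∑ c ∈ range L, (z (p + 1) (p + 1 + c) - z p (p + c)) :=
      Finset.sum_le_sum fun c hc => h.step (by have := mem_range.1 hc; omega)
    have h2 : ∑ c ∈ range L, (φ p (p + (c + 1)) - φ p (p + c)) / N = (φ p (p + L) - φ p (p + 0)) / N := by
      rw [← Finset.sum_div, Finset.sum_range_sub (fun c => φ p (p + c)) L]
    have h3 := h.nonneg p (p + L) (by omega) hp
    have h4 := h.le p (p + 0) (by omega) (by omega)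
    have h5 : -C / N ≤ (φ p (p + L) - φ p (p + 0)) / N :=
      div_le_div_of_nonneg_right (by linarith) (Nat.cast_nonneg _)
    rw [neg_div] at h5
    linarith
  -- the double sum
  have tot : -C ≤ ∑ p ∈ range (N - L), ∑ c ∈ range L, (z (p + 1) (p + 1 + c) - z p (p + c)) := by
    have h1 : ∑ p ∈ range (N - L), (-(C / N)) ≤
        ∑ p ∈ range (N - L), ∑ c ∈ range L, (z (p + 1) (p + 1 + c) - z p (p + c)) :=
      Finset.sum_le_sum fun p hp => row p (by have := mem_range.1 hp; omega)
    rw [Finset.sum_const, card_range, nsmul_eq_mul] at h1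
    have h2 : ((N - L : ℕ) : ℝ) * (C / N) ≤ C := by
      have h3 : ((N - L : ℕ) : ℝ) ≤ N := by exact_mod_cast Nat.sub_le N L
      have hN' : (0 : ℝ) < N := by exact_mod_cast hN
      calc ((N - L : ℕ) : ℝ) * (C / N) ≤ N * (C / N) := mul_le_mul_of_nonneg_right h3 hCN
        _ = C := by field_simp
    linarith
  rw [Finset.sum_comm] at tot
  have col : ∀ c, ∑ p ∈ range (N - L), (z (p + 1) (p + 1 + c) - z p (p + c)) =
      z (N - L) (N - L + c) - z 0 (0 + c) := fun c => Finset.sum_range_sub (fun p => z p (p + c)) (N - L)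
  simp only [col] at tot
  have ub : ∀ c ∈ range L, z (N - L) (N - L + c) - z 0 (0 + c) ≤ (z N N - z 0 0) + L * (C / N) := by
    intro c hc
    have hc' := mem_range.1 hc
    have h1 := h.cut_many 0 c 0 le_rfl (by omega)
    have h2 := h.cut_many (N - L) (L - c) (N - L + c) (by omega) (by omega)
    have h3 := h.mir_many (N - L) (by omega)
    have e : N - L + c + (L - c) = N := by omega
    rw [e] at h2
    have e2 : ((L - c : ℕ) : ℝ) = L - c := by
      rw [Nat.cast_sub hc'.le]
    rw [e2] at h2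
    have h4 : (c : ℝ) * (C / N) + (L - c) * (C / N) = L * (C / N) := by ring
    linarith
  have h5 := tot.trans (Finset.sum_le_sum ub)
  rw [Finset.sum_const, card_range, nsmul_eq_mul] at h5
  linarith [mul_add (L : ℝ) (z N N - z 0 0) (L * (C / N))]

/-- **the limit** -/
theorem le_of_tel {a b C : ℝ} (h : ∀ N₀ : ℕ, ∃ N ≥ N₀, ∃ z φ : ℕ → ℕ → ℝ, Tel N C z φ ∧ z 0 0 = a ∧ z N N = b) :
    a ≤ b := by
  have hC : 0 ≤ C := by
    obtain ⟨N, -, z, φ, h1, -⟩ := h 0
    exact h1.C_nonneg
  by_contra hab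
  push Not at hab
  set ε := a - b with hε
  have hε0 : 0 < ε := by linarith
  obtain ⟨L, hL⟩ := exists_nat_gt (2 * C / ε)
  have hL0 : 0 < L := by
    rcases Nat.eq_zero_or_pos L with h0 | h0
    · rw [h0] at hL
      have : 0 ≤ 2 * C / ε := div_nonneg (by linarith) hε0.le
      simp only [Nat.cast_zero] at hL
      linarith
    · exact h0
  obtain ⟨N₀, hN₀⟩ := exists_nat_gt (2 * C * L / ε)
  obtain ⟨N, hN, z, φ, hT, h0, h1⟩ := h (N₀ + L + 1)
  have hm := hT.main (L := L) (by omega) (by omega)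
  rw [h0, h1] at hm
  have hN' : (0 : ℝ) < N := by exact_mod_cast (by omega : 0 < N)
  have hL' : (0 : ℝ) < L := by exact_mod_cast hL0
  have i1 : 2 * C < ε * L := by
    rw [div_lt_iff₀ hε0] at hL
    linarith
  have i2 : 2 * C * L < ε * N := by
    rw [div_lt_iff₀ hε0] at hN₀
    have : (N₀ : ℝ) ≤ N := by exact_mod_cast (by omega : N₀ ≤ N)
    nlinarith
  have i3 : L * (L * (C / N)) < ε * L / 2 := by
    have : L * (L * (C / N)) = L * (C * L / N) := by ring
    rw [this]
    have i4 : C * L / N < ε / 2 := by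
      rw [div_lt_iff₀ hN']
      linarith
    calc (L : ℝ) * (C * L / N) < L * (ε / 2) := mul_lt_mul_of_pos_left i4 hL'
      _ = ε * L / 2 := by ring
  have i5 : (L : ℝ) * (b - a) = -(ε * L) := by rw [hε]; ring
  rw [i5] at hm
  linarith

end Npc
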