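import Pool.Agent.Npc.Step
import Pool.Agent.Npc.Km
import Pool.Agent.Npc.Num

/-!
# NPC cube complexes: the telescoping argument for the cycles

The labels are the characters of `ZMod N`; in the state `stt e p q` the labels `< p` are mirrored, the labels in `[p, q)` are
cut and the other labels are glued.
-/

set_option autoImplicit false
set_option linter.unusedSectionVars false
set_option linter.unusedVariables false

open scoped ComplexConjugate InnerProductSpace
open Filter Topology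

namespace Npc

open Singer

section core
variable {H P G : Type*} [Group G] [MulAction G H] [MulAction G P]

/-- the number of the orbits of the cells does not depend on the labels -/
theorem card_orb_le (S : Sys H P G) (F : Type*) [AddCommGroup F] (j : ℕ) [Cof G P] :
    Fintype.card (Orb (Gh S F) (Cell S F j)) ≤ Fintype.card (Orb G (PCell S j)) := by
  refine Fintype.card_le_of_surjective
    (fun q : Orb G (PCell S j) => (Quotient.mk'' (⟨1, q.out.k, q.out.τ, q.out.dir, q.out.adj⟩ : Cell S F j) :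
      Orb (Gh S F) (Cell S F j))) ?_
  intro q
  induction q using Quotient.inductionOn' with | h y => ?_
  let y' : PCell S j := ⟨y.k, y.τ, y.dir, y.adj⟩
  obtain ⟨g, hg⟩ : ∃ g : G, g • y' = (Quotient.mk'' y' : Orb G (PCell S j)).out :=
    Quotient.mk_out (s := MulAction.orbitRel G (PCell S j)) y'
  refine ⟨Quotient.mk'' y', Quotient.sound' ⟨⟨(g • y.n)⁻¹, g⟩, ?_⟩⟩
  refine Cell.ext ?_ ?_ ?_
  · show (g • y.n)⁻¹ * g • y.n = 1
    rw [inv_mul_cancel]
  · show g • y.k = (Quotient.mk'' y' : Orb G (PCell S j)).out.k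
    rw [← hg]
    rfl
  · funext i
    show g • y.τ i = (Quotient.mk'' y' : Orb G (PCell S j)).out.τ i
    rw [← hg]
    rfl

variable {A : Type*} {N : ℕ} (e : A ≃ Fin N)

/-- the states of the telescoping argument -/
def stt (p q : ℕ) (ψ : A) : St := if (e ψ : ℕ) < p then St.m else if (e ψ : ℕ) < q then St.c else St.g

lemma stt_zero : stt e 0 0 = fun _ => St.g := by
  funext ψ
  simp [stt]

lemma stt_top : stt e N N = fun _ => St.m := by
  funext ψ
  simp [stt]

lemma stt_g {p q : ℕ} (hpq : p ≤ q) (hq : q < N) : stt e p q (e.symm ⟨q, hq⟩) = St.g := by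
  simp [stt, hpq]

lemma stt_c {p q : ℕ} (hpq : p < q) (hp : p < N) : stt e p q (e.symm ⟨p, hp⟩) = St.c := by
  simp [stt, hpq]

open Classical in
lemma stt_update_c {p q : ℕ} (hpq : p ≤ q) (hq : q < N) :
    Function.update (stt e p q) (e.symm ⟨q, hq⟩) St.c = stt e p (q + 1) := by
  funext ψ
  by_cases h : ψ = e.symm ⟨q, hq⟩
  · subst h
    rw [Function.update_self]
    simp [stt, hpq]
  · rw [Function.update_of_ne h]
    have h1 : (e ψ : ℕ) ≠ q := fun h' => h (by rw [Equiv.eq_symm_apply]; exact Fin.ext h')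
    have h2 : (e ψ : ℕ) < q ↔ (e ψ : ℕ) < q + 1 := by omega
    simp only [stt, h2]

open Classical in
lemma stt_update_m {p q : ℕ} (hp : p < N) :
    Function.update (stt e p q) (e.symm ⟨p, hp⟩) St.m = stt e (p + 1) q := by
  funext ψ
  by_cases h : ψ = e.symm ⟨p, hp⟩
  · subst h
    rw [Function.update_self]
    simp [stt]
  · rw [Function.update_of_ne h]
    have h1 : (e ψ : ℕ) ≠ p := fun h' => h (by rw [Equiv.eq_symm_apply]; exact Fin.ext h')
    have h2 : (e ψ : ℕ) < p ↔ (e ψ : ℕ) < p + 1 := by omega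
    simp only [stt, h2]

/-- the telescoping argument, for a finite group of labels -/
theorem core_tel (S : Sys H P G) (F : Type*) [AddCommGroup F] [Fintype F] (j : ℕ) [Cof G P] (hN : Fintype.card F = N)
    (e : AddChar F ℂ ≃ Fin N)
    (h1 : ∀ s : AddChar F ℂ → St, vd (Gh S F) (Km S F j s ⊓ asG S F j) ≤ vd (Gh S F) (Km S F j s ⊓ asM S F j))
    (h2 : ∀ (s : AddChar F ℂ → St) q,
      vd (Gh S F) (Km S F j s ⊓ asG S F j ⊓ ran S F j q) = vd (Gh S F) (Km S F j s ⊓ asG S F j) / Fintype.card F)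
    (h3 : ∀ (s : AddChar F ℂ → St) q,
      vd (Gh S F) (Km S F j s ⊓ asM S F j ⊓ ran S F j q) = vd (Gh S F) (Km S F j s ⊓ asM S F j) / Fintype.card F) :
    Tel N (Fintype.card (Orb G (PCell S (j + 1))))
      (fun p q => vd (Gh S F) (Cyc S F j (stt e p q))) (fun p q => vd (Gh S F) (Km S F j (stt e p q) ⊓ asG S F j)) where
  cut p q hpq hq := by
    have h := cut_step (S := S) (F := F) (j := j) (s := stt e p q) (q := e.symm ⟨q, hq⟩) (stt_g e hpq hq)
    rw [stt_update_c e hpq hq, h2, hN] at h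
    exact h
  mir p q hpq hq := by
    have hp : p < N := by omega
    have h := mir_step (S := S) (F := F) (j := j) (s := stt e p q) (p := e.symm ⟨p, hp⟩) (stt_c e hpq hp) mdl_Km
    rw [stt_update_m e hp, h3, hN] at h
    exact (div_le_div_of_nonneg_right (h1 _) (Nat.cast_nonneg _)).trans h
  nonneg p q _ _ := vd_nonneg _
  le p q _ _ := (vd_le_card _).trans (by exact_mod_cast card_orb_le S F (j + 1))

/-- **the comparison of the cycles**, from the half-space lemma and the independence of the labels -/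
theorem core_of (S : Sys H P G) (j : ℕ) [Cof G P]
    (h1 : ∀ (N : ℕ) [NeZero N] (s : AddChar (ZMod N) ℂ → St),
      vd (Gh S (ZMod N)) (Km S (ZMod N) j s ⊓ asG S (ZMod N) j) ≤ vd (Gh S (ZMod N)) (Km S (ZMod N) j s ⊓ asM S (ZMod N) j))
    (h2 : ∀ (N : ℕ) [NeZero N] (s : AddChar (ZMod N) ℂ → St) q,
      vd (Gh S (ZMod N)) (Km S (ZMod N) j s ⊓ asG S (ZMod N) j ⊓ ran S (ZMod N) j q) =
        vd (Gh S (ZMod N)) (Km S (ZMod N) j s ⊓ asG S (ZMod N) j) / Fintype.card (ZMod N))
    (h3 : ∀ (N : ℕ) [NeZero N] (s : AddChar (ZMod N) ℂ → St) q,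
      vd (Gh S (ZMod N)) (Km S (ZMod N) j s ⊓ asM S (ZMod N) j ⊓ ran S (ZMod N) j q) =
        vd (Gh S (ZMod N)) (Km S (ZMod N) j s ⊓ asM S (ZMod N) j) / Fintype.card (ZMod N))
    {a b : ℝ} (ha : ∀ (N : ℕ) [NeZero N], vd (Gh S (ZMod N)) (Cyc S (ZMod N) j fun _ => St.g) = a)
    (hb : ∀ (N : ℕ) [NeZero N], vd (Gh S (ZMod N)) (Cyc S (ZMod N) j fun _ => St.m) = b) : a ≤ b := by
  refine le_of_tel (C := Fintype.card (Orb G (PCell S (j + 1)))) fun N₀ => ⟨N₀ + 1, Nat.le_succ _, ?_⟩
  have hcard : Fintype.card (AddChar (ZMod (N₀ + 1)) ℂ) = N₀ + 1 := by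
    rw [AddChar.card_eq, ZMod.card]
  have e : AddChar (ZMod (N₀ + 1)) ℂ ≃ Fin (N₀ + 1) := Fintype.equivFinOfCardEq hcard
  refine ⟨_, _, core_tel S (ZMod (N₀ + 1)) j (ZMod.card _) e (h1 _) (h2 _) (h3 _), ?_, ?_⟩
  · show vd _ (Cyc S (ZMod (N₀ + 1)) j (stt e 0 0)) = a
    rw [stt_zero]
    exact ha _
  · show vd _ (Cyc S (ZMod (N₀ + 1)) j (stt e (N₀ + 1) (N₀ + 1))) = b
    rw [stt_top]
    exact hb _

end core

end Npc
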