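import Pool.Agent.Singer.L2

/-!
# NPC cube complexes: pull back and push forward along maps with small fibres

`plf r` : `L2 Y → L2 Z`, composition with `r : Z → Y`, where the fibres of `r` have at most `M` elements;
`psf r` : its adjoint, the sum over the fibres.
-/

set_option autoImplicit false
set_option linter.unusedSectionVars false
set_option linter.unusedVariables false

open scoped ComplexConjugate InnerProductSpace
open Filter Topology

namespace Npc

open Singer

section inv
variable {X Y Z : Type*}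

lemma pull_pull (p : X → Y) (hp : Function.Injective p) (q : Y → Z) (hq : Function.Injective q) (f : L2 Z) :
    pull p hp (pull q hq f) = pull (fun x => q (p x)) (hq.comp hp) f := rfl

/-- the adjoint of the composition with a bijection -/
lemma inner_pull (p q : X → X) (hpq : ∀ x, p (q x) = x) (hqp : ∀ x, q (p x) = x) (f h : L2 X) :
    ⟪pull p (Function.LeftInverse.injective hqp) f, h⟫_ℂ = ⟪f, pull q (Function.LeftInverse.injective hpq) h⟫_ℂ := by
  rw [inner_eq, inner_eq]
  rw [← (Equiv.mk q p hpq hqp).tsum_eq]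
  congr 1
  funext x
  show conj (f (p (q x))) * h (q x) = _
  rw [hpq]
  rfl

lemma adjoint_pull (p q : X → X) (hpq : ∀ x, p (q x) = x) (hqp : ∀ x, q (p x) = x) :
    ContinuousLinearMap.adjoint (pull p (Function.LeftInverse.injective hqp)) =
      pull q (Function.LeftInverse.injective hpq) := by
  symm
  rw [ContinuousLinearMap.eq_adjoint_iff]
  intro f h
  rw [← inner_pull q p hqp hpq]

end inv

/-- the fibres have at most `M` elements -/
structure Fibre {Z Y : Type*} (r : Z → Y) (M : ℕ) : Prop where
  fin : ∀ y, {z | r z = y}.Finite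
  card : ∀ y, {z | r z = y}.ncard ≤ M

section fib
variable {Z Y : Type*} {r : Z → Y} {M : ℕ} (h : Fibre r M)

include h in
lemma Fibre.sum_le (f : L2 Y) (s : Finset Z) : ∑ z ∈ s, ‖f (r z)‖ ^ 2 ≤ M * ∑' y, ‖f y‖ ^ 2 := by
  classical
  rw [Finset.sum_comp (fun y => ‖f y‖ ^ 2) r]
  calc ∑ y ∈ s.image r, (s.filter fun z => r z = y).card • ‖f y‖ ^ 2
      ≤ ∑ y ∈ s.image r, M * ‖f y‖ ^ 2 := by
        refine Finset.sum_le_sum fun y _ => ?_
        rw [nsmul_eq_mul]
        refine mul_le_mul_of_nonneg_right ?_ (by positivity)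
        have h1 : (s.filter fun z => r z = y).card ≤ M := by
          refine le_trans ?_ (h.card y)
          rw [← Set.ncard_coe_finset]
          refine Set.ncard_le_ncard (fun z hz => ?_) (h.fin y)
          exact (Finset.mem_filter.1 hz).2
        exact_mod_cast h1
    _ = M * ∑ y ∈ s.image r, ‖f y‖ ^ 2 := by rw [Finset.mul_sum]
    _ ≤ M * ∑' y, ‖f y‖ ^ 2 :=
        mul_le_mul_of_nonneg_left ((summable_sq f).sum_le_tsum _ fun _ _ => by positivity) (by positivity)

include h in
lemma Fibre.summable (f : L2 Y) : Summable fun z => ‖f (r z)‖ ^ 2 :=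
  summable_of_sum_le (fun _ => by positivity) (h.sum_le f)

/-- composition with a map with small fibres -/
noncomputable def plf : L2 Y →L[ℂ] L2 Z :=
  LinearMap.mkContinuous
    { toFun := fun f => ⟨fun z => f (r z), memL2 (h.summable f)⟩
      map_add' := fun f g => by ext x; simp
      map_smul' := fun c f => by ext x; simp } (Real.sqrt M) (by
    intro f
    apply norm_le_of_sq (Real.sqrt_nonneg _)
    rw [norm_sq_eq, norm_sq_eq, Real.sq_sqrt (Nat.cast_nonneg _)]
    exact (h.summable f).tsum_le_of_sum_le (h.sum_le f))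

@[simp] lemma plf_apply (f : L2 Y) (z : Z) : plf h f z = f (r z) := rfl

/-- the sum over the fibres -/
noncomputable def psf : L2 Z →L[ℂ] L2 Y := ContinuousLinearMap.adjoint (plf h)

lemma psf_apply (f : L2 Z) (y : Y) : psf h f y = ∑ z ∈ (h.fin y).toFinset, f z := by
  classical
  have h1 : psf h f y = ⟪(lp.single 2 y (1 : ℂ) : L2 Y), psf h f⟫_ℂ := by
    rw [lp.inner_single_left]
    simp
  rw [h1, psf, ContinuousLinearMap.adjoint_inner_right, inner_eq, tsum_eq_sum (s := (h.fin y).toFinset)]
  · refine Finset.sum_congr rfl fun z hz => ?_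
    have hz' : r z = y := (h.fin y).mem_toFinset.1 hz
    rw [plf_apply, hz']
    simp
  · intro z hz
    have hz' : r z ≠ y := fun h' => hz ((h.fin y).mem_toFinset.2 h')
    rw [plf_apply]
    simp [hz']

/-- compatible bijections -/
lemma psf_pull {p q : Z → Z} {p' q' : Y → Y} (hpq : ∀ x, p (q x) = x) (hqp : ∀ x, q (p x) = x)
    (hpq' : ∀ x, p' (q' x) = x) (hqp' : ∀ x, q' (p' x) = x) (hr : ∀ z, r (p z) = p' (r z)) (f : L2 Z) :
    psf h (pull p (Function.LeftInverse.injective hqp) f) =
      pull p' (Function.LeftInverse.injective hqp') (psf h f) := by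
  refine ext_inner_right ℂ fun u => ?_
  rw [psf, ContinuousLinearMap.adjoint_inner_left, inner_pull p q hpq hqp, inner_pull p' q' hpq' hqp',
    ContinuousLinearMap.adjoint_inner_left]
  congr 1
  ext z
  show u (r (q z)) = u (q' (r z))
  have h1 : r z = p' (r (q z)) := by rw [← hr, hpq]
  rw [h1, hqp']

/-- compatible multiplications -/
lemma psf_mul {m : Z → ℂ} (hm : ∀ x, ‖m x‖ ≤ 1) {m' : Y → ℂ} (hm' : ∀ x, ‖m' x‖ ≤ 1)
    (hr : ∀ z, m z = m' (r z)) (f : L2 Z) : psf h (mul m hm f) = mul m' hm' (psf h f) := by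
  ext y
  rw [mul_apply, psf_apply, psf_apply, Finset.mul_sum]
  refine Finset.sum_congr rfl fun z hz => ?_
  have hz' : r z = y := (h.fin y).mem_toFinset.1 hz
  rw [mul_apply, hr, hz']

end fib

end Npc
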