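import Pool.Agent.Npc.Dim
import Pool.Agent.Npc.Fib

/-!
# Project NPC: computation of a dimension on pieces

`vd_eq_sum_loc`: `Y` is covered by the translates of the images of the injective maps `p a : Y' a → Y`, and the subspaces `V`
and `V' a` are mapped to each other by restriction to and extension by zero from the image of `p a`; then
`vd Γ V = ∑ a, vd (Γ' a) (V' a)`.
-/

set_option autoImplicit false
set_option linter.unusedSectionVars false

open scoped ComplexConjugate InnerProductSpace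
open Filter Topology

namespace Npc

open Singer (L2 pull push mul pull_apply push_apply)

section loc
variable {Y Y' : Type*}

theorem inner_push_left {p : Y' → Y} (hp : Function.Injective p) (f : L2 Y') (u : L2 Y) :
    ⟪push p hp f, u⟫_ℂ = ⟪f, pull p hp u⟫_ℂ := by
  rw [Singer.inner_eq, Singer.inner_eq]
  rw [← hp.tsum_eq (f := fun y => conj (push p hp f y) * u y)]
  · refine tsum_congr fun x => ?_
    rw [push_apply, pull_apply]
  · intro y hy
    by_contra h
    refine hy ?_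
    show conj (push p hp f y) * u y = 0
    rw [Singer.push_apply_of_notMem p hp f h, map_zero, zero_mul]

theorem push_dl {p : Y' → Y} (hp : Function.Injective p) (y : Y') : push p hp (dl y) = dl (p y) := by
  refine ext_inner_right ℂ fun u => ?_
  rw [inner_push_left, inner_dl_left, inner_dl_left, pull_apply]

/-- the projection of a delta function on a piece -/
theorem pr_dl_push {p : Y' → Y} (hp : Function.Injective p) {V : Submodule ℂ (L2 Y)} {V' : Submodule ℂ (L2 Y')}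
    (h1 : ∀ f ∈ V', push p hp f ∈ V) (h2 : ∀ f ∈ V, pull p hp f ∈ V') (y : Y') :
    pr V (dl (p y)) = push p hp (pr V' (dl y)) := by
  refine pr_unique ?_ ?_
  · have h3 : V'.topologicalClosure ≤ V.topologicalClosure.comap (push p hp : L2 Y' →ₗ[ℂ] L2 Y) := by
      refine V'.topologicalClosure_minimal (fun x hx => V.le_topologicalClosure (h1 x hx)) ?_
      exact (Submodule.isClosed_topologicalClosure V).preimage (push p hp).continuous
    exact h3 (pr_mem_closure V' _)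
  · rw [← push_dl hp, ← map_sub, Submodule.mem_orthogonal']
    intro u hu
    rw [inner_push_left]
    exact (Submodule.mem_orthogonal' V' _).1 (sub_pr_mem V' _) _ (h2 u hu)

theorem norm_pr_dl_push {p : Y' → Y} (hp : Function.Injective p) {V : Submodule ℂ (L2 Y)} {V' : Submodule ℂ (L2 Y')}
    (h1 : ∀ f ∈ V', push p hp f ∈ V) (h2 : ∀ f ∈ V, pull p hp f ∈ V') (y : Y') :
    ‖pr V (dl (p y))‖ = ‖pr V' (dl y)‖ := by
  rw [pr_dl_push hp h1 h2, Singer.norm_push]

end loc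

/-- the dimension, computed on pieces -/
theorem vd_eq_sum_loc {Γ Y : Type*} [Group Γ] [MulAction Γ Y] [Cof Γ Y] {τ : Type*} [Fintype τ] {Γ' : τ → Type*}
    {Y' : τ → Type*} [∀ a, Group (Γ' a)] [∀ a, MulAction (Γ' a) (Y' a)] [∀ a, Cof (Γ' a) (Y' a)]
    (p : ∀ a, Y' a → Y) (hp : ∀ a, Function.Injective (p a)) {V : Submodule ℂ (L2 Y)} (hV : Inv Γ V)
    (V' : ∀ a, Submodule ℂ (L2 (Y' a)))
    (h1 : ∀ a, ∀ f ∈ V' a, push (p a) (hp a) f ∈ V) (h2 : ∀ a, ∀ f ∈ V, pull (p a) (hp a) f ∈ V' a)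
    (hcov : ∀ y, ∃ a, ∃ y' : Y' a, ∃ γ : Γ, γ • p a y' = y)
    (heq : ∀ (a : τ) (y' : Y' a) (g : Γ' a), ∃ γ : Γ, γ • p a y' = p a (g • y'))
    (hinj : ∀ (a b : τ) (y' : Y' a) (z' : Y' b) (γ : Γ), γ • p a y' = p b z' →
      (⟨a, Quotient.mk'' y'⟩ : Σ a, Orb (Γ' a) (Y' a)) = ⟨b, Quotient.mk'' z'⟩) :
    vd Γ V = ∑ a, vd (Γ' a) (V' a) := by
  classical
  have ht : ∀ y, ∃! q : Σ a, Orb (Γ' a) (Y' a), ∃ γ : Γ, γ • p q.1 q.2.out = y := by
    intro y
    obtain ⟨a, y', γ, rfl⟩ := hcov y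
    have h3 : MulAction.orbitRel (Γ' a) (Y' a) (Quotient.out (Quotient.mk'' y' : Orb (Γ' a) (Y' a))) y' :=
      Quotient.mk_out y'
    obtain ⟨g, hg⟩ := h3
    obtain ⟨γ', hγ'⟩ := heq a y' g
    refine ⟨⟨a, Quotient.mk'' y'⟩, ⟨γ * γ'⁻¹, ?_⟩, ?_⟩
    · have h4 : p a (Quotient.out (Quotient.mk'' y' : Orb (Γ' a) (Y' a))) = γ' • p a y' := by
        rw [hγ']
        congr 1
        exact hg.symm
      show (γ * γ'⁻¹) • p a (Quotient.out (Quotient.mk'' y' : Orb (Γ' a) (Y' a))) = γ • p a y'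
      rw [h4, mul_smul, inv_smul_smul]
    · rintro ⟨b, q⟩ ⟨δ, hδ⟩
      have h5 : (γ⁻¹ * δ) • p b q.out = p a y' := by
        rw [mul_smul]
        have h6 : δ • p b q.out = γ • p a y' := hδ
        rw [h6, inv_smul_smul]
      have h7 := hinj b a q.out y' (γ⁻¹ * δ) h5
      rw [← h7]
      congr 1
      exact (Quotient.out_eq' q).symm
  rw [vd_eq_sum hV (fun q : Σ a, Orb (Γ' a) (Y' a) => p q.1 q.2.out) ht, Fintype.sum_sigma]
  refine Finset.sum_congr rfl fun a _ => ?_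
  unfold vd
  refine Finset.sum_congr rfl fun q _ => ?_
  rw [norm_pr_dl_push (hp a) (h1 a) (h2 a)]

/-- the dimension, computed on one piece -/
theorem vd_eq_loc {Γ Y : Type*} [Group Γ] [MulAction Γ Y] [Cof Γ Y] {Γ' Y' : Type*} [Group Γ'] [MulAction Γ' Y']
    [Cof Γ' Y'] (p : Y' → Y) (hp : Function.Injective p) {V : Submodule ℂ (L2 Y)} (hV : Inv Γ V)
    (V' : Submodule ℂ (L2 Y'))
    (h1 : ∀ f ∈ V', push p hp f ∈ V) (h2 : ∀ f ∈ V, pull p hp f ∈ V')
    (hcov : ∀ y, ∃ y' : Y', ∃ γ : Γ, γ • p y' = y)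
    (heq : ∀ (y' : Y') (g : Γ'), ∃ γ : Γ, γ • p y' = p (g • y'))
    (hinj : ∀ (y' z' : Y') (γ : Γ), γ • p y' = p z' → ∃ g : Γ', g • y' = z') :
    vd Γ V = vd Γ' V' := by
  have h := vd_eq_sum_loc (Γ := Γ) (τ := Unit) (Γ' := fun _ => Γ') (Y' := fun _ => Y') (fun _ => p) (fun _ => hp) hV
    (fun _ => V') (fun _ => h1) (fun _ => h2) (fun y => ?_) (fun _ => heq) ?_
  · rw [h]
    simp
  · obtain ⟨y', γ, h3⟩ := hcov y
    exact ⟨(), y', γ, h3⟩
  · rintro ⟨⟩ ⟨⟩ y' z' γ h3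
    obtain ⟨g, rfl⟩ := hinj y' z' γ h3
    congr 1
    exact Quotient.sound' ⟨g⁻¹, by
      show g⁻¹ • g • y' = y'
      rw [inv_smul_smul]⟩

end Npc
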