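import Pool.Agent.Npc.HalfY

/-!
# NPC cube complexes: independence of a label

A finite family `U x` of permutations of `Y` which moves the fibres of `χ` (except for `x₀`), a projection
`P = ∑ c x • pull (U x)` and a closed subspace `V` which is invariant under the `U x` and under the multiplication by the
indicator functions of the fibres of `χ`: the dimension of `V ⊓ fx P` is `c x₀` times the dimension of `V`.
-/

set_option autoImplicit false

open scoped ComplexConjugate InnerProductSpace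

namespace Npc

open Singer (L2 pull pull_apply)

theorem vd_ind {Γ : Type*} [Group Γ] {Y : Type*} [MulAction Γ Y] [Cof Γ Y] {F O : Type*} [Fintype F]
    {U : F → Equiv.Perm Y} {x₀ : F} (hU : ∀ y, U x₀ y = y) {χ : Y → O} (hχ : ∀ x, x ≠ x₀ → ∀ y, χ (U x y) ≠ χ y)
    {c : F → ℂ} {P : L2 Y →L[ℂ] L2 Y} (hPU : ∀ f, P f = ∑ x, c x • pull (U x) (U x).injective f)
    (hP : ∀ f, P (P f) = P f) (hs : ∀ f g : L2 Y, ⟪P f, g⟫_ℂ = ⟪f, P g⟫_ℂ)
    {V : Submodule ℂ (L2 Y)} (hc : IsClosed (V : Set (L2 Y))) (hl : ∀ a, ∀ f ∈ V, ct (fb χ a) f ∈ V)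
    (hV : ∀ x, ∀ f ∈ V, pull (U x) (U x).injective f ∈ V) {a : ℝ} (ha : c x₀ = a) :
    vd Γ (V ⊓ fx P) = a * vd Γ V := by
  classical
  refine vd_inf_fx hP hs hc (fun f hf => ?_) fun y => ?_
  · rw [hPU]
    exact V.sum_mem fun x _ => V.smul_mem _ (hV x f hf)
  · rw [hPU, lp.coeFn_sum, Finset.sum_apply, Finset.sum_eq_single x₀]
    · rw [lp.coeFn_smul, Pi.smul_apply, pull_apply, hU, smul_eq_mul, ha]
    · intro x _ hx
      rw [lp.coeFn_smul, Pi.smul_apply, pull_apply, pr_dl_apply hc hl (hχ x hx y), smul_zero]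
    · intro h
      exact absurd (Finset.mem_univ x₀) h

end Npc
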