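import Pool.Agent.Npc.Km
import Pool.Agent.Npc.Ind

/-!
# NPC cube complexes: the half-space lemma for the marked cycles

`km_le` : `vd (Km ⊓ asG) ≤ vd (Km ⊓ asM)` (half spaces of the right-angled Coxeter group of the hyperplanes);
`km_labG`, `km_labM` : the label of the marker is independent of the rest.
-/

set_option autoImplicit false
set_option linter.unusedSectionVars false
set_option linter.unusedVariables false

open scoped ComplexConjugate InnerProductSpace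

namespace Npc

open Singer

section halfspaces
variable {H P G : Type*} [Group G] [MulAction G H] [MulAction G P]

/-- the subgroup generated by the hyperplanes which cross `h` -/
def lkS (S : Sys H P G) (h : H) : Subgroup (RACG S.C) := Racg.sub (G := S.C) {v | S.C.Adj h v}

/-- the half space of the wall of `h`, on the side of `1` -/
noncomputable def hsW (S : Sys H P G) (h : H) : Set (RACG S.C) := (Racg.exists_half S.C h).choose

variable {S : Sys H P G} {h : H}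

lemma hsW_mul {w k : RACG S.C} (hw : w ∈ hsW S h) (hk : k ∈ Racg.sub (G := S.C) {v | v ≠ h}) : w * k ∈ hsW S h :=
  (Racg.exists_half S.C h).choose_spec.1 w hw k hk

lemma hsW_one {u : RACG S.C} (hu : u ∈ lkS S h) : u ∈ hsW S h :=
  (Racg.exists_half S.C h).choose_spec.2.1 u hu

lemma hsW_gen {w : RACG S.C} (hw : w ∈ hsW S h) (hu : w ∉ lkS S h) :
    w * Racg.gen S.C h ∈ hsW S h ∧ w * Racg.gen S.C h ∉ lkS S h :=
  (Racg.exists_half S.C h).choose_spec.2.2 w hw hu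

lemma gen_notMem_lkS : Racg.gen S.C h ∉ lkS S h :=
  Racg.gen_notMem (S.C.loopless.irrefl h)

lemma mul_gen_gen (w : RACG S.C) : w * Racg.gen S.C h * Racg.gen S.C h = w := by
  rw [mul_assoc, Racg.gen_mul_gen, mul_one]

lemma mul_gen_notMem {u : RACG S.C} (hu : u ∈ lkS S h) : u * Racg.gen S.C h ∉ lkS S h := fun h' => by
  have h1 := (lkS S h).mul_mem ((lkS S h).inv_mem hu) h'
  rw [inv_mul_cancel_left] at h1
  exact gen_notMem_lkS h1

lemma hsW_notMem {u : RACG S.C} (hu : u * Racg.gen S.C h ∈ lkS S h) : u ∉ hsW S h := fun h' => by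
  have h1 : u ∉ lkS S h := fun h2 => mul_gen_notMem h2 hu
  exact (hsW_gen h' h1).2 hu

lemma hsW_iff {w : RACG S.C} (h1 : w ∉ lkS S h) (h2 : w * Racg.gen S.C h ∉ lkS S h) :
    w ∈ hsW S h ↔ w * Racg.gen S.C h ∈ hsW S h := by
  constructor
  · exact fun h => (hsW_gen h h1).1
  · intro h
    have := (hsW_gen h h2).1
    rwa [mul_gen_gen] at this

lemma hsW_mul_gen {t : H} (ht : t ≠ h) (w : RACG S.C) : w * Racg.gen S.C t ∈ hsW S h ↔ w ∈ hsW S h := by
  have hk : Racg.gen S.C t ∈ Racg.sub (G := S.C) {v | v ≠ h} := Racg.gen_mem_sub ht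
  constructor
  · intro hw
    have := hsW_mul hw hk
    rwa [mul_gen_gen] at this
  · exact fun hw => hsW_mul hw hk

/-- the generator of `h` commutes with the group of the hyperplanes which cross `h` -/
lemma gen_comm_lkS {u : RACG S.C} (hu : u ∈ lkS S h) : Racg.gen S.C h * u = u * Racg.gen S.C h := by
  unfold lkS Racg.sub at hu
  induction hu using Subgroup.closure_induction with
  | mem x hx =>
    obtain ⟨v, hv, rfl⟩ := hx
    exact Racg.gen_comm hv
  | one => rw [mul_one, one_mul]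
  | mul x y _ _ hx hy => rw [← mul_assoc, hx, mul_assoc, hy, mul_assoc]
  | inv x _ hx =>
    have h1 : Commute (Racg.gen S.C h) x := hx
    exact h1.inv_right

lemma smul_lkS (g : G) {u : RACG S.C} (hu : u ∈ lkS S h) :
    Racg.map (fun t => g • t) (fun u v h => (S.adj g u v).2 h) u ∈ lkS S (g • h) := by
  have h1 : u ∈ (lkS S (g • h)).comap (Racg.map (G := S.C) (G' := S.C) (fun t => g • t)
      (fun u v h => (S.adj g u v).2 h)) := by
    have h2 : lkS S h ≤ (lkS S (g • h)).comap (Racg.map (G := S.C) (G' := S.C) (fun t => g • t)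
        (fun u v h => (S.adj g u v).2 h)) := by
      unfold lkS Racg.sub
      refine (Subgroup.closure_le _).2 ?_
      rintro _ ⟨v, hv, rfl⟩
      show Racg.map (G := S.C) (G' := S.C) (fun t => g • t) (fun u v h => (S.adj g u v).2 h) (Racg.gen S.C v) ∈
        lkS S (g • h)
      rw [Racg.map_gen]
      exact Racg.gen_mem_sub (G := S.C) (A := {v | S.C.Adj (g • h) v}) ((S.adj g h v).2 hv)
    exact h2 hu
  exact h1

end halfspaces

section labels
variable {H P G : Type*} [Group G] [MulAction G H] [MulAction G P]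
variable (S : Sys H P G) (F : Type*) [AddCommGroup F] (j : ℕ)

/-- the same marker and the same wall, on the same side -/
def orel : Setoid (Cell S F (j + 1)) where
  r y z := y.τ 0 = z.τ 0 ∧ (pw y.n)⁻¹ * pw z.n ∈ lkS S (y.τ 0)
  iseqv :=
    { refl := fun y => ⟨rfl, by rw [inv_mul_cancel]; exact Subgroup.one_mem _⟩
      symm := by
        rintro y z ⟨h1, h2⟩
        refine ⟨h1.symm, ?_⟩
        rw [← h1]
        have := Subgroup.inv_mem _ h2
        rwa [mul_inv_rev, inv_inv] at this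
      trans := by
        rintro x y z ⟨h1, h2⟩ ⟨h3, h4⟩
        refine ⟨h1.trans h3, ?_⟩
        rw [← h1] at h4
        have := Subgroup.mul_mem _ h2 h4
        rwa [mul_assoc, mul_inv_cancel_left] at this }

/-- oriented walls -/
def Ow : Type _ := Quotient (orel S F j)

variable {S F j}

/-- the oriented wall of a cell -/
def ow (y : Cell S F (j + 1)) : Ow S F j := Quotient.mk (orel S F j) y

lemma ow_eq {y z : Cell S F (j + 1)} : ow y = ow z ↔ y.τ 0 = z.τ 0 ∧ (pw y.n)⁻¹ * pw z.n ∈ lkS S (y.τ 0) :=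
  Quotient.eq (r := orel S F j)

lemma ow_surj (c : Ow S F j) : ∃ y, ow y = c := Quotient.exists_rep c

noncomputable instance : MulAction (Gh S F) (Ow S F j) where
  smul g := Quotient.map (sa := orel S F j) (sb := orel S F j) (fun y => g • y) (by
    rintro y z ⟨h1, h2⟩
    refine ⟨?_, ?_⟩
    · show g.right • y.τ 0 = g.right • z.τ 0
      rw [h1]
    · show (pw (g.left * g.right • y.n))⁻¹ * pw (g.left * g.right • z.n) ∈ lkS S (g.right • y.τ 0)
      rw [pw_mul, pw_mul, mul_inv_rev, mul_assoc, inv_mul_cancel_left, pw_smul, pw_smul, ← map_inv, ← map_mul]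
      exact smul_lkS _ h2)
  one_smul c := by
    obtain ⟨y, rfl⟩ := ow_surj c
    show ow ((1 : Gh S F) • y) = ow y
    rw [one_smul]
  mul_smul g g' c := by
    obtain ⟨y, rfl⟩ := ow_surj c
    show ow ((g * g') • y) = ow (g • g' • y)
    rw [mul_smul]

lemma ow_smul (g : Gh S F) (y : Cell S F (j + 1)) : ow (g • y) = g • ow y := rfl

/-- the other side -/
noncomputable def oop : Ow S F j → Ow S F j :=
  Quotient.map (sa := orel S F j) (sb := orel S F j) (fun y => y.mi 0) (by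
    rintro y z ⟨h1, h2⟩
    refine ⟨h1, ?_⟩
    show (pw (y.n * sW (y.τ 0)))⁻¹ * pw (z.n * sW (z.τ 0)) ∈ lkS S (y.τ 0)
    rw [← h1, pw_mul, pw_mul, pw_sW, mul_inv_rev, Racg.gen_inv, mul_assoc, ← mul_assoc (pw y.n)⁻¹, ← mul_assoc,
      gen_comm_lkS h2, mul_gen_gen]
    exact h2)

lemma oop_ow (y : Cell S F (j + 1)) : oop (ow y) = ow (y.mi 0) := rfl

lemma oop_oop (c : Ow S F j) : oop (oop c) = c := by
  obtain ⟨y, rfl⟩ := ow_surj c
  rw [oop_ow, oop_ow, Cell.mi_mi]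

lemma ow_gl (y : Cell S F (j + 1)) : ow (y.gl 0) = oop (ow y) := by
  rw [oop_ow, ow_eq]
  refine ⟨rfl, ?_⟩
  show (pw (y.n * sW (y.τ 0)))⁻¹ * pw (y.n * sW (y.τ 0)) ∈ _
  rw [inv_mul_cancel]
  exact Subgroup.one_mem _

lemma ow_mi (y : Cell S F (j + 1)) : ow (y.mi 0) = oop (ow y) := rfl

lemma oop_ne (y : Cell S F (j + 1)) : oop (ow y) ≠ ow y := by
  rw [oop_ow]
  intro h
  have h1 := (ow_eq.1 h.symm).2
  rw [Cell.mi_n, pw_mul, pw_sW, inv_mul_cancel_left] at h1
  exact gen_notMem_lkS h1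

/-- a representative -/
noncomputable def rp (c : Ow S F j) : Cell S F (j + 1) := (ow_surj c).choose

lemma ow_rp (c : Ow S F j) : ow (rp c) = c := (ow_surj c).choose_spec

/-- the good set of an oriented wall -/
noncomputable def gT (c : Ow S F j) (h : H) : Set (NN S F) :=
  {n | (rp c).τ 0 = h ∧ (pw (rp c).n)⁻¹ * pw n ∈ hsW S h}

lemma good_gT (c : Ow S F j) : Good (gT c) where
  w h t ht n := by
    show ((rp c).τ 0 = h ∧ (pw (rp c).n)⁻¹ * pw (n * sW t) ∈ hsW S h) ↔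
      ((rp c).τ 0 = h ∧ (pw (rp c).n)⁻¹ * pw n ∈ hsW S h)
    rw [pw_mul, pw_sW, ← mul_assoc, hsW_mul_gen ht]
  a h t ht x n := by
    show ((rp c).τ 0 = h ∧ (pw (rp c).n)⁻¹ * pw (n * eA t x) ∈ hsW S h) ↔
      ((rp c).τ 0 = h ∧ (pw (rp c).n)⁻¹ * pw n ∈ hsW S h)
    rw [pw_mul, pw_eA, mul_one]

/-- the set of the oriented walls whose cells are in the half space of `c` -/
noncomputable def gS (c : Ow S F j) : Set (Ow S F j) := ow '' (mk (gT c) : Set (Cell S F (j + 1)))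

lemma lkS_le {h : H} : lkS S h ≤ Racg.sub (G := S.C) {v | v ≠ h} :=
  Racg.sub_mono fun v (hv : S.C.Adj h v) => hv.ne'

lemma mem_gS {c : Ow S F j} {z : Cell S F (j + 1)} :
    ow z ∈ gS c ↔ (rp c).τ 0 = z.τ 0 ∧ (pw (rp c).n)⁻¹ * pw z.n ∈ hsW S (z.τ 0) := by
  constructor
  · rintro ⟨y, hy, h⟩
    obtain ⟨h1, h2⟩ := ow_eq.1 h
    have hy' : (rp c).τ 0 = y.τ 0 ∧ (pw (rp c).n)⁻¹ * pw y.n ∈ hsW S (y.τ 0) := hy
    refine ⟨hy'.1.trans h1, ?_⟩
    rw [← h1]
    have h3 := hsW_mul hy'.2 (lkS_le h2)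
    rwa [mul_assoc, mul_inv_cancel_left] at h3
  · exact fun h => ⟨z, h, rfl⟩

lemma gS_self (y : Cell S F (j + 1)) : ow y ∈ gS (ow y) := by
  rw [mem_gS]
  obtain ⟨h1, h2⟩ := ow_eq.1 (ow_rp (ow y))
  rw [← h1]
  exact ⟨rfl, hsW_one h2⟩

lemma gS_op (y : Cell S F (j + 1)) : oop (ow y) ∉ gS (ow y) := by
  rw [oop_ow, mem_gS]
  rintro ⟨h0, h3⟩
  obtain ⟨h1, h2⟩ := ow_eq.1 (ow_rp (ow y))
  refine hsW_notMem ?_ h3
  rw [Cell.mi_n, Cell.mi_τ, pw_mul, pw_sW, ← mul_assoc, mul_gen_gen, ← h1]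
  exact h2

lemma gS_iff (y z : Cell S F (j + 1)) (h1 : ow z ≠ ow y) (h2 : ow z ≠ oop (ow y)) :
    ow z ∈ gS (ow y) ↔ oop (ow z) ∈ gS (ow y) := by
  rw [oop_ow, mem_gS, mem_gS, Cell.mi_τ, Cell.mi_n, pw_mul, pw_sW, ← mul_assoc]
  have e : ow (rp (ow y)) = ow y := ow_rp _
  refine and_congr_right fun h0 => hsW_iff (fun h => h1 ?_) fun h => h2 ?_
  · rw [← e, eq_comm, ow_eq]
    exact ⟨h0, by rw [h0]; exact h⟩
  · rw [← oop_oop (ow z)]
    congr 1
    rw [oop_ow, ← e, eq_comm, ow_eq]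
    refine ⟨h0, ?_⟩
    rw [h0, Cell.mi_n, pw_mul, pw_sW, ← mul_assoc]
    exact h

/-- the glue move as a permutation -/
noncomputable def wlG : Equiv.Perm (Cell S F (j + 1)) := ⟨Cell.gl 0, Cell.gl 0, Cell.gl_gl 0, Cell.gl_gl 0⟩

/-- the mirror move as a permutation -/
noncomputable def wlM : Equiv.Perm (Cell S F (j + 1)) := ⟨Cell.mi 0, Cell.mi 0, Cell.mi_mi 0, Cell.mi_mi 0⟩

lemma asy_wlG : asy (wlG : Equiv.Perm (Cell S F (j + 1))) = asG S F j := rfl

lemma asy_wlM : asy (wlM : Equiv.Perm (Cell S F (j + 1))) = asM S F j := rfl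

end labels

section main
variable {H P G : Type*} [Group G] [MulAction G H] [MulAction G P]
variable {S : Sys H P G} {F : Type*} [AddCommGroup F] [Fintype F] {j : ℕ} {s : AddChar F ℂ → St}

lemma ct_eq_ind {Y : Type*} (A : Set Y) : (ct A : L2 Y →L[ℂ] L2 Y) = ind A := rfl

/-- **the half-space lemma for the marked cycles** -/
theorem km_le [Cof G P] : vd (Gh S F) (Km S F j s ⊓ asG S F j) ≤ vd (Gh S F) (Km S F j s ⊓ asM S F j) := by
  rw [← asy_wlG, ← asy_wlM]
  refine half_key (Γ := Gh S F) (o := ow) (op := oop) (S := gS) ow_smul oop_oop (Cell.gl_gl 0) (Cell.mi_mi 0)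
    ow_gl ow_mi oop_ne (fun g y => Cell.smul_gl g 0 y) (fun g y => Cell.smul_mi g 0 y) ?_ gS_self gS_op gS_iff
    mdl_Km.inv mdl_Km.cl ?_
  · intro c
    obtain ⟨y, rfl⟩ := ow_surj c
    refine ⟨⟨y.n * sW (y.τ 0) * y.n⁻¹, 1⟩, fun z hz => ?_⟩
    obtain ⟨h1, h2⟩ := ow_eq.1 hz
    refine Cell.ext ?_ (one_smul _ _).symm (funext fun i => (one_smul _ _).symm)
    show z.n * sW (z.τ 0) = y.n * sW (y.τ 0) * y.n⁻¹ * (1 : G) • z.n
    rw [one_smul, ← h1]
    have h3 := gen_comm_lkS h2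
    refine nn_ext ?_ fun t => ?_
    · have e : pw (y.n⁻¹) = (pw y.n)⁻¹ := rfl
      rw [pw_mul, pw_mul, pw_mul, pw_mul, pw_sW, e]
      have h4 : (pw y.n) = pw z.n * ((pw z.n)⁻¹ * pw y.n) := by rw [mul_inv_cancel_left]
      rw [h1] at h3
      calc pw z.n * Racg.gen S.C (z.τ 0)
          = pw z.n * (Racg.gen S.C (z.τ 0) * ((pw z.n)⁻¹ * pw y.n)) * (pw y.n)⁻¹ * pw z.n := by group
        _ = pw z.n * ((pw z.n)⁻¹ * pw y.n * Racg.gen S.C (z.τ 0)) * (pw y.n)⁻¹ * pw z.n := by rw [h1, h3]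
        _ = pw y.n * Racg.gen S.C (z.τ 0) * (pw y.n)⁻¹ * pw z.n := by group
    · have e : ch (y.n⁻¹) t = -ch y.n t := rfl
      rw [ch_mul, ch_mul, ch_mul, ch_mul, e, ch_sW]
      abel
  · intro y f hf
    have h1 := ind_mem_Km (good_gT (ow y)) hf
    have e : {z | ow z ∈ gS (ow y)} = (mk (gT (ow y)) : Set (Cell S F (j + 1))) := by
      ext z
      show ow z ∈ gS (ow y) ↔ (rp (ow y)).τ 0 = z.τ 0 ∧ (pw (rp (ow y)).n)⁻¹ * pw z.n ∈ hsW S (z.τ 0)
      exact mem_gS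
    rw [ct_eq_ind, e]
    exact h1

/-- the translation of the label of the marker as a permutation -/
noncomputable def eT (x : F) : Equiv.Perm (Cell S F (j + 1)) :=
  ⟨Cell.tl 0 x, Cell.tl 0 (-x), fun y => by rw [Cell.tl_tl, neg_add_cancel, Cell.tl_zero],
    fun y => by rw [Cell.tl_tl, add_neg_cancel, Cell.tl_zero]⟩

lemma inner_Tl (i : Fin j) (x : F) (f g : L2 (Cell S F j)) : ⟪Tl S F i x f, g⟫_ℂ = ⟪f, Tl S F i (-x) g⟫_ℂ :=
  inner_pull (Cell.tl i x) (Cell.tl i (-x)) (fun y => by rw [Cell.tl_tl, add_neg_cancel, Cell.tl_zero])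
    (fun y => by rw [Cell.tl_tl, neg_add_cancel, Cell.tl_zero]) f g

lemma inner_Ep (i : Fin j) (q : AddChar F ℂ) (f g : L2 (Cell S F j)) : ⟪Ep S F i q f, g⟫_ℂ = ⟪f, Ep S F i q g⟫_ℂ := by
  unfold Ep
  rw [av_apply, av_apply, inner_smul_left, inner_smul_right, sum_inner, inner_sum, map_inv₀, Complex.conj_natCast]
  congr 1
  refine Fintype.sum_equiv (Equiv.neg F) _ _ fun x => ?_
  rw [inner_smul_left, inner_smul_right, inner_Tl, Equiv.neg_apply]
  congr 1
  rw [AddChar.map_neg_eq_conj]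

lemma fx_Ep (q : AddChar F ℂ) : fx (Ep S F (0 : Fin (j + 1)) q) = ran S F j q := by
  ext f
  rw [mem_fx, mem_ran]

/-- the label of the marker is independent of a subspace which does not depend on it -/
theorem vd_lab [Cof G P] {V : Submodule ℂ (L2 (Cell S F (j + 1)))} (hc : IsClosed (V : Set (L2 (Cell S F (j + 1)))))
    (hl : ∀ a : F, ∀ f ∈ V, ind {y : Cell S F (j + 1) | ch y.n (y.τ 0) = a} f ∈ V)
    (hV : ∀ x, ∀ f ∈ V, Tl S F 0 x f ∈ V) (q : AddChar F ℂ) :
    vd (Gh S F) (V ⊓ ran S F j q) = vd (Gh S F) V / Fintype.card F := by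
  rw [← fx_Ep]
  have h := vd_ind (Γ := Gh S F) (U := fun x => eT x) (x₀ := (0 : F)) (χ := fun y => ch y.n (y.τ 0))
    (c := fun x => (Fintype.card F : ℂ)⁻¹ * q x) (P := Ep S F 0 q) (V := V) (a := (Fintype.card F : ℝ)⁻¹)
    (fun y => Cell.tl_zero 0 y) ?_ ?_ (Ep_Ep 0 q) (inner_Ep 0 q) hc hl hV ?_
  · rw [h]
    ring
  · intro x hx y
    show ch (y.n * eA (y.τ 0) x) (y.τ 0) ≠ ch y.n (y.τ 0)
    rw [ch_mul, ch_eA_self]
    intro h
    exact hx (by simpa using h)
  · intro f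
    unfold Ep
    rw [av_apply, Finset.smul_sum]
    refine Finset.sum_congr rfl fun x _ => ?_
    rw [smul_smul]
    rfl
  · rw [AddChar.map_zero_eq_one]
    push_cast
    ring

/-- the good set of a label -/
def lT (a : F) (h : H) : Set (NN S F) := {n | ch n h = a}

lemma good_lT (a : F) : Good (lT (S := S) a) where
  w h t ht n := by
    show ch (n * sW t) h = a ↔ ch n h = a
    rw [ch_mul, ch_sW, add_zero]
  a h t ht x n := by
    show ch (n * eA t x) h = a ↔ ch n h = a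
    rw [ch_mul, ch_eA_ne ht.symm, add_zero]

theorem km_labG [Cof G P] (q : AddChar F ℂ) :
    vd (Gh S F) (Km S F j s ⊓ asG S F j ⊓ ran S F j q) = vd (Gh S F) (Km S F j s ⊓ asG S F j) / Fintype.card F := by
  refine vd_lab (mdl_Km.inf mdl_asG).cl (fun a f hf => ⟨ind_mem_Km (good_lT a) hf.1, ?_⟩)
    (fun x f hf => ⟨Tl_mem_Km x hf.1, ?_⟩) q
  · have h2 := mem_asG.1 hf.2
    refine mem_asG.2 ?_
    have e : Gl S F 0 (ind {y : Cell S F (j + 1) | ch y.n (y.τ 0) = a} f) =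
        ind {y : Cell S F (j + 1) | ch y.n (y.τ 0) = a} (Gl S F 0 f) := by
      unfold Gl
      rw [ind_pull]
      congr 2
      ext y
      show ch (y.n * sW (y.τ 0)) (y.τ 0) = a ↔ ch y.n (y.τ 0) = a
      rw [ch_mul, ch_sW, add_zero]
    rw [e, h2, map_neg]
  · have h2 := mem_asG.1 hf.2
    refine mem_asG.2 ?_
    rw [← Tl_Gl, h2, map_neg]

theorem km_labM [Cof G P] (q : AddChar F ℂ) :
    vd (Gh S F) (Km S F j s ⊓ asM S F j ⊓ ran S F j q) = vd (Gh S F) (Km S F j s ⊓ asM S F j) / Fintype.card F := by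
  refine vd_lab (mdl_Km.inf mdl_asM).cl (fun a f hf => ⟨ind_mem_Km (good_lT a) hf.1, ?_⟩)
    (fun x f hf => ⟨Tl_mem_Km x hf.1, ?_⟩) q
  · have h2 := mem_asM.1 hf.2
    refine mem_asM.2 ?_
    have e : Mi S F 0 (ind {y : Cell S F (j + 1) | ch y.n (y.τ 0) = a} f) =
        ind {y : Cell S F (j + 1) | ch y.n (y.τ 0) = a} (Mi S F 0 f) := by
      unfold Mi
      rw [ind_pull]
      congr 2
      ext y
      show ch (y.n * sW (y.τ 0)) (y.τ 0) = a ↔ ch y.n (y.τ 0) = a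
      rw [ch_mul, ch_sW, add_zero]
    rw [e, h2, map_neg]
  · have h2 := mem_asM.1 hf.2
    refine mem_asM.2 ?_
    rw [← Tl_Mi, h2, map_neg]

end main

end Npc
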