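import Pool.Agent.Npc.Ops

/-!
# NPC cube complexes: the label projections

`av T ψ` = `(1 / |F|) ∑ x, ψ x • T x` for an action `T` of the finite group `F` by operators;
`Ep i ψ` : the letter `i` has the label `ψ`; `El t ψ` : the hyperplane `t` has the label `ψ`.
-/

set_option autoImplicit false
set_option linter.unusedSectionVars false
set_option linter.unusedVariables false

open scoped ComplexConjugate InnerProductSpace
open Filter Topology

namespace Npc

open Singer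

section av
variable {Y Z F : Type*} [AddCommGroup F] [Fintype F]

/-- an action of `F` by operators -/
structure FAct (T : F → L2 Y →L[ℂ] L2 Y) : Prop where
  zero : ∀ f, T 0 f = f
  add : ∀ x x' f, T x (T x' f) = T (x + x') f

/-- the spectral projection -/
noncomputable def av (T : F → L2 Y →L[ℂ] L2 Y) (ψ : AddChar F ℂ) : L2 Y →L[ℂ] L2 Y :=
  (Fintype.card F : ℂ)⁻¹ • ∑ x, ψ x • T x

lemma av_apply (T : F → L2 Y →L[ℂ] L2 Y) (ψ : AddChar F ℂ) (f : L2 Y) :
    av T ψ f = (Fintype.card F : ℂ)⁻¹ • ∑ x, ψ x • T x f := by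
  simp [av]

lemma av_comm {T : F → L2 Y →L[ℂ] L2 Y} {T' : F → L2 Z →L[ℂ] L2 Z} {B : L2 Y →L[ℂ] L2 Z}
    (h : ∀ x f, B (T x f) = T' x (B f)) (ψ : AddChar F ℂ) (f : L2 Y) : B (av T ψ f) = av T' ψ (B f) := by
  rw [av_apply, av_apply, map_smul, map_sum]
  congr 1
  refine Finset.sum_congr rfl fun x _ => ?_
  rw [map_smul, h]

lemma T_av {T : F → L2 Y →L[ℂ] L2 Y} (hT : FAct T) (x : F) (ψ : AddChar F ℂ) (f : L2 Y) :
    T x (av T ψ f) = ψ (-x) • av T ψ f := by
  rw [av_apply, map_smul, map_sum, smul_comm]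
  congr 1
  rw [Finset.smul_sum]
  refine Fintype.sum_equiv (Equiv.addLeft x) _ _ fun z => ?_
  rw [map_smul, hT.add, smul_smul, Equiv.coe_addLeft, ← AddChar.map_add_eq_mul, neg_add_cancel_left]

lemma av_av_self {T : F → L2 Y →L[ℂ] L2 Y} (hT : FAct T) (ψ : AddChar F ℂ) (f : L2 Y) :
    av T ψ (av T ψ f) = av T ψ f := by
  conv_lhs => rw [av_apply]
  have h : ∀ x, ψ x • T x (av T ψ f) = av T ψ f := fun x => by
    rw [T_av hT, smul_smul, ← AddChar.map_add_eq_mul, add_neg_cancel, AddChar.map_zero_eq_one, one_smul]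
  rw [Finset.sum_congr rfl fun x _ => h x, Finset.sum_const, Finset.card_univ, ← Nat.cast_smul_eq_nsmul ℂ, smul_smul,
    inv_mul_cancel₀ (by exact_mod_cast Fintype.card_ne_zero), one_smul]

lemma av_av_ne {T : F → L2 Y →L[ℂ] L2 Y} (hT : FAct T) {ψ χ : AddChar F ℂ} (h : ψ ≠ χ) (f : L2 Y) :
    av T ψ (av T χ f) = 0 := by
  classical
  conv_lhs => rw [av_apply]
  have h1 : ∀ x, ψ x • T x (av T χ f) = (ψ - χ) x • av T χ f := fun x => by
    rw [T_av hT, smul_smul, AddChar.sub_apply, AddChar.map_neg_eq_inv]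
  rw [Finset.sum_congr rfl fun x _ => h1 x, ← Finset.sum_smul, AddChar.sum_eq_ite, if_neg (sub_ne_zero.2 h), zero_smul,
    smul_zero]

lemma sum_av {T : F → L2 Y →L[ℂ] L2 Y} (hT : FAct T) (f : L2 Y) : ∑ ψ : AddChar F ℂ, av T ψ f = f := by
  classical
  simp_rw [av_apply]
  rw [← Finset.smul_sum, Finset.sum_comm]
  simp_rw [← Finset.sum_smul]
  rw [Finset.sum_eq_single 0]
  · rw [AddChar.sum_apply_eq_ite, if_pos rfl, hT.zero, smul_smul,
      inv_mul_cancel₀ (by exact_mod_cast Fintype.card_ne_zero), one_smul]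
  · intro x _ hx
    rw [AddChar.sum_apply_eq_ite, if_neg hx, zero_smul]
  · intro h
    exact absurd (Finset.mem_univ _) h

end av

section ep
variable {H P G : Type*} [Group G] [MulAction G H] [MulAction G P]
variable (S : Sys H P G) (F : Type*) [AddCommGroup F] [Fintype F] {j : ℕ}

/-- the letter `i` has the label `ψ` -/
noncomputable def Ep (i : Fin j) (ψ : AddChar F ℂ) : L2 (Cell S F j) →L[ℂ] L2 (Cell S F j) := av (Tl S F i) ψ

/-- the hyperplane `t` has the label `ψ` -/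
noncomputable def El (t : H) (ψ : AddChar F ℂ) : L2 (Cell S F j) →L[ℂ] L2 (Cell S F j) := av (La S F t) ψ

variable {S F}

lemma fact_Tl (i : Fin j) : FAct (Tl S F i) := ⟨Tl_zero i, fun x x' f => Tl_Tl i x x' f⟩

lemma La_La (t : H) (x x' : F) (f : L2 (Cell S F j)) : La S F t x (La S F t x' f) = La S F t (x + x') f := by
  ext y
  rw [La_apply, La_apply, La_apply, lt_lt, add_comm]

lemma La_zero (t : H) (f : L2 (Cell S F j)) : La S F t 0 f = f := by
  ext y
  rw [La_apply, lt_zero]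

lemma fact_La (t : H) : FAct (La S F t : F → L2 (Cell S F j) →L[ℂ] L2 (Cell S F j)) :=
  ⟨La_zero t, fun x x' f => La_La t x x' f⟩

@[simp] lemma Ep_Ep (i : Fin j) (ψ : AddChar F ℂ) (f : L2 (Cell S F j)) : Ep S F i ψ (Ep S F i ψ f) = Ep S F i ψ f :=
  av_av_self (fact_Tl i) ψ f

lemma Ep_Ep_ne (i : Fin j) {ψ χ : AddChar F ℂ} (h : ψ ≠ χ) (f : L2 (Cell S F j)) :
    Ep S F i ψ (Ep S F i χ f) = 0 := av_av_ne (fact_Tl i) h f

lemma sum_Ep (i : Fin j) (f : L2 (Cell S F j)) : ∑ ψ, Ep S F i ψ f = f := sum_av (fact_Tl i) f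

lemma El_El (t : H) (ψ : AddChar F ℂ) (f : L2 (Cell S F j)) : El S F t ψ (El S F t ψ f) = El S F t ψ f :=
  av_av_self (fact_La t) ψ f

/-- on the cells with `i`-th letter `t`, the two projections agree -/
lemma Ep_eq_El (i : Fin j) (ψ : AddChar F ℂ) (f : L2 (Cell S F j)) (y : Cell S F j) :
    Ep S F i ψ f y = El S F (y.τ i) ψ f y := by
  unfold Ep El
  rw [av_apply, av_apply, lp.coeFn_smul, lp.coeFn_smul, Pi.smul_apply, Pi.smul_apply, lp.coeFn_sum, lp.coeFn_sum,
    Finset.sum_apply, Finset.sum_apply]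
  congr 1
  refine Finset.sum_congr rfl fun x _ => ?_
  rw [lp.coeFn_smul, lp.coeFn_smul, Pi.smul_apply, Pi.smul_apply, Tl_apply, La_apply, tl_eq_lt]

/-- an operator which maps the letter `i` to the letter `i'` -/
structure Itw {j j' : ℕ} (B : L2 (Cell S F j) →L[ℂ] L2 (Cell S F j')) (i : Fin j) (i' : Fin j') : Prop where
  tl : ∀ x f, B (Tl S F i x f) = Tl S F i' x (B f)
  mi : ∀ f, B (Mi S F i f) = Mi S F i' (B f)
  gl : ∀ f, B (Gl S F i f) = Gl S F i' (B f)

lemma itw_DD (i : Fin j) : Itw (DD S F) i.succ i := ⟨DD_Tl i, DD_Mi i, DD_Gl i⟩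

lemma itw_Pm (π : Equiv.Perm (Fin j)) (i : Fin j) : Itw (Pm S F π) i (π i) := ⟨fun _ _ => rfl, fun _ => rfl, fun _ => rfl⟩

lemma itw_La (t : H) (x : F) (i : Fin j) : Itw (La S F t x) i i := ⟨La_Tl t x i, La_Mi t x i, La_Gl t x i⟩

lemma itw_Tl {i i' : Fin j} (x : F) : Itw (Tl S F i x) i' i' := ⟨Tl_comm i i' x, Tl_Mi i i' x, Tl_Gl i i' x⟩

lemma itw_Mi {i i' : Fin j} (h : i ≠ i') : Itw (Mi S F i) i' i' :=
  ⟨fun x f => (Tl_Mi i' i x f).symm, Mi_comm h, fun f => (Gl_Mi h.symm f).symm⟩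

lemma itw_Gl {i i' : Fin j} (h : i ≠ i') : Itw (Gl S F i) i' i' :=
  ⟨fun x f => (Tl_Gl i' i x f).symm, Gl_Mi h, Gl_comm h⟩

namespace Itw
variable {j j' j'' : ℕ} {B B' : L2 (Cell S F j) →L[ℂ] L2 (Cell S F j')} {i : Fin j} {i' : Fin j'}

lemma ep (hB : Itw B i i') (ψ : AddChar F ℂ) (f : L2 (Cell S F j)) : B (Ep S F i ψ f) = Ep S F i' ψ (B f) :=
  av_comm hB.tl ψ f

lemma comp {B₂ : L2 (Cell S F j') →L[ℂ] L2 (Cell S F j'')} {i'' : Fin j''} (h2 : Itw B₂ i' i'') (hB : Itw B i i') :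
    Itw (B₂.comp B) i i'' :=
  ⟨fun x f => by
      rw [ContinuousLinearMap.comp_apply, hB.tl, h2.tl]
      rfl,
    fun f => by
      rw [ContinuousLinearMap.comp_apply, hB.mi, h2.mi]
      rfl,
    fun f => by
      rw [ContinuousLinearMap.comp_apply, hB.gl, h2.gl]
      rfl⟩

lemma add (hB : Itw B i i') (hB' : Itw B' i i') : Itw (B + B') i i' :=
  ⟨fun x f => by simp [hB.tl, hB'.tl], fun f => by simp [hB.mi, hB'.mi], fun f => by simp [hB.gl, hB'.gl]⟩

lemma smul (c : ℂ) (hB : Itw B i i') : Itw (c • B) i i' :=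
  ⟨fun x f => by simp [hB.tl], fun f => by simp [hB.mi], fun f => by simp [hB.gl]⟩

lemma sum {α : Type*} {s : Finset α} {B : α → L2 (Cell S F j) →L[ℂ] L2 (Cell S F j')} (h : ∀ a ∈ s, Itw (B a) i i') :
    Itw (∑ a ∈ s, B a) i i' := by
  classical
  induction s using Finset.induction_on with
  | empty => exact ⟨fun x f => by simp, fun f => by simp, fun f => by simp⟩
  | insert a s ha ih =>
    rw [Finset.sum_insert ha]
    exact (h a (Finset.mem_insert_self _ _)).add (ih fun b hb => h b (Finset.mem_insert_of_mem hb))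

end Itw

lemma itw_Ep {i i' : Fin j} (ψ : AddChar F ℂ) : Itw (Ep S F i ψ) i' i' :=
  (Itw.sum fun x _ => (itw_Tl x).smul _).smul _

lemma itw_El (t : H) (ψ : AddChar F ℂ) (i : Fin j) : Itw (El S F t ψ) i i :=
  (Itw.sum fun x _ => (itw_La t x i).smul _).smul _

lemma DD_El (t : H) (ψ : AddChar F ℂ) (f : L2 (Cell S F (j + 1))) : DD S F (El S F t ψ f) = El S F t ψ (DD S F f) :=
  av_comm (DD_La t) ψ f

lemma El_Pm (t : H) (ψ : AddChar F ℂ) (π : Equiv.Perm (Fin j)) (f : L2 (Cell S F j)) :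
    El S F t ψ (Pm S F π f) = Pm S F π (El S F t ψ f) := 
  (av_comm (T := La S F t) (T' := La S F t) (B := Pm S F π) (fun _ _ => rfl) ψ f).symm

/-- multiplication by the indicator function of a set invariant under the moves of the letter `i` -/
lemma itw_ind {A : Set (Cell S F j)} {i : Fin j} (h1 : ∀ x y, y.tl i x ∈ A ↔ y ∈ A) (h2 : ∀ y, y.mi i ∈ A ↔ y ∈ A)
    (h3 : ∀ y, y.gl i ∈ A ↔ y ∈ A) : Itw (ind A) i i :=
  ⟨fun x f => by
      classical
      ext y
      rw [ind_apply, Tl_apply, Tl_apply, ind_apply]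
      simp only [h1],
    fun f => by
      classical
      ext y
      rw [ind_apply, Mi_apply, Mi_apply, ind_apply]
      simp only [h2],
    fun f => by
      classical
      ext y
      rw [ind_apply, Gl_apply, Gl_apply, ind_apply]
      simp only [h3]⟩

end ep

end Npc
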