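import Pool.Agent.Npc.Cut
import Pool.Agent.Npc.Dim

/-!
# NPC cube complexes: the half-space lemma

`fx P`: the fixed vectors of `P`; `asy e`: the functions with `f (e y) = -f y`; `vd_inf_fx`: the dimension of `V ⊓ fx P` for
a commuting projection `P` whose diagonal on `V` is `c`; `vd_asy`: the antisymmetric part of a local subspace has half the
dimension; `half_key`: the half-space lemma (helper75, helper96).
-/

set_option autoImplicit false
set_option linter.unusedSectionVars false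
set_option linter.unusedVariables false

open scoped ComplexConjugate InnerProductSpace

namespace Npc

open Singer (L2 pull pull_apply mul mul_apply inner_eq summable_inner')

section proj
variable {Y : Type*}

/-- the norm of the projection of a basis vector -/
lemma norm_pr_dl (V : Submodule ℂ (L2 Y)) (y : Y) : ((‖pr V (dl y)‖ ^ 2 : ℝ) : ℂ) = pr V (dl y) y := by
  have h2 : ⟪dl y - pr V (dl y), pr V (dl y)⟫_ℂ = 0 := by
    have h3 := sub_pr_mem V (dl y)
    rw [← Submodule.orthogonal_closure] at h3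
    exact (Submodule.mem_orthogonal' _ _).1 h3 _ (pr_mem_closure V _)
  rw [inner_sub_left, sub_eq_zero, inner_dl_left] at h2
  rw [h2, inner_self_eq_norm_sq_to_K]
  simp

/-- the fixed vectors of an operator -/
noncomputable def fx (P : L2 Y →L[ℂ] L2 Y) : Submodule ℂ (L2 Y) :=
  LinearMap.ker ((P - 1 : L2 Y →L[ℂ] L2 Y) : L2 Y →ₗ[ℂ] L2 Y)

lemma mem_fx {P : L2 Y →L[ℂ] L2 Y} {f : L2 Y} : f ∈ fx P ↔ P f = f := by
  show P f - f = 0 ↔ _
  rw [sub_eq_zero]

lemma isClosed_fx (P : L2 Y →L[ℂ] L2 Y) : IsClosed (fx P : Set (L2 Y)) :=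
  (P - 1).isClosed_ker

/-- the projection onto the intersection with the range of a commuting projection -/
lemma pr_inf_fx {P : L2 Y →L[ℂ] L2 Y} (hP : ∀ f, P (P f) = P f) (hs : ∀ f g : L2 Y, ⟪P f, g⟫_ℂ = ⟪f, P g⟫_ℂ)
    {V : Submodule ℂ (L2 Y)} (hc : IsClosed (V : Set (L2 Y))) (hV : ∀ f ∈ V, P f ∈ V) (f : L2 Y) :
    pr (V ⊓ fx P) f = P (pr V f) := by
  refine pr_unique (Submodule.le_topologicalClosure _ ⟨hV _ (pr_mem hc f), mem_fx.2 (hP _)⟩) ?_
  rw [Submodule.mem_orthogonal]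
  rintro w ⟨hw1, hw2⟩
  rw [inner_sub_right, ← hs, mem_fx.1 hw2, ← inner_sub_right]
  exact (Submodule.mem_orthogonal _ _).1 (sub_pr_mem V f) w hw1

lemma pr_ct {V : Submodule ℂ (L2 Y)} (hc : IsClosed (V : Set (L2 Y))) {S : Set Y} (hS : ∀ f ∈ V, ct S f ∈ V)
    (f : L2 Y) : pr V (ct S f) = ct S (pr V f) := by
  refine pr_unique (Submodule.le_topologicalClosure _ (hS _ (pr_mem hc f))) ?_
  rw [← map_sub, Submodule.mem_orthogonal]
  intro w hw
  rw [← inner_ct_left]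
  exact (Submodule.mem_orthogonal _ _).1 (sub_pr_mem V f) _ (hS w hw)

lemma ct_dl_mem {S : Set Y} {y : Y} (h : y ∈ S) : ct S (dl y) = dl y := by
  ext z
  by_cases hz : z = y
  · subst hz
    rw [ct_mem h]
  · by_cases hS : z ∈ S
    · rw [ct_mem hS]
    · rw [ct_notMem hS, dl_apply_ne hz]

/-- local subspaces: the projection of a basis vector is supported in the fibre -/
lemma pr_dl_apply {O : Type*} {o : Y → O} {V : Submodule ℂ (L2 Y)} (hc : IsClosed (V : Set (L2 Y)))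
    (hl : ∀ c, ∀ f ∈ V, ct (fb o c) f ∈ V) {y z : Y} (h : o z ≠ o y) : pr V (dl y) z = 0 := by
  have h1 : ct (fb o (o y)) (dl y) = dl y := ct_dl_mem rfl
  rw [← h1, pr_ct hc (hl _), ct_notMem (by rw [mem_fb]; exact h)]

end proj
section asy
variable {Y : Type*}

lemma inner_pull_left {e : Equiv.Perm Y} (he : ∀ y, e (e y) = y) (f g : L2 Y) :
    ⟪pull e e.injective f, g⟫_ℂ = ⟪f, pull e e.injective g⟫_ℂ := by
  rw [inner_eq, inner_eq, ← e.tsum_eq]
  congr 1
  funext y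
  simp [he]

/-- antisymmetric functions -/
noncomputable def asy (e : Equiv.Perm Y) : Submodule ℂ (L2 Y) :=
  LinearMap.ker ((1 + pull e e.injective : L2 Y →L[ℂ] L2 Y) : L2 Y →ₗ[ℂ] L2 Y)

lemma mem_asy {e : Equiv.Perm Y} {f : L2 Y} : f ∈ asy e ↔ pull e e.injective f = -f := by
  show f + pull e e.injective f = 0 ↔ _
  rw [add_comm, add_eq_zero_iff_eq_neg]

lemma mem_asy_apply {e : Equiv.Perm Y} {f : L2 Y} : f ∈ asy e ↔ ∀ y, f (e y) = -f y := by
  rw [mem_asy]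
  constructor
  · intro h y
    have := congrArg (fun u : L2 Y => u y) h
    simpa using this
  · intro h
    ext y
    rw [pull_apply, h, lp.coeFn_neg, Pi.neg_apply]

lemma isClosed_asy (e : Equiv.Perm Y) : IsClosed (asy e : Set (L2 Y)) :=
  (1 + pull e e.injective : L2 Y →L[ℂ] L2 Y).isClosed_ker

lemma pull_pull_self {e : Equiv.Perm Y} (he : ∀ y, e (e y) = y) (f : L2 Y) :
    pull e e.injective (pull e e.injective f) = f := by
  ext y
  simp [he]

/-- the projection onto the antisymmetric functions -/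
noncomputable def pa (e : Equiv.Perm Y) : L2 Y →L[ℂ] L2 Y := (1 / 2 : ℂ) • (1 - pull e e.injective)

lemma pa_apply (e : Equiv.Perm Y) (f : L2 Y) : pa e f = (1 / 2 : ℂ) • (f - pull e e.injective f) := rfl

lemma pa_pa {e : Equiv.Perm Y} (he : ∀ y, e (e y) = y) (f : L2 Y) : pa e (pa e f) = pa e f := by
  rw [pa_apply, pa_apply, map_smul, map_sub, pull_pull_self he]
  module

lemma inner_pa {e : Equiv.Perm Y} (he : ∀ y, e (e y) = y) (f g : L2 Y) : ⟪pa e f, g⟫_ℂ = ⟪f, pa e g⟫_ℂ := by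
  have h : conj (1 / 2 : ℂ) = 1 / 2 := by rw [map_div₀, map_one, map_ofNat]
  rw [pa_apply, pa_apply, inner_smul_left, inner_smul_right, inner_sub_left, inner_sub_right, inner_pull_left he, h]

lemma fx_pa (e : Equiv.Perm Y) : fx (pa e) = asy e := by
  ext f
  rw [mem_fx, mem_asy, pa_apply]
  constructor
  · intro h
    have h2 : f - pull e e.injective f = (2 : ℂ) • f := by
      conv_rhs => rw [← h]
      rw [smul_smul]
      norm_num
    rw [two_smul, sub_eq_iff_eq_add, add_assoc, left_eq_add] at h2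
    exact (neg_eq_of_add_eq_zero_right h2).symm
  · intro h
    rw [h, sub_neg_eq_add, ← two_smul ℂ f, smul_smul]
    norm_num

end asy

section dims
variable {Γ : Type*} [Group Γ] {Y : Type*} [MulAction Γ Y] [Cof Γ Y]

theorem vd_inf_fx {P : L2 Y →L[ℂ] L2 Y} (hP : ∀ f, P (P f) = P f) (hs : ∀ f g : L2 Y, ⟪P f, g⟫_ℂ = ⟪f, P g⟫_ℂ)
    {V : Submodule ℂ (L2 Y)} (hc : IsClosed (V : Set (L2 Y))) (hV : ∀ f ∈ V, P f ∈ V) {c : ℝ}
    (h : ∀ y, P (pr V (dl y)) y = c * pr V (dl y) y) : vd Γ (V ⊓ fx P) = c * vd Γ V := by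
  unfold vd
  rw [Finset.mul_sum]
  refine Finset.sum_congr rfl fun q _ => ?_
  generalize q.out = y
  have h1 := norm_pr_dl (V ⊓ fx P) y
  have h2 := norm_pr_dl V y
  have h3 : ((‖pr (V ⊓ fx P) (dl y)‖ ^ 2 : ℝ) : ℂ) = ((c * ‖pr V (dl y)‖ ^ 2 : ℝ) : ℂ) := by
    rw [Complex.ofReal_mul, h2, ← h, ← pr_inf_fx hP hs hc hV]
    exact h1
  exact_mod_cast h3

/-- the antisymmetric part of a local subspace has half the dimension -/
theorem vd_asy {O : Type*} {o : Y → O} {e : Equiv.Perm Y} (he : ∀ y, e (e y) = y) (ho : ∀ y, o (e y) ≠ o y)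
    {V : Submodule ℂ (L2 Y)} (hc : IsClosed (V : Set (L2 Y))) (hl : ∀ c, ∀ f ∈ V, ct (fb o c) f ∈ V)
    (hr : ∀ f ∈ V, pull e e.injective f ∈ V) : 2 * vd Γ (V ⊓ asy e) = vd Γ V := by
  have h := vd_inf_fx (Γ := Γ) (pa_pa he) (inner_pa he) hc (c := 1 / 2)
    (fun f hf => V.smul_mem _ (V.sub_mem hf (hr f hf))) fun y => by
      have h0 : pull e e.injective (pr V (dl y)) y = 0 := by
        rw [pull_apply]
        exact pr_dl_apply hc hl (ho y)
      rw [pa_apply, lp.coeFn_smul, Pi.smul_apply, lp.coeFn_sub, Pi.sub_apply, h0, sub_zero, smul_eq_mul]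
      norm_num
  rw [fx_pa] at h
  rw [h]
  ring

/-- **the half-space lemma** (helper75, helper96) -/
theorem half_key {O : Type*} [MulAction Γ O] {o : Y → O} (ho : ∀ (g : Γ) y, o (g • y) = g • o y)
    {op : O → O} (hop : ∀ c, op (op c) = c) {e e' : Equiv.Perm Y} (he : ∀ y, e (e y) = y) (he' : ∀ y, e' (e' y) = y)
    (hoe : ∀ y, o (e y) = op (o y)) (hoe' : ∀ y, o (e' y) = op (o y)) (hne : ∀ y, op (o y) ≠ o y)
    (hee : ∀ (g : Γ) y, e (g • y) = g • e y) (hee' : ∀ (g : Γ) y, e' (g • y) = g • e' y)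
    (hg : ∀ c, ∃ g : Γ, ∀ y, o y = c → e' y = g • y)
    {S : O → Set O} (hS1 : ∀ y, o y ∈ S (o y)) (hS2 : ∀ y, op (o y) ∉ S (o y))
    (hS3 : ∀ y z, o z ≠ o y → o z ≠ op (o y) → (o z ∈ S (o y) ↔ op (o z) ∈ S (o y)))
    {K : Submodule ℂ (L2 Y)} (hKi : Inv Γ K) (hKc : IsClosed (K : Set (L2 Y)))
    (hKS : ∀ y, ∀ f ∈ K, ct {z | o z ∈ S (o y)} f ∈ K) : vd Γ (K ⊓ asy e) ≤ vd Γ (K ⊓ asy e') := by
  classical
  set V : Submodule ℂ (L2 Y) := K ⊓ asy e with hVdef
  have eEqui : ∀ {u : Equiv.Perm Y}, (∀ (g : Γ) y, u (g • y) = g • u y) → Equi Γ (pull u u.injective) := by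
    intro u hu g f
    ext y
    rw [pull_apply, act_apply, act_apply, pull_apply, hu]
  have iasy : ∀ {u : Equiv.Perm Y}, (∀ (g : Γ) y, u (g • y) = g • u y) → Inv Γ (asy u) := by
    intro u hu g f hf
    rw [mem_asy] at hf ⊢
    rw [eEqui hu, hf, map_neg]
  have hVi : Inv Γ V := fun g f hf => ⟨hKi g f hf.1, iasy hee g f hf.2⟩
  have hneg : ∀ v ∈ V, pull e e.injective v = -v := fun v hv => mem_asy.1 hv.2
  -- the hull
  set W₀ : Submodule ℂ (L2 Y) := Submodule.span ℂ {f | ∃ c, ∃ v ∈ V, f = ct (fb o c) v} with hW₀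
  set W : Submodule ℂ (L2 Y) := W₀.topologicalClosure with hW
  have hWc : IsClosed (W : Set (L2 Y)) := Submodule.isClosed_topologicalClosure _
  have stab : ∀ T : L2 Y →L[ℂ] L2 Y, (∀ c, ∀ v ∈ V, T (ct (fb o c) v) ∈ W₀) → ∀ f ∈ W, T f ∈ W := by
    intro T hT f hf
    have h0 : ∀ x ∈ W₀, T x ∈ W₀ := by
      intro x hx
      induction hx using Submodule.span_induction with
      | mem x hx =>
        obtain ⟨c, v, hv, rfl⟩ := hx
        exact hT c v hv
      | zero => rw [map_zero]; exact Submodule.zero_mem _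
      | add x y _ _ hx hy => rw [map_add]; exact Submodule.add_mem _ hx hy
      | smul c x _ hx => rw [map_smul]; exact Submodule.smul_mem _ _ hx
    have h1 : T f ∈ _root_.closure ((T : L2 Y → L2 Y) '' (W₀ : Set (L2 Y))) :=
      image_closure_subset_closure_image T.continuous ⟨f, hf, rfl⟩
    refine closure_mono ?_ h1
    rintro _ ⟨x, hx, rfl⟩
    exact h0 x hx
  have gen : ∀ c, ∀ v ∈ V, ct (fb o c) v ∈ W₀ := fun c v hv => Submodule.subset_span ⟨c, v, hv, rfl⟩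
  have hWi : Inv Γ W := by
    intro g
    refine stab (act g) fun c v hv => ?_
    have h1 : act g (ct (fb o c) v) = ct (fb o (g • c)) (act g v) := by
      ext y
      rw [act_apply, ct_apply, ct_apply, act_apply]
      have : (g⁻¹ • y ∈ fb o c) ↔ (y ∈ fb o (g • c)) := by
        rw [mem_fb, mem_fb, ho, inv_smul_eq_iff]
      simp only [this]
    rw [h1]
    exact gen _ _ (hVi g v hv)
  have hWl : ∀ c, ∀ f ∈ W, ct (fb o c) f ∈ W := by
    intro d
    refine stab (ct (fb o d)) fun c v hv => ?_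
    by_cases h : d = c
    · subst h
      rw [ct_self]
      exact gen _ _ hv
    · rw [ct_ct, fb_inter_ne o h, ct_empty]
      exact W₀.zero_mem
  have hVW : V ≤ W := fun v hv => mem_of_fibers' o hWc fun c => Submodule.le_topologicalClosure _ (gen c v hv)
  have pre : ∀ {u : Equiv.Perm Y}, (∀ y, o (u y) = op (o y)) → ∀ c, (u ⁻¹' fb o c) = fb o (op c) := by
    intro u hu c
    ext y
    rw [Set.mem_preimage, mem_fb, mem_fb, hu]
    constructor
    · intro h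
      rw [← h, hop]
    · intro h
      rw [h, hop]
  have hWe : ∀ f ∈ W, pull e e.injective f ∈ W := by
    refine stab _ fun c v hv => ?_
    rw [pull_ct, pre hoe, hneg v hv, map_neg]
    exact W₀.neg_mem (gen _ _ hv)
  have hWe' : ∀ f ∈ W, pull e' e'.injective f ∈ W := by
    refine stab _ fun c v hv => ?_
    rw [pull_ct, pre hoe']
    obtain ⟨g, hg⟩ := hg (op c)
    have h1 : ct (fb o (op c)) (pull e' e'.injective v) = ct (fb o (op c)) (act g⁻¹ v) := by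
      ext y
      by_cases hy : o y = op c
      · rw [ct_mem (S := fb o (op c)) hy, ct_mem (S := fb o (op c)) hy, pull_apply, hg y hy, act_apply, inv_inv]
      · rw [ct_notMem (S := fb o (op c)) hy, ct_notMem (S := fb o (op c)) hy]
    rw [h1]
    exact gen _ _ (hVi _ v hv)
  -- the slope inequality
  have hd : ∀ y, o (e y) ≠ o y := fun y => by rw [hoe]; exact hne y
  have hd' : ∀ y, o (e' y) ≠ o y := fun y => by rw [hoe']; exact hne y
  have h3 := vd_asy (Γ := Γ) he hd hWc hWl hWe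
  have h3' := vd_asy (Γ := Γ) he' hd' hWc hWl hWe'
  set M : Submodule ℂ (L2 Y) := W ⊓ K with hM
  have hMi : Inv Γ M := fun g f hf => ⟨hWi g f hf.1, hKi g f hf.2⟩
  have hMc : IsClosed (M : Set (L2 Y)) := hWc.inter hKc
  have hslope : vd Γ M ≤ vd Γ W / 2 + vd Γ (K ⊓ asy e') := by
    have h2 := vd_sup_add_inf (Γ := Γ) (V := W ⊓ asy e') (W := M)
      ⟨fun g f hf => ⟨hWi g f hf.1, iasy hee' g f hf.2⟩, hWc.inter (isClosed_asy e')⟩ ⟨hMi, hMc⟩
    have h4 : vd Γ ((W ⊓ asy e') ⊔ M) ≤ vd Γ W := vd_mono (sup_le inf_le_left inf_le_left)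
    have h5 : vd Γ ((W ⊓ asy e') ⊓ M) ≤ vd Γ (K ⊓ asy e') := vd_mono fun f hf => ⟨hf.2.2, hf.1.2⟩
    linarith
  -- the map `1 + pull e`
  set Ψ : L2 Y →L[ℂ] L2 Y := 1 + pull e e.injective with hΨ
  have aΨ : ∀ f, Ψ f = f + pull e e.injective f := fun f => rfl
  have eΨ : Equi Γ Ψ := by
    intro g f
    rw [aΨ, aΨ, eEqui hee, map_add]
  have h1 := vd_map_add (Γ := Γ) eΨ (V := M) ⟨hMi, hMc⟩
  have h2 := vd_map_add (Γ := Γ) eΨ (V := W) ⟨hWi, hWc⟩
  have h4 : vd Γ V ≤ vd Γ (M ⊓ LinearMap.ker (Ψ : L2 Y →ₗ[ℂ] L2 Y)) :=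
    vd_mono fun f hf => ⟨⟨hVW hf, hf.1⟩, hf.2⟩
  have h5 : W₀.map (Ψ : L2 Y →ₗ[ℂ] L2 Y) ≤ M.map (Ψ : L2 Y →ₗ[ℂ] L2 Y) := by
    rw [Submodule.map_le_iff_le_comap]
    refine Submodule.span_le.2 ?_
    rintro _ ⟨c, v, hv, rfl⟩
    show Ψ (ct (fb o c) v) ∈ M.map (Ψ : L2 Y →ₗ[ℂ] L2 Y)
    by_cases hc : ∃ y₀, o y₀ = c
    swap
    · have : ct (fb o c) v = 0 := by
        ext y
        rw [ct_notMem (S := fb o c) (fun h => hc ⟨y, h⟩)]
        rfl
      rw [this, map_zero]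
      exact Submodule.zero_mem _
    obtain ⟨y₀, rfl⟩ := hc
    refine ⟨ct {z | o z ∈ S (o y₀)} v, ⟨ct_mem_of_fibers o hWc hWl _ (hVW hv), hKS y₀ v hv.1⟩, ?_⟩
    show Ψ (ct {z | o z ∈ S (o y₀)} v) = Ψ (ct (fb o (o y₀)) v)
    rw [aΨ, aΨ, pull_ct, pull_ct, hneg v hv, map_neg, map_neg]
    ext z
    rw [lp.coeFn_add, Pi.add_apply, lp.coeFn_neg, Pi.neg_apply, lp.coeFn_add, Pi.add_apply, lp.coeFn_neg,
      Pi.neg_apply, ct_apply, ct_apply, ct_apply, ct_apply]
    simp only [Set.mem_preimage, Set.mem_ofPred_eq, mem_fb, hoe]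
    by_cases q1 : o z = o y₀
    · rw [q1, if_pos (hS1 y₀), if_neg (hS2 y₀), if_pos rfl, if_neg (hne y₀)]
    · by_cases q2 : o z = op (o y₀)
      · have q3 : op (o z) = o y₀ := by rw [q2, hop]
        rw [q3, if_pos (hS1 y₀), q2, if_neg (hS2 y₀), if_neg (hne y₀), if_pos rfl]
      · have q3 : op (o z) ≠ o y₀ := fun h => q2 (by rw [← h, hop])
        rw [if_neg q1, if_neg q3]
        have q4 := hS3 y₀ z q1 q2
        by_cases q5 : o z ∈ S (o y₀)
        · rw [if_pos q5, if_pos (q4.1 q5)]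
          ring
        · rw [if_neg q5, if_neg (fun h => q5 (q4.2 h))]
  have h6 : vd Γ (W.map (Ψ : L2 Y →ₗ[ℂ] L2 Y)) ≤ vd Γ (M.map (Ψ : L2 Y →ₗ[ℂ] L2 Y)) := by
    have h7 : W.map (Ψ : L2 Y →ₗ[ℂ] L2 Y) ≤ (W₀.map (Ψ : L2 Y →ₗ[ℂ] L2 Y)).topologicalClosure := by
      rintro _ ⟨x, hx, rfl⟩
      have h8 : Ψ x ∈ _root_.closure ((Ψ : L2 Y → L2 Y) '' (W₀ : Set (L2 Y))) :=
        image_closure_subset_closure_image Ψ.continuous ⟨x, hx, rfl⟩
      refine closure_mono ?_ h8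
      rintro _ ⟨z, hz, rfl⟩
      exact ⟨z, hz, rfl⟩
    have h9 := vd_mono (Γ := Γ) h7
    rw [vd_closure] at h9
    exact h9.trans (vd_mono h5)
  have h10 : vd Γ (W ⊓ LinearMap.ker (Ψ : L2 Y →ₗ[ℂ] L2 Y)) = vd Γ (W ⊓ asy e) := rfl
  linarith

end dims

end Npc
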