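import Pool.Agent.Npc.Cofs

/-!
# NPC cube complexes: changing the state of one label

* `mem_of_fibres` : an element is in a closed subspace if its restrictions to the fibres of a map are;
* `cut_step` : glued to cut; `mir_step` : cut to mirrored.
-/

set_option autoImplicit false
set_option linter.unusedSectionVars false
set_option linter.unusedVariables false

open scoped ComplexConjugate InnerProductSpace
open Filter Topology

namespace Npc

open Singer

/-- `T f` is in the closed subspace `V` if this holds for the restrictions of `f` to the fibres of `o` -/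
theorem mem_of_fibres {Y Z O : Type*} (o : Y → O) {V : Submodule ℂ (L2 Z)} (hV : IsClosed (V : Set (L2 Z)))
    (T : L2 Y →L[ℂ] L2 Z) {f : L2 Y} (h : ∀ c, T (ind {y | o y = c} f) ∈ V) : T f ∈ V := by
  have h0 : V.topologicalClosure = V := IsClosed.submodule_topologicalClosure_eq hV
  rw [← h0, ← Submodule.orthogonal_orthogonal_eq_closure, Submodule.mem_orthogonal]
  intro u hu
  rw [← ContinuousLinearMap.adjoint_inner_left, inner_eq]
  set w := ContinuousLinearMap.adjoint T u with hw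
  have hs : Summable fun y => conj (w y) * f y := summable_inner' w f
  rw [← (Equiv.sigmaFiberEquiv o).tsum_eq]
  have hs' : Summable fun x : Σ c, {y // o y = c} => conj (w ((Equiv.sigmaFiberEquiv o) x)) * f ((Equiv.sigmaFiberEquiv o) x) :=
    (Equiv.summable_iff (Equiv.sigmaFiberEquiv o)).2 hs
  rw [hs'.tsum_sigma]
  have h1 : ∀ c, ∑' y : {y // o y = c}, conj (w ((Equiv.sigmaFiberEquiv o) ⟨c, y⟩)) * f ((Equiv.sigmaFiberEquiv o) ⟨c, y⟩) = 0 := by
    intro c
    have h2 : ⟪w, ind {y | o y = c} f⟫_ℂ = 0 := by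
      rw [hw, ContinuousLinearMap.adjoint_inner_left]
      exact (Submodule.mem_orthogonal' _ _).1 hu _ (h c)
    rw [inner_eq] at h2
    rw [← h2]
    have h3 := tsum_subtype {y | o y = c} fun y => conj (w y) * f y
    refine Eq.trans ?_ (h3.trans ?_)
    · rfl
    · congr 1
      funext y
      by_cases hy : y ∈ {y | o y = c}
      · rw [Set.indicator_of_mem hy, ind_mem hy]
      · rw [Set.indicator_of_notMem hy, ind_notMem hy, mul_zero]
  simp_rw [h1]
  exact tsum_zero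

section step
variable {H P G : Type*} [Group G] [MulAction G H] [MulAction G P]
variable {S : Sys H P G} {F : Type*} [AddCommGroup F] [Fintype F] {j : ℕ}

/-- restriction of the boundary to the cells which do not cross `h` -/
lemma off_DD (h : H) (f : L2 (Cell S F (j + 1))) :
    ind (offS S F h) (DD S F f) = DD S F (ind (offS S F h) f) + DD S F (ind (onS S F h) f) := by
  have hset : (Cell.tail ⁻¹' offS S F h : Set (Cell S F (j + 1))) = offS S F h ∪ onS S F h := by
    ext y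
    show (∀ i, y.tail.τ i ≠ h) ↔ (∀ i, y.τ i ≠ h) ∨ y.τ 0 = h
    constructor
    · intro hy
      by_cases h0 : y.τ 0 = h
      · exact Or.inr h0
      · exact Or.inl fun i => Fin.cases h0 (fun i => hy i) i
    · rintro (hy | hy) i
      · exact hy i.succ
      · intro h1
        have h2 := y.adj 0 i.succ (Fin.succ_ne_zero i).symm
        rw [hy, show y.τ i.succ = h from h1] at h2
        exact S.C.loopless.irrefl _ h2
  unfold DD
  rw [ind_psf, ← map_add, hset, ind_add]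
  rw [Set.disjoint_left]
  intro y hy hy'
  exact hy 0 hy'

lemma itw_off (h : H) (i : Fin j) : Itw (ind (offS S F h) : L2 (Cell S F j) →L[ℂ] L2 (Cell S F j)) i i :=
  itw_ind (fun _ _ => Iff.rfl) (fun _ => Iff.rfl) fun _ => Iff.rfl

lemma itw_on (h : H) (i : Fin (j + 1)) :
    Itw (ind (onS S F h) : L2 (Cell S F (j + 1)) →L[ℂ] L2 (Cell S F (j + 1))) i i :=
  itw_ind (fun _ _ => Iff.rfl) (fun _ => Iff.rfl) fun _ => Iff.rfl

lemma off_Pm (h : H) (π : Equiv.Perm (Fin j)) (f : L2 (Cell S F j)) :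
    ind (offS S F h) (Pm S F π f) = Pm S F π (ind (offS S F h) f) := by
  unfold Pm
  rw [ind_pull]
  congr 2
  ext y
  show (∀ i, y.τ i ≠ h) ↔ ∀ i, y.τ (π i) ≠ h
  exact ⟨fun hy i => hy _, fun hy i => by simpa using hy (π⁻¹ i)⟩

variable {s : AddChar F ℂ → St}

lemma off_mem (h : H) {f : L2 (Cell S F j)} (hf : f ∈ Ch S F j s) : ind (offS S F h) f ∈ Chh S F j s h := by
  rw [mem_Chh]
  refine ⟨⟨fun π => ?_, fun i ψ => ?_⟩, ?_⟩
  · rw [← off_Pm, hf.1, map_smul]
  · rw [← (itw_off h i).rl, hf.2, map_zero]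
  · rw [ind_ind, Set.inter_self]

lemma El_mem (h : H) (ψ : AddChar F ℂ) {f : L2 (Cell S F j)} (hf : f ∈ Ch S F j s) : El S F h ψ f ∈ Ch S F j s :=
  ⟨fun π => by rw [← El_Pm, hf.1, map_smul], fun i ψ' => by rw [← (itw_El h ψ i).rl, hf.2, map_zero]⟩

lemma on_Ep (h : H) (ψ : AddChar F ℂ) (f : L2 (Cell S F (j + 1))) :
    ind (onS S F h) (Ep S F 0 ψ f) = ind (onS S F h) (El S F h ψ f) := by
  classical
  ext y
  rw [ind_apply, ind_apply]
  by_cases hy : y ∈ onS S F h
  · rw [if_pos hy, if_pos hy, Ep_eq_El, show y.τ 0 = h from hy]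
  · rw [if_neg hy, if_neg hy]

/-- the part of a cycle with the label `q` at the marker is a marked cycle -/
theorem Ep_mem_Km {q : AddChar F ℂ} {f : L2 (Cell S F (j + 1))} (hf : f ∈ Cyc S F j s) :
    Ep S F 0 q f ∈ Km S F j s := by
  have hf0 : DD S F f = 0 := hf.2
  rw [mem_Km]
  refine ⟨⟨⟨fun π => ?_, fun i ψ => ?_⟩, ?_⟩, fun h => ?_⟩
  · rw [(itw_Pm (Cell.ex π) 0).ep, Cell.ex_zero, hf.1.1, map_smul, sgn_ex]
  · rw [← (itw_Ep (i := 0) (i' := i.succ) q).rl, hf.1.2, map_zero]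
  · cases j with
    | zero => rfl
    | succ j =>
      show DD S F (Pm S F (Equiv.swap 0 1) (Ep S F 0 q f)) = 0
      rw [(itw_Pm (Equiv.swap 0 1) 0).ep, hf.1.1, Equiv.swap_apply_left, map_smul, map_smul, ← Fin.succ_zero_eq_one,
        (itw_DD 0).ep, hf0, map_zero, smul_zero]
  · rw [on_Ep]
    have h1 : El S F h q f ∈ Ch S F (j + 1) s := El_mem h q hf.1
    have h2 : DD S F (El S F h q f) = 0 := by rw [DD_El, hf0, map_zero]
    have h3 := off_DD h (El S F h q f)
    rw [h2, map_zero] at h3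
    have h4 : DD S F (ind (onS S F h) (El S F h q f)) = DD S F (-ind (offS S F h) (El S F h q f)) := by
      rw [map_neg]
      exact eq_neg_of_add_eq_zero_right h3.symm
    rw [h4]
    exact Submodule.le_topologicalClosure _ ⟨_, Submodule.neg_mem _ (off_mem h h1), rfl⟩

lemma Ep_mem_ran (q : AddChar F ℂ) (f : L2 (Cell S F (j + 1))) : Ep S F 0 q f ∈ ran S F j q := by
  rw [mem_ran, Ep_Ep]

lemma Ep_mem_asG {q : AddChar F ℂ} (hq : s q = St.g) {f : L2 (Cell S F (j + 1))} (hf : f ∈ Ch S F (j + 1) s) :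
    Ep S F 0 q f ∈ asG S F j := by
  have h := hf.2 0 q
  rw [hq] at h
  exact h

open Classical in
/-- cutting the label `q` -/
theorem Ch_cut (q : AddChar F ℂ) : Ch S F (j + 1) (Function.update s q St.c) =
    Ch S F (j + 1) s ⊓ LinearMap.ker (Ep S F (0 : Fin (j + 1)) q).toLinearMap := by
  ext f
  constructor
  · rintro ⟨h1, h2⟩
    have h3 : ∀ i, Ep S F i q f = 0 := fun i => by
      have := h2 i q
      rwa [Function.update_self] at this
    refine ⟨⟨h1, fun i ψ => ?_⟩, h3 0⟩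
    by_cases h : ψ = q
    · subst h
      exact rl_of_ep (h3 i) _
    · have := h2 i ψ
      rwa [Function.update_of_ne h] at this
  · rintro ⟨⟨h1, h2⟩, h3⟩
    refine ⟨h1, fun i ψ => ?_⟩
    by_cases h : ψ = q
    · subst h
      rw [Function.update_self]
      exact ep_all h1 h3 i
    · rw [Function.update_of_ne h]
      exact h2 i ψ

open Classical in
/-- **glued to cut** -/
theorem cut_step [Cof G P] {q : AddChar F ℂ} (hq : s q = St.g) :
    vd (Gh S F) (Cyc S F j s) - vd (Gh S F) (Cyc S F j (Function.update s q St.c)) ≤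
      vd (Gh S F) (Km S F j s ⊓ asG S F j ⊓ ran S F j q) := by
  have h1 := vd_map_add (Γ := Gh S F) (equi_Ep (S := S) (F := F) (j := j + 1) 0 q) (mdl_Cyc (s := s))
  have h2 : Cyc S F j s ⊓ LinearMap.ker (Ep S F (0 : Fin (j + 1)) q).toLinearMap =
      Cyc S F j (Function.update s q St.c) := by
    unfold Cyc
    rw [Ch_cut, inf_right_comm]
  rw [h2] at h1
  have h3 : vd (Gh S F) ((Cyc S F j s).map (Ep S F (0 : Fin (j + 1)) q).toLinearMap) ≤
      vd (Gh S F) (Km S F j s ⊓ asG S F j ⊓ ran S F j q) := by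
    refine vd_mono ?_
    rintro _ ⟨f, hf, rfl⟩
    exact ⟨⟨Ep_mem_Km hf, Ep_mem_asG hq hf.1⟩, Ep_mem_ran q f⟩
  linarith

/-! ### the marked chains as chains -/

variable (S F j) in
/-- antisymmetrisation -/
noncomputable def up : L2 (Cell S F (j + 1)) →L[ℂ] L2 (Cell S F (j + 1)) :=
  ∑ i : Fin (j + 1), sgn (Equiv.swap 0 i) • Pm S F (Equiv.swap 0 i)

lemma up_apply (y : L2 (Cell S F (j + 1))) :
    up S F j y = ∑ i : Fin (j + 1), sgn (Equiv.swap 0 i) • Pm S F (Equiv.swap 0 i) y := by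
  simp [up]

lemma equi_up : Equi (Gh S F) (up S F j) := Equi.sum fun i _ => (equi_Pm _).smul _

lemma decomp (i : Fin (j + 1)) (e : Equiv.Perm (Fin j)) :
    Equiv.Perm.decomposeFin.symm (i, e) = Equiv.swap 0 i * Cell.ex e := by
  ext1 x
  refine Fin.cases ?_ (fun x => ?_) x
  · rw [Equiv.Perm.decomposeFin_symm_apply_zero, Equiv.Perm.mul_apply, Cell.ex_zero, Equiv.swap_apply_left]
  · rw [Equiv.Perm.decomposeFin_symm_apply_succ, Equiv.Perm.mul_apply, Cell.ex_succ]

lemma sum_perm {y : L2 (Cell S F (j + 1))} (hy : ∀ π : Equiv.Perm (Fin j), Pm S F (Cell.ex π) y = sgn π • y) :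
    ∑ ρ : Equiv.Perm (Fin (j + 1)), sgn ρ • Pm S F ρ y = ((j.factorial : ℕ) : ℂ) • up S F j y := by
  rw [← Equiv.Perm.decomposeFin.symm.sum_comp, Fintype.sum_prod_type, up_apply, Finset.smul_sum]
  refine Finset.sum_congr rfl fun i _ => ?_
  have h : ∀ e : Equiv.Perm (Fin j), sgn (Equiv.Perm.decomposeFin.symm (i, e)) •
      Pm S F (Equiv.Perm.decomposeFin.symm (i, e)) y = sgn (Equiv.swap 0 i) • Pm S F (Equiv.swap 0 i) y := by
    intro e
    rw [decomp, ← Pm_Pm, hy, map_smul, sgn_mul, sgn_ex, smul_smul, mul_assoc, sgn_sq, mul_one]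
  rw [Finset.sum_congr rfl fun e _ => h e, Finset.sum_const, Finset.card_univ, Fintype.card_perm, Fintype.card_fin,
    Nat.cast_smul_eq_nsmul]

lemma Pm_up {y : L2 (Cell S F (j + 1))} (hy : ∀ π : Equiv.Perm (Fin j), Pm S F (Cell.ex π) y = sgn π • y)
    (π : Equiv.Perm (Fin (j + 1))) : Pm S F π (up S F j y) = sgn π • up S F j y := by
  have h0 : ((j.factorial : ℕ) : ℂ) ≠ 0 := by exact_mod_cast j.factorial_ne_zero
  have h1 : Pm S F π (((j.factorial : ℕ) : ℂ) • up S F j y) = sgn π • (((j.factorial : ℕ) : ℂ) • up S F j y) := by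
    rw [← sum_perm hy, map_sum, Finset.smul_sum]
    refine Fintype.sum_equiv (Equiv.mulLeft π) _ _ fun ρ => ?_
    rw [map_smul, Pm_Pm, Equiv.coe_mulLeft, sgn_mul, smul_smul, ← mul_assoc, sgn_sq, one_mul]
  rw [map_smul, smul_comm] at h1
  exact smul_right_injective _ h0 h1

lemma Rl_up {y : L2 (Cell S F (j + 1))} {ψ : AddChar F ℂ} {σ : St} (hy : ∀ i, Rl S F i ψ σ y = 0) (i : Fin (j + 1)) :
    Rl S F i ψ σ (up S F j y) = 0 := by
  rw [up_apply, map_sum]
  refine Finset.sum_eq_zero fun i' _ => ?_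
  have h := (itw_Pm (S := S) (F := F) (Equiv.swap 0 i') (Equiv.swap 0 i' i)).rl ψ σ y
  rw [Equiv.swap_apply_self] at h
  rw [map_smul, ← h, hy, map_zero, smul_zero]

lemma Ep_up {y : L2 (Cell S F (j + 1))} {p : AddChar F ℂ} (h0 : Ep S F 0 p y = y)
    (hy : ∀ i : Fin j, Ep S F i.succ p y = 0) : Ep S F 0 p (up S F j y) = y := by
  rw [up_apply, map_sum, Fin.sum_univ_succ]
  have h1 : ∀ i : Fin (j + 1), Ep S F 0 p (sgn (Equiv.swap 0 i) • Pm S F (Equiv.swap 0 i) y) =
      sgn (Equiv.swap 0 i) • Pm S F (Equiv.swap 0 i) (Ep S F i p y) := by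
    intro i
    rw [map_smul, (itw_Pm (Equiv.swap 0 i) i).ep, Equiv.swap_apply_right]
  rw [h1, h0, Finset.sum_eq_zero, add_zero]
  · rw [Equiv.swap_self]
    show sgn 1 • Pm S F 1 y = y
    rw [sgn_one, one_smul, Pm_one]
  · intro i _
    rw [h1, hy, map_zero, smul_zero]

lemma DD_up {y : L2 (Cell S F (j + 1))} (hy : ∀ π : Equiv.Perm (Fin j), Pm S F (Cell.ex π) y = sgn π • y)
    (h0 : D1 S F j y = 0) : DD S F (up S F j y) = DD S F y := by
  rw [up_apply, map_sum, Fin.sum_univ_succ, Finset.sum_eq_zero, add_zero]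
  · rw [Equiv.swap_self]
    show DD S F (sgn 1 • Pm S F 1 y) = _
    rw [sgn_one, one_smul, Pm_one]
  · intro i _
    cases j with
    | zero => exact i.elim0
    | succ j =>
      have h1 : DD S F (Pm S F (Equiv.swap 0 1) y) = 0 := h0
      have e : Equiv.swap 0 i.succ = Cell.ex (Equiv.swap 0 i) * (Equiv.swap 0 1 * Cell.ex (Equiv.swap 0 i)) := by
        have e1 : Cell.ex (Equiv.swap 0 i) * (Equiv.swap 0 1 : Equiv.Perm (Fin (j + 2))) =
            Equiv.swap 0 i.succ * Cell.ex (Equiv.swap 0 i) := by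
          have := Equiv.mul_swap_eq_swap_mul (Cell.ex (Equiv.swap 0 i)) (0 : Fin (j + 2)) 1
          rw [this, Cell.ex_zero, ← Fin.succ_zero_eq_one, Cell.ex_succ, Equiv.swap_apply_left]
        rw [← mul_assoc, e1, mul_assoc]
        have e2 : Cell.ex (Equiv.swap 0 i) * Cell.ex (Equiv.swap 0 i) = (1 : Equiv.Perm (Fin (j + 2))) := by
          have := ex_inv (Equiv.swap 0 i)
          rw [Equiv.swap_inv] at this
          nth_rewrite 1 [← this]
          rw [inv_mul_cancel]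
        rw [e2, mul_one]
      rw [map_smul, e, ← Pm_Pm, ← Pm_Pm, hy, map_smul, map_smul, map_smul, DD_Pm, h1, map_zero, smul_zero, smul_zero]

/-- the boundary of the marked cycle -/
lemma DD_mem_of_Km {y : L2 (Cell S F (j + 1))} (hy : y ∈ Km S F j s) :
    DD S F y ∈ ((Ch S F (j + 1) s).map ((DD S F : L2 (Cell S F (j + 1)) →L[ℂ] L2 (Cell S F j)) :
      L2 (Cell S F (j + 1)) →ₗ[ℂ] L2 (Cell S F j))).topologicalClosure := by
  refine mem_of_fibres (fun y : Cell S F (j + 1) => y.τ 0) (Submodule.isClosed_topologicalClosure _) _ fun h => ?_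
  have h1 := (mem_Km.1 hy).2 h
  exact Submodule.topologicalClosure_mono (Submodule.map_mono inf_le_left) h1

variable (S F j) in
/-- the chains in the state with `p` mirrored whose part with the label `p` is in `W` -/
noncomputable def M1 (s s' : AddChar F ℂ → St) (p : AddChar F ℂ) (W : Submodule ℂ (L2 (Cell S F (j + 1)))) :
    Submodule ℂ (L2 (Cell S F (j + 1))) :=
  (Ch S F (j + 1) s' ⊓ W.comap (Ep S F (0 : Fin (j + 1)) p).toLinearMap) ⊓
    (Ch S F (j + 1) s).comap ((1 - (up S F j).comp (Ep S F 0 p) :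
      L2 (Cell S F (j + 1)) →L[ℂ] L2 (Cell S F (j + 1))) : L2 (Cell S F (j + 1)) →ₗ[ℂ] L2 (Cell S F (j + 1)))

lemma mem_M1 {s s' : AddChar F ℂ → St} {p : AddChar F ℂ} {W : Submodule ℂ (L2 (Cell S F (j + 1)))}
    {f : L2 (Cell S F (j + 1))} : f ∈ M1 S F j s s' p W ↔
      (f ∈ Ch S F (j + 1) s' ∧ Ep S F 0 p f ∈ W) ∧ f - up S F j (Ep S F 0 p f) ∈ Ch S F (j + 1) s := Iff.rfl

open Classical in
/-- **cut to mirrored** -/
theorem mir_step [Cof G P] {p : AddChar F ℂ} (hp : s p = St.c) (hKm : Mdl (Gh S F) (Km S F j s)) :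
    vd (Gh S F) (Km S F j s ⊓ asM S F j ⊓ ran S F j p) ≤
      vd (Gh S F) (Cyc S F j (Function.update s p St.m)) - vd (Gh S F) (Cyc S F j s) := by
  set W : Submodule ℂ (L2 (Cell S F (j + 1))) := Km S F j s ⊓ asM S F j ⊓ ran S F j p with hWdef
  have hW : Mdl (Gh S F) W := (hKm.inf mdl_asM).inf (mdl_ran p)
  set s' := Function.update s p St.m with hs'
  -- elements of `W`
  have w0 : ∀ y ∈ W, Ep S F 0 p y = y := fun y hy => mem_ran.1 hy.2
  have w1 : ∀ y ∈ W, ∀ i : Fin j, Ep S F i.succ p y = 0 := fun y hy i => by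
    have := (mem_Km.1 hy.1.1).1.1.2 i p
    rwa [hp] at this
  have w2 : ∀ y ∈ W, ∀ π : Equiv.Perm (Fin j), Pm S F (Cell.ex π) y = sgn π • y := fun y hy =>
    (mem_Km.1 hy.1.1).1.1.1
  have w3 : ∀ y ∈ W, ∀ ψ i, Rl S F i ψ (s' ψ) y = 0 := by
    intro y hy ψ i
    by_cases h : ψ = p
    · subst h
      rw [hs', Function.update_self]
      refine Fin.cases ?_ (fun i => ?_) i
      · rw [rl_m, w0 y hy, mem_asM.1 hy.1.2, add_neg_cancel]
      · exact rl_of_ep (w1 y hy i) _
    · rw [hs', Function.update_of_ne h]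
      refine Fin.cases ?_ (fun i => ?_) i
      · refine rl_of_ep ?_ _
        rw [← w0 y hy, Ep_Ep_ne 0 h]
      · exact (mem_Km.1 hy.1.1).1.1.2 i ψ
  have u1 : ∀ y ∈ W, up S F j y ∈ Ch S F (j + 1) s' := fun y hy =>
    ⟨Pm_up (w2 y hy), fun i ψ => Rl_up (w3 y hy ψ) i⟩
  have u2 : ∀ y ∈ W, Ep S F 0 p (up S F j y) = y := fun y hy => Ep_up (w0 y hy) (w1 y hy)
  have u3 : ∀ y ∈ W, DD S F (up S F j y) = DD S F y := fun y hy => DD_up (w2 y hy) (mem_Km.1 hy.1.1).1.2
  -- the module `M1`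
  have hM : Mdl (Gh S F) (M1 S F j s s' p W) :=
    (mdl_Ch.inf (hW.comap (equi_Ep 0 p))).inf (mdl_Ch.comap (equi_one.sub (equi_up.comp (equi_Ep 0 p))))
  have m1 : (M1 S F j s s' p W).map (Ep S F (0 : Fin (j + 1)) p).toLinearMap = W := by
    ext y
    constructor
    · rintro ⟨f, hf, rfl⟩
      exact (mem_M1.1 hf).1.2
    · intro hy
      refine ⟨up S F j y, mem_M1.2 ⟨⟨u1 y hy, ?_⟩, ?_⟩, u2 y hy⟩
      · rw [u2 y hy]
        exact hy
      · rw [u2 y hy, sub_self]
        exact Submodule.zero_mem _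
  have m2 : M1 S F j s s' p W ⊓ LinearMap.ker (Ep S F (0 : Fin (j + 1)) p).toLinearMap =
      Ch S F (j + 1) s := by
    ext f
    constructor
    · rintro ⟨h1, h2⟩
      have h2' : Ep S F 0 p f = 0 := h2
      have h3 := (mem_M1.1 h1).2
      rwa [h2', map_zero, sub_zero] at h3
    · intro hf
      have h1 : ∀ i, Ep S F i p f = 0 := fun i => by
        have := hf.2 i p
        rwa [hp] at this
      refine ⟨mem_M1.2 ⟨⟨⟨hf.1, fun i ψ => ?_⟩, ?_⟩, ?_⟩, h1 0⟩
      · by_cases h : ψ = p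
        · subst h
          exact rl_of_ep (h1 i) _
        · rw [hs', Function.update_of_ne h]
          exact hf.2 i ψ
      · rw [h1]
        exact Submodule.zero_mem _
      · rw [h1, map_zero, sub_zero]
        exact hf
  have e1 := vd_map_add (Γ := Gh S F) (equi_Ep (S := S) (F := F) (j := j + 1) 0 p) hM
  rw [m1, m2] at e1
  have e2 := vd_map_add (Γ := Gh S F) (equi_DD (S := S) (F := F) (j := j)) hM
  have e3 := vd_map_add (Γ := Gh S F) (equi_DD (S := S) (F := F) (j := j)) (mdl_Ch (s := s))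
  have e4 : vd (Gh S F) ((M1 S F j s s' p W).map ((DD S F : L2 (Cell S F (j + 1)) →L[ℂ] L2 (Cell S F j)) :
      L2 (Cell S F (j + 1)) →ₗ[ℂ] L2 (Cell S F j))) ≤
      vd (Gh S F) ((Ch S F (j + 1) s).map ((DD S F : L2 (Cell S F (j + 1)) →L[ℂ] L2 (Cell S F j)) :
      L2 (Cell S F (j + 1)) →ₗ[ℂ] L2 (Cell S F j))) := by
    rw [← vd_closure ((Ch S F (j + 1) s).map _)]
    refine vd_mono ?_
    rintro _ ⟨f, hf, rfl⟩
    obtain ⟨⟨h1, h2⟩, h3⟩ := mem_M1.1 hf
    have h4 : f = (f - up S F j (Ep S F 0 p f)) + up S F j (Ep S F 0 p f) := by abel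
    show DD S F f ∈ _
    rw [h4, map_add, u3 _ h2]
    exact Submodule.add_mem _ (Submodule.le_topologicalClosure _ ⟨_, h3, rfl⟩) (DD_mem_of_Km h2.1.1)
  have e5 : vd (Gh S F) (M1 S F j s s' p W ⊓ LinearMap.ker ((DD S F : L2 (Cell S F (j + 1)) →L[ℂ] L2 (Cell S F j)) :
      L2 (Cell S F (j + 1)) →ₗ[ℂ] L2 (Cell S F j))) ≤ vd (Gh S F) (Cyc S F j s') :=
    vd_mono (inf_le_inf_right _ (inf_le_left.trans inf_le_left))
  have e6 : vd (Gh S F) (Ch S F (j + 1) s ⊓ LinearMap.ker ((DD S F : L2 (Cell S F (j + 1)) →L[ℂ] L2 (Cell S F j)) :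
      L2 (Cell S F (j + 1)) →ₗ[ℂ] L2 (Cell S F j))) = vd (Gh S F) (Cyc S F j s) := rfl
  linarith

end step

end Npc
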