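import Pool.Agent.Npc.Cofs
import Pool.Agent.Npc.Ind

/-!
# NPC cube complexes: the dimension of the chains

All letters glued or all letters mirrored: the chains of degree `j` have the same dimension, the number of the orbits of the
cells divided by `2 ^ j * j!`.
-/

set_option autoImplicit false
set_option linter.unusedSectionVars false
set_option linter.unusedVariables false

open scoped ComplexConjugate InnerProductSpace
open Filter Topology

namespace Npc

open Singer

section gen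
variable {Γ : Type*} [Group Γ] {Y : Type*} [MulAction Γ Y] [Cof Γ Y]

lemma mem_iInf_asy {ι : Type*} {e : ι → Equiv.Perm Y} {A : Finset ι} {f : L2 Y} :
    f ∈ (⨅ i ∈ A, asy (e i)) ↔ ∀ i ∈ A, ∀ y, f (e i y) = -f y := by
  simp only [Submodule.mem_iInf, mem_asy_apply]

/-- commuting involutions with separating functions: every antisymmetry halves the dimension -/
theorem vd_asy_all {ι O : Type*} {e : ι → Equiv.Perm Y} (he : ∀ i y, e i (e i y) = y)
    (hc : ∀ i i', i ≠ i' → ∀ y, e i (e i' y) = e i' (e i y)) {χ : ι → Y → O} (h1 : ∀ i y, χ i (e i y) ≠ χ i y)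
    (h2 : ∀ i i', i ≠ i' → ∀ y, χ i (e i' y) = χ i y) (A : Finset ι) :
    2 ^ A.card * vd Γ (⨅ i ∈ A, asy (e i)) = Fintype.card (Orb Γ Y) := by
  classical
  induction A using Finset.induction_on with
  | empty =>
    have h : (⨅ i ∈ (∅ : Finset ι), asy (e i)) = (⊤ : Submodule ℂ (L2 Y)) := by simp
    rw [h, vd_top, Finset.card_empty, pow_zero, one_mul]
  | insert a A ha ih =>
    have hcl : IsClosed ((⨅ i ∈ A, asy (e i) : Submodule ℂ (L2 Y)) : Set (L2 Y)) := by
      simp only [Submodule.coe_iInf]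
      exact isClosed_iInter fun i => isClosed_iInter fun _ => isClosed_asy _
    have h3 := vd_asy (Γ := Γ) (o := χ a) (e := e a) (he a) (h1 a) hcl (fun c f hf => by
      rw [mem_iInf_asy] at hf ⊢
      intro i hi y
      have hia : a ≠ i := fun h => ha (h ▸ hi)
      rw [ct_apply, ct_apply]
      simp only [mem_fb, h2 a i hia, hf i hi]
      split_ifs <;> simp) (fun f hf => by
      rw [mem_iInf_asy] at hf ⊢
      intro i hi y
      have hia : a ≠ i := fun h => ha (h ▸ hi)
      rw [pull_apply, pull_apply, hc a i hia, hf i hi])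
    have h4 : (⨅ i ∈ insert a A, asy (e i)) = (⨅ i ∈ A, asy (e i)) ⊓ asy (e a) := by
      rw [Finset.iInf_insert, inf_comm]
    rw [h4, Finset.card_insert_of_notMem ha, pow_succ, mul_assoc, h3, ih]

variable {j : ℕ}

/-- the antisymmetrisation -/
noncomputable def alt (U : Equiv.Perm (Fin j) → Equiv.Perm Y) : L2 Y →L[ℂ] L2 Y :=
  ∑ π, ((j.factorial : ℂ)⁻¹ * sgn π) • pull (U π) (U π).injective

variable {U : Equiv.Perm (Fin j) → Equiv.Perm Y}

lemma alt_apply (f : L2 Y) : alt U f = ∑ π, ((j.factorial : ℂ)⁻¹ * sgn π) • pull (U π) (U π).injective f := by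
  unfold alt
  simp

lemma fac_inv_sum : ∑ _π : Equiv.Perm (Fin j), (j.factorial : ℂ)⁻¹ = 1 := by
  rw [Finset.sum_const, Finset.card_univ, Fintype.card_perm, Fintype.card_fin, nsmul_eq_mul,
    mul_inv_cancel₀ (by exact_mod_cast j.factorial_ne_zero)]

lemma pull_alt (hU : ∀ π ρ y, U (π * ρ) y = U ρ (U π y)) (ρ : Equiv.Perm (Fin j)) (f : L2 Y) :
    pull (U ρ) (U ρ).injective (alt U f) = sgn ρ • alt U f := by
  have hm : ∀ π, pull (U ρ) (U ρ).injective (pull (U π) (U π).injective f) =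
      pull (U (ρ * π)) (U (ρ * π)).injective f := fun π => by
    ext y
    rw [pull_apply, pull_apply, pull_apply, hU]
  rw [alt_apply, map_sum, Finset.smul_sum]
  refine Fintype.sum_equiv (Equiv.mulLeft ρ) _ _ fun π => ?_
  rw [map_smul, hm, Equiv.coe_mulLeft, smul_smul, sgn_mul]
  congr 1
  rw [mul_left_comm, ← mul_assoc (sgn ρ) (sgn ρ), sgn_sq, one_mul]

lemma mem_fx_alt (hU : ∀ π ρ y, U (π * ρ) y = U ρ (U π y)) {f : L2 Y} :
    f ∈ fx (alt U) ↔ ∀ π, pull (U π) (U π).injective f = sgn π • f := by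
  rw [mem_fx]
  constructor
  · intro h π
    rw [← h]
    exact pull_alt hU π f
  · intro h
    rw [alt_apply]
    have h1 : ∀ π, ((j.factorial : ℂ)⁻¹ * sgn π) • pull (U π) (U π).injective f = (j.factorial : ℂ)⁻¹ • f := fun π => by
      rw [h, smul_smul, mul_assoc, sgn_sq, mul_one]
    rw [Finset.sum_congr rfl fun π _ => h1 π, ← Finset.sum_smul, fac_inv_sum, one_smul]

lemma alt_alt (hU : ∀ π ρ y, U (π * ρ) y = U ρ (U π y)) (f : L2 Y) : alt U (alt U f) = alt U f :=
  mem_fx.1 ((mem_fx_alt hU).2 fun π => pull_alt hU π f)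

lemma sgn_inv (π : Equiv.Perm (Fin j)) : sgn π⁻¹ = sgn π := by
  unfold sgn
  rw [Equiv.Perm.sign_inv]

lemma conj_sgn (π : Equiv.Perm (Fin j)) : conj (sgn π) = sgn π := by
  unfold sgn
  rw [map_intCast]

lemma inner_alt (hU : ∀ π ρ y, U (π * ρ) y = U ρ (U π y)) (hU1 : ∀ y, U 1 y = y) (f g : L2 Y) :
    ⟪alt U f, g⟫_ℂ = ⟪f, alt U g⟫_ℂ := by
  rw [alt_apply, alt_apply, sum_inner, inner_sum]
  refine Fintype.sum_equiv (Equiv.inv _) _ _ fun π => ?_
  rw [inner_smul_left, inner_smul_right, map_mul, conj_sgn, map_inv₀, Complex.conj_natCast, Equiv.inv_apply, sgn_inv]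
  congr 1
  exact inner_pull (U π) (U π⁻¹) (fun y => by rw [← hU, inv_mul_cancel, hU1])
    (fun y => by rw [← hU, mul_inv_cancel, hU1]) f g

/-- the alternating functions -/
theorem vd_alt (hU : ∀ π ρ y, U (π * ρ) y = U ρ (U π y)) (hU1 : ∀ y, U 1 y = y) {O : Type*} {χ : Y → O}
    (hχ : ∀ π, π ≠ 1 → ∀ y, χ (U π y) ≠ χ y) {V : Submodule ℂ (L2 Y)} (hc : IsClosed (V : Set (L2 Y)))
    (hl : ∀ a, ∀ f ∈ V, ct (fb χ a) f ∈ V) (hV : ∀ π, ∀ f ∈ V, pull (U π) (U π).injective f ∈ V) :
    vd Γ (V ⊓ fx (alt U)) = (j.factorial : ℝ)⁻¹ * vd Γ V :=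
  vd_ind (x₀ := 1) (c := fun π => (j.factorial : ℂ)⁻¹ * sgn π) hU1 hχ alt_apply (alt_alt hU) (inner_alt hU hU1) hc hl hV
    (by rw [sgn_one]; push_cast; rw [mul_one])

end gen

section chd
variable {H P G : Type*} [Group G] [MulAction G H] [MulAction G P] {S : Sys H P G}
variable {F : Type*} [AddCommGroup F] {j : ℕ}

open Classical in
/-- the parity of the number of the letters `t` -/
noncomputable def prt (S : Sys H P G) (t : H) : RACG S.C →* Multiplicative (ZMod 2) :=
  Racg.lift (fun v => if v = t then Multiplicative.ofAdd 1 else 1) (fun v => by split_ifs <;> decide)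
    fun u v _ => mul_comm _ _

lemma prt_self (t : H) : prt S t (Racg.gen S.C t) = Multiplicative.ofAdd 1 := by
  classical
  rw [prt, Racg.lift_gen, if_pos rfl]

lemma prt_ne {t u : H} (h : u ≠ t) : prt S t (Racg.gen S.C u) = 1 := by
  classical
  rw [prt, Racg.lift_gen, if_neg h]

/-- the parity of the letter `i` -/
noncomputable def pry (i : Fin j) (y : Cell S F j) : Multiplicative (ZMod 2) := prt S (y.τ i) (pw y.n)

lemma ne_mul_one (a : Multiplicative (ZMod 2)) : a * Multiplicative.ofAdd 1 ≠ a := by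
  revert a
  decide

lemma Cell.τ_ne (y : Cell S F j) {i i' : Fin j} (h : i ≠ i') : y.τ i ≠ y.τ i' := fun h' =>
  (y.adj i i' h).ne h'

lemma Cell.τ_inj (y : Cell S F j) : Function.Injective y.τ := fun i i' h => by
  by_contra hne
  exact y.τ_ne hne h

lemma pry_gl_self (i : Fin j) (y : Cell S F j) : pry i (y.gl i) ≠ pry i y := by
  show prt S (y.τ i) (pw (y.n * sW (y.τ i))) ≠ _
  rw [pw_mul, map_mul, pw_sW, prt_self]
  exact ne_mul_one _

lemma pry_gl_ne {i i' : Fin j} (h : i ≠ i') (y : Cell S F j) : pry i (y.gl i') = pry i y := by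
  show prt S (y.τ i) (pw (y.n * sW (y.τ i'))) = _
  rw [pw_mul, map_mul, pw_sW, prt_ne (y.τ_ne h.symm), mul_one]
  rfl

lemma pry_mi_self (i : Fin j) (y : Cell S F j) : pry i (y.mi i) ≠ pry i y := pry_gl_self i y
lemma pry_mi_ne {i i' : Fin j} (h : i ≠ i') (y : Cell S F j) : pry i (y.mi i') = pry i y := pry_gl_ne h y

/-- the glue move -/
noncomputable def glE (i : Fin j) : Equiv.Perm (Cell S F j) :=
  ⟨Cell.gl i, Cell.gl i, Cell.gl_gl i, Cell.gl_gl i⟩

/-- the mirror move -/
noncomputable def miE (i : Fin j) : Equiv.Perm (Cell S F j) :=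
  ⟨Cell.mi i, Cell.mi i, Cell.mi_mi i, Cell.mi_mi i⟩

/-- permutation of the letters -/
noncomputable def pmE (π : Equiv.Perm (Fin j)) : Equiv.Perm (Cell S F j) :=
  ⟨Cell.pm π, Cell.pm π⁻¹, fun y => by rw [Cell.pm_pm, mul_inv_cancel, Cell.pm_one],
    fun y => by rw [Cell.pm_pm, inv_mul_cancel, Cell.pm_one]⟩

lemma pmE_mul (π ρ : Equiv.Perm (Fin j)) (y : Cell S F j) : pmE (π * ρ) y = pmE ρ (pmE π y) := rfl
lemma pmE_one (y : Cell S F j) : pmE 1 y = y := rfl

lemma tau_pmE {π : Equiv.Perm (Fin j)} (hπ : π ≠ 1) (y : Cell S F j) : (pmE π y).τ ≠ y.τ := by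
  intro h
  refine hπ (Equiv.ext fun i => y.τ_inj ?_)
  exact congrFun h i

variable [Fintype F]

/-- if all labels have the same state, the label projections may be left out -/
lemma rl_const_g {i : Fin j} {f : L2 (Cell S F j)} : (∀ ψ : AddChar F ℂ, Rl S F i ψ St.g f = 0) ↔ Gl S F i f = -f := by
  have hs : ∑ ψ : AddChar F ℂ, Rl S F i ψ St.g f = f + Gl S F i f := by
    simp_rw [rl_g]
    rw [Finset.sum_add_distrib, sum_Ep, ← map_sum, sum_Ep]
  constructor
  · intro h
    rw [Finset.sum_eq_zero fun ψ _ => h ψ] at hs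
    rw [eq_neg_iff_add_eq_zero, add_comm, ← hs]
  · intro h ψ
    have h1 : Gl S F i (Ep S F i ψ f) = Ep S F i ψ (Gl S F i f) := by
      refine av_comm (B := Gl S F i) (fun x f => ?_) ψ f
      rw [Tl_Gl]
    rw [rl_g, h1, h, map_neg, add_neg_cancel]

lemma rl_const_m {i : Fin j} {f : L2 (Cell S F j)} : (∀ ψ : AddChar F ℂ, Rl S F i ψ St.m f = 0) ↔ Mi S F i f = -f := by
  have hs : ∑ ψ : AddChar F ℂ, Rl S F i ψ St.m f = f + Mi S F i f := by
    simp_rw [rl_m]
    rw [Finset.sum_add_distrib, sum_Ep, ← map_sum, sum_Ep]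
  constructor
  · intro h
    rw [Finset.sum_eq_zero fun ψ _ => h ψ] at hs
    rw [eq_neg_iff_add_eq_zero, add_comm, ← hs]
  · intro h ψ
    have h1 : Mi S F i (Ep S F i ψ f) = Ep S F i ψ (Mi S F i f) := by
      refine av_comm (B := Mi S F i) (fun x f => ?_) ψ f
      rw [Tl_Mi]
    rw [rl_m, h1, h, map_neg, add_neg_cancel]

variable (S F j) [Cof G P]

/-- the dimension of the alternating functions which are antisymmetric for all the involutions `e i` -/
theorem vd_all {e : Fin j → Equiv.Perm (Cell S F j)} (he : ∀ i y, e i (e i y) = y)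
    (hc : ∀ i i', i ≠ i' → ∀ y, e i (e i' y) = e i' (e i y)) (h1 : ∀ i y, pry i (e i y) ≠ pry i y)
    (h2 : ∀ i i', i ≠ i' → ∀ y, pry i (e i' y) = pry i y) (hτ : ∀ i y, (e i y).τ = y.τ)
    (hp : ∀ i (π : Equiv.Perm (Fin j)) y, pmE π (e (π i) y) = e i (pmE π y)) :
    2 ^ j * (j.factorial : ℝ) * vd (Gh S F) ((⨅ i ∈ (Finset.univ : Finset (Fin j)), asy (e i)) ⊓ fx (alt pmE)) =
      Fintype.card (Orb (Gh S F) (Cell S F j)) := by
  have hcl : IsClosed ((⨅ i ∈ (Finset.univ : Finset (Fin j)), asy (e i) : Submodule ℂ (L2 (Cell S F j))) :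
      Set (L2 (Cell S F j))) := by
    simp only [Submodule.coe_iInf]
    exact isClosed_iInter fun i => isClosed_iInter fun _ => isClosed_asy _
  have h3 := vd_asy_all (Γ := Gh S F) he hc h1 h2 Finset.univ
  rw [Finset.card_univ, Fintype.card_fin] at h3
  have h4 := vd_alt (Γ := Gh S F) (U := pmE (S := S) (F := F) (j := j)) pmE_mul pmE_one (χ := fun y => y.τ)
    (fun π hπ y => tau_pmE hπ y) hcl
    (fun a f hf => by
      rw [mem_iInf_asy] at hf ⊢
      intro i hi y
      have h5 : (e i y ∈ fb (fun y : Cell S F j => y.τ) a) ↔ (y ∈ fb (fun y : Cell S F j => y.τ) a) := by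
        show (e i y).τ = a ↔ y.τ = a
        rw [hτ]
      by_cases hy : y ∈ fb (fun y : Cell S F j => y.τ) a
      · rw [ct_mem hy, ct_mem (h5.2 hy), hf i hi]
      · rw [ct_notMem hy, ct_notMem fun h => hy (h5.1 h), neg_zero])
    (fun π f hf => by
      rw [mem_iInf_asy] at hf ⊢
      intro i hi y
      rw [pull_apply, pull_apply]
      have h5 : pmE π (e i y) = e (π⁻¹ i) (pmE π y) := by
        have := hp (π⁻¹ i) π y
        rwa [show π (π⁻¹ i) = i from π.apply_symm_apply i] at this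
      rw [h5, hf _ (Finset.mem_univ _)])
  rw [h4, ← h3]
  have h6 : (j.factorial : ℝ) ≠ 0 := by exact_mod_cast j.factorial_ne_zero
  field_simp

theorem Ch_const_g : Ch S F j (fun _ => St.g) =
    (⨅ i ∈ (Finset.univ : Finset (Fin j)), asy (glE i)) ⊓ fx (alt (pmE (S := S) (F := F) (j := j))) := by
  ext f
  rw [mem_Ch, Submodule.mem_inf, mem_fx_alt pmE_mul, and_comm]
  refine and_congr ?_ Iff.rfl
  simp only [Submodule.mem_iInf, Finset.mem_univ, forall_true_left, mem_asy]
  exact forall_congr' fun i => rl_const_g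

theorem Ch_const_m : Ch S F j (fun _ => St.m) =
    (⨅ i ∈ (Finset.univ : Finset (Fin j)), asy (miE i)) ⊓ fx (alt (pmE (S := S) (F := F) (j := j))) := by
  ext f
  rw [mem_Ch, Submodule.mem_inf, mem_fx_alt pmE_mul, and_comm]
  refine and_congr ?_ Iff.rfl
  simp only [Submodule.mem_iInf, Finset.mem_univ, forall_true_left, mem_asy]
  exact forall_congr' fun i => rl_const_m

theorem vd_Ch_g : 2 ^ j * (j.factorial : ℝ) * vd (Gh S F) (Ch S F j fun _ => St.g) =
    Fintype.card (Orb (Gh S F) (Cell S F j)) := by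
  rw [Ch_const_g]
  exact vd_all S F j (e := glE) (fun i y => Cell.gl_gl i y) (fun i i' h y => Cell.gl_comm h y) pry_gl_self
    (fun i i' h y => pry_gl_ne h y) (fun i y => rfl) fun i π y => rfl

theorem vd_Ch_m : 2 ^ j * (j.factorial : ℝ) * vd (Gh S F) (Ch S F j fun _ => St.m) =
    Fintype.card (Orb (Gh S F) (Cell S F j)) := by
  rw [Ch_const_m]
  exact vd_all S F j (e := miE) (fun i y => Cell.mi_mi i y) (fun i i' h y => Cell.mi_comm h y) pry_mi_self
    (fun i i' h y => pry_mi_ne h y) (fun i y => rfl) fun i π y => rfl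

/-- **the chains have the same dimension** -/
theorem vd_Ch_eq : vd (Gh S F) (Ch S F j fun _ => St.g) = vd (Gh S F) (Ch S F j fun _ => St.m) := by
  have h1 := vd_Ch_g S F j
  have h2 := vd_Ch_m S F j
  have h3 : (2 ^ j * (j.factorial : ℝ)) ≠ 0 := by
    have h4 : (j.factorial : ℝ) ≠ 0 := by exact_mod_cast j.factorial_ne_zero
    positivity
  exact mul_left_cancel₀ h3 (h1.trans h2.symm)

end chd

end Npc
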