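import Pool.Agent.Npc.Pce

/-!
# Project NPC: the state glued

For a word map `w` the chains of the constant state glued are induced from the chains of the cube complex:
`vd_Ch_P`, `vd_Cyc_P`.
-/

set_option autoImplicit false
set_option linter.unusedSectionVars false
set_option linter.unusedVariables false

open scoped ComplexConjugate InnerProductSpace
open Filter Topology

namespace Npc

open Singer

variable {H P G : Type*} [Group G] [MulAction G H] [MulAction G P]
variable {S : Sys H P G} {F : Type*} [AddCommGroup F] {j : ℕ}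

/-- an element of the Coxeter group, with trivial labels -/
def nW (S : Sys H P G) (F : Type*) [AddCommGroup F] (x : RACG S.C) : NN S F :=
  ((x, 1) : RACG S.C × Multiplicative (H → F))

@[simp] lemma pw_nW (x : RACG S.C) : pw (nW S F x) = x := rfl
@[simp] lemma ch_nW (x : RACG S.C) (t : H) : ch (nW S F x) t = 0 := rfl

lemma nW_mul (x y : RACG S.C) : nW S F (x * y) = nW S F x * nW S F y :=
  nn_ext rfl fun t => by rw [ch_mul, ch_nW, ch_nW, ch_nW, add_zero]

lemma nW_gen (t : H) : nW S F (Racg.gen S.C t) = sW t := rfl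

lemma nW_one : nW S F 1 = 1 := rfl

lemma nW_inj : Function.Injective (nW S F) := fun x y h => congrArg pw h

/-- the section given by a word map -/
def eG (F : Type*) [AddCommGroup F] (w : P → RACG S.C) (y : PCell S j) : Cell S F j :=
  ⟨nW S F (w y.k), y.k, y.τ, y.dir, y.adj⟩

variable {w : P → RACG S.C}

lemma eG_inj : Function.Injective (eG F w : PCell S j → Cell S F j) := fun y z h =>
  PCell.ext (congrArg Cell.k h) (congrArg Cell.τ h)

lemma mem_range_eG {y : Cell S F j} : y ∈ Set.range (eG F w : PCell S j → Cell S F j) ↔ y.n = nW S F (w y.k) := by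
  constructor
  · rintro ⟨z, rfl⟩
    rfl
  · intro h
    exact ⟨⟨y.k, y.τ, y.dir, y.adj⟩, Cell.ext h.symm rfl rfl⟩

lemma pm_eG (π : Equiv.Perm (Fin j)) (y : PCell S j) : Cell.pm π (eG F w y) = eG F w (PCell.pm π y) := rfl

lemma tail_eG (y : PCell S (j + 1)) : Cell.tail (eG F w y) = eG F w (PCell.tail y) := rfl

lemma gl_eG (hw : ∀ t k, t ∈ S.dir k → w (S.fl t k) = w k * Racg.gen S.C t) (i : Fin j) (y : PCell S j) :
    Cell.gl i (eG F w y) = eG F w (PCell.gl i y) := by
  refine Cell.ext ?_ rfl rfl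
  show nW S F (w y.k) * sW (y.τ i) = nW S F (w (S.fl (y.τ i) y.k))
  rw [hw _ _ (y.dir i), nW_mul, nW_gen]

lemma gl_range (hw : ∀ t k, t ∈ S.dir k → w (S.fl t k) = w k * Racg.gen S.C t) (i : Fin j) (y : Cell S F j)
    (h : Cell.gl i y ∈ Set.range (eG F w : PCell S j → Cell S F j)) :
    y ∈ Set.range (eG F w : PCell S j → Cell S F j) := by
  obtain ⟨z, hz⟩ := h
  exact ⟨PCell.gl i z, by rw [← gl_eG hw, hz, Cell.gl_gl]⟩

lemma pm_range (π : Equiv.Perm (Fin j)) (y : Cell S F j)
    (h : Cell.pm π y ∈ Set.range (eG F w : PCell S j → Cell S F j)) :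
    y ∈ Set.range (eG F w : PCell S j → Cell S F j) := by
  have h1 := mem_range_eG.1 h
  exact mem_range_eG.2 h1

lemma tail_range (z : Cell S F (j + 1)) (y : PCell S j) (h : Cell.tail z = eG F w y) : ∃ z', eG F w z' = z := by
  have h1 : Cell.tail z ∈ Set.range (eG F w : PCell S j → Cell S F j) := ⟨y, h.symm⟩
  have h2 := mem_range_eG.1 h1
  have h3 : z ∈ Set.range (eG F w : PCell S (j + 1) → Cell S F (j + 1)) := mem_range_eG.2 h2
  exact h3

section ch
variable [Fintype F] (hw : ∀ t k, t ∈ S.dir k → w (S.fl t k) = w k * Racg.gen S.C t)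

include hw in
theorem pull_mem_PCh {f : L2 (Cell S F j)} (hf : f ∈ Ch S F j (fun _ => St.g)) :
    pull (eG F w) eG_inj f ∈ PCh S j := by
  obtain ⟨h1, h2⟩ := mem_Ch_g.1 hf
  refine ⟨fun π => ?_, fun i => ?_⟩
  · unfold PPm
    rw [pull_pce eG_inj (a := Cell.pm π) (Function.LeftInverse.injective (g := Cell.pm π⁻¹)
      fun y => by rw [Cell.pm_pm, mul_inv_cancel, Cell.pm_one]) _ (fun y => pm_eG π y)]
    exact (congrArg (pull (eG F w) eG_inj) (h1 π)).trans (map_smul _ _ _)
  · unfold PGl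
    rw [pull_pce eG_inj (a := Cell.gl i) (Function.LeftInverse.injective (g := Cell.gl i) (Cell.gl_gl i)) _
      (fun y => gl_eG hw i y)]
    exact (congrArg (pull (eG F w) eG_inj) (h2 i)).trans (map_neg _ _)

include hw in
theorem push_mem_Ch_g {f : L2 (PCell S j)} (hf : f ∈ PCh S j) :
    push (eG F w) eG_inj f ∈ Ch S F j (fun _ => St.g) := by
  obtain ⟨h1, h2⟩ := hf
  refine mem_Ch_g.2 ⟨fun π => ?_, fun i => ?_⟩
  · refine (push_pce eG_inj (a := Cell.pm π) (Function.LeftInverse.injective (g := Cell.pm π⁻¹)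
      fun y => by rw [Cell.pm_pm, mul_inv_cancel, Cell.pm_one]) (a' := PCell.pm π)
      (Function.LeftInverse.injective (g := PCell.pm π⁻¹)
      fun y => by rw [PCell.pm_pm, mul_inv_cancel, PCell.pm_one]) (fun y => pm_eG π y)
      (fun y h => pm_range π y h) f).trans ?_
    exact (congrArg (push (eG F w) eG_inj) (h1 π)).trans (map_smul _ _ _)
  · refine (push_pce eG_inj (a := Cell.gl i) (Function.LeftInverse.injective (g := Cell.gl i) (Cell.gl_gl i))
      (a' := PCell.gl i) (Function.LeftInverse.injective (g := PCell.gl i) (PCell.gl_gl i)) (fun y => gl_eG hw i y)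
      (fun y h => gl_range hw i y h) f).trans ?_
    exact (congrArg (push (eG F w) eG_inj) (h2 i)).trans (map_neg _ _)

theorem pull_DD_g (f : L2 (Cell S F (j + 1))) :
    pull (eG F w) eG_inj (DD S F f) = PDD S (pull (eG F w) eG_inj f) :=
  pull_psf _ _ eG_inj eG_inj (fun z => tail_eG z) (fun z y h => tail_range z y h) f

theorem push_DD_g (f : L2 (PCell S (j + 1))) :
    DD S F (push (eG F w) eG_inj f) = push (eG F w) eG_inj (PDD S f) :=
  push_psf _ _ eG_inj eG_inj (fun z => tail_eG z) (fun z y h => tail_range z y h) f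

include hw in
theorem pull_mem_PCyc {f : L2 (Cell S F (j + 1))} (hf : f ∈ Cyc S F j (fun _ => St.g)) :
    pull (eG F w) eG_inj f ∈ PCyc S j := by
  refine ⟨pull_mem_PCh hw hf.1, ?_⟩
  show PDD S (pull (eG F w) eG_inj f) = 0
  rw [← pull_DD_g, (mem_Cyc.1 hf).2, map_zero]

include hw in
theorem push_mem_Cyc_g {f : L2 (PCell S (j + 1))} (hf : f ∈ PCyc S j) :
    push (eG F w) eG_inj f ∈ Cyc S F j (fun _ => St.g) := by
  refine mem_Cyc.2 ⟨push_mem_Ch_g hw hf.1, ?_⟩
  have h1 : PDD S f = 0 := hf.2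
  rw [push_DD_g, h1, map_zero]

variable [Cof G P]

theorem vd_of_eG {V : Submodule ℂ (L2 (Cell S F j))} (hV : Inv (Gh S F) V) (V' : Submodule ℂ (L2 (PCell S j)))
    (h1 : ∀ f ∈ V', push (eG F w) eG_inj f ∈ V) (h2 : ∀ f ∈ V, pull (eG F w) eG_inj f ∈ V') :
    vd (Gh S F) V = vd G V' := by
  refine vd_eq_loc (eG F w) eG_inj hV V' h1 h2 ?_ ?_ ?_
  · intro y
    refine ⟨⟨y.k, y.τ, y.dir, y.adj⟩, ⟨y.n * (nW S F (w y.k))⁻¹, 1⟩, Cell.ext ?_ (one_smul _ _)
      (funext fun i => one_smul _ _)⟩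
    show y.n * (nW S F (w y.k))⁻¹ * (1 : G) • nW S F (w y.k) = y.n
    rw [one_smul, inv_mul_cancel_right]
  · intro y g
    refine ⟨⟨nW S F (w (g • y.k)) * (g • nW S F (w y.k))⁻¹, g⟩, Cell.ext ?_ rfl rfl⟩
    show nW S F (w (g • y.k)) * (g • nW S F (w y.k))⁻¹ * g • nW S F (w y.k) = nW S F (w (g • y.k))
    rw [inv_mul_cancel_right]
  · intro y z γ h
    exact ⟨γ.right, PCell.ext (congrArg Cell.k h) (congrArg Cell.τ h)⟩

include hw in
/-- the chains of the constant state glued -/
theorem vd_Ch_P : vd (Gh S F) (Ch S F j (fun _ => St.g)) = vd G (PCh S j) :=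
  vd_of_eG (w := w) mdl_Ch.inv _ (fun f hf => push_mem_Ch_g hw hf) (fun f hf => pull_mem_PCh hw hf)

include hw in
/-- the cycles of the constant state glued -/
theorem vd_Cyc_P : vd (Gh S F) (Cyc S F j (fun _ => St.g)) = vd G (PCyc S j) :=
  vd_of_eG (w := w) mdl_Cyc.inv _ (fun f hf => push_mem_Cyc_g hw hf) (fun f hf => pull_mem_PCyc hw hf)

end ch

end Npc
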