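import Pool.Agent.Npc.Ops
import Pool.Agent.Npc.Dim

/-!
# NPC cube complexes: ordered chains of the Davis complex

`TCell L j` : ordered cells `(w, τ)` of the Davis complex of `RACG L`; `TMi i`, `TPm π`, `TDD` : operators on
`L2 (TCell L j)`; `TCh`, `TCyc` (degree `j + 1`), `TBd`; `tbet i` : the `ℓ²`-Betti numbers.
-/

set_option autoImplicit false
set_option linter.unusedSectionVars false
set_option linter.unusedVariables false

open scoped ComplexConjugate InnerProductSpace
open Filter Topology

namespace Npc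

open Singer

section tcell
variable {V : Type*}

/-- ordered cells of the Davis complex -/
@[ext] structure TCell (L : SimpleGraph V) (j : ℕ) where
  w : RACG L
  τ : Fin j → V
  adj : ∀ i i', i ≠ i' → L.Adj (τ i) (τ i')

namespace TCell
variable {L : SimpleGraph V} {j : ℕ}

noncomputable instance : MulAction (RACG L) (TCell L j) where
  smul g y := ⟨g * y.w, y.τ, y.adj⟩
  one_smul y := TCell.ext (one_mul _) rfl
  mul_smul g g' y := TCell.ext (mul_assoc _ _ _) rfl

lemma smul_w (g : RACG L) (y : TCell L j) : (g • y).w = g * y.w := rfl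
lemma smul_τ (g : RACG L) (y : TCell L j) : (g • y).τ = y.τ := rfl

/-- the mirror move -/
noncomputable def mi (i : Fin j) (y : TCell L j) : TCell L j := ⟨y.w * Racg.gen L (y.τ i), y.τ, y.adj⟩

/-- permutation of the letters -/
def pm (π : Equiv.Perm (Fin j)) (y : TCell L j) : TCell L j :=
  ⟨y.w, fun i => y.τ (π i), fun i i' h => y.adj _ _ fun h' => h (π.injective h')⟩

/-- the face: the first letter is removed -/
def tail (y : TCell L (j + 1)) : TCell L j :=
  ⟨y.w, fun i => y.τ i.succ, fun i i' h => y.adj _ _ fun h' => h (Fin.succ_injective _ h')⟩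

section simp
variable (i : Fin j) (y : TCell L j) (π : Equiv.Perm (Fin j))
@[simp] lemma mi_w : (mi i y).w = y.w * Racg.gen L (y.τ i) := rfl
@[simp] lemma mi_τ : (mi i y).τ = y.τ := rfl
@[simp] lemma pm_w : (pm π y).w = y.w := rfl
@[simp] lemma pm_τ : (pm π y).τ i = y.τ (π i) := rfl
@[simp] lemma tail_w (y : TCell L (j + 1)) : (tail y).w = y.w := rfl
@[simp] lemma tail_τ (y : TCell L (j + 1)) : (tail y).τ i = y.τ i.succ := rfl
end simp

lemma mi_mi (i : Fin j) (y : TCell L j) : mi i (mi i y) = y := by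
  refine TCell.ext ?_ rfl
  show y.w * Racg.gen L (y.τ i) * Racg.gen L (y.τ i) = y.w
  rw [mul_assoc, Racg.gen_mul_gen, mul_one]

lemma mi_comm {i i' : Fin j} (h : i ≠ i') (y : TCell L j) : mi i (mi i' y) = mi i' (mi i y) := by
  refine TCell.ext ?_ rfl
  show y.w * Racg.gen L (y.τ i') * Racg.gen L (y.τ i) = y.w * Racg.gen L (y.τ i) * Racg.gen L (y.τ i')
  rw [mul_assoc, mul_assoc, Racg.gen_comm (y.adj i i' h)]

lemma pm_pm (π ρ : Equiv.Perm (Fin j)) (y : TCell L j) : pm ρ (pm π y) = pm (π * ρ) y := rfl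

@[simp] lemma pm_one (y : TCell L j) : pm 1 y = y := rfl

lemma smul_mi (g : RACG L) (i : Fin j) (y : TCell L j) : mi i (g • y) = g • mi i y :=
  TCell.ext (mul_assoc _ _ _) rfl

lemma smul_pm (g : RACG L) (π : Equiv.Perm (Fin j)) (y : TCell L j) : pm π (g • y) = g • pm π y := rfl

lemma smul_tail (g : RACG L) (y : TCell L (j + 1)) : tail (g • y) = g • tail y := rfl

/-- the fibres of `tail` -/
lemma fibre [Fintype V] : Fibre (tail : TCell L (j + 1) → TCell L j) (Fintype.card V) := by
  classical
  have key : ∀ y : TCell L j, Set.InjOn (fun z : TCell L (j + 1) => z.τ 0) {z | tail z = y} := by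
    rintro y z rfl z' hz' h
    have hz2 : tail z' = tail z := hz'
    have e2 : z'.w = z.w := congrArg (fun y : TCell L j => y.w) hz2
    have e3 : ∀ i : Fin j, z'.τ i.succ = z.τ i.succ := fun i => congrFun (congrArg (fun y : TCell L j => y.τ) hz2) i
    refine TCell.ext e2.symm (funext fun i => ?_)
    refine Fin.cases h (fun i => (e3 i).symm) i
  have h2 : ∀ y : TCell L j, Set.MapsTo (fun z : TCell L (j + 1) => z.τ 0) {z | tail z = y}
      ((Finset.univ : Finset V) : Set V) := fun y z _ => by simp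
  refine ⟨fun y => Set.Finite.of_injOn (h2 y) (key y) (Finset.finite_toSet _), fun y => ?_⟩
  calc {z : TCell L (j + 1) | tail z = y}.ncard ≤ ((Finset.univ : Finset V) : Set V).ncard :=
        Set.ncard_le_ncard_of_injOn _ (h2 y) (key y) (Finset.finite_toSet _)
    _ = (Finset.univ : Finset V).card := Set.ncard_coe_finset _
    _ = Fintype.card V := Finset.card_univ

end TCell

variable (L : SimpleGraph V) {j : ℕ}

/-- the mirror move -/
noncomputable def TMi (i : Fin j) : L2 (TCell L j) →L[ℂ] L2 (TCell L j) :=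
  pull (TCell.mi i) (Function.LeftInverse.injective (g := TCell.mi i) (TCell.mi_mi i))

/-- permutation of the letters -/
noncomputable def TPm (π : Equiv.Perm (Fin j)) : L2 (TCell L j) →L[ℂ] L2 (TCell L j) :=
  pull (TCell.pm π) (Function.LeftInverse.injective (g := TCell.pm π⁻¹)
    fun y => by rw [TCell.pm_pm, mul_inv_cancel, TCell.pm_one])

/-- the boundary operator -/
noncomputable def TDD [Fintype V] : L2 (TCell L (j + 1)) →L[ℂ] L2 (TCell L j) := psf (TCell.fibre (L := L))

variable (j) in
/-- the chains of degree `j` -/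
def TCh : Submodule ℂ (L2 (TCell L j)) where
  carrier := {f | (∀ π : Equiv.Perm (Fin j), TPm L π f = ((Equiv.Perm.sign π : ℤ) : ℂ) • f) ∧ ∀ i, TMi L i f = -f}
  zero_mem' := ⟨fun π => by rw [map_zero, smul_zero], fun i => by rw [map_zero, neg_zero]⟩
  add_mem' := by
    rintro f g ⟨h1, h2⟩ ⟨h3, h4⟩
    exact ⟨fun π => by rw [map_add, smul_add, h1, h3], fun i => by rw [map_add, h2, h4, neg_add]⟩
  smul_mem' := by
    rintro c f ⟨h1, h2⟩
    exact ⟨fun π => by rw [map_smul, h1, smul_comm], fun i => by rw [map_smul, h2, smul_neg]⟩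

variable (j) in
/-- the cycles of degree `j + 1` -/
noncomputable def TCyc [Fintype V] : Submodule ℂ (L2 (TCell L (j + 1))) :=
  TCh L (j + 1) ⊓ LinearMap.ker ((TDD L : L2 (TCell L (j + 1)) →L[ℂ] L2 (TCell L j)) :
    L2 (TCell L (j + 1)) →ₗ[ℂ] L2 (TCell L j))

variable (j) in
/-- the closure of the boundaries, in degree `j` -/
noncomputable def TBd [Fintype V] : Submodule ℂ (L2 (TCell L j)) :=
  ((TCh L (j + 1)).map ((TDD L : L2 (TCell L (j + 1)) →L[ℂ] L2 (TCell L j)) :
    L2 (TCell L (j + 1)) →ₗ[ℂ] L2 (TCell L j))).topologicalClosure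

instance cof_TCell [Finite V] : Cof (RACG L) (TCell L j) where
  free g y h := by
    have h1 : g * y.w = y.w := congrArg TCell.w h
    exact mul_eq_right.1 h1
  fin := by
    refine Finite.of_injective (β := Fin j → V)
      (Quotient.lift (fun y : TCell L j => y.τ) (by
        rintro y z ⟨g, rfl⟩
        rfl)) ?_
    intro a b
    induction a using Quotient.inductionOn with | h a => ?_
    induction b using Quotient.inductionOn with | h b => ?_
    intro h
    have h1 : a.τ = b.τ := h
    refine Quotient.sound ⟨a.w * b.w⁻¹, ?_⟩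
    exact TCell.ext (by
      show a.w * b.w⁻¹ * b.w = a.w
      rw [inv_mul_cancel_right]) h1.symm

/-- the `ℓ²`-Betti numbers of the Davis complex -/
noncomputable def tbet [Fintype V] : ℕ → ℝ
  | 0 => vd (RACG L) (TCh L 0) - vd (RACG L) (TBd L 0)
  | i + 1 => vd (RACG L) (TCyc L i) - vd (RACG L) (TBd L (i + 1))

end tcell

end Npc
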