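import Pool.Agent.Npc.Cofs
import Pool.Agent.Npc.Tcell

/-!
# NPC cube complexes: rank and nullity

`pbet_zero`, `pbet_succ`, `tbet_zero`, `tbet_succ` : the `ℓ²`-Betti numbers in terms of the dimensions of the chains and of
the cycles; `pbet_le` : comparison.
-/

set_option autoImplicit false
set_option linter.unusedSectionVars false
set_option linter.unusedVariables false

open scoped ComplexConjugate InnerProductSpace
open Filter Topology

namespace Npc

open Singer

namespace Eu

section pc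
variable {H P G : Type*} [Group G] [MulAction G H] [MulAction G P] {S : Sys H P G} {j : ℕ}

lemma equi_PGl (i : Fin j) : Equi G (PGl S i) := equi_pull _ fun g y => PCell.smul_gl g i y

lemma equi_PPm (π : Equiv.Perm (Fin j)) : Equi G (PPm S π) := equi_pull _ fun g y => PCell.smul_pm g π y

lemma equi_PDD : Equi G (PDD S : L2 (PCell S (j + 1)) →L[ℂ] L2 (PCell S j)) :=
  equi_psf _ fun g z => PCell.smul_tail g z

lemma mdl_PCh : Mdl G (PCh S j) := by
  refine mdl_of_ker (α := Equiv.Perm (Fin j) ⊕ Fin j)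
    (T := Sum.elim (fun π => PPm S π - ((Equiv.Perm.sign π : ℤ) : ℂ) • 1) (fun i => PGl S i + 1)) ?_ ?_
  · rintro (π | i)
    · exact (equi_PPm π).sub (equi_one.smul _)
    · exact (equi_PGl i).add equi_one
  · intro f
    constructor
    · rintro ⟨h1, h2⟩ (π | i)
      · show PPm S π f - ((Equiv.Perm.sign π : ℤ) : ℂ) • f = 0
        rw [h1, sub_self]
      · show PGl S i f + f = 0
        rw [h2, neg_add_cancel]
    · intro h
      exact ⟨fun π => sub_eq_zero.1 (h (Sum.inl π)), fun i => eq_neg_of_add_eq_zero_left (h (Sum.inr i))⟩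

lemma mdl_PCyc : Mdl G (PCyc S j) := mdl_PCh.inf (mdl_ker equi_PDD)

variable [Cof G P]

lemma pbd (j : ℕ) : vd G (PBd S j) + vd G (PCyc S j) = vd G (PCh S (j + 1)) := by
  unfold PBd PCyc
  rw [vd_closure]
  exact vd_map_add equi_PDD mdl_PCh

end pc

section tc
variable {V : Type*} [Fintype V] {L : SimpleGraph V} {j : ℕ}

lemma equi_TMi (i : Fin j) : Equi (RACG L) (TMi L i) := equi_pull _ fun g y => TCell.smul_mi g i y

lemma equi_TPm (π : Equiv.Perm (Fin j)) : Equi (RACG L) (TPm L π) := equi_pull _ fun g y => TCell.smul_pm g π y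

lemma equi_TDD : Equi (RACG L) (TDD L : L2 (TCell L (j + 1)) →L[ℂ] L2 (TCell L j)) :=
  equi_psf _ fun g z => TCell.smul_tail g z

lemma mdl_TCh : Mdl (RACG L) (TCh L j) := by
  refine mdl_of_ker (α := Equiv.Perm (Fin j) ⊕ Fin j)
    (T := Sum.elim (fun π => TPm L π - ((Equiv.Perm.sign π : ℤ) : ℂ) • 1) (fun i => TMi L i + 1)) ?_ ?_
  · rintro (π | i)
    · exact (equi_TPm π).sub (equi_one.smul _)
    · exact (equi_TMi i).add equi_one
  · intro f
    constructor
    · rintro ⟨h1, h2⟩ (π | i)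
      · show TPm L π f - ((Equiv.Perm.sign π : ℤ) : ℂ) • f = 0
        rw [h1, sub_self]
      · show TMi L i f + f = 0
        rw [h2, neg_add_cancel]
    · intro h
      exact ⟨fun π => sub_eq_zero.1 (h (Sum.inl π)), fun i => eq_neg_of_add_eq_zero_left (h (Sum.inr i))⟩

lemma mdl_TCyc : Mdl (RACG L) (TCyc L j) := mdl_TCh.inf (mdl_ker equi_TDD)

lemma tbd (j : ℕ) : vd (RACG L) (TBd L j) + vd (RACG L) (TCyc L j) = vd (RACG L) (TCh L (j + 1)) := by
  unfold TBd TCyc
  rw [vd_closure]
  exact vd_map_add equi_TDD mdl_TCh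

end tc

end Eu

section bet
variable {H P G : Type*} [Group G] [MulAction G H] [MulAction G P] (S : Sys H P G) [Cof G P]

theorem pbet_zero : pbet S 0 = vd G (PCh S 0) - vd G (PCh S 1) + vd G (PCyc S 0) := by
  have h := Eu.pbd (S := S) 0
  show vd G (PCh S 0) - vd G (PBd S 0) = _
  linarith

theorem pbet_succ (i : ℕ) : pbet S (i + 1) = vd G (PCyc S i) - vd G (PCh S (i + 2)) + vd G (PCyc S (i + 1)) := by
  have h := Eu.pbd (S := S) (i + 1)
  show vd G (PCyc S i) - vd G (PBd S (i + 1)) = _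
  linarith

variable {V : Type*} [Fintype V] (L : SimpleGraph V)

theorem tbet_zero : tbet L 0 = vd (RACG L) (TCh L 0) - vd (RACG L) (TCh L 1) + vd (RACG L) (TCyc L 0) := by
  have h := Eu.tbd (L := L) 0
  show vd (RACG L) (TCh L 0) - vd (RACG L) (TBd L 0) = _
  linarith

theorem tbet_succ (i : ℕ) : tbet L (i + 1) =
    vd (RACG L) (TCyc L i) - vd (RACG L) (TCh L (i + 2)) + vd (RACG L) (TCyc L (i + 1)) := by
  have h := Eu.tbd (L := L) (i + 1)
  show vd (RACG L) (TCyc L i) - vd (RACG L) (TBd L (i + 1)) = _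
  linarith

/-- the link of a vertex: the crossing graph on the hyperplanes adjacent to it -/
abbrev lkG (S : Sys H P G) (k : P) : SimpleGraph {t // t ∈ S.dir k} := S.C.comap (Subtype.val : {t // t ∈ S.dir k} → H)

/-- comparison of Betti numbers -/
theorem pbet_le {T : Finset P}
    (h1 : ∀ j, vd G (PCh S j) = ∑ k ∈ T, vd (RACG (lkG S k)) (TCh (lkG S k) j))
    (h2 : ∀ j, vd G (PCyc S j) ≤ ∑ k ∈ T, vd (RACG (lkG S k)) (TCyc (lkG S k) j)) (i : ℕ) :
    pbet S i ≤ ∑ k ∈ T, tbet (lkG S k) i := by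
  cases i with
  | zero =>
    rw [pbet_zero, Finset.sum_congr rfl fun k _ => tbet_zero (lkG S k), Finset.sum_add_distrib, Finset.sum_sub_distrib,
      ← h1, ← h1]
    linarith [h2 0]
  | succ i =>
    rw [pbet_succ, Finset.sum_congr rfl fun k _ => tbet_succ (lkG S k) i, Finset.sum_add_distrib,
      Finset.sum_sub_distrib, ← h1]
    linarith [h2 i, h2 (i + 1)]

end bet

end Npc
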