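import Pool.Agent.Npc.EndG
import Pool.Agent.Npc.Euler

/-!
# Project NPC: the state mirrored

The chains of the constant state mirrored are induced from the chains of the Davis complexes of the links of the vertices:
`vd_Ch_T`, `vd_Cyc_T`.
-/

set_option autoImplicit false
set_option linter.unusedSectionVars false
set_option linter.unusedVariables false

open scoped ComplexConjugate InnerProductSpace
open Filter Topology

namespace Npc

open Singer

variable {H P G : Type*} [Group G] [MulAction G H] [MulAction G P]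

variable {S : Sys H P G} {F : Type*} [AddCommGroup F] {j : ℕ}

/-- the inclusion of the group of the link -/
noncomputable def lW (S : Sys H P G) (k : P) : RACG (lkG S k) →* RACG S.C := Racg.map Subtype.val fun _ _ h => h

lemma lW_inj (k : P) : Function.Injective (lW S k) :=
  Racg.map_injective Subtype.val Subtype.val_injective fun _ _ => Iff.rfl

lemma lW_gen (k : P) (t : {t : H // t ∈ S.dir k}) : lW S k (Racg.gen (lkG S k) t) = Racg.gen S.C t.1 :=
  Racg.map_gen _ _ _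

/-- the cells at the vertex `k` -/
noncomputable def eM (F : Type*) [AddCommGroup F] (k : P) (y : TCell (lkG S k) j) : Cell S F j :=
  ⟨nW S F (lW S k y.w), k, fun i => (y.τ i).1, fun i => (y.τ i).2, fun i i' h => y.adj i i' h⟩

lemma eM_inj (k : P) : Function.Injective (eM F k : TCell (lkG S k) j → Cell S F j) := fun y z h =>
  TCell.ext (lW_inj k (nW_inj (congrArg Cell.n h)))
    (funext fun i => Subtype.ext (congrFun (congrArg Cell.τ h) i))

lemma pm_eM (k : P) (π : Equiv.Perm (Fin j)) (y : TCell (lkG S k) j) :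
    Cell.pm π (eM F k y) = eM F k (TCell.pm π y) := rfl

lemma tail_eM (k : P) (y : TCell (lkG S k) (j + 1)) : Cell.tail (eM F k y) = eM F k (TCell.tail y) := rfl

lemma mi_eM (k : P) (i : Fin j) (y : TCell (lkG S k) j) : Cell.mi i (eM F k y) = eM F k (TCell.mi i y) := by
  refine Cell.ext ?_ rfl rfl
  show nW S F (lW S k y.w) * sW (y.τ i).1 = nW S F (lW S k (y.w * Racg.gen (lkG S k) (y.τ i)))
  rw [map_mul, nW_mul, lW_gen, nW_gen]

lemma mi_rangeM (k : P) (i : Fin j) (y : Cell S F j)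
    (h : Cell.mi i y ∈ Set.range (eM F k : TCell (lkG S k) j → Cell S F j)) :
    y ∈ Set.range (eM F k : TCell (lkG S k) j → Cell S F j) := by
  obtain ⟨z, hz⟩ := h
  exact ⟨TCell.mi i z, by rw [← mi_eM, hz, Cell.mi_mi]⟩

lemma pm_rangeM (k : P) (π : Equiv.Perm (Fin j)) (y : Cell S F j)
    (h : Cell.pm π y ∈ Set.range (eM F k : TCell (lkG S k) j → Cell S F j)) :
    y ∈ Set.range (eM F k : TCell (lkG S k) j → Cell S F j) := by
  obtain ⟨z, hz⟩ := h
  exact ⟨TCell.pm π⁻¹ z, by rw [← pm_eM, hz, Cell.pm_pm, mul_inv_cancel, Cell.pm_one]⟩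

lemma tail_rangeM (k : P) (z : Cell S F (j + 1)) (y : TCell (lkG S k) j) (h : Cell.tail z = eM F k y) :
    ∃ z', eM F k z' = z := by
  have h1 : z.n = nW S F (lW S k y.w) := congrArg Cell.n h
  have h2 : z.k = k := congrArg Cell.k h
  refine ⟨⟨y.w, fun i => ⟨z.τ i, h2 ▸ z.dir i⟩, fun i i' h => z.adj i i' h⟩, Cell.ext h1.symm h2.symm rfl⟩

section ch
variable [Fintype F]

theorem pull_mem_TCh (k : P) {f : L2 (Cell S F j)} (hf : f ∈ Ch S F j (fun _ => St.m)) :
    pull (eM F k) (eM_inj k) f ∈ TCh (lkG S k) j := by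
  obtain ⟨h1, h2⟩ := mem_Ch_m.1 hf
  refine ⟨fun π => ?_, fun i => ?_⟩
  · unfold TPm
    rw [pull_pce (eM_inj k) (a := Cell.pm π) (Function.LeftInverse.injective (g := Cell.pm π⁻¹)
      fun y => by rw [Cell.pm_pm, mul_inv_cancel, Cell.pm_one]) _ (fun y => pm_eM k π y)]
    exact (congrArg (pull (eM F k) (eM_inj k)) (h1 π)).trans (map_smul _ _ _)
  · unfold TMi
    rw [pull_pce (eM_inj k) (a := Cell.mi i) (Function.LeftInverse.injective (g := Cell.mi i) (Cell.mi_mi i)) _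
      (fun y => mi_eM k i y)]
    exact (congrArg (pull (eM F k) (eM_inj k)) (h2 i)).trans (map_neg _ _)

theorem push_mem_Ch_m (k : P) {f : L2 (TCell (lkG S k) j)} (hf : f ∈ TCh (lkG S k) j) :
    push (eM F k) (eM_inj k) f ∈ Ch S F j (fun _ => St.m) := by
  obtain ⟨h1, h2⟩ := hf
  refine mem_Ch_m.2 ⟨fun π => ?_, fun i => ?_⟩
  · refine (push_pce (eM_inj k) (a := Cell.pm π) (Function.LeftInverse.injective (g := Cell.pm π⁻¹)
      fun y => by rw [Cell.pm_pm, mul_inv_cancel, Cell.pm_one]) (a' := TCell.pm π)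
      (Function.LeftInverse.injective (g := TCell.pm π⁻¹)
      fun y => by rw [TCell.pm_pm, mul_inv_cancel, TCell.pm_one]) (fun y => pm_eM k π y)
      (fun y h => pm_rangeM k π y h) f).trans ?_
    exact (congrArg (push (eM F k) (eM_inj k)) (h1 π)).trans (map_smul _ _ _)
  · refine (push_pce (eM_inj k) (a := Cell.mi i) (Function.LeftInverse.injective (g := Cell.mi i) (Cell.mi_mi i))
      (a' := TCell.mi i) (Function.LeftInverse.injective (g := TCell.mi i) (TCell.mi_mi i)) (fun y => mi_eM k i y)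
      (fun y h => mi_rangeM k i y h) f).trans ?_
    exact (congrArg (push (eM F k) (eM_inj k)) (h2 i)).trans (map_neg _ _)

theorem pull_DD_m (k : P) (f : L2 (Cell S F (j + 1))) :
    pull (eM F k) (eM_inj k) (DD S F f) = TDD (lkG S k) (pull (eM F k) (eM_inj k) f) :=
  pull_psf _ _ (eM_inj k) (eM_inj k) (fun z => tail_eM k z) (fun z y h => tail_rangeM k z y h) f

theorem push_DD_m (k : P) (f : L2 (TCell (lkG S k) (j + 1))) :
    DD S F (push (eM F k) (eM_inj k) f) = push (eM F k) (eM_inj k) (TDD (lkG S k) f) :=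
  push_psf _ _ (eM_inj k) (eM_inj k) (fun z => tail_eM k z) (fun z y h => tail_rangeM k z y h) f

theorem pull_mem_TCyc (k : P) {f : L2 (Cell S F (j + 1))} (hf : f ∈ Cyc S F j (fun _ => St.m)) :
    pull (eM F k) (eM_inj k) f ∈ TCyc (lkG S k) j := by
  refine ⟨pull_mem_TCh k hf.1, ?_⟩
  show TDD (lkG S k) (pull (eM F k) (eM_inj k) f) = 0
  rw [← pull_DD_m, (mem_Cyc.1 hf).2, map_zero]

theorem push_mem_Cyc_m (k : P) {f : L2 (TCell (lkG S k) (j + 1))} (hf : f ∈ TCyc (lkG S k) j) :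
    push (eM F k) (eM_inj k) f ∈ Cyc S F j (fun _ => St.m) := by
  refine mem_Cyc.2 ⟨push_mem_Ch_m k hf.1, ?_⟩
  have h1 : TDD (lkG S k) f = 0 := hf.2
  rw [push_DD_m, h1, map_zero]

variable [Cof G P] {τ : Type*} [Fintype τ] {x : τ → P}

theorem vd_of_eM (hx : ∀ k, ∃! a, ∃ g : G, g • x a = k) {V : Submodule ℂ (L2 (Cell S F j))} (hV : Inv (Gh S F) V)
    (V' : ∀ a, Submodule ℂ (L2 (TCell (lkG S (x a)) j)))
    (h1 : ∀ a, ∀ f ∈ V' a, push (eM F (x a)) (eM_inj (x a)) f ∈ V)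
    (h2 : ∀ a, ∀ f ∈ V, pull (eM F (x a)) (eM_inj (x a)) f ∈ V' a) :
    vd (Gh S F) V = ∑ a, vd (RACG (lkG S (x a))) (V' a) := by
  refine vd_eq_sum_loc (fun a => eM F (x a)) (fun a => eM_inj (x a)) hV V' h1 h2 ?_ ?_ ?_
  · intro y
    obtain ⟨a, ⟨g, hg⟩, -⟩ := hx y.k
    have h3 : ∀ i, g⁻¹ • y.τ i ∈ S.dir (x a) := fun i => by
      have h4 : x a = g⁻¹ • y.k := by rw [← hg, inv_smul_smul]
      rw [h4]
      exact (S.dir_smul _ _ _).2 (y.dir i)
    refine ⟨a, ⟨1, fun i => ⟨g⁻¹ • y.τ i, h3 i⟩, fun i i' h => (S.adj _ _ _).2 (y.adj i i' h)⟩, ⟨y.n, g⟩,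
      Cell.ext ?_ hg (funext fun i => smul_inv_smul _ _)⟩
    show y.n * g • nW S F (lW S (x a) 1) = y.n
    rw [map_one, nW_one, smul_one, mul_one]
  · intro a y g
    refine ⟨⟨nW S F (lW S (x a) g), 1⟩, Cell.ext ?_ (one_smul _ _) (funext fun i => one_smul _ _)⟩
    show nW S F (lW S (x a) g) * (1 : G) • nW S F (lW S (x a) y.w) = nW S F (lW S (x a) (g * y.w))
    rw [one_smul, map_mul, nW_mul]
  · intro a b y z γ h
    have h3 : γ.right • x a = x b := congrArg Cell.k h
    have h4 : a = b := (hx (x b)).unique ⟨γ.right, h3⟩ ⟨1, one_smul _ _⟩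
    subst h4
    have h5 : γ.right = 1 := S.free _ _ h3
    congr 1
    refine Quotient.sound' ⟨y.w * z.w⁻¹, TCell.ext ?_ ?_⟩
    · show y.w * z.w⁻¹ * z.w = y.w
      rw [inv_mul_cancel_right]
    · funext i
      have h6 : γ.right • (y.τ i).1 = (z.τ i).1 := congrFun (congrArg Cell.τ h) i
      rw [h5, one_smul] at h6
      exact Subtype.ext h6.symm

/-- the chains of the constant state mirrored -/
theorem vd_Ch_T (hx : ∀ k, ∃! a, ∃ g : G, g • x a = k) :
    vd (Gh S F) (Ch S F j (fun _ => St.m)) = ∑ a, vd (RACG (lkG S (x a))) (TCh (lkG S (x a)) j) :=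
  vd_of_eM hx mdl_Ch.inv _ (fun a f hf => push_mem_Ch_m (x a) hf) (fun a f hf => pull_mem_TCh (x a) hf)

/-- the cycles of the constant state mirrored -/
theorem vd_Cyc_T (hx : ∀ k, ∃! a, ∃ g : G, g • x a = k) :
    vd (Gh S F) (Cyc S F j (fun _ => St.m)) = ∑ a, vd (RACG (lkG S (x a))) (TCyc (lkG S (x a)) j) :=
  vd_of_eM hx mdl_Cyc.inv _ (fun a f hf => push_mem_Cyc_m (x a) hf) (fun a f hf => pull_mem_TCyc (x a) hf)

/-- representatives of the orbits -/
theorem out_repr (k : P) : ∃! q : Orb G P, ∃ g : G, g • q.out = k := by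
  refine ⟨Quotient.mk'' k, ?_, ?_⟩
  · have h : MulAction.orbitRel G P (Quotient.out (Quotient.mk'' k : Orb G P)) k := Quotient.mk_out k
    obtain ⟨g, hg⟩ := h
    refine ⟨g⁻¹, ?_⟩
    have h1 : g • k = Quotient.out (Quotient.mk'' k : Orb G P) := hg
    rw [← h1, inv_smul_smul]
  · rintro q ⟨g, hg⟩
    rw [← hg, ← Quotient.out_eq' q]
    refine Quotient.sound' ⟨g⁻¹, ?_⟩
    show g⁻¹ • g • (Quotient.out (Quotient.mk'' q.out : Orb G P)) = q.out
    rw [inv_smul_smul, Quotient.out_eq' q]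

theorem vd_Ch_orb :
    vd (Gh S F) (Ch S F j (fun _ => St.m)) = ∑ q : Orb G P, vd (RACG (lkG S q.out)) (TCh (lkG S q.out) j) :=
  vd_Ch_T (x := fun q : Orb G P => q.out) out_repr

theorem vd_Cyc_orb :
    vd (Gh S F) (Cyc S F j (fun _ => St.m)) = ∑ q : Orb G P, vd (RACG (lkG S q.out)) (TCyc (lkG S q.out) j) :=
  vd_Cyc_T (x := fun q : Orb G P => q.out) out_repr

end ch

end Npc
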