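import Pool.Agent.Npc.Geo

/-!
# NPC cube complexes: the word map

From a height function: `wm h : P → RACG S.C` with `wm x0 = 1`, `wm (fl t k) = wm k * gen t`; the cocycle
`al h g = wm (g • x0)` with `wm (g • k) = al g * (g . wm k)`.
-/

set_option autoImplicit false
set_option linter.unusedSectionVars false
set_option linter.unusedVariables false

namespace Npc

open Singer

variable {H P G : Type*} [Group G] [MulAction G H] [MulAction G P]
variable {S : Sys H P G} {x0 : P} {ht : P → ℕ}

open Classical in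
/-- the word map -/
noncomputable def wm (h : Ht S x0 ht) (k : P) : RACG S.C :=
  if hk : k = x0 then 1 else wm h (S.fl (h.desc k hk).choose k) * Racg.gen S.C (h.desc k hk).choose
termination_by ht k
decreasing_by exact (h.desc k hk).choose_spec.2

lemma wm_x0 (h : Ht S x0 ht) : wm h x0 = 1 := by
  rw [wm]
  simp

lemma Ht.ne_x0 (h : Ht S x0 ht) {t : H} {k : P} (hd : ht (S.fl t k) < ht k) : k ≠ x0 := by
  rintro rfl
  rw [h.zero] at hd
  exact absurd hd (Nat.not_lt_zero _)

lemma wm_desc_aux (h : Ht S x0 ht) : ∀ (n : ℕ) (k : P), ht k = n → ∀ t ∈ S.dir k, ht (S.fl t k) < ht k →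
    wm h k = wm h (S.fl t k) * Racg.gen S.C t := by
  intro n
  induction n using Nat.strong_induction_on with
  | _ n ih =>
    intro k hn t ht1 ht2
    have hk : k ≠ x0 := h.ne_x0 ht2
    set u := (h.desc k hk).choose with hu
    have hu1 : u ∈ S.dir k := (h.desc k hk).choose_spec.1
    have hu2 : ht (S.fl u k) < ht k := (h.desc k hk).choose_spec.2
    have e : wm h k = wm h (S.fl u k) * Racg.gen S.C u := by
      rw [wm, dif_neg hk]
    by_cases htu : t = u
    · rw [e, htu]
    · have ha : S.C.Adj t u := h.adj t u k ht1 hu1 htu ht2 hu2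
      have hb : S.C.Adj u t := ha.symm
      have i1 : t ∈ S.dir (S.fl u k) := S.dir_adj u t k hb hu1 ht1
      have i2 : u ∈ S.dir (S.fl t k) := S.dir_adj t u k ha ht1 hu1
      have j1 : ht (S.fl t (S.fl u k)) < ht (S.fl u k) := (h.inv u t k hb hu1 ht1).2 ht2
      have j2 : ht (S.fl u (S.fl t k)) < ht (S.fl t k) := (h.inv t u k ha ht1 hu1).2 hu2
      have e1 := ih (ht (S.fl u k)) (by omega) (S.fl u k) rfl t i1 j1
      have e2 := ih (ht (S.fl t k)) (by omega) (S.fl t k) rfl u i2 j2
      rw [e, e1, e2, S.fl_comm t u k ha ht1 hu1, mul_assoc, mul_assoc, Racg.gen_comm ha]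

lemma wm_desc (h : Ht S x0 ht) {k : P} {t : H} (h1 : t ∈ S.dir k) (h2 : ht (S.fl t k) < ht k) :
    wm h k = wm h (S.fl t k) * Racg.gen S.C t := wm_desc_aux h _ k rfl t h1 h2

/-- **the word map crosses a hyperplane by the generator** -/
theorem wm_fl (h : Ht S x0 ht) {k : P} {t : H} (h1 : t ∈ S.dir k) :
    wm h (S.fl t k) = wm h k * Racg.gen S.C t := by
  rcases h.step t k h1 with h2 | h2
  · have h3 : ht (S.fl t (S.fl t k)) < ht (S.fl t k) := by
      rw [S.fl_fl t k h1]
      omega
    have h4 := wm_desc h (S.dir_self t k h1) h3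
    rwa [S.fl_fl t k h1] at h4
  · have h3 : ht (S.fl t k) < ht k := by omega
    rw [wm_desc h h1 h3, mul_assoc, Racg.gen_mul_gen, mul_one]

/-- induction along the descents -/
theorem Ht.induction (h : Ht S x0 ht) {p : P → Prop} (h0 : p x0)
    (h1 : ∀ t k, t ∈ S.dir k → p k → p (S.fl t k)) (k : P) : p k := by
  suffices H : ∀ (n : ℕ) (k : P), ht k = n → p k from H _ k rfl
  intro n
  induction n using Nat.strong_induction_on with
  | _ n ih =>
    intro k hn
    by_cases hk : k = x0
    · rw [hk]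
      exact h0
    · obtain ⟨t, ht1, ht2⟩ := h.desc k hk
      have h2 := h1 t (S.fl t k) (S.dir_self t k ht1) (ih _ (by omega) _ rfl)
      rwa [S.fl_fl t k ht1] at h2

/-- two maps which cross hyperplanes by the generators differ by a left multiplication -/
theorem wm_unique (h : Ht S x0 ht) {w w' : P → RACG S.C}
    (hw : ∀ t k, t ∈ S.dir k → w (S.fl t k) = w k * Racg.gen S.C t)
    (hw' : ∀ t k, t ∈ S.dir k → w' (S.fl t k) = w' k * Racg.gen S.C t) (k : P) :
    w' k = w' x0 * (w x0)⁻¹ * w k := by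
  refine h.induction (p := fun k => w' k = w' x0 * (w x0)⁻¹ * w k) ?_ ?_ k
  · rw [inv_mul_cancel_right]
  · intro t k ht1 ih
    rw [hw t k ht1, hw' t k ht1, ih, mul_assoc _ (w k)]

/-- the action of `G` on the right-angled Coxeter group -/
noncomputable def gW (S : Sys H P G) (g : G) : RACG S.C →* RACG S.C :=
  Racg.map (fun t => g • t) (fun u v h => (S.adj g u v).2 h)

@[simp] lemma gW_gen (g : G) (t : H) : gW S g (Racg.gen S.C t) = Racg.gen S.C (g • t) := Racg.map_gen _ _ _

lemma gW_one (x : RACG S.C) : gW S (1 : G) x = x := by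
  have h : gW S (1 : G) = MonoidHom.id _ := Racg.hom_ext fun v => by
    rw [gW_gen, one_smul, MonoidHom.id_apply]
  rw [h, MonoidHom.id_apply]

lemma gW_mul (g g' : G) (x : RACG S.C) : gW S (g * g') x = gW S g (gW S g' x) := by
  have h : gW S (g * g') = (gW S g).comp (gW S g') := Racg.hom_ext fun v => by
    rw [MonoidHom.comp_apply, gW_gen, gW_gen, gW_gen, mul_smul]
  rw [h, MonoidHom.comp_apply]

lemma pw_smul' {F : Type*} [AddCommGroup F] (g : G) (n : NN S F) : pw (g • n) = gW S g (pw n) := rfl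

/-- the cocycle -/
noncomputable def al (h : Ht S x0 ht) (g : G) : RACG S.C := wm h (g • x0)

/-- **the word map is equivariant up to the cocycle** -/
theorem wm_smul (h : Ht S x0 ht) (g : G) (k : P) : wm h (g • k) = al h g * gW S g (wm h k) := by
  refine h.induction (p := fun k => wm h (g • k) = al h g * gW S g (wm h k)) ?_ ?_ k
  · rw [wm_x0, map_one, mul_one, al]
  · intro t k ht1 ih
    rw [← S.fl_smul g t k ht1, wm_fl h ((S.dir_smul g t k).2 ht1), ih, wm_fl h ht1, map_mul, gW_gen, mul_assoc]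

lemma al_one (h : Ht S x0 ht) : al h (1 : G) = 1 := by
  rw [al, one_smul, wm_x0]

lemma al_mul (h : Ht S x0 ht) (g g' : G) : al h (g * g') = al h g * gW S g (al h g') := by
  rw [al, mul_smul, wm_smul, al, al]

/-- the word map as a map to the normal subgroup of the big group, with trivial labels -/
noncomputable def wN (F : Type*) [AddCommGroup F] (h : Ht S x0 ht) (k : P) : NN S F :=
  ((wm h k, 1) : RACG S.C × Multiplicative (H → F))

section wN
variable {F : Type*} [AddCommGroup F] (h : Ht S x0 ht)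

@[simp] lemma pw_wN (k : P) : pw (wN F h k) = wm h k := rfl
@[simp] lemma ch_wN (k : P) (t : H) : ch (wN F h k) t = 0 := rfl

lemma wN_x0 : wN F h x0 = 1 := nn_ext (by rw [pw_wN, wm_x0, pw_one]) fun t => by rw [ch_wN, ch_one]

lemma wN_fl {k : P} {t : H} (h1 : t ∈ S.dir k) : wN F h (S.fl t k) = wN F h k * sW t :=
  nn_ext (by rw [pw_wN, pw_mul, pw_wN, pw_sW, wm_fl h h1]) fun u => by
    rw [ch_wN, ch_mul, ch_wN, ch_sW, add_zero]

lemma wN_smul (g : G) (k : P) : wN F h (g • k) = wN F h (g • x0) * g • wN F h k := by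
  refine nn_ext ?_ fun u => ?_
  · rw [pw_wN, pw_mul, pw_wN, pw_smul', pw_wN, wm_smul, al]
  · obtain ⟨v, rfl⟩ : ∃ v, u = g • v := ⟨g⁻¹ • u, (smul_inv_smul g u).symm⟩
    rw [ch_wN, ch_mul, ch_wN, ch_smul, ch_wN, add_zero]

end wN

end Npc
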