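import Pool.Agent.Npc.Core
import Pool.Agent.Npc.Wall
import Pool.Agent.Npc.Chd
import Pool.Agent.Npc.EndG
import Pool.Agent.Npc.EndM
import Pool.Agent.Npc.Euler
import Pool.Agent.Npc.Wmap

/-!
# NPC cube complexes: the inequality for the `ℓ²`-Betti numbers of the cube complex

`pbet_le_sum` : `pbet S i ≤ ∑ q : Orb G P, tbet (lkG S q.out) i`.
-/

set_option autoImplicit false
set_option linter.unusedSectionVars false
set_option linter.unusedVariables false

namespace Npc

open Singer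

section asm
variable {H P G : Type*} [Group G] [MulAction G H] [MulAction G P] (S : Sys H P G) [Cof G P]

/-- **the comparison of the cycles** -/
theorem core (j : ℕ) {a b : ℝ} (ha : ∀ (N : ℕ) [NeZero N], vd (Gh S (ZMod N)) (Cyc S (ZMod N) j fun _ => St.g) = a)
    (hb : ∀ (N : ℕ) [NeZero N], vd (Gh S (ZMod N)) (Cyc S (ZMod N) j fun _ => St.m) = b) : a ≤ b :=
  core_of S j (fun N _ s => km_le) (fun N _ s q => km_labG q) (fun N _ s q => km_labM q) ha hb

variable {S} {x0 : P} {ht : P → ℕ}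

theorem vd_PCyc_le (h : Ht S x0 ht) (j : ℕ) :
    vd G (PCyc S j) ≤ ∑ q : Orb G P, vd (RACG (lkG S q.out)) (TCyc (lkG S q.out) j) :=
  core S j (fun N _ => vd_Cyc_P (w := wm h) (fun t k ht => wm_fl h ht)) (fun N _ => vd_Cyc_orb)

theorem vd_PCh_eq (h : Ht S x0 ht) (j : ℕ) :
    vd G (PCh S j) = ∑ q : Orb G P, vd (RACG (lkG S q.out)) (TCh (lkG S q.out) j) := by
  have h1 := vd_Ch_P (S := S) (F := ZMod 1) (j := j) (w := wm h) (fun t k ht => wm_fl h ht)
  rw [← h1, vd_Ch_eq]
  exact vd_Ch_orb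

/-- the inequality for the `ℓ²`-Betti numbers -/
theorem pbet_le_sum (h : Ht S x0 ht) (i : ℕ) : pbet S i ≤ ∑ q : Orb G P, tbet (lkG S q.out) i := by
  have h1 := vd_PCh_eq h
  have h2 := vd_PCyc_le h
  cases i with
  | zero =>
    rw [pbet_zero, Finset.sum_congr rfl fun q _ => tbet_zero (lkG S (Quotient.out q)), Finset.sum_add_distrib,
      Finset.sum_sub_distrib, ← h1, ← h1]
    linarith [h2 0]
  | succ i =>
    rw [pbet_succ, Finset.sum_congr rfl fun q _ => tbet_succ (lkG S (Quotient.out q)) i, Finset.sum_add_distrib,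
      Finset.sum_sub_distrib, ← h1]
    linarith [h2 i, h2 (i + 1)]

end asm

end Npc
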