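import Pool.Agent.Singer.L2
import Pool.Agent.Singer.Racg

/-!
# Singer, cube complexes: cells and operators

* `Sys` : the combinatorial data of a cube complex with an action of `G`: vertices `P`, hyperplanes `H`, `dir k` = the
  hyperplanes adjacent to the vertex `k`, `fl t k` = the neighbour of `k` across `t`, `C` = the crossing graph;
* `NN S F` = `RACG S.C × (H → F)`, `Gh S F` = `NN S F ⋊ G`;
* `Cell S F j` : ordered cells `(n, k, τ)`;
* operators on `L2 (Cell S F j)` : `tl i x`, `gl i`, `mi i`, `pm π`, `DD`.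
-/

set_option autoImplicit false
set_option linter.unusedSectionVars false
set_option linter.unusedVariables false

open scoped ComplexConjugate InnerProductSpace
open Filter Topology


namespace Npc

open Singer

/-- the combinatorial data of a cube complex with an action of the group `G` -/
structure Sys (H P G : Type*) [Group G] [MulAction G H] [MulAction G P] where
  /-- the crossing graph -/
  C : SimpleGraph H
  /-- the hyperplanes adjacent to a vertex -/
  dir : P → Finset H
  /-- the neighbour across a hyperplane -/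
  fl : H → P → P
  adj : ∀ (g : G) t u, C.Adj (g • t) (g • u) ↔ C.Adj t u
  dir_smul : ∀ (g : G) t k, g • t ∈ dir (g • k) ↔ t ∈ dir k
  fl_smul : ∀ (g : G) t k, t ∈ dir k → fl (g • t) (g • k) = g • fl t k
  dir_self : ∀ t k, t ∈ dir k → t ∈ dir (fl t k)
  fl_fl : ∀ t k, t ∈ dir k → fl t (fl t k) = k
  dir_adj : ∀ t u k, C.Adj t u → t ∈ dir k → u ∈ dir k → u ∈ dir (fl t k)
  fl_comm : ∀ t u k, C.Adj t u → t ∈ dir k → u ∈ dir k → fl t (fl u k) = fl u (fl t k)
  free : ∀ (g : G) (k : P), g • k = k → g = 1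
  bd : ℕ
  card_dir : ∀ k, (dir k).card ≤ bd

variable {H P G : Type*} [Group G] [MulAction G H] [MulAction G P]

lemma Sys.dir_adj' (S : Sys H P G) {t u : H} {k : P} (h : S.C.Adj t u) (ht : t ∈ S.dir k) :
    u ∈ S.dir (S.fl t k) ↔ u ∈ S.dir k := by
  constructor
  · intro hu
    have := S.dir_adj t u (S.fl t k) h (S.dir_self t k ht) hu
    rwa [S.fl_fl t k ht] at this
  · exact S.dir_adj t u k h ht

/-! ### the groups -/

/-- the normal subgroup: the right-angled Coxeter group of the crossing graph, and the labels -/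
def NN (S : Sys H P G) (F : Type*) : Type _ := RACG S.C × Multiplicative (H → F)

section grp
variable (S : Sys H P G) (F : Type*) [AddCommGroup F]

noncomputable instance : Group (NN S F) := inferInstanceAs (Group (RACG S.C × Multiplicative (H → F)))

variable {S F}

/-- the generator of a hyperplane -/
noncomputable def sW (t : H) : NN S F := ((Racg.gen S.C t, 1) : RACG S.C × Multiplicative (H → F))

open Classical in
/-- the label translation -/
noncomputable def eA (t : H) (x : F) : NN S F :=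
  ((1, Multiplicative.ofAdd (Pi.single t x)) : RACG S.C × Multiplicative (H → F))

/-- the label coordinate -/
def ch (n : NN S F) (t : H) : F := Multiplicative.toAdd (show RACG S.C × Multiplicative (H → F) from n).2 t

/-- the component in the right-angled Coxeter group -/
def pw (n : NN S F) : RACG S.C := (show RACG S.C × Multiplicative (H → F) from n).1

lemma nn_ext {n m : NN S F} (h1 : pw n = pw m) (h2 : ∀ t, ch n t = ch m t) : n = m :=
  Prod.ext h1 (Multiplicative.toAdd.injective (funext h2))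

@[simp] lemma pw_mul (n m : NN S F) : pw (n * m) = pw n * pw m := rfl
@[simp] lemma pw_one : pw (1 : NN S F) = 1 := rfl
@[simp] lemma ch_mul (n m : NN S F) (t : H) : ch (n * m) t = ch n t + ch m t := rfl
@[simp] lemma ch_one (t : H) : ch (1 : NN S F) t = 0 := rfl
@[simp] lemma pw_sW (t : H) : pw (sW t : NN S F) = Racg.gen S.C t := rfl
@[simp] lemma ch_sW (t u : H) : ch (sW t : NN S F) u = 0 := rfl
@[simp] lemma pw_eA (t : H) (x : F) : pw (eA t x : NN S F) = 1 := rfl
lemma ch_eA_self (t : H) (x : F) : ch (eA t x : NN S F) t = x := by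
  classical
  show (Pi.single t x : H → F) t = x
  simp
lemma ch_eA_ne {t u : H} (h : u ≠ t) (x : F) : ch (eA t x : NN S F) u = 0 := by
  classical
  show (Pi.single t x : H → F) u = 0
  simp [h]

@[simp] lemma sW_sW (t : H) : (sW t : NN S F) * sW t = 1 := nn_ext (by simp) (by simp)

lemma sW_comm {t u : H} (h : S.C.Adj t u) : (sW t : NN S F) * sW u = sW u * sW t :=
  nn_ext (by simp [Racg.gen_comm h]) (by simp)

lemma eA_add (t : H) (x y : F) : (eA t (x + y) : NN S F) = eA t x * eA t y := by
  refine nn_ext (by simp) fun u => ?_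
  by_cases h : u = t
  · subst h
    rw [ch_mul, ch_eA_self, ch_eA_self, ch_eA_self]
  · rw [ch_mul, ch_eA_ne h, ch_eA_ne h, ch_eA_ne h, add_zero]

@[simp] lemma eA_zero (t : H) : (eA t (0 : F) : NN S F) = 1 := by
  refine nn_ext (by simp) fun u => ?_
  by_cases h : u = t
  · subst h
    rw [ch_eA_self, ch_one]
  · rw [ch_eA_ne h, ch_one]

/-- the labels are central -/
lemma eA_comm (t : H) (x : F) (n : NN S F) : eA t x * n = n * eA t x :=
  nn_ext (by simp) fun u => by rw [ch_mul, ch_mul, add_comm]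

/-- the action of `G` -/
noncomputable instance : MulDistribMulAction G (NN S F) where
  smul g n := ((Racg.map (fun t => g • t) (fun u v h => (S.adj g u v).2 h) (pw n),
    Multiplicative.ofAdd fun t => ch n (g⁻¹ • t)) : RACG S.C × Multiplicative (H → F))
  one_smul n := by
    refine nn_ext ?_ fun t => ?_
    · show Racg.map (fun t => (1 : G) • t) _ (pw n) = pw n
      have h : Racg.map (G := S.C) (G' := S.C) (fun t => (1 : G) • t) (fun u v h => (S.adj 1 u v).2 h) =
          MonoidHom.id _ := Racg.hom_ext fun v => by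
        rw [Racg.map_gen, one_smul, MonoidHom.id_apply]
      rw [h, MonoidHom.id_apply]
    · show ch n ((1 : G)⁻¹ • t) = ch n t
      rw [inv_one, one_smul]
  mul_smul g g' n := by
    refine nn_ext ?_ fun t => ?_
    · show Racg.map (fun t => (g * g') • t) _ (pw n) =
        Racg.map (fun t => g • t) _ (Racg.map (fun t => g' • t) _ (pw n))
      have h : Racg.map (G := S.C) (G' := S.C) (fun t => (g * g') • t) (fun u v h => (S.adj (g * g') u v).2 h) =
          (Racg.map (G := S.C) (G' := S.C) (fun t => g • t) (fun u v h => (S.adj g u v).2 h)).comp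
            (Racg.map (G := S.C) (G' := S.C) (fun t => g' • t) (fun u v h => (S.adj g' u v).2 h)) :=
        Racg.hom_ext fun v => by
          rw [MonoidHom.comp_apply, Racg.map_gen, Racg.map_gen, Racg.map_gen, mul_smul]
      rw [h, MonoidHom.comp_apply]
    · show ch n ((g * g')⁻¹ • t) = ch n (g'⁻¹ • g⁻¹ • t)
      rw [mul_inv_rev, mul_smul]
  smul_mul g n m := by
    refine nn_ext ?_ fun t => ?_
    · exact map_mul _ _ _
    · rfl
  smul_one g := by
    refine nn_ext ?_ fun t => ?_
    · exact map_one _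
    · rfl

lemma pw_smul (g : G) (n : NN S F) :
    pw (g • n) = Racg.map (fun t => g • t) (fun u v h => (S.adj g u v).2 h) (pw n) := rfl

lemma ch_smul (g : G) (n : NN S F) (t : H) : ch (g • n) (g • t) = ch n t := by
  show ch n (g⁻¹ • g • t) = ch n t
  rw [inv_smul_smul]

lemma smul_sW (g : G) (t : H) : g • (sW t : NN S F) = sW (g • t) := by
  refine nn_ext ?_ fun u => rfl
  rw [pw_smul, pw_sW, Racg.map_gen, pw_sW]

lemma smul_eA (g : G) (t : H) (x : F) : g • (eA t x : NN S F) = eA (g • t) x := by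
  refine nn_ext ?_ fun u => ?_
  · rw [pw_smul, pw_eA, map_one, pw_eA]
  · obtain ⟨v, rfl⟩ : ∃ v, u = g • v := ⟨g⁻¹ • u, (smul_inv_smul g u).symm⟩
    rw [ch_smul]
    by_cases h : v = t
    · subst h
      rw [ch_eA_self, ch_eA_self]
    · rw [ch_eA_ne h, ch_eA_ne fun h' => h (smul_left_cancel g h')]

end grp

/-- the group -/
abbrev Gh (S : Sys H P G) (F : Type*) [AddCommGroup F] : Type _ :=
  NN S F ⋊[MulDistribMulAction.toMulAut G (NN S F)] G

/-! ### cells -/

/-- ordered cells -/
@[ext] structure Cell (S : Sys H P G) (F : Type*) (j : ℕ) where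
  n : NN S F
  k : P
  τ : Fin j → H
  dir : ∀ i, τ i ∈ S.dir k
  adj : ∀ i i', i ≠ i' → S.C.Adj (τ i) (τ i')

namespace Cell
variable {S : Sys H P G} {F : Type*} [AddCommGroup F] {j : ℕ}

noncomputable instance : MulAction (Gh S F) (Cell S F j) where
  smul x y := ⟨x.left * x.right • y.n, x.right • y.k, fun i => x.right • y.τ i,
    fun i => (S.dir_smul _ _ _).2 (y.dir i), fun i i' h => (S.adj _ _ _).2 (y.adj i i' h)⟩
  one_smul y := by
    refine Cell.ext ?_ ?_ ?_
    · show (1 : Gh S F).left * (1 : Gh S F).right • y.n = y.n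
      rw [SemidirectProduct.one_left, SemidirectProduct.one_right, one_mul, one_smul]
    · exact one_smul _ _
    · funext i
      exact one_smul _ _
  mul_smul x x' y := by
    refine Cell.ext ?_ ?_ ?_
    · show (x * x').left * (x * x').right • y.n = x.left * x.right • (x'.left * x'.right • y.n)
      rw [SemidirectProduct.mul_left, SemidirectProduct.mul_right, smul_mul', mul_smul, mul_assoc]
      rfl
    · exact mul_smul _ _ _
    · funext i
      exact mul_smul _ _ _

lemma smul_n (x : Gh S F) (y : Cell S F j) : (x • y).n = x.left * x.right • y.n := rfl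
lemma smul_k (x : Gh S F) (y : Cell S F j) : (x • y).k = x.right • y.k := rfl
lemma smul_τ (x : Gh S F) (y : Cell S F j) (i : Fin j) : (x • y).τ i = x.right • y.τ i := rfl

theorem smul_free (x : Gh S F) (y : Cell S F j) (h : x • y = y) : x = 1 := by
  have h1 : x.right = 1 := S.free _ _ (congrArg Cell.k h)
  have h2 : x.left * x.right • y.n = y.n := congrArg Cell.n h
  rw [h1, one_smul] at h2
  exact SemidirectProduct.ext (mul_eq_right.1 h2) h1

/-! ### moves -/

/-- translation of the label -/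
noncomputable def tl (i : Fin j) (x : F) (y : Cell S F j) : Cell S F j :=
  ⟨y.n * eA (y.τ i) x, y.k, y.τ, y.dir, y.adj⟩

/-- the mirror move -/
noncomputable def mi (i : Fin j) (y : Cell S F j) : Cell S F j :=
  ⟨y.n * sW (y.τ i), y.k, y.τ, y.dir, y.adj⟩

/-- the glue move -/
noncomputable def gl (i : Fin j) (y : Cell S F j) : Cell S F j :=
  ⟨y.n * sW (y.τ i), S.fl (y.τ i) y.k, y.τ, fun i' => by
    by_cases h : i' = i
    · subst h
      exact S.dir_self _ _ (y.dir _)
    · exact S.dir_adj _ _ _ (y.adj i i' (Ne.symm h)) (y.dir i) (y.dir i'), y.adj⟩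

/-- permutation of the letters -/
def pm (π : Equiv.Perm (Fin j)) (y : Cell S F j) : Cell S F j :=
  ⟨y.n, y.k, fun i => y.τ (π i), fun i => y.dir _, fun i i' h => y.adj _ _ fun h' => h (π.injective h')⟩

/-- the face: the first letter is removed -/
def tail (y : Cell S F (j + 1)) : Cell S F j :=
  ⟨y.n, y.k, fun i => y.τ i.succ, fun i => y.dir _, fun i i' h => y.adj _ _ fun h' => h (Fin.succ_injective _ h')⟩

section simp
variable (i : Fin j) (x : F) (y : Cell S F j) (π : Equiv.Perm (Fin j))
@[simp] lemma tl_n : (tl i x y).n = y.n * eA (y.τ i) x := rfl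
@[simp] lemma tl_k : (tl i x y).k = y.k := rfl
@[simp] lemma tl_τ : (tl i x y).τ = y.τ := rfl
@[simp] lemma mi_n : (mi i y).n = y.n * sW (y.τ i) := rfl
@[simp] lemma mi_k : (mi i y).k = y.k := rfl
@[simp] lemma mi_τ : (mi i y).τ = y.τ := rfl
@[simp] lemma gl_n : (gl i y).n = y.n * sW (y.τ i) := rfl
@[simp] lemma gl_k : (gl i y).k = S.fl (y.τ i) y.k := rfl
@[simp] lemma gl_τ : (gl i y).τ = y.τ := rfl
@[simp] lemma pm_n : (pm π y).n = y.n := rfl
@[simp] lemma pm_k : (pm π y).k = y.k := rfl
@[simp] lemma pm_τ : (pm π y).τ i = y.τ (π i) := rfl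
@[simp] lemma tail_n (y : Cell S F (j + 1)) : (tail y).n = y.n := rfl
@[simp] lemma tail_k (y : Cell S F (j + 1)) : (tail y).k = y.k := rfl
@[simp] lemma tail_τ (y : Cell S F (j + 1)) : (tail y).τ i = y.τ i.succ := rfl
end simp

lemma smul_tl (g : Gh S F) (i : Fin j) (x : F) (y : Cell S F j) : tl i x (g • y) = g • tl i x y := by
  refine Cell.ext ?_ rfl rfl
  show g.left * g.right • y.n * eA (g.right • y.τ i) x = g.left * g.right • (y.n * eA (y.τ i) x)
  rw [smul_mul', smul_eA, mul_assoc]

lemma smul_mi (g : Gh S F) (i : Fin j) (y : Cell S F j) : mi i (g • y) = g • mi i y := by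
  refine Cell.ext ?_ rfl rfl
  show g.left * g.right • y.n * sW (g.right • y.τ i) = g.left * g.right • (y.n * sW (y.τ i))
  rw [smul_mul', smul_sW, mul_assoc]

lemma smul_gl (g : Gh S F) (i : Fin j) (y : Cell S F j) : gl i (g • y) = g • gl i y := by
  refine Cell.ext ?_ ?_ rfl
  · show g.left * g.right • y.n * sW (g.right • y.τ i) = g.left * g.right • (y.n * sW (y.τ i))
    rw [smul_mul', smul_sW, mul_assoc]
  · exact S.fl_smul _ _ _ (y.dir i)

lemma smul_pm (g : Gh S F) (π : Equiv.Perm (Fin j)) (y : Cell S F j) : pm π (g • y) = g • pm π y := rfl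

lemma smul_tail (g : Gh S F) (y : Cell S F (j + 1)) : tail (g • y) = g • tail y := rfl

lemma tl_tl (i : Fin j) (x x' : F) (y : Cell S F j) : tl i x (tl i x' y) = tl i (x + x') y := by
  refine Cell.ext ?_ rfl rfl
  show y.n * eA (y.τ i) x' * eA (y.τ i) x = y.n * eA (y.τ i) (x + x')
  rw [mul_assoc, ← eA_add, add_comm]

@[simp] lemma tl_zero (i : Fin j) (y : Cell S F j) : tl i 0 y = y := by
  refine Cell.ext ?_ rfl rfl
  show y.n * eA (y.τ i) 0 = y.n
  rw [eA_zero, mul_one]

lemma tl_comm (i i' : Fin j) (x x' : F) (y : Cell S F j) : tl i x (tl i' x' y) = tl i' x' (tl i x y) := by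
  refine Cell.ext ?_ rfl rfl
  show y.n * eA (y.τ i') x' * eA (y.τ i) x = y.n * eA (y.τ i) x * eA (y.τ i') x'
  rw [mul_assoc, mul_assoc, eA_comm]

lemma tl_mi (i i' : Fin j) (x : F) (y : Cell S F j) : tl i x (mi i' y) = mi i' (tl i x y) := by
  refine Cell.ext ?_ rfl rfl
  show y.n * sW (y.τ i') * eA (y.τ i) x = y.n * eA (y.τ i) x * sW (y.τ i')
  rw [mul_assoc, mul_assoc, eA_comm]

lemma tl_gl (i i' : Fin j) (x : F) (y : Cell S F j) : tl i x (gl i' y) = gl i' (tl i x y) := by
  refine Cell.ext ?_ rfl rfl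
  show y.n * sW (y.τ i') * eA (y.τ i) x = y.n * eA (y.τ i) x * sW (y.τ i')
  rw [mul_assoc, mul_assoc, eA_comm]

lemma mi_mi (i : Fin j) (y : Cell S F j) : mi i (mi i y) = y := by
  refine Cell.ext ?_ rfl rfl
  show y.n * sW (y.τ i) * sW (y.τ i) = y.n
  rw [mul_assoc, sW_sW, mul_one]

lemma gl_gl (i : Fin j) (y : Cell S F j) : gl i (gl i y) = y := by
  refine Cell.ext ?_ ?_ rfl
  · show y.n * sW (y.τ i) * sW (y.τ i) = y.n
    rw [mul_assoc, sW_sW, mul_one]
  · exact S.fl_fl _ _ (y.dir i)

lemma mul_sW_comm (n : NN S F) {i i' : Fin j} (y : Cell S F j) (h : i ≠ i') :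
    n * sW (y.τ i) * sW (y.τ i') = n * sW (y.τ i') * sW (y.τ i) := by
  rw [mul_assoc, mul_assoc, sW_comm (y.adj i i' h)]

lemma mi_comm {i i' : Fin j} (h : i ≠ i') (y : Cell S F j) : mi i (mi i' y) = mi i' (mi i y) :=
  Cell.ext (mul_sW_comm _ y h.symm) rfl rfl

lemma gl_mi {i i' : Fin j} (h : i ≠ i') (y : Cell S F j) : gl i (mi i' y) = mi i' (gl i y) :=
  Cell.ext (mul_sW_comm _ y h.symm) rfl rfl

lemma gl_comm {i i' : Fin j} (h : i ≠ i') (y : Cell S F j) : gl i (gl i' y) = gl i' (gl i y) :=
  Cell.ext (mul_sW_comm _ y h.symm) (S.fl_comm _ _ _ (y.adj i i' h) (y.dir i) (y.dir i')) rfl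

lemma pm_pm (π ρ : Equiv.Perm (Fin j)) (y : Cell S F j) : pm ρ (pm π y) = pm (π * ρ) y := rfl

@[simp] lemma pm_one (y : Cell S F j) : pm 1 y = y := rfl

/-- a move at position `i` after a permutation -/
lemma tl_pm (i : Fin j) (x : F) (π : Equiv.Perm (Fin j)) (y : Cell S F j) : tl i x (pm π y) = pm π (tl (π i) x y) := rfl
lemma mi_pm (i : Fin j) (π : Equiv.Perm (Fin j)) (y : Cell S F j) : mi i (pm π y) = pm π (mi (π i) y) := rfl
lemma gl_pm (i : Fin j) (π : Equiv.Perm (Fin j)) (y : Cell S F j) : gl i (pm π y) = pm π (gl (π i) y) := rfl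

lemma tail_tl (i : Fin j) (x : F) (y : Cell S F (j + 1)) : tail (tl i.succ x y) = tl i x (tail y) := rfl
lemma tail_mi (i : Fin j) (y : Cell S F (j + 1)) : tail (mi i.succ y) = mi i (tail y) := rfl
lemma tail_gl (i : Fin j) (y : Cell S F (j + 1)) : tail (gl i.succ y) = gl i (tail y) := rfl

/-- extension of a permutation, fixing the first letter -/
def ex (π : Equiv.Perm (Fin j)) : Equiv.Perm (Fin (j + 1)) := Equiv.Perm.decomposeFin.symm (0, π)

@[simp] lemma ex_zero (π : Equiv.Perm (Fin j)) : ex π 0 = 0 := Equiv.Perm.decomposeFin_symm_apply_zero _ _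

@[simp] lemma ex_succ (π : Equiv.Perm (Fin j)) (i : Fin j) : ex π i.succ = (π i).succ := by
  unfold ex
  rw [Equiv.Perm.decomposeFin_symm_apply_succ]
  simp

lemma sign_ex (π : Equiv.Perm (Fin j)) : Equiv.Perm.sign (ex π) = Equiv.Perm.sign π := by
  unfold ex
  rw [Equiv.Perm.decomposeFin.symm_sign]
  simp

lemma tail_pm (π : Equiv.Perm (Fin j)) (y : Cell S F (j + 1)) : tail (pm (ex π) y) = pm π (tail y) := by
  refine Cell.ext rfl rfl ?_
  funext i
  show y.τ (ex π i.succ) = y.τ (π i).succ
  rw [ex_succ]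

lemma tail_tail (y : Cell S F (j + 2)) : tail (tail (pm (Equiv.swap 0 1) y)) = tail (tail y) := by
  refine Cell.ext rfl rfl ?_
  funext i
  show y.τ (Equiv.swap 0 1 i.succ.succ) = y.τ i.succ.succ
  rw [Equiv.swap_apply_of_ne_of_ne]
  · exact Fin.succ_ne_zero _
  · intro h
    rw [← Fin.succ_zero_eq_one] at h
    exact Fin.succ_ne_zero _ (Fin.succ_injective _ h)

/-- the fibres of `tail` -/
lemma ncard_tail (y : Cell S F j) : {z : Cell S F (j + 1) | tail z = y}.Finite ∧
    {z : Cell S F (j + 1) | tail z = y}.ncard ≤ S.bd := by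
  classical
  have h1 : Set.InjOn (fun z : Cell S F (j + 1) => z.τ 0) {z | tail z = y} := by
    rintro z rfl z' hz' h
    have hz2 : tail z' = tail z := hz'
    have e1 : z'.n = z.n := congrArg (fun y : Cell S F j => y.n) hz2
    have e2 : z'.k = z.k := congrArg (fun y : Cell S F j => y.k) hz2
    have e3 : ∀ i : Fin j, z'.τ i.succ = z.τ i.succ := fun i => congrFun (congrArg (fun y : Cell S F j => y.τ) hz2) i
    refine Cell.ext e1.symm e2.symm (funext fun i => ?_)
    refine Fin.cases h (fun i => (e3 i).symm) i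
  have h2 : Set.MapsTo (fun z : Cell S F (j + 1) => z.τ 0) {z | tail z = y} (S.dir y.k : Set H) := by
    rintro z rfl
    exact z.dir 0
  have h3 : {z : Cell S F (j + 1) | tail z = y}.Finite := Set.Finite.of_injOn h2 h1 (Finset.finite_toSet _)
  refine ⟨h3, ?_⟩
  calc {z : Cell S F (j + 1) | tail z = y}.ncard ≤ (S.dir y.k : Set H).ncard :=
        Set.ncard_le_ncard_of_injOn _ h2 h1 (Finset.finite_toSet _)
    _ = (S.dir y.k).card := Set.ncard_coe_finset _
    _ ≤ S.bd := S.card_dir _

end Cell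

end Npc

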