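import Pool.Agent.Singer.L2

/-!
# NPC cube complexes: cutting functions in `ℓ²(Y)`

`ct S` = multiplication by the indicator function of `S ⊆ Y`; `fb o c` = the fibre of `o : Y → O` over `c`;
`mem_of_fibers`: a closed subspace contains `T f` if it contains the images of the pieces of `f` on all fibres.
-/

set_option autoImplicit false

open scoped ComplexConjugate InnerProductSpace

namespace Npc

open Singer (L2 pull pull_apply mul mul_apply inner_eq summable_inner')

variable {Y Z O : Type*}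

open Classical in
/-- multiplication by the indicator function of `S` -/
noncomputable def ct (S : Set Y) : L2 Y →L[ℂ] L2 Y :=
  mul (fun y => if y ∈ S then 1 else 0) (fun y => by split_ifs <;> simp)

open Classical in
lemma ct_apply (S : Set Y) (f : L2 Y) (y : Y) : ct S f y = if y ∈ S then f y else 0 := by
  unfold ct
  rw [mul_apply]
  split_ifs <;> simp

lemma ct_mem {S : Set Y} {y : Y} (h : y ∈ S) (f : L2 Y) : ct S f y = f y := by
  rw [ct_apply, if_pos h]

lemma ct_notMem {S : Set Y} {y : Y} (h : y ∉ S) (f : L2 Y) : ct S f y = 0 := by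
  rw [ct_apply, if_neg h]

lemma inner_ct_left (S : Set Y) (f h : L2 Y) : ⟪ct S f, h⟫_ℂ = ⟪f, ct S h⟫_ℂ := by
  rw [inner_eq, inner_eq]
  congr 1
  funext y
  by_cases hy : y ∈ S
  · rw [ct_mem hy, ct_mem hy]
  · rw [ct_notMem hy, ct_notMem hy]; simp

lemma ct_ct (S T : Set Y) (f : L2 Y) : ct S (ct T f) = ct (S ∩ T) f := by
  ext y
  by_cases h1 : y ∈ S
  · by_cases h2 : y ∈ T
    · rw [ct_mem h1, ct_mem h2, ct_mem (show y ∈ S ∩ T from ⟨h1, h2⟩)]
    · rw [ct_mem h1, ct_notMem h2, ct_notMem fun h => h2 h.2]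
  · rw [ct_notMem h1, ct_notMem fun h => h1 h.1]

lemma ct_empty (f : L2 Y) : ct (∅ : Set Y) f = 0 := by
  ext y
  rw [ct_notMem (Set.notMem_empty y)]
  rfl

lemma ct_univ (f : L2 Y) : ct (Set.univ : Set Y) f = f := by
  ext y
  rw [ct_mem (Set.mem_univ y)]

lemma ct_self (S : Set Y) (f : L2 Y) : ct S (ct S f) = ct S f := by
  rw [ct_ct, Set.inter_self]

lemma pull_ct (p : Z → Y) (hp : Function.Injective p) (S : Set Y) (f : L2 Y) :
    pull p hp (ct S f) = ct (p ⁻¹' S) (pull p hp f) := by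
  ext z
  rw [pull_apply]
  by_cases h : p z ∈ S
  · rw [ct_mem h, ct_mem (show z ∈ p ⁻¹' S from h), pull_apply]
  · rw [ct_notMem h, ct_notMem (show z ∉ p ⁻¹' S from h)]

/-- the fibre -/
def fb (o : Y → O) (c : O) : Set Y := {y | o y = c}

lemma mem_fb {o : Y → O} {c : O} {y : Y} : y ∈ fb o c ↔ o y = c := Iff.rfl

lemma fb_inter_ne (o : Y → O) {c d : O} (h : c ≠ d) : fb o c ∩ fb o d = ∅ :=
  Set.eq_empty_iff_forall_notMem.2 fun _ hy => h (hy.1.symm.trans hy.2)

open Classical in
/-- the inner product is the sum of the inner products over the fibres -/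
lemma hasSum_inner_fibers (o : Y → O) (f h : L2 Y) : HasSum (fun c : O => ⟪ct (fb o c) f, h⟫_ℂ) ⟪f, h⟫_ℂ := by
  have h1 : HasSum (fun x => conj (f x) * h x) ⟪f, h⟫_ℂ := by
    rw [inner_eq]
    exact (summable_inner' f h).hasSum
  have h2 := h1.tsum_fiberwise o
  have h3 : (fun c : O => ∑' b : (o ⁻¹' {c}), conj (f b) * h b) = fun c => ⟪ct (fb o c) f, h⟫_ℂ := by
    funext c
    rw [inner_eq]
    rw [tsum_subtype (o ⁻¹' {c}) (fun x => conj (f x) * h x)]
    congr 1
    funext x
    by_cases hx : o x = c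
    · rw [Set.indicator_of_mem (by exact hx), ct_mem (mem_fb.2 hx)]
    · rw [Set.indicator_of_notMem (by exact hx), ct_notMem (fun h' => hx (mem_fb.1 h'))]
      simp
  rw [← h3]
  exact h2

/-- a closed subspace contains `T f` if it contains the images of all pieces of `f` -/
theorem mem_of_fibers (o : Y → O) (T : L2 Y →L[ℂ] L2 Z) {W : Submodule ℂ (L2 Z)}
    (hc : IsClosed (W : Set (L2 Z))) {f : L2 Y} (h : ∀ c, T (ct (fb o c) f) ∈ W) : T f ∈ W := by
  have h0 : W.topologicalClosure = W := IsClosed.submodule_topologicalClosure_eq hc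
  rw [← h0, ← Submodule.orthogonal_orthogonal_eq_closure, Submodule.mem_orthogonal']
  intro u hu
  have h1 := hasSum_inner_fibers o f (ContinuousLinearMap.adjoint T u)
  have h2 : ∀ c : O, ⟪ct (fb o c) f, ContinuousLinearMap.adjoint T u⟫_ℂ = 0 := by
    intro c
    rw [ContinuousLinearMap.adjoint_inner_right]
    exact (Submodule.mem_orthogonal _ _).1 hu _ (h c)
  rw [ContinuousLinearMap.adjoint_inner_right] at h1
  simp_rw [h2] at h1
  exact h1.unique hasSum_zero

/-- multiplication by the indicator function of a union of fibres -/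
theorem ct_mem_of_fibers (o : Y → O) {W : Submodule ℂ (L2 Y)} (hc : IsClosed (W : Set (L2 Y)))
    (hW : ∀ c, ∀ f ∈ W, ct (fb o c) f ∈ W) (S : Set O) {f : L2 Y} (hf : f ∈ W) : ct {y | o y ∈ S} f ∈ W := by
  refine mem_of_fibers o (ct {y | o y ∈ S}) hc fun c => ?_
  rw [ct_ct]
  by_cases h : c ∈ S
  · have h1 : {y | o y ∈ S} ∩ fb o c = fb o c := Set.inter_eq_right.2 fun y hy => by
      rw [Set.mem_ofPred_eq, mem_fb.1 hy]; exact h
    rw [h1]
    exact hW c f hf
  · have h1 : {y | o y ∈ S} ∩ fb o c = ∅ := Set.eq_empty_iff_forall_notMem.2 fun y hy => h (by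
      have := hy.1
      rwa [Set.mem_ofPred_eq, mem_fb.1 hy.2] at this)
    rw [h1, ct_empty]
    exact W.zero_mem

lemma mem_of_fibers' (o : Y → O) {W : Submodule ℂ (L2 Y)} (hc : IsClosed (W : Set (L2 Y))) {f : L2 Y}
    (h : ∀ c, ct (fb o c) f ∈ W) : f ∈ W := mem_of_fibers o (ContinuousLinearMap.id ℂ (L2 Y)) hc h

end Npc
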