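import Pool.Agent.Npc.Geo

/-!
# NPC cube complexes: median graphs

* `Median X` : the graph `X` is a median graph (the one-skeleton of a CAT(0) cube complex);
* `GraphAct G X` : `G` acts on the graph `X` by automorphisms;
* `hs X a b` : the vertices nearer to `a` than to `b`; `Hyp X` : the hyperplanes (pairs of complementary half spaces
  `hs X a b`, `hs X b a`, `a b` an edge); `Hyp.mk` : the hyperplane of an edge;
* `Hyp.crossG X` : the crossing graph (all four quarters are nonempty);
* `medSys` : the system of a median graph with a free action and bounded degrees;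
* `medHt` : the distance from a vertex is a height function;
* `linkG X k` : the link graph of the vertex `k` (neighbours of `k`, adjacent if they have a common neighbour besides `k`);
* `medLink` : the link graph is the crossing graph on the hyperplanes adjacent to `k`.
-/

set_option autoImplicit false
set_option linter.unusedSectionVars false
set_option linter.unusedVariables false

open scoped Pointwise

namespace Npc

section med
variable {P : Type*}

/-- median graphs: connected, and any three vertices have exactly one median -/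
structure Median (X : SimpleGraph P) : Prop where
  conn : X.Connected
  med : ∀ x y z, ∃! m, X.dist x m + X.dist m y = X.dist x y ∧ X.dist y m + X.dist m z = X.dist y z ∧
    X.dist x m + X.dist m z = X.dist x z

/-- the vertices nearer to `a` than to `b` -/
def hs (X : SimpleGraph P) (a b : P) : Set P := {x | X.dist x a < X.dist x b}

lemma mem_hs {X : SimpleGraph P} {a b x : P} : x ∈ hs X a b ↔ X.dist x a < X.dist x b := Iff.rfl

namespace Median
variable {X : SimpleGraph P} (hX : Median X)
include hX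

/-- median graphs are bipartite -/
lemma ne_dist {a b : P} (h : X.Adj a b) (x : P) : X.dist x a ≠ X.dist x b := by
  intro he
  obtain ⟨m, ⟨h1, h2, h3⟩, -⟩ := hX.med x a b
  have hab : X.dist a b = 1 := SimpleGraph.dist_eq_one_iff_adj.2 h
  have h4 : X.dist a m = 0 ∨ X.dist m b = 0 := by omega
  rcases h4 with h4 | h4
  · have h5 : a = m := hX.conn.dist_eq_zero_iff.1 h4
    subst h5
    omega
  · have h5 : m = b := hX.conn.dist_eq_zero_iff.1 h4
    subst h5
    rw [SimpleGraph.dist_comm (u := m) (v := a)] at h1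
    omega

lemma dist_adj {a b : P} (h : X.Adj a b) (x : P) : X.dist x a = X.dist x b + 1 ∨ X.dist x b = X.dist x a + 1 := by
  have h1 := hX.ne_dist h x
  have hab : X.dist a b = 1 := SimpleGraph.dist_eq_one_iff_adj.2 h
  have h2 := hX.conn.dist_triangle (u := x) (v := a) (w := b)
  have h3 := hX.conn.dist_triangle (u := x) (v := b) (w := a)
  rw [SimpleGraph.dist_comm (u := b) (v := a)] at h3
  omega

lemma hs_compl {a b : P} (h : X.Adj a b) : (hs X a b)ᶜ = hs X b a := by
  ext x
  rw [Set.mem_compl_iff, mem_hs, mem_hs]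
  have := hX.ne_dist h x
  omega

lemma not_mem_hs {a b x : P} (h : X.Adj a b) : x ∉ hs X a b ↔ x ∈ hs X b a := by
  rw [← hX.hs_compl h]
  exact Iff.rfl

lemma self_mem {a b : P} (h : X.Adj a b) : a ∈ hs X a b := by
  rw [mem_hs, SimpleGraph.dist_self]
  exact hX.conn.pos_dist_of_ne h.ne

lemma self_not_mem {a b : P} (h : X.Adj a b) : b ∉ hs X a b := by
  rw [hX.not_mem_hs h]
  exact hX.self_mem h.symm

/-- the fourth vertex of a square -/
lemma square {k a b z : P} (ha : X.Adj k a) (hb : X.Adj k b) (hne : a ≠ b)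
    (hza : X.dist z a < X.dist z k) (hzb : X.dist z b < X.dist z k) : ∃ m, m ≠ k ∧ X.Adj a m ∧ X.Adj b m := by
  obtain ⟨m, ⟨h1, h2, h3⟩, -⟩ := hX.med z a b
  have hka := hX.dist_adj ha z
  have hkb := hX.dist_adj hb z
  have hab0 : 0 < X.dist a b := hX.conn.pos_dist_of_ne hne
  have e1 : X.dist k a = 1 := SimpleGraph.dist_eq_one_iff_adj.2 ha
  have e2 : X.dist k b = 1 := SimpleGraph.dist_eq_one_iff_adj.2 hb
  have hab2 := hX.conn.dist_triangle (u := a) (v := k) (w := b)
  rw [SimpleGraph.dist_comm (u := a) (v := k)] at hab2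
  have e3 : X.dist m a = X.dist a m := SimpleGraph.dist_comm
  have e4 : X.dist a m = 1 ∧ X.dist m b = 1 := by omega
  refine ⟨m, ?_, SimpleGraph.dist_eq_one_iff_adj.1 e4.1, (SimpleGraph.dist_eq_one_iff_adj.1 e4.2).symm⟩
  rintro rfl
  omega

/-- opposite edges of a square have the same half spaces -/
lemma hs_square_le {k a b m : P} (ha : X.Adj k a) (hb : X.Adj k b) (hm : m ≠ k) (ham : X.Adj a m) (hbm : X.Adj b m)
    (hab : a ≠ b) : hs X k b ⊆ hs X a m := by
  intro x hx
  by_contra hx2
  rw [hX.not_mem_hs ham] at hx2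
  rw [mem_hs] at hx hx2
  have h1 := hX.dist_adj ha x
  have h2 := hX.dist_adj hb x
  have h3 := hX.dist_adj ham x
  have h4 := hX.dist_adj hbm x
  have e1 : X.dist k a = 1 := SimpleGraph.dist_eq_one_iff_adj.2 ha
  have e2 : X.dist k b = 1 := SimpleGraph.dist_eq_one_iff_adj.2 hb
  have e3 : X.dist a m = 1 := SimpleGraph.dist_eq_one_iff_adj.2 ham
  have e4 : X.dist b m = 1 := SimpleGraph.dist_eq_one_iff_adj.2 hbm
  have hd : X.dist a b = 2 := by
    have t1 := hX.conn.dist_triangle (u := a) (v := k) (w := b)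
    rw [SimpleGraph.dist_comm (u := a) (v := k)] at t1
    have t2 : 0 < X.dist a b := hX.conn.pos_dist_of_ne hab
    have t3 : X.dist a b ≠ 1 := by
      intro h
      have h5 := hX.ne_dist (SimpleGraph.dist_eq_one_iff_adj.1 h) k
      omega
    omega
  obtain ⟨c, -, hc⟩ := hX.med x a b
  have c1 : k = c := hc k ⟨by omega, by rw [SimpleGraph.dist_comm (u := a) (v := k)]; omega, by omega⟩
  have c2 : m = c := hc m ⟨by rw [SimpleGraph.dist_comm (u := m) (v := a)]; omega,
    by rw [SimpleGraph.dist_comm (u := m) (v := b)]; omega, by rw [SimpleGraph.dist_comm (u := m) (v := b)]; omega⟩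
  exact hm (c2.trans c1.symm)

lemma hs_square {k a b m : P} (ha : X.Adj k a) (hb : X.Adj k b) (hm : m ≠ k) (ham : X.Adj a m) (hbm : X.Adj b m)
    (hab : a ≠ b) : hs X k b = hs X a m :=
  Set.Subset.antisymm (hX.hs_square_le ha hb hm ham hbm hab)
    (hX.hs_square_le ha.symm ham (Ne.symm hab) hb hbm.symm hm.symm)

end Median

/-- the hyperplanes of a graph: the pairs of half spaces of the edges -/
def Hyp (X : SimpleGraph P) : Type _ := {A : Set (Set P) // ∃ a b, X.Adj a b ∧ A = {hs X a b, hs X b a}}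

namespace Hyp
variable {X : SimpleGraph P}

/-- the hyperplane of an edge -/
def mk {a b : P} (h : X.Adj a b) : Hyp X := ⟨{hs X a b, hs X b a}, a, b, h, rfl⟩

lemma mk_symm {a b : P} (h : X.Adj a b) : mk h.symm = mk h := Subtype.ext (Set.pair_comm _ _)

lemma mk_eq (hX : Median X) {a b c d : P} (h : X.Adj a b) (h' : X.Adj c d) :
    mk h = mk h' ↔ hs X a b = hs X c d ∨ hs X a b = hs X d c := by
  constructor
  · intro he
    have h1 : hs X a b ∈ (mk h').1 := by
      rw [← he]
      exact Or.inl rfl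
    exact h1
  · rintro (h1 | h1)
    · refine Subtype.ext ?_
      show ({hs X a b, hs X b a} : Set (Set P)) = {hs X c d, hs X d c}
      rw [← hX.hs_compl h, ← hX.hs_compl h', h1]
    · refine Subtype.ext ?_
      show ({hs X a b, hs X b a} : Set (Set P)) = {hs X c d, hs X d c}
      rw [← hX.hs_compl h, ← hX.hs_compl h'.symm, h1, Set.pair_comm]

/-- a hyperplane adjacent to `k` has one edge at `k` -/
lemma unique (hX : Median X) {k a b : P} (ha : X.Adj k a) (hb : X.Adj k b) (h : mk ha = mk hb) : a = b := by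
  rcases (mk_eq hX ha hb).1 h with h1 | h1
  · have h2 : b ∉ hs X k a := by
      rw [h1]
      exact hX.self_not_mem hb
    rw [hX.not_mem_hs ha, mem_hs] at h2
    rw [SimpleGraph.dist_comm (u := b) (v := k), SimpleGraph.dist_eq_one_iff_adj.2 hb, Nat.lt_one_iff] at h2
    exact (hX.conn.dist_eq_zero_iff.1 h2).symm
  · have h2 : k ∈ hs X k a := hX.self_mem ha
    rw [h1] at h2
    exact absurd h2 (hX.self_not_mem hb.symm)

/-- the half space of an edge which contains `k` -/
lemma hs_eq (hX : Median X) {a b c d : P} (h : X.Adj a b) (h' : X.Adj c d) (he : mk h = mk h') {x : P}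
    (hx : x ∈ hs X a b) (hx' : x ∈ hs X c d) : hs X a b = hs X c d := by
  rcases (mk_eq hX h h').1 he with h1 | h1
  · exact h1
  · rw [h1, ← hX.not_mem_hs h'] at hx
    exact absurd hx' hx

/-- two hyperplanes cross -/
def Cross (t u : Hyp X) : Prop := ∀ A ∈ t.1, ∀ B ∈ u.1, (A ∩ B).Nonempty

end Hyp

/-- the crossing graph of a median graph -/
def Median.crossG {X : SimpleGraph P} (hX : Median X) : SimpleGraph (Hyp X) where
  Adj := Hyp.Cross
  symm := ⟨fun t u h A hA B hB => by
    rw [Set.inter_comm]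
    exact h B hB A hA⟩
  loopless := ⟨fun t h => by
    obtain ⟨A, a, b, hab, rfl⟩ := t
    obtain ⟨x, h1, h2⟩ := h _ (Or.inl rfl) _ (Or.inr rfl)
    exact (hX.not_mem_hs hab).2 h2 h1⟩

section cross
variable {X : SimpleGraph P} (hX : Median X)

include hX in
/-- the hyperplanes of two edges at `k` which span a square cross -/
lemma cross_of_square {k a b m : P} (ha : X.Adj k a) (hb : X.Adj k b) (hab : a ≠ b) (hm : m ≠ k)
    (ham : X.Adj a m) (hbm : X.Adj b m) : Hyp.Cross (Hyp.mk ha) (Hyp.mk hb) := by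
  have h1 : hs X k b = hs X a m := hX.hs_square ha hb hm ham hbm hab
  have h2 : hs X k a = hs X b m := hX.hs_square hb ha hm hbm ham (Ne.symm hab)
  have h1' : hs X b k = hs X m a := by rw [← hX.hs_compl hb, ← hX.hs_compl ham, h1]
  have h2' : hs X a k = hs X m b := by rw [← hX.hs_compl ha, ← hX.hs_compl hbm, h2]
  rintro A (rfl | rfl) B (rfl | rfl)
  · exact ⟨k, hX.self_mem ha, hX.self_mem hb⟩
  · refine ⟨b, ?_, hX.self_mem hb.symm⟩
    rw [h2]
    exact hX.self_mem hbm
  · refine ⟨a, hX.self_mem ha.symm, ?_⟩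
    rw [h1]
    exact hX.self_mem ham
  · refine ⟨m, ?_, ?_⟩
    · rw [h2']
      exact hX.self_mem hbm.symm
    · rw [h1']
      exact hX.self_mem ham.symm

include hX in
/-- crossing hyperplanes at `k` span a square -/
lemma square_of_cross {k a b : P} (ha : X.Adj k a) (hb : X.Adj k b) (h : Hyp.Cross (Hyp.mk ha) (Hyp.mk hb)) :
    a ≠ b ∧ ∃ m, m ≠ k ∧ X.Adj a m ∧ X.Adj b m := by
  obtain ⟨z, h1, h2⟩ := h _ (Or.inr rfl) _ (Or.inr rfl)
  have hab : a ≠ b := by
    rintro rfl
    obtain ⟨x, h3, h4⟩ := h _ (Or.inl rfl) _ (Or.inr rfl)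
    exact (hX.not_mem_hs ha).2 h4 h3
  exact ⟨hab, hX.square ha hb hab h1 h2⟩

end cross

/-! ### the action -/

/-- `G` acts on the graph by automorphisms -/
class GraphAct (G : Type*) {P : Type*} [Group G] [MulAction G P] (X : SimpleGraph P) : Prop where
  adj : ∀ (g : G) (x y : P), X.Adj (g • x) (g • y) ↔ X.Adj x y

section act
variable {G : Type*} [Group G] [MulAction G P] {X : SimpleGraph P} [hA : GraphAct G X]

lemma dist_smul (g : G) (x y : P) : X.dist (g • x) (g • y) = X.dist x y := by
  have key : ∀ (g : G) (x y : P), X.edist (g • x) (g • y) ≤ X.edist x y := by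
    intro g x y
    refine le_iInf fun w => ?_
    have h := SimpleGraph.edist_le (w.map (⟨fun x => g • x, fun h => (hA.adj g _ _).2 h⟩ : X →g X))
    rwa [SimpleGraph.Walk.length_map] at h
  have h1 : X.edist (g • x) (g • y) = X.edist x y := by
    refine le_antisymm (key g x y) ?_
    have h2 := key g⁻¹ (g • x) (g • y)
    rwa [inv_smul_smul, inv_smul_smul] at h2
  unfold SimpleGraph.dist
  rw [h1]

lemma smul_hs (g : G) (a b : P) : g • hs X a b = hs X (g • a) (g • b) := by
  ext x
  rw [Set.mem_smul_set_iff_inv_smul_mem, mem_hs, mem_hs, ← dist_smul (X := X) g (g⁻¹ • x) a,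
    ← dist_smul (X := X) g (g⁻¹ • x) b, smul_inv_smul]

instance : MulAction G (Hyp X) where
  smul g t := ⟨g • t.1, by
    obtain ⟨A, a, b, hab, rfl⟩ := t
    refine ⟨g • a, g • b, (hA.adj g a b).2 hab, ?_⟩
    show g • ({hs X a b, hs X b a} : Set (Set P)) = _
    rw [Set.smul_set_insert, Set.smul_set_singleton, smul_hs, smul_hs]⟩
  one_smul t := Subtype.ext (one_smul G t.1)
  mul_smul g g' t := Subtype.ext (mul_smul g g' t.1)

lemma smul_mk (g : G) {a b : P} (h : X.Adj a b) : g • Hyp.mk h = Hyp.mk ((hA.adj g a b).2 h) := by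
  refine Subtype.ext ?_
  show g • ({hs X a b, hs X b a} : Set (Set P)) = _
  rw [Set.smul_set_insert, Set.smul_set_singleton, smul_hs, smul_hs]
  rfl

lemma cross_smul (g : G) (t u : Hyp X) : Hyp.Cross (g • t) (g • u) ↔ Hyp.Cross t u := by
  have key : ∀ (g : G) (t u : Hyp X), Hyp.Cross t u → Hyp.Cross (g • t) (g • u) := by
    rintro g t u h A hA B hB
    obtain ⟨A, hA', rfl⟩ := Set.mem_smul_set.1 hA
    obtain ⟨B, hB', rfl⟩ := Set.mem_smul_set.1 hB
    obtain ⟨x, h1, h2⟩ := h A hA' B hB'
    exact ⟨g • x, Set.smul_mem_smul_set h1, Set.smul_mem_smul_set h2⟩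
  refine ⟨fun h => ?_, key g t u⟩
  have h1 := key g⁻¹ _ _ h
  rwa [inv_smul_smul, inv_smul_smul] at h1

end act

/-! ### the hyperplanes adjacent to a vertex -/

section dir
variable {X : SimpleGraph P}

/-- the hyperplanes adjacent to `k` -/
def dirSet (X : SimpleGraph P) (k : P) : Set (Hyp X) := {t | ∃ a, ∃ h : X.Adj k a, Hyp.mk h = t}

lemma mk_mem_dirSet {k a : P} (h : X.Adj k a) : Hyp.mk h ∈ dirSet X k := ⟨a, h, rfl⟩

open Classical in
/-- the neighbour across a hyperplane -/
noncomputable def flip (t : Hyp X) (k : P) : P := if h : t ∈ dirSet X k then h.choose else k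

lemma flip_spec {t : Hyp X} {k : P} (h : t ∈ dirSet X k) : ∃ h' : X.Adj k (flip t k), Hyp.mk h' = t := by
  unfold flip
  rw [dif_pos h]
  exact h.choose_spec

lemma flip_mk (hX : Median X) {k a : P} (h : X.Adj k a) : flip (Hyp.mk h) k = a := by
  obtain ⟨h1, h2⟩ := flip_spec (mk_mem_dirSet h)
  exact Hyp.unique hX h1 h h2

lemma dirSet_finite {k : P} (h : (X.neighborSet k).Finite) : (dirSet X k).Finite := by
  classical
  have : Finite (X.neighborSet k) := h
  refine (Set.finite_range fun a : X.neighborSet k => Hyp.mk a.2).subset ?_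
  rintro t ⟨a, h, rfl⟩
  exact ⟨⟨a, h⟩, rfl⟩

lemma dirSet_ncard {k : P} (h : (X.neighborSet k).Finite) : (dirSet X k).ncard ≤ (X.neighborSet k).ncard := by
  classical
  have : Finite (X.neighborSet k) := h
  have h1 : dirSet X k = Set.range fun a : X.neighborSet k => Hyp.mk a.2 := by
    ext t
    constructor
    · rintro ⟨a, h, rfl⟩
      exact ⟨⟨a, h⟩, rfl⟩
    · rintro ⟨⟨a, h⟩, rfl⟩
      exact ⟨a, h, rfl⟩
  rw [h1, ← Set.image_univ]
  refine (Set.ncard_image_le Set.finite_univ).trans ?_
  rw [Set.ncard_univ]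
  exact le_of_eq rfl

end dir

/-! ### the system -/

section sys
variable {G : Type*} [Group G] [MulAction G P] {X : SimpleGraph P} [hA : GraphAct G X]

lemma smul_mem_dirSet (g : G) (t : Hyp X) (k : P) : g • t ∈ dirSet X (g • k) ↔ t ∈ dirSet X k := by
  have key : ∀ (g : G) (t : Hyp X) (k : P), t ∈ dirSet X k → g • t ∈ dirSet X (g • k) := by
    rintro g t k ⟨a, h, rfl⟩
    rw [smul_mk]
    exact mk_mem_dirSet _
  refine ⟨fun h => ?_, key g t k⟩
  have h1 := key g⁻¹ _ _ h
  rwa [inv_smul_smul, inv_smul_smul] at h1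

/-- the system of a median graph with a free action and bounded degrees -/
noncomputable def medSys (hX : Median X) (free : ∀ (g : G) (k : P), g • k = k → g = 1) (bd : ℕ)
    (fin : ∀ k, (X.neighborSet k).Finite) (hbd : ∀ k, (X.neighborSet k).ncard ≤ bd) : Sys (Hyp X) P G where
  C := hX.crossG
  dir k := (dirSet_finite (fin k)).toFinset
  fl := flip
  adj := cross_smul
  dir_smul g t k := by
    rw [Set.Finite.mem_toFinset, Set.Finite.mem_toFinset]
    exact smul_mem_dirSet g t k
  fl_smul g t k h := by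
    rw [Set.Finite.mem_toFinset] at h
    obtain ⟨a, h, rfl⟩ := h
    rw [flip_mk hX, smul_mk, flip_mk hX]
  dir_self t k h := by
    rw [Set.Finite.mem_toFinset] at h ⊢
    obtain ⟨a, h, rfl⟩ := h
    rw [flip_mk hX, ← Hyp.mk_symm h]
    exact mk_mem_dirSet _
  fl_fl t k h := by
    rw [Set.Finite.mem_toFinset] at h
    obtain ⟨a, h, rfl⟩ := h
    rw [flip_mk hX, ← Hyp.mk_symm h, flip_mk hX]
  dir_adj t u k hc ht hu := by
    rw [Set.Finite.mem_toFinset] at ht hu ⊢
    obtain ⟨a, ha, rfl⟩ := ht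
    obtain ⟨b, hb, rfl⟩ := hu
    obtain ⟨hab, m, hm, ham, hbm⟩ := square_of_cross hX ha hb hc
    rw [flip_mk hX]
    exact ⟨m, ham, (Hyp.mk_eq hX ham hb).2 (Or.inl (hX.hs_square ha hb hm ham hbm hab).symm)⟩
  fl_comm t u k hc ht hu := by
    rw [Set.Finite.mem_toFinset] at ht hu
    obtain ⟨a, ha, rfl⟩ := ht
    obtain ⟨b, hb, rfl⟩ := hu
    obtain ⟨hab, m, hm, ham, hbm⟩ := square_of_cross hX ha hb hc
    have h1 : Hyp.mk hb = Hyp.mk ham := (Hyp.mk_eq hX hb ham).2 (Or.inl (hX.hs_square ha hb hm ham hbm hab))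
    have h2 : Hyp.mk ha = Hyp.mk hbm := (Hyp.mk_eq hX ha hbm).2 (Or.inl (hX.hs_square hb ha hm hbm ham hab.symm))
    rw [flip_mk hX hb, flip_mk hX ha, h1, flip_mk hX ham, h2, flip_mk hX hbm]
  free := free
  bd := bd
  card_dir k := by
    have h1 := dirSet_ncard (fin k)
    rw [Set.ncard_eq_toFinset_card _ (dirSet_finite (fin k))] at h1
    exact h1.trans (hbd k)

section fields
variable (hX : Median X) (free : ∀ (g : G) (k : P), g • k = k → g = 1) (bd : ℕ)
  (fin : ∀ k, (X.neighborSet k).Finite) (hbd : ∀ k, (X.neighborSet k).ncard ≤ bd)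

lemma mem_medSys_dir {t : Hyp X} {k : P} : t ∈ (medSys hX free bd fin hbd).dir k ↔ t ∈ dirSet X k := by
  show t ∈ (dirSet_finite (fin k)).toFinset ↔ _
  rw [Set.Finite.mem_toFinset]

/-- the distance from a vertex is a height function -/
theorem medHt (x0 : P) : Ht (medSys hX free bd fin hbd) x0 (fun k => X.dist x0 k) where
  zero := SimpleGraph.dist_self
  step t k h := by
    obtain ⟨a, ha, rfl⟩ := (mem_medSys_dir hX free bd fin hbd).1 h
    show X.dist x0 (flip (Hyp.mk ha) k) = X.dist x0 k + 1 ∨ X.dist x0 k = X.dist x0 (flip (Hyp.mk ha) k) + 1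
    rw [flip_mk hX]
    exact (hX.dist_adj ha x0).symm
  desc k hk := by
    obtain ⟨w, hw⟩ := hX.conn.exists_walk_length_eq_dist x0 k
    have hpos : 0 < X.dist k x0 := hX.conn.pos_dist_of_ne hk
    obtain ⟨w, hw⟩ := hX.conn.exists_walk_length_eq_dist k x0
    cases w with
    | nil => exact absurd rfl hk
    | @cons _ a _ ha w' =>
      refine ⟨Hyp.mk ha, (mem_medSys_dir hX free bd fin hbd).2 (mk_mem_dirSet ha), ?_⟩
      show X.dist x0 (flip (Hyp.mk ha) k) < X.dist x0 k
      rw [flip_mk hX, SimpleGraph.dist_comm (u := x0) (v := a), SimpleGraph.dist_comm (u := x0) (v := k), ← hw,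
        SimpleGraph.Walk.length_cons]
      exact Nat.lt_succ_of_le (SimpleGraph.dist_le w')
  adj t u k ht hu htu h1 h2 := by
    obtain ⟨a, ha, rfl⟩ := (mem_medSys_dir hX free bd fin hbd).1 ht
    obtain ⟨b, hb, rfl⟩ := (mem_medSys_dir hX free bd fin hbd).1 hu
    change X.dist x0 (flip (Hyp.mk ha) k) < X.dist x0 k at h1
    change X.dist x0 (flip (Hyp.mk hb) k) < X.dist x0 k at h2
    rw [flip_mk hX] at h1 h2
    have hab : a ≠ b := by
      rintro rfl
      exact htu rfl
    obtain ⟨m, hm, ham, hbm⟩ := hX.square ha hb hab h1 h2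
    exact cross_of_square hX ha hb hab hm ham hbm
  inv t u k hc ht hu := by
    obtain ⟨a, ha, rfl⟩ := (mem_medSys_dir hX free bd fin hbd).1 ht
    obtain ⟨b, hb, rfl⟩ := (mem_medSys_dir hX free bd fin hbd).1 hu
    obtain ⟨hab, m, hm, ham, hbm⟩ := square_of_cross hX ha hb hc
    have h0 := hX.hs_square ha hb hm ham hbm hab
    have h1 : Hyp.mk hb = Hyp.mk ham := (Hyp.mk_eq hX hb ham).2 (Or.inl h0)
    show X.dist x0 (flip (Hyp.mk hb) (flip (Hyp.mk ha) k)) < X.dist x0 (flip (Hyp.mk ha) k) ↔
      X.dist x0 (flip (Hyp.mk hb) k) < X.dist x0 k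
    rw [flip_mk hX ha, flip_mk hX hb, h1, flip_mk hX ham, ← mem_hs, ← mem_hs, ← hX.hs_compl ham, ← hX.hs_compl hb,
      h0]

end fields

end sys

section bound
variable (G : Type*) [Group G] [MulAction G P] {X : SimpleGraph P} [hA : GraphAct G X]

lemma neighborSet_smul (g : G) (k : P) : X.neighborSet (g • k) = g • X.neighborSet k := by
  ext x
  rw [Set.mem_smul_set_iff_inv_smul_mem, SimpleGraph.mem_neighborSet, SimpleGraph.mem_neighborSet,
    ← hA.adj g k (g⁻¹ • x), smul_inv_smul]

lemma ncard_neighborSet_smul (g : G) (k : P) : (X.neighborSet (g • k)).ncard = (X.neighborSet k).ncard := by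
  rw [neighborSet_smul, Set.ncard_smul_set]

/-- finitely many orbits: the degrees are bounded -/
theorem exists_bd [Finite (MulAction.orbitRel.Quotient G P)] : ∃ bd, ∀ k, (X.neighborSet k).ncard ≤ bd := by
  classical
  have hfin : Fintype (MulAction.orbitRel.Quotient G P) := Fintype.ofFinite _
  refine ⟨∑ q : MulAction.orbitRel.Quotient G P, (X.neighborSet (Quotient.out q)).ncard, fun k => ?_⟩
  have h1 : (Quotient.out (Quotient.mk (MulAction.orbitRel G P) k)) ∈ MulAction.orbit G k :=
    MulAction.orbitRel_apply.1 (Quotient.mk_out (s := MulAction.orbitRel G P) k)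
  obtain ⟨g, hg⟩ := h1
  have h2 : (X.neighborSet k).ncard =
      (X.neighborSet (Quotient.out (Quotient.mk (MulAction.orbitRel G P) k))).ncard := by
    rw [← hg]
    exact (ncard_neighborSet_smul G g k).symm
  rw [h2]
  exact Finset.single_le_sum (f := fun q : MulAction.orbitRel.Quotient G P =>
    (X.neighborSet (Quotient.out q)).ncard) (fun _ _ => Nat.zero_le _)
    (Finset.mem_univ (Quotient.mk (MulAction.orbitRel G P) k : MulAction.orbitRel.Quotient G P))

end bound

/-! ### links -/

/-- the link graph of `k`: the neighbours of `k`, adjacent if they have a common neighbour besides `k` -/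
def linkG (X : SimpleGraph P) (k : P) : SimpleGraph (X.neighborSet k) where
  Adj a b := a ≠ b ∧ ∃ m, m ≠ k ∧ X.Adj a m ∧ X.Adj b m
  symm := ⟨fun a b ⟨h, m, h1, h2, h3⟩ => ⟨h.symm, m, h1, h3, h2⟩⟩
  loopless := ⟨fun a h => h.1 rfl⟩

section link
variable {G : Type*} [Group G] [MulAction G P] {X : SimpleGraph P} [hA : GraphAct G X]
variable (hX : Median X) (free : ∀ (g : G) (k : P), g • k = k → g = 1) (bd : ℕ)
  (fin : ∀ k, (X.neighborSet k).Finite) (hbd : ∀ k, (X.neighborSet k).ncard ≤ bd)

/-- the hyperplanes adjacent to `k` are the neighbours of `k` -/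
noncomputable def medDirEquiv (k : P) : X.neighborSet k ≃ {t // t ∈ (medSys hX free bd fin hbd).dir k} :=
  Equiv.ofBijective (fun a => ⟨Hyp.mk a.2, (mem_medSys_dir hX free bd fin hbd).2 (mk_mem_dirSet a.2)⟩) (by
    constructor
    · rintro ⟨a, ha⟩ ⟨b, hb⟩ h
      exact Subtype.ext (Hyp.unique hX ha hb (congrArg Subtype.val h))
    · rintro ⟨t, ht⟩
      obtain ⟨a, ha, rfl⟩ := (mem_medSys_dir hX free bd fin hbd).1 ht
      exact ⟨⟨a, ha⟩, rfl⟩)

/-- the link graph is the crossing graph on the hyperplanes adjacent to `k` -/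
noncomputable def medLink (k : P) : linkG X k ≃g
    (medSys hX free bd fin hbd).C.comap (Subtype.val : {t // t ∈ (medSys hX free bd fin hbd).dir k} → Hyp X) where
  toEquiv := medDirEquiv hX free bd fin hbd k
  map_rel_iff' := by
    rintro ⟨a, ha⟩ ⟨b, hb⟩
    constructor
    · intro h
      obtain ⟨h1, m, h2, h3, h4⟩ := square_of_cross hX ha hb h
      exact ⟨fun h5 => h1 (congrArg Subtype.val h5), m, h2, h3, h4⟩
    · rintro ⟨h1, m, h2, h3, h4⟩
      exact cross_of_square hX ha hb (fun h5 => h1 (Subtype.ext h5)) h2 h3 h4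

end link

end med

end Npc
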