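import Pool.Agent.Npc.Euler
import Pool.Agent.Npc.Med
import Pool.Agent.Singer.Bet
import Pool.Agent.Singer.Cube.Chess

/-!
# NPC cube complexes: the final theorem from the modules
-/

set_option autoImplicit false
set_option linter.unusedSectionVars false
set_option linter.unusedVariables false

namespace Npc

open Singer SingerChess

section main
variable {X Γ : Type} [Group Γ] [MulAction Γ X] {𝔛 : SimpleGraph X}

/-- finitely many orbits of vertices, free action -/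
lemma cof_of (free : ∀ (g : Γ) (x : X), g • x = x → g = 1) (F : Finset X) (hF : ∀ x : X, ∃ g : Γ, ∃ f ∈ F, g • f = x) :
    Cof Γ X where
  free g y h := free g y h
  fin := by
    refine Finite.of_surjective (fun f : F => (Quotient.mk'' (f : X) : Orb Γ X)) fun q => ?_
    induction q using Quotient.inductionOn' with | h x => ?_
    obtain ⟨g, f, hf, rfl⟩ := hF x
    exact ⟨⟨f, hf⟩, Quotient.sound' ⟨g⁻¹, by
      show g⁻¹ • g • f = f
      rw [inv_smul_smul]⟩⟩

/-- translation of links -/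
def linkSmul [hA : GraphAct Γ 𝔛] (g : Γ) (x : X) : linkG 𝔛 x ≃g linkG 𝔛 (g • x) where
  toFun y := ⟨g • (y : X), (hA.adj g x y).2 y.2⟩
  invFun y := ⟨g⁻¹ • (y : X), by
    have h : 𝔛.Adj (g • x) y := y.2
    show 𝔛.Adj x (g⁻¹ • (y : X))
    rw [← hA.adj g, smul_inv_smul]
    exact h⟩
  left_inv y := Subtype.ext (inv_smul_smul g (y : X))
  right_inv y := Subtype.ext (smul_inv_smul g (y : X))
  map_rel_iff' := by
    rintro ⟨a, ha⟩ ⟨b, hb⟩
    show (_ ∧ ∃ m, m ≠ g • x ∧ 𝔛.Adj (g • a) m ∧ 𝔛.Adj (g • b) m) ↔ _ ∧ ∃ m, m ≠ x ∧ 𝔛.Adj a m ∧ 𝔛.Adj b m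
    refine and_congr ?_ ⟨?_, ?_⟩
    · refine not_congr ⟨fun h => Subtype.ext (smul_left_cancel g (congrArg Subtype.val h)), fun h => ?_⟩
      rw [h]
    · rintro ⟨m, h1, h2, h3⟩
      refine ⟨g⁻¹ • m, fun h => h1 ?_, ?_, ?_⟩
      · rw [← h, smul_inv_smul]
      · rw [← hA.adj g, smul_inv_smul]
        exact h2
      · rw [← hA.adj g, smul_inv_smul]
        exact h3
    · rintro ⟨m, h1, h2, h3⟩
      exact ⟨g • m, fun h => h1 (smul_left_cancel g h), (hA.adj g _ _).2 h2, (hA.adj g _ _).2 h3⟩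

/-- the final theorem, from the modules -/
theorem le_of_rows
    (hmain : ∀ {H P G : Type} [Group G] [MulAction G H] [MulAction G P] (S : Sys H P G) [Cof G P] {x0 : P}
      {ht : P → ℕ}, Ht S x0 ht → ∀ i, pbet S i ≤ ∑ q : Orb G P, tbet (lkG S q.out) i)
    (hres : ∀ {H P G : Type} [Group G] [MulAction G H] [MulAction G P] (S : Sys H P G) [Cof G P] {x0 : P}
      {ht : P → ℕ}, Ht S x0 ht → ∀ (R : FinRes G) (i : ℕ), R.betti i = pbet S i)
    (htup : ∀ {V : Type} [Fintype V] [DecidableEq V] (L : SimpleGraph V) (i : ℕ), tbet L i = bet L i)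
    (h𝔛 : Median 𝔛) (hΓ : ∀ (g : Γ) (x y : X), 𝔛.Adj (g • x) (g • y) ↔ 𝔛.Adj x y)
    (free : ∀ (g : Γ) (x : X), g • x = x → g = 1) (F : Finset X) (hF : ∀ x : X, ∃ g : Γ, ∃ f ∈ F, g • f = x)
    [∀ x, Fintype (𝔛.neighborSet x)] [DecidableEq X] {r : X → ℕ} (hr : Function.Injective r) (R : FinRes Γ) (i : ℕ) :
    R.betti i ≤ ∑ x ∈ F, davisBetti (fun y : 𝔛.neighborSet x => r y) (linkG 𝔛 x) i := by
  classical
  have hA : GraphAct Γ 𝔛 := ⟨hΓ⟩
  have hC : Cof Γ X := cof_of free F hF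
  have fin : ∀ x, (𝔛.neighborSet x).Finite := fun x => Set.toFinite _
  obtain ⟨bd, hbd⟩ := exists_bd (X := 𝔛) Γ
  have : Nonempty X := h𝔛.conn.nonempty
  obtain ⟨x0⟩ := this
  have hS := medHt h𝔛 free bd fin hbd x0
  rw [hres _ hS R i]
  refine (hmain _ hS i).trans ?_
  have h1 : ∀ q : Orb Γ X, ∃ f ∈ F, ∃ g : Γ, g • f = q.out := fun q => by
    obtain ⟨g, f, hf, e⟩ := hF q.out
    exact ⟨f, hf, g, e⟩
  choose f hf g e using h1
  have hinj : Function.Injective f := by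
    intro q q' hq
    rw [← Quotient.out_eq' q, ← Quotient.out_eq' q']
    refine Quotient.sound' ⟨g q * (g q')⁻¹, ?_⟩
    show (g q * (g q')⁻¹) • q'.out = q.out
    rw [← e q', ← e q, hq, mul_smul, inv_smul_smul]
  have h2 : ∀ q : Orb Γ X, tbet (lkG (medSys h𝔛 free bd fin hbd) q.out) i =
      davisBetti (fun y : 𝔛.neighborSet (f q) => r y) (linkG 𝔛 (f q)) i := by
    intro q
    rw [htup, davisBetti_eq (fun u v huv => Subtype.ext (hr huv)),
      ← bet_iso (medLink h𝔛 free bd fin hbd q.out) i]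
    have h3 : ∀ (y : X) (h : g q • f q = y), bet (linkG 𝔛 y) i = bet (linkG 𝔛 (f q)) i := by
      rintro _ rfl
      exact (bet_iso (linkSmul (g q) (f q)) i).symm
    exact h3 _ (e q)
  rw [Finset.sum_congr rfl fun q _ => h2 q]
  rw [← Finset.sum_image (f := fun x => davisBetti (fun y : 𝔛.neighborSet x => r y) (linkG 𝔛 x) i) (g := f)
    (fun q _ q' _ hq => hinj hq)]
  refine Finset.sum_le_sum_of_subset_of_nonneg ?_ fun x _ _ => ?_
  · intro x hx
    obtain ⟨q, -, rfl⟩ := Finset.mem_image.1 hx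
    exact hf q
  · rw [davisBetti_eq (fun u v huv => Subtype.ext (hr huv))]
    exact bn_nonneg _ _ _ rk_inj _ _

end main

end Npc
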