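import Pool.Agent.Npc.Ex
import Pool.Agent.Npc.Cofs
import Pool.Agent.Singer.FinBetti

/-!
# NPC cube complexes: the resolution given by the cube complex

* `fe`, `VV`, `VV'`, `tq`, `mt` : transport from `ℓ²(Y)` to `ℓ²(Γ × Fin n)`, `n` the number of orbits;
* `pprj` : an idempotent with the range `PCh S j`;
* `pRes` : the resolution;
* `betti_eq` : the `ℓ²`-Betti numbers of a group which acts freely and cocompactly on a cube complex with a height
  function are the `ℓ²`-Betti numbers `pbet` of the cube complex.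
-/

set_option autoImplicit false
set_option linter.unusedSectionVars false
set_option linter.unusedVariables false

open scoped ComplexConjugate InnerProductSpace
open Filter Topology

namespace Npc

open Singer (L2 pull pull_apply)

/-! ### transport -/

section frame
variable {Γ : Type*} [Group Γ] {X Y Z : Type*} [MulAction Γ X] [MulAction Γ Y] [MulAction Γ Z]
  [Cof Γ X] [Cof Γ Y] [Cof Γ Z]

variable (Γ Y) in
/-- the number of orbits -/
noncomputable def no : ℕ := Fintype.card (Orb Γ Y)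

variable (Γ Y) in
/-- `Γ × Fin n = Y` -/
noncomputable def fe : Γ × Fin (no Γ Y) ≃ Y :=
  (Equiv.prodCongr (Equiv.refl Γ) (Fintype.equivFin (Orb Γ Y)).symm).trans (eqv Γ Y)

theorem fe_apply (x : Γ × Fin (no Γ Y)) : fe Γ Y x = x.1 • ((Fintype.equivFin (Orb Γ Y)).symm x.2).out := rfl

variable (Γ Y) in
/-- transport of functions -/
noncomputable def VV : L2 Y →L[ℂ] Singer.E Γ (Fin (no Γ Y)) := pull (fe Γ Y) (fe Γ Y).injective

variable (Γ Y) in
noncomputable def VV' : Singer.E Γ (Fin (no Γ Y)) →L[ℂ] L2 Y := pull (fe Γ Y).symm (fe Γ Y).symm.injective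

theorem VV_VV' (f : Singer.E Γ (Fin (no Γ Y))) : VV Γ Y (VV' Γ Y f) = f := by
  ext x
  show f ((fe Γ Y).symm (fe Γ Y x)) = f x
  rw [Equiv.symm_apply_apply]

theorem VV'_VV (f : L2 Y) : VV' Γ Y (VV Γ Y f) = f := by
  ext x
  show f (fe Γ Y ((fe Γ Y).symm x)) = f x
  rw [Equiv.apply_symm_apply]

theorem VV_act (g : Γ) (f : L2 Y) : VV Γ Y (act g f) = Singer.lam g (VV Γ Y f) := by
  ext x
  show f (g⁻¹ • fe Γ Y x) = f (fe Γ Y (g⁻¹ * x.1, x.2))
  rw [fe_apply, fe_apply, mul_smul]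

theorem VV'_lam (g : Γ) (f : Singer.E Γ (Fin (no Γ Y))) : VV' Γ Y (Singer.lam g f) = act g (VV' Γ Y f) := by
  obtain ⟨h, rfl⟩ : ∃ h, VV Γ Y h = f := ⟨_, VV_VV' f⟩
  rw [← VV_act, VV'_VV, VV'_VV]

theorem inner_VV (f h : L2 Y) : ⟪VV Γ Y f, VV Γ Y h⟫_ℂ = ⟪f, h⟫_ℂ := by
  rw [Singer.inner_eq, Singer.inner_eq]
  exact (fe Γ Y).tsum_eq fun y => conj (f y) * h y

theorem norm_VV (f : L2 Y) : ‖VV Γ Y f‖ = ‖f‖ := Singer.norm_pull_equiv (fe Γ Y) f

theorem VV'_del (x : Γ × Fin (no Γ Y)) : VV' Γ Y (Singer.del x.1 x.2) = dl (fe Γ Y x) := by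
  ext y
  show (Singer.del x.1 x.2 : Singer.E Γ (Fin (no Γ Y))) ((fe Γ Y).symm y) = dl (fe Γ Y x) y
  by_cases h : y = fe Γ Y x
  · subst h
    rw [Equiv.symm_apply_apply, dl_apply_self]
    exact Singer.del_apply_self x.1 x.2
  · rw [dl_apply_ne h, Singer.del_apply_ne]
    intro h1
    apply h
    rw [← (fe Γ Y).apply_symm_apply y, h1]

/-- the transported subspace -/
noncomputable def tq (V : Submodule ℂ (L2 Y)) : Submodule ℂ (Singer.E Γ (Fin (no Γ Y))) :=
  V.comap (VV' Γ Y : Singer.E Γ (Fin (no Γ Y)) →ₗ[ℂ] L2 Y)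

theorem mem_tq {V : Submodule ℂ (L2 Y)} {f : Singer.E Γ (Fin (no Γ Y))} : f ∈ tq V ↔ VV' Γ Y f ∈ V := Iff.rfl

theorem VV_mem_tq {V : Submodule ℂ (L2 Y)} {f : L2 Y} : VV Γ Y f ∈ tq V ↔ f ∈ V := by
  rw [mem_tq, VV'_VV]

theorem tq_closure (V : Submodule ℂ (L2 Y)) : tq (Γ := Γ) V.topologicalClosure = (tq V).topologicalClosure := by
  refine le_antisymm ?_ ?_
  · intro f hf
    have h1 : V.topologicalClosure ≤ ((tq (Γ := Γ) V).topologicalClosure).comap
        (VV Γ Y : L2 Y →ₗ[ℂ] Singer.E Γ (Fin (no Γ Y))) := by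
      refine V.topologicalClosure_minimal (fun x hx => ?_) ?_
      · exact (tq V).le_topologicalClosure (VV_mem_tq.2 hx)
      · exact (Submodule.isClosed_topologicalClosure _).preimage (VV Γ Y).continuous
    have h2 := h1 (mem_tq.1 hf)
    have h3 : VV Γ Y (VV' Γ Y f) ∈ (tq (Γ := Γ) V).topologicalClosure := h2
    rwa [VV_VV'] at h3
  · refine Submodule.topologicalClosure_minimal _ (Submodule.comap_mono V.le_topologicalClosure) ?_
    exact (Submodule.isClosed_topologicalClosure V).preimage (VV' Γ Y).continuous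

theorem tq_orthogonal (V : Submodule ℂ (L2 Y)) : tq (Γ := Γ) Vᗮ = (tq V)ᗮ := by
  ext f
  rw [mem_tq, Submodule.mem_orthogonal, Submodule.mem_orthogonal]
  constructor
  · intro h u hu
    rw [← VV_VV' f, ← VV_VV' u, inner_VV]
    exact h _ hu
  · intro h u hu
    have h1 := h (VV Γ Y u) (VV_mem_tq.2 hu)
    rw [← VV_VV' f, inner_VV] at h1
    exact h1

theorem prj_VV (V : Submodule ℂ (L2 Y)) (f : L2 Y) : Singer.prj (tq V) (VV Γ Y f) = VV Γ Y (pr V f) := by
  refine Singer.prj_unique ?_ ?_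
  · rw [← tq_closure, VV_mem_tq]
    exact pr_mem_closure V f
  · rw [← map_sub, ← tq_orthogonal, VV_mem_tq]
    exact sub_pr_mem V f

/-- comparison of the dimensions -/
theorem vdim_tq (V : Submodule ℂ (L2 Y)) : Singer.vdim (tq (Γ := Γ) V) = vd Γ V := by
  unfold Singer.vdim vd
  rw [← (Fintype.equivFin (Orb Γ Y)).symm.sum_comp]
  refine Finset.sum_congr rfl fun i _ => ?_
  have h1 : (Singer.del 1 i : Singer.E Γ (Fin (no Γ Y))) = VV Γ Y (dl ((Fintype.equivFin (Orb Γ Y)).symm i).out) := by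
    rw [← VV_VV' (Singer.del 1 i : Singer.E Γ (Fin (no Γ Y))), VV'_del (1, i), fe_apply, one_smul]
  rw [h1, prj_VV, norm_VV]

/-- transport of operators -/
noncomputable def mt (T : L2 Y →L[ℂ] L2 Z) : Singer.E Γ (Fin (no Γ Y)) →L[ℂ] Singer.E Γ (Fin (no Γ Z)) :=
  (VV Γ Z).comp (T.comp (VV' Γ Y))

theorem mt_apply (T : L2 Y →L[ℂ] L2 Z) (f : Singer.E Γ (Fin (no Γ Y))) : mt T f = VV Γ Z (T (VV' Γ Y f)) := rfl

theorem VV'_mt (T : L2 Y →L[ℂ] L2 Z) (f : Singer.E Γ (Fin (no Γ Y))) : VV' Γ Z (mt T f) = T (VV' Γ Y f) := by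
  rw [mt_apply, VV'_VV]

theorem mt_equi {T : L2 Y →L[ℂ] L2 Z} (hT : Equi Γ T) : Singer.Equi (mt (Γ := Γ) T) := by
  intro g f
  rw [mt_apply, mt_apply, VV'_lam, hT, VV_act]

theorem mt_comp (T : L2 Y →L[ℂ] L2 Z) (R : L2 X →L[ℂ] L2 Y) : mt (Γ := Γ) (T.comp R) = (mt T).comp (mt R) := by
  ext1 f
  rw [ContinuousLinearMap.comp_apply, mt_apply, mt_apply, mt_apply, VV'_VV]
  rfl

theorem mt_add (T R : L2 Y →L[ℂ] L2 Z) : mt (Γ := Γ) (T + R) = mt T + mt R := by
  ext1 f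
  rw [add_apply, mt_apply, mt_apply, mt_apply, add_apply, map_add]

theorem mt_sub (T R : L2 Y →L[ℂ] L2 Z) : mt (Γ := Γ) (T - R) = mt T - mt R := by
  ext1 f
  rw [sub_apply, mt_apply, mt_apply, mt_apply, sub_apply, map_sub]

theorem mt_smul (c : ℂ) (T : L2 Y →L[ℂ] L2 Z) : mt (Γ := Γ) (c • T) = c • mt T := by
  ext1 f
  rw [smul_apply, mt_apply, mt_apply, smul_apply, map_smul]

theorem mt_zero : mt (Γ := Γ) (0 : L2 Y →L[ℂ] L2 Z) = 0 := by
  ext1 f
  rw [mt_apply, zero_apply, map_zero, zero_apply]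

theorem mt_one : mt (Γ := Γ) (1 : L2 Y →L[ℂ] L2 Y) = 1 := by
  ext1 f
  rw [mt_apply, one_apply_eq_self, one_apply_eq_self, VV_VV']

theorem fs_iff' (f : Singer.E Γ (Fin (no Γ Y))) : Singer.FS f ↔ (Function.support (VV' Γ Y f)).Finite := by
  have h1 : {x | f x ≠ 0} = fe Γ Y ⁻¹' Function.support (VV' Γ Y f) := by
    ext x
    show f x ≠ 0 ↔ f ((fe Γ Y).symm (fe Γ Y x)) ≠ 0
    rw [Equiv.symm_apply_apply]
  have h2 : Function.support (VV' Γ Y f) = (fe Γ Y).symm ⁻¹' {x | f x ≠ 0} := rfl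
  constructor
  · intro h
    rw [h2]
    exact Set.Finite.preimage (fe Γ Y).symm.injective.injOn h
  · intro h
    unfold Singer.FS
    rw [h1]
    exact h.preimage (fe Γ Y).injective.injOn

/-- matrices with finitely supported entries -/
theorem mat_mt {T : L2 Y →L[ℂ] L2 Z} (hT : Equi Γ T) (h : ∀ y, (Function.support (T (dl y))).Finite) :
    Singer.Mat (mt (Γ := Γ) T) := by
  refine ⟨mt_equi hT, fun i => ?_⟩
  rw [fs_iff', VV'_mt, VV'_del (1, i)]
  exact h _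

theorem mat_pull {p q : Y → Y} (hpq : ∀ x, p (q x) = x) (hqp : ∀ x, q (p x) = x)
    (h : ∀ (g : Γ) (x : Y), p (g • x) = g • p x) :
    Singer.Mat (mt (Γ := Γ) (pull p (Function.LeftInverse.injective hqp))) := by
  refine mat_mt (equi_pull _ h) fun y => (Set.finite_singleton (q y)).subset ?_
  intro x hx
  have hx' : (dl y : L2 Y) (p x) ≠ 0 := hx
  by_contra hne
  refine hx' (dl_apply_ne fun h1 => hne ?_)
  show x = q y
  rw [← h1, hqp]

end frame

/-! ### the projection to the chains -/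

section prj
variable {H P G : Type*} [Group G] [MulAction G H] [MulAction G P] (S : Sys H P G) {j : ℕ}

open PCell

lemma PPm_apply (π : Equiv.Perm (Fin j)) (f : L2 (PCell S j)) (y : PCell S j) : PPm S π f y = f (pm π y) := rfl

lemma PGl_apply (i : Fin j) (f : L2 (PCell S j)) (y : PCell S j) : PGl S i f y = f (gl i y) := rfl

lemma PGl_PPm (i : Fin j) (π : Equiv.Perm (Fin j)) (f : L2 (PCell S j)) :
    PGl S i (PPm S π f) = PPm S π (PGl S (π⁻¹ i) f) := by
  ext y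
  rw [PGl_apply, PPm_apply, PPm_apply, PGl_apply, gl_pm, ← Equiv.Perm.mul_apply, mul_inv_cancel, Equiv.Perm.one_apply]

lemma PGl_PGl (i : Fin j) (f : L2 (PCell S j)) : PGl S i (PGl S i f) = f := by
  ext y
  rw [PGl_apply, PGl_apply, gl_gl]

lemma PGl_comm (i i' : Fin j) (f : L2 (PCell S j)) : PGl S i (PGl S i' f) = PGl S i' (PGl S i f) := by
  ext y
  rw [PGl_apply, PGl_apply, PGl_apply, PGl_apply]
  by_cases h : i = i'
  · rw [h]
  · rw [gl_comm h]

/-- half of the antisymmetrisation at one letter -/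
noncomputable def hfo (i : Fin j) : L2 (PCell S j) →L[ℂ] L2 (PCell S j) := (2⁻¹ : ℂ) • (1 - PGl S i)

lemma hfo_apply (i : Fin j) (f : L2 (PCell S j)) : hfo S i f = (2⁻¹ : ℂ) • (f - PGl S i f) := rfl

lemma hfo_comm (i i' : Fin j) (f : L2 (PCell S j)) : hfo S i (hfo S i' f) = hfo S i' (hfo S i f) := by
  simp only [hfo_apply, map_smul, map_sub, smul_sub]
  rw [PGl_comm S i i']
  abel

instance lc_half : LeftCommutative fun (i : Fin j) (T : L2 (PCell S j) →L[ℂ] L2 (PCell S j)) => (hfo S i).comp T :=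
  ⟨fun i i' T => by
    ext1 f
    exact hfo_comm S i i' (T f)⟩

/-- antisymmetrisation -/
noncomputable def Qo (s : Multiset (Fin j)) : L2 (PCell S j) →L[ℂ] L2 (PCell S j) :=
  Multiset.foldr (fun i T => (hfo S i).comp T) 1 s

lemma Qo_zero : Qo S (0 : Multiset (Fin j)) = 1 := Multiset.foldr_zero _ _

lemma Qo_cons (i : Fin j) (s : Multiset (Fin j)) : Qo S (i ::ₘ s) = (hfo S i).comp (Qo S s) := by
  unfold Qo
  rw [Multiset.foldr_cons]

lemma PGl_Qo {i : Fin j} {s : Multiset (Fin j)} (h : i ∈ s) (f : L2 (PCell S j)) :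
    PGl S i (Qo S s f) = -Qo S s f := by
  obtain ⟨t, rfl⟩ := Multiset.exists_cons_of_mem h
  rw [Qo_cons, ContinuousLinearMap.comp_apply, hfo_apply, map_smul, map_sub, PGl_PGl, ← smul_neg, neg_sub]

lemma Qo_eq (s : Multiset (Fin j)) {f : L2 (PCell S j)} (h : ∀ i, PGl S i f = -f) : Qo S s f = f := by
  induction s using Multiset.induction_on with
  | empty => rw [Qo_zero, one_apply_eq_self]
  | cons i s ih =>
    rw [Qo_cons, ContinuousLinearMap.comp_apply, ih, hfo_apply, h, sub_neg_eq_add, ← two_smul ℂ f, smul_smul,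
      inv_mul_cancel₀ two_ne_zero, one_smul]

/-- alternating average -/
noncomputable def Ao (j : ℕ) : L2 (PCell S j) →L[ℂ] L2 (PCell S j) :=
  (Fintype.card (Equiv.Perm (Fin j)) : ℂ)⁻¹ • ∑ π : Equiv.Perm (Fin j), ((Equiv.Perm.sign π : ℤ) : ℂ) • PPm S π

lemma Ao_apply (f : L2 (PCell S j)) : Ao S j f = (Fintype.card (Equiv.Perm (Fin j)) : ℂ)⁻¹ •
    ∑ π : Equiv.Perm (Fin j), ((Equiv.Perm.sign π : ℤ) : ℂ) • PPm S π f := by
  unfold Ao
  rw [smul_apply, sum_apply]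
  rfl

lemma sgn_mul_self (π : Equiv.Perm (Fin j)) :
    ((Equiv.Perm.sign π : ℤ) : ℂ) * ((Equiv.Perm.sign π : ℤ) : ℂ) = 1 := by
  rw [← Int.cast_mul, ← Units.val_mul, Int.units_mul_self]
  simp

lemma PPm_PPm (π ρ : Equiv.Perm (Fin j)) (f : L2 (PCell S j)) : PPm S π (PPm S ρ f) = PPm S (π * ρ) f := rfl

lemma PPm_Ao (ρ : Equiv.Perm (Fin j)) (f : L2 (PCell S j)) :
    PPm S ρ (Ao S j f) = ((Equiv.Perm.sign ρ : ℤ) : ℂ) • Ao S j f := by
  rw [Ao_apply, map_smul, map_sum, smul_comm]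
  congr 1
  rw [Finset.smul_sum]
  refine Fintype.sum_equiv (Equiv.mulLeft ρ) _ _ fun π => ?_
  rw [map_smul, PPm_PPm, Equiv.coe_mulLeft, smul_smul, Equiv.Perm.sign_mul, Units.val_mul, Int.cast_mul, ← mul_assoc,
    sgn_mul_self, one_mul]

lemma Ao_eq {f : L2 (PCell S j)} (h : ∀ π, PPm S π f = ((Equiv.Perm.sign π : ℤ) : ℂ) • f) : Ao S j f = f := by
  rw [Ao_apply]
  have h1 : ∀ π : Equiv.Perm (Fin j), ((Equiv.Perm.sign π : ℤ) : ℂ) • PPm S π f = f := fun π => by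
    rw [h, smul_smul, sgn_mul_self, one_smul]
  rw [Finset.sum_congr rfl fun π _ => h1 π, Finset.sum_const, Finset.card_univ, ← Nat.cast_smul_eq_nsmul ℂ, smul_smul,
    inv_mul_cancel₀ (by exact_mod_cast Fintype.card_ne_zero), one_smul]

/-- an idempotent with the range `PCh S j` -/
noncomputable def pprj (j : ℕ) : L2 (PCell S j) →L[ℂ] L2 (PCell S j) := (Ao S j).comp (Qo S Finset.univ.val)

lemma pprj_mem (f : L2 (PCell S j)) : pprj S j f ∈ PCh S j := by
  refine ⟨fun π => PPm_Ao S π _, fun i => ?_⟩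
  show PGl S i (Ao S j (Qo S Finset.univ.val f)) = -Ao S j (Qo S Finset.univ.val f)
  rw [Ao_apply, map_smul, map_sum, ← smul_neg, ← Finset.sum_neg_distrib]
  congr 1
  refine Finset.sum_congr rfl fun π _ => ?_
  rw [map_smul, PGl_PPm, PGl_Qo S (Finset.mem_univ _), map_neg, smul_neg]

lemma pprj_eq {f : L2 (PCell S j)} (hf : f ∈ PCh S j) : pprj S j f = f := by
  show Ao S j (Qo S Finset.univ.val f) = f
  rw [Qo_eq S _ hf.2, Ao_eq S hf.1]

lemma PDD_apply (f : L2 (PCell S (j + 1))) (y : PCell S j) : PDD S f y = bd (fun z => f z) y := by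
  unfold PDD
  rw [psf_apply]
  rfl

variable [Cof G P]

lemma mat_PGl (i : Fin j) : Singer.Mat (mt (Γ := G) (PGl S i)) :=
  mat_pull (gl_gl i) (gl_gl i) fun g y => smul_gl g i y

lemma mat_PPm (π : Equiv.Perm (Fin j)) : Singer.Mat (mt (Γ := G) (PPm S π)) :=
  mat_pull (p := pm π) (q := pm π⁻¹) (fun y => pm_pm_inv _ y) (fun y => pm_inv_pm _ y) fun g y => smul_pm g π y

lemma mat_Qo (s : Multiset (Fin j)) : Singer.Mat (mt (Γ := G) (Qo S s)) := by
  induction s using Multiset.induction_on with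
  | empty =>
    rw [Qo_zero, mt_one]
    exact Singer.Mat.one
  | cons i s ih =>
    rw [Qo_cons, mt_comp]
    refine Singer.Mat.comp ?_ ih
    unfold hfo
    rw [mt_smul, mt_sub, mt_one]
    exact (Singer.Mat.one.sub (mat_PGl S i)).smul _

lemma mat_Ao (j : ℕ) : Singer.Mat (mt (Γ := G) (Ao S j)) := by
  classical
  unfold Ao
  rw [mt_smul]
  refine Singer.Mat.smul _ ?_
  have h1 : ∀ s : Finset (Equiv.Perm (Fin j)),
      Singer.Mat (mt (Γ := G) (∑ π ∈ s, ((Equiv.Perm.sign π : ℤ) : ℂ) • PPm S π)) := by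
    intro s
    induction s using Finset.induction_on with
    | empty =>
      rw [Finset.sum_empty, mt_zero]
      exact Singer.Mat.zero
    | insert π s hπ ih =>
      rw [Finset.sum_insert hπ, mt_add, mt_smul]
      exact ((mat_PPm S π).smul _).add ih
  exact h1 _

lemma mat_pprj (j : ℕ) : Singer.Mat (mt (Γ := G) (pprj S j)) := by
  unfold pprj
  rw [mt_comp]
  exact (mat_Ao S j).comp (mat_Qo S _)

lemma mat_PDD (j : ℕ) : Singer.Mat (mt (Γ := G) (PDD S : L2 (PCell S (j + 1)) →L[ℂ] L2 (PCell S j))) := by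
  refine mat_mt (equi_psf _ fun g z => smul_tail g z) fun z => (Set.finite_singleton (tail z)).subset ?_
  intro y hy
  by_contra hne
  refine hy ?_
  rw [PDD_apply]
  refine Finset.sum_eq_zero fun z' hz' => dl_apply_ne ?_
  rintro rfl
  exact hne (mem_fb.1 hz').symm

end prj

/-! ### chains as functions -/

section chains
variable {H P G : Type*} [Group G] [MulAction G H] [MulAction G P] {S : Sys H P G} {j : ℕ}

open PCell

lemma units_smul_eq (u : ℤˣ) (c : ℂ) : u • c = (((u : ℤ) : ℂ)) * c := by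
  rw [Units.smul_def, zsmul_eq_mul]

lemma mem_PCh_iff {f : L2 (PCell S j)} : f ∈ PCh S j ↔
    (∀ (π : Equiv.Perm (Fin j)) y, f (pm π y) = Equiv.Perm.sign π • f y) ∧ ∀ i y, f (gl i y) = -f y := by
  constructor
  · rintro ⟨h1, h2⟩
    refine ⟨fun π y => ?_, fun i y => ?_⟩
    · rw [← PPm_apply, h1, lp.coeFn_smul, Pi.smul_apply, units_smul_eq]
      rfl
    · rw [← PGl_apply, h2, lp.coeFn_neg, Pi.neg_apply]
  · rintro ⟨h1, h2⟩
    refine ⟨fun π => ?_, fun i => ?_⟩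
    · ext y
      rw [PPm_apply, h1, lp.coeFn_smul, Pi.smul_apply, units_smul_eq]
      rfl
    · ext y
      rw [PGl_apply, h2, lp.coeFn_neg, Pi.neg_apply]

lemma al_of {f : L2 (PCell S j)} (hf : f ∈ PCh S j) (hfs : (Function.support f).Finite) : Al (fun y => f y) :=
  ⟨hfs, (mem_PCh_iff.1 hf).1, (mem_PCh_iff.1 hf).2⟩

lemma exists_of_al {g : PCell S j → ℂ} (hg : Al g) : ∃ f : L2 (PCell S j), f ∈ PCh S j ∧ (fun y => f y) = g := by
  have h1 : Summable fun y => ‖g y‖ ^ 2 := by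
    refine summable_of_hasFiniteSupport (hg.fin.subset fun y hy h0 => hy ?_)
    show ‖g y‖ ^ 2 = 0
    rw [h0]
    simp
  exact ⟨⟨g, Singer.memL2 h1⟩, mem_PCh_iff.2 ⟨hg.alt, hg.gl⟩, rfl⟩

lemma PDD_mem {f : L2 (PCell S (j + 1))} (hf : f ∈ PCh S (j + 1)) : PDD S f ∈ PCh S j := by
  rw [mem_PCh_iff] at hf ⊢
  refine ⟨fun π y => ?_, fun i y => ?_⟩
  · rw [PDD_apply, PDD_apply]
    exact bd_alt hf.1 π y
  · rw [PDD_apply, PDD_apply]
    exact bd_gl hf.2 i y

lemma PDD_PDD {f : L2 (PCell S (j + 2))} (hf : f ∈ PCh S (j + 2)) : PDD S (PDD S f) = 0 := by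
  ext y
  rw [PDD_apply]
  have h1 : (fun z => PDD S f z) = bd (fun w => f w) := funext fun z => PDD_apply S f z
  rw [h1, bd_bd' (mem_PCh_iff.1 hf).1]
  rfl

/-! ### the resolution -/

variable [Cof G P]

lemma eps_eq (f : Singer.E G (Fin (no G (PCell S j)))) :
    Singer.eps (fun _ => 1) f = ∑ᶠ y, (VV' G (PCell S j) f) y := by
  unfold Singer.eps
  rw [← finsum_comp_equiv (fe G (PCell S j)) (f := fun y => (VV' G (PCell S j) f) y)]
  refine finsum_congr fun x => ?_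
  rw [one_mul]
  show f x = f ((fe G (PCell S j)).symm (fe G (PCell S j) x))
  rw [Equiv.symm_apply_apply]

lemma VV'_inj {f g : Singer.E G (Fin (no G (PCell S j)))} (h : VV' G (PCell S j) f = VV' G (PCell S j) g) : f = g := by
  rw [← VV_VV' f, h, VV_VV']

variable {x0 : P} {ht : P → ℕ}

lemma ex_zero' (hH : Ht S x0 ht) {f : L2 (PCell S 0)} (hf : f ∈ PCh S 0) (hfs : (Function.support f).Finite)
    (h0 : ∑ᶠ y, f y = 0) : ∃ g : L2 (PCell S 1), g ∈ PCh S 1 ∧ (Function.support g).Finite ∧ PDD S g = f := by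
  obtain ⟨g, hg, hgf⟩ := (ex_zero hH (al_of hf hfs)).1 h0
  obtain ⟨g', hg', rfl⟩ := exists_of_al hg
  refine ⟨g', hg', hg.fin, ?_⟩
  ext y
  rw [PDD_apply, hgf]

lemma ex_succ' (hH : Ht S x0 ht) {f : L2 (PCell S (j + 1))} (hf : f ∈ PCh S (j + 1))
    (hfs : (Function.support f).Finite) (h0 : PDD S f = 0) :
    ∃ g : L2 (PCell S (j + 2)), g ∈ PCh S (j + 2) ∧ (Function.support g).Finite ∧ PDD S g = f := by
  have h1 : bd (fun y => f y) = 0 := by
    funext y
    rw [← PDD_apply, h0]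
    rfl
  obtain ⟨g, hg, hgf⟩ := ex_succ hH (al_of hf hfs) h1
  obtain ⟨g', hg', rfl⟩ := exists_of_al hg
  refine ⟨g', hg', hg.fin, ?_⟩
  ext y
  rw [PDD_apply, hgf]

lemma finsum_PDD (hH : Ht S x0 ht) {f : L2 (PCell S 1)} (hf : f ∈ PCh S 1) (hfs : (Function.support f).Finite) :
    ∑ᶠ y, (PDD S f) y = 0 := by
  have h := finsum_bd hH (al_of hf hfs)
  rw [← h]
  exact finsum_congr fun y => PDD_apply S f y

/-- the base vertex, as a cell -/
def pt0 (S : Sys H P G) (x0 : P) : PCell S 0 := ⟨x0, fun i => i.elim0, fun i => i.elim0, fun i => i.elim0⟩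

lemma dl_mem (y : PCell S 0) : dl y ∈ PCh S 0 := by
  rw [mem_PCh_iff]
  refine ⟨fun π z => ?_, fun i => i.elim0⟩
  have h1 : π = 1 := Subsingleton.elim _ _
  rw [h1, pm_one, Equiv.Perm.sign_one, one_smul]

/-- the resolution given by the cube complex -/
noncomputable def pRes (hH : Ht S x0 ht) : Singer.Res.{0} G where
  ι j := Fin (no G (PCell S j))
  ft _ := inferInstance
  P j := tq (PCh S j)
  e j := mt (pprj S j)
  d j := mt (PDD S)
  w _ := 1
  mat_e j := mat_pprj S j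
  mat_d j := mat_PDD S j
  e_mem j f := by
    rw [mem_tq, VV'_mt]
    exact pprj_mem S _
  e_eq j f hf := by
    refine VV'_inj ?_
    rw [VV'_mt]
    exact pprj_eq S hf
  d_mem j f hf := by
    rw [mem_tq, VV'_mt]
    exact PDD_mem hf
  d_d j f hf := by
    refine VV'_inj ?_
    rw [VV'_mt, VV'_mt]
    exact (PDD_PDD (mem_tq.1 hf)).trans (map_zero _).symm
  eps_d f hf hfs := by
    rw [eps_eq, VV'_mt]
    exact finsum_PDD hH hf ((fs_iff' f).1 hfs)
  surj := by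
    refine ⟨VV G (PCell S 0) (dl (pt0 S x0)), VV_mem_tq.2 (dl_mem _), ?_, ?_⟩
    · rw [fs_iff', VV'_VV]
      refine (Set.finite_singleton (pt0 S x0)).subset fun y hy => ?_
      by_contra h
      exact hy (dl_apply_ne h)
    · rw [eps_eq, VV'_VV, finsum_eq_single _ (pt0 S x0), dl_apply_self]
      intro y hy
      exact dl_apply_ne hy
  ex_zero f hf hfs h0 := by
    rw [eps_eq] at h0
    obtain ⟨g, hg, hgs, hgf⟩ := ex_zero' hH hf ((fs_iff' f).1 hfs) h0
    refine ⟨VV G (PCell S 1) g, VV_mem_tq.2 hg, ?_, VV'_inj ?_⟩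
    · rw [fs_iff', VV'_VV]
      exact hgs
    · rw [VV'_mt, VV'_VV]
      exact hgf
  ex_succ j f hf hfs h0 := by
    have h1 : PDD S (VV' G (PCell S (j + 1)) f) = 0 := by
      rw [← VV'_mt, h0, map_zero]
    obtain ⟨g, hg, hgs, hgf⟩ := ex_succ' hH hf ((fs_iff' f).1 hfs) h1
    refine ⟨VV G (PCell S (j + 2)) g, VV_mem_tq.2 hg, ?_, VV'_inj ?_⟩
    · rw [fs_iff', VV'_VV]
      exact hgs
    · rw [VV'_mt, VV'_VV]
      exact hgf

lemma vdim_Z_zero (hH : Ht S x0 ht) : Singer.vdim ((pRes (G := G) hH).Z 0) = vd G (PCh S 0) := vdim_tq _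

lemma vdim_Z_succ (hH : Ht S x0 ht) (j : ℕ) : Singer.vdim ((pRes (G := G) hH).Z (j + 1)) = vd G (PCyc S j) := by
  rw [← vdim_tq]
  congr 1
  ext f
  show f ∈ tq (PCh S (j + 1)) ∧ mt (PDD S) f = 0 ↔ VV' G (PCell S (j + 1)) f ∈ PCh S (j + 1) ∧
    PDD S (VV' G (PCell S (j + 1)) f) = 0
  refine and_congr_right fun _ => ?_
  have h1 := VV'_mt (Γ := G) (PDD S : L2 (PCell S (j + 1)) →L[ℂ] L2 (PCell S j)) f
  constructor
  · intro h
    rw [h] at h1
    exact h1.symm.trans (map_zero _)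
  · intro h
    refine VV'_inj ?_
    rw [h1]
    exact h.trans (map_zero _).symm

lemma vdim_B (hH : Ht S x0 ht) (j : ℕ) : Singer.vdim ((pRes (G := G) hH).B j) = vd G (PBd S j) := by
  unfold Singer.PreRes.B PBd
  rw [Singer.vdim_closure, vd_closure, ← vdim_tq]
  congr 1
  ext f
  constructor
  · rintro ⟨v, hv, rfl⟩
    exact ⟨VV' G _ v, hv, (VV'_mt _ _).symm⟩
  · rintro ⟨v, hv, h⟩
    refine ⟨VV G _ v, VV_mem_tq.2 hv, VV'_inj ?_⟩
    show VV' G (PCell S j) (mt (PDD S) (VV G _ v)) = _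
    rw [VV'_mt, VV'_VV]
    exact h

/-- the `ℓ²`-Betti numbers of the group are those of the cube complex -/
theorem betti_eq (hH : Ht S x0 ht) (R : Singer.FinRes G) (i : ℕ) : R.betti i = pbet S i := by
  rw [R.betti_eq, Singer.Res.h_eq R.toRes (pRes hH)]
  show Singer.vdim ((pRes (G := G) hH).toPreRes.toHC.Z i) - Singer.vdim ((pRes (G := G) hH).toPreRes.toHC.B i) = pbet S i
  have hB : Singer.vdim ((pRes (G := G) hH).toPreRes.toHC.B i) = vd G (PBd S i) := vdim_B hH i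
  cases i with
  | zero =>
    have hZ : Singer.vdim ((pRes (G := G) hH).toPreRes.toHC.Z 0) = vd G (PCh S 0) := vdim_Z_zero hH
    rw [hZ, hB]
    rfl
  | succ i =>
    have hZ : Singer.vdim ((pRes (G := G) hH).toPreRes.toHC.Z (i + 1)) = vd G (PCyc S i) := vdim_Z_succ hH i
    rw [hZ, hB]
    rfl

end chains

end Npc
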