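import Pool.Agent.Npc.Tcell
import Pool.Agent.Singer.Bet

/-!
# NPC cube complexes: ordered chains versus chains on finite sets

`tbet_eq_bet` : the Betti numbers of the ordered alternating chains of the Davis complex are the numbers `bet`.
-/

set_option autoImplicit false
set_option linter.unusedSectionVars false
set_option linter.unusedVariables false

open scoped ComplexConjugate InnerProductSpace
open Filter Topology

namespace Npc

open Singer

/-! ### the sign of an enumeration -/

section eps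
variable {V : Type*} {i : ℕ}

/-- the sign of an enumeration -/
def eps (r : V → ℕ) (τ : Fin i → V) : ℤ := ∏ a, ∏ b ∈ Finset.Ioi a, ((r (τ b) : ℤ) - r (τ a)).sign

lemma eps_perm (r : V → ℕ) (τ : Fin i → V) (π : Equiv.Perm (Fin i)) :
    eps r (fun a => τ (π a)) = (Equiv.Perm.sign π : ℤ) * eps r τ := by
  unfold eps
  have h := Equiv.Perm.prod_Ioi_comp_eq_sign_mul_prod (R := ℤ) π
    (f := fun a b => ((r (τ b) : ℤ) - r (τ a)).sign) (fun a b => by
      rw [← Int.sign_neg, neg_sub])
  simpa using h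

lemma eps_succ (r : V → ℕ) (τ : Fin (i + 1) → V) :
    eps r τ = (∏ b : Fin i, ((r (τ b.succ) : ℤ) - r (τ 0)).sign) * eps r (fun b => τ b.succ) := by
  unfold eps
  rw [Fin.prod_univ_succ, Fin.prod_Ioi_zero]
  congr 1
  refine Finset.prod_congr rfl fun a _ => ?_
  rw [Fin.prod_Ioi_succ]

lemma eps_sq {r : V → ℕ} (hr : Function.Injective r) {τ : Fin i → V} (hτ : Function.Injective τ) :
    eps r τ * eps r τ = 1 := by
  unfold eps
  rw [← Finset.prod_mul_distrib]
  refine Finset.prod_eq_one fun a _ => ?_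
  rw [← Finset.prod_mul_distrib]
  refine Finset.prod_eq_one fun b hb => ?_
  rw [← Int.sign_mul]
  refine Int.sign_eq_one_of_pos (mul_self_pos.2 ?_)
  rw [sub_ne_zero]
  intro h
  have h1 : b = a := hτ (hr (by exact_mod_cast h))
  rw [h1] at hb
  exact lt_irrefl _ (Finset.mem_Ioi.1 hb)

lemma eps_norm {r : V → ℕ} (hr : Function.Injective r) {τ : Fin i → V} (hτ : Function.Injective τ) :
    ‖(eps r τ : ℂ)‖ ≤ 1 := by
  have h := eps_sq hr hτ
  rcases Int.eq_one_or_neg_one_of_mul_eq_one h with h | h <;> rw [h] <;> simp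

lemma prod_sign [DecidableEq V] {r : V → ℕ} (hr : Function.Injective r) {τ : Fin i → V} (hτ : Function.Injective τ)
    {v : V} (hv : ∀ b, τ b ≠ v) :
    ((∏ b : Fin i, ((r (τ b) : ℤ) - r v).sign : ℤ) : ℂ) = sg r v (Finset.univ.image τ) := by
  unfold sg
  have h1 : ∀ b : Fin i, ((r (τ b) : ℤ) - r v).sign = if r (τ b) < r v then (-1 : ℤ) else 1 := by
    intro b
    split_ifs with h
    · exact Int.sign_eq_neg_one_of_neg (by omega)
    · have h2 : r (τ b) ≠ r v := fun h' => hv b (hr h')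
      exact Int.sign_eq_one_of_pos (by omega)
  rw [Finset.prod_congr rfl fun b _ => h1 b, Finset.prod_ite, Finset.prod_const_one, mul_one, Finset.prod_const]
  have h3 : ((Finset.univ.image τ).filter fun t => r t < r v) =
      (Finset.univ.filter fun b => r (τ b) < r v).image τ := by
    rw [Finset.filter_image]
  rw [h3, Finset.card_image_of_injective _ hτ]
  push_cast
  rfl

end eps

/-! ### the left action on `RACG L × Finset V` -/

section fc
variable {V : Type*} {L : SimpleGraph V}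

/-- the left action -/
@[reducible] noncomputable def fcAct (L : SimpleGraph V) : MulAction (RACG L) (RACG L × Finset V) where
  smul g y := (g * y.1, y.2)
  one_smul y := Prod.ext (one_mul _) rfl
  mul_smul g h y := Prod.ext (mul_assoc _ _ _) rfl

attribute [local instance] fcAct

lemma fc_smul (g : RACG L) (y : RACG L × Finset V) : g • y = (g * y.1, y.2) := rfl

lemma fcCof [Finite V] : Cof (RACG L) (RACG L × Finset V) where
  free g y h := by
    have h1 : g * y.1 = y.1 := congrArg Prod.fst h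
    exact mul_eq_right.1 h1
  fin := by
    refine Finite.of_injective (β := Finset V)
      (Quotient.lift (fun y : RACG L × Finset V => y.2) (by
        rintro y z ⟨g, rfl⟩
        rfl)) ?_
    intro a b
    induction a using Quotient.inductionOn with | h a => ?_
    induction b using Quotient.inductionOn with | h b => ?_
    intro h
    have h1 : a.2 = b.2 := h
    refine Quotient.sound ⟨a.1 * b.1⁻¹, ?_⟩
    exact Prod.ext (by
      show a.1 * b.1⁻¹ * b.1 = a.1
      rw [inv_mul_cancel_right]) h1.symm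

attribute [local instance] fcCof

lemma vd_fc [Fintype V] {W : Submodule ℂ (E (RACG L) (Finset V))} (hW : Singer.Inv W) :
    vd (Y := RACG L × Finset V) (RACG L) W = vdim W := by
  have h1 : Inv (Y := RACG L × Finset V) (RACG L) W := hW
  rw [vd_eq_sum h1 (fun T : Finset V => ((1 : RACG L), T)) ?_]
  · unfold vdim
    refine Finset.sum_congr rfl fun T _ => ?_
    have h2 : (dl ((1 : RACG L), T) : L2 (RACG L × Finset V)) = del 1 T := by
      refine ext_inner_right ℂ fun f => ?_
      rw [inner_dl_left, inner_del_left]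
    rw [h2]
    rfl
  · rintro ⟨w, T⟩
    refine ⟨T, ⟨w, Prod.ext (mul_one _) rfl⟩, ?_⟩
    rintro T' ⟨g, hg⟩
    exact congrArg Prod.snd hg

end fc

/-! ### the comparison map -/

section phi
variable {V : Type*} [Fintype V] {L : SimpleGraph V} {i : ℕ}

attribute [local instance] fcAct fcCof

lemma TCell.inj (y : TCell L i) : Function.Injective y.τ := fun a b h => by
  by_contra hab
  have h1 := y.adj a b hab
  rw [h] at h1
  exact L.loopless.1 _ h1

open Classical in
/-- the underlying finite set -/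
noncomputable def TCell.im (y : TCell L i) : RACG L × Finset V := (y.w, Finset.univ.image y.τ)

lemma fibre_im : Fibre (TCell.im : TCell L i → RACG L × Finset V) (Fintype.card (Fin i → V)) := by
  classical
  have key : ∀ x : RACG L × Finset V, Set.InjOn (fun z : TCell L i => z.τ) {z | TCell.im z = x} := by
    rintro x z hz z' hz' h
    have h1 : z.w = x.1 := congrArg Prod.fst hz
    have h2 : z'.w = x.1 := congrArg Prod.fst hz'
    exact TCell.ext (h1.trans h2.symm) h
  have h2 : ∀ x : RACG L × Finset V, Set.MapsTo (fun z : TCell L i => z.τ) {z | TCell.im z = x}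
      ((Finset.univ : Finset (Fin i → V)) : Set (Fin i → V)) := fun x z _ => by simp
  refine ⟨fun x => Set.Finite.of_injOn (h2 x) (key x) (Finset.finite_toSet _), fun x => ?_⟩
  calc {z : TCell L i | TCell.im z = x}.ncard ≤ ((Finset.univ : Finset (Fin i → V)) : Set (Fin i → V)).ncard :=
        Set.ncard_le_ncard_of_injOn _ (h2 x) (key x) (Finset.finite_toSet _)
    _ = (Finset.univ : Finset (Fin i → V)).card := Set.ncard_coe_finset _
    _ = Fintype.card (Fin i → V) := Finset.card_univ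

variable {r : V → ℕ} (hr : Function.Injective r)

variable (L i) in
/-- the comparison map -/
noncomputable def Phi : L2 (RACG L × Finset V) →L[ℂ] L2 (TCell L i) :=
  (mul (fun y : TCell L i => (eps r y.τ : ℂ)) fun y => eps_norm hr y.inj).comp (plf fibre_im)

lemma Phi_apply (f : L2 (RACG L × Finset V)) (y : TCell L i) : Phi L i hr f y = eps r y.τ * f y.im := rfl

lemma equi_Phi : Equi (RACG L) (Phi L i hr) := fun g f => by
  ext y
  rw [act_apply, Phi_apply, Phi_apply]
  rfl

lemma im_pm (π : Equiv.Perm (Fin i)) (y : TCell L i) : (TCell.pm π y).im = y.im := by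
  classical
  refine Prod.ext rfl ?_
  ext v
  simp only [TCell.im, Finset.mem_image, Finset.mem_univ, true_and]
  constructor
  · rintro ⟨a, h⟩
    exact ⟨π a, h⟩
  · rintro ⟨a, h⟩
    exact ⟨π.symm a, by rw [← h, TCell.pm_τ, Equiv.apply_symm_apply]⟩

lemma im_clique (y : TCell L i) : L.IsClique y.im.2 ∧ y.im.2.card = i := by
  classical
  constructor
  · intro u hu v hv huv
    simp only [TCell.im, Finset.coe_image, Finset.coe_univ, Set.image_univ, Set.mem_range] at hu hv
    obtain ⟨a, rfl⟩ := hu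
    obtain ⟨b, rfl⟩ := hv
    exact y.adj a b fun h => huv (by rw [h])
  · show (Finset.univ.image y.τ).card = i
    rw [Finset.card_image_of_injective _ y.inj, Finset.card_univ, Fintype.card_fin]

/-- an enumeration of a clique -/
noncomputable def enu (x : {x : RACG L × Finset V // L.IsClique x.2 ∧ x.2.card = i}) : TCell L i :=
  ⟨x.1.1, fun a => ((x.1.2.equivFinOfCardEq x.2.2).symm a : V), fun a b hab => by
    refine x.2.1 (Subtype.coe_prop _) (Subtype.coe_prop _) fun h => hab ?_
    exact (x.1.2.equivFinOfCardEq x.2.2).symm.injective (Subtype.ext h)⟩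

lemma im_enu (x : {x : RACG L × Finset V // L.IsClique x.2 ∧ x.2.card = i}) : (enu x).im = x.1 := by
  classical
  refine Prod.ext rfl ?_
  ext v
  simp only [TCell.im, Finset.mem_image, Finset.mem_univ, true_and]
  constructor
  · rintro ⟨a, h⟩
    rw [← h]
    exact Subtype.coe_prop _
  · intro h
    refine ⟨x.1.2.equivFinOfCardEq x.2.2 ⟨v, h⟩, ?_⟩
    show (((x.1.2.equivFinOfCardEq x.2.2).symm (x.1.2.equivFinOfCardEq x.2.2 ⟨v, h⟩) : x.1.2) : V) = v
    rw [Equiv.symm_apply_apply]

lemma enu_inj : Function.Injective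
    (enu : {x : RACG L × Finset V // L.IsClique x.2 ∧ x.2.card = i} → TCell L i) := by
  intro x y h
  refine Subtype.ext ?_
  rw [← im_enu x, ← im_enu y, h]

/-- two enumerations differ by a permutation -/
lemma exists_perm {y z : TCell L i} (h : y.im = z.im) : ∃ π : Equiv.Perm (Fin i), z = TCell.pm π y := by
  classical
  have hb : ∀ y : TCell L i, Function.Bijective
      (fun a => (⟨y.τ a, Finset.mem_image_of_mem _ (Finset.mem_univ a)⟩ : {v // v ∈ y.im.2})) := by
    intro y
    constructor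
    · intro a b hab
      exact y.inj (congrArg Subtype.val hab)
    · rintro ⟨v, hv⟩
      obtain ⟨a, _, ha⟩ := Finset.mem_image.1 hv
      exact ⟨a, Subtype.ext ha⟩
  have h2 : y.im.2 = z.im.2 := congrArg Prod.snd h
  let e1 := Equiv.ofBijective _ (hb y)
  let e2 := Equiv.ofBijective _ (hb z)
  let e3 : {v // v ∈ z.im.2} ≃ {v // v ∈ y.im.2} := Equiv.subtypeEquivRight fun v => by rw [h2]
  refine ⟨(e2.trans e3).trans e1.symm, ?_⟩
  refine TCell.ext (congrArg Prod.fst h).symm (funext fun a => ?_)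
  have h3 : e1 (e1.symm (e3 (e2 a))) = e3 (e2 a) := Equiv.apply_symm_apply _ _
  have h4 : y.τ (e1.symm (e3 (e2 a))) = z.τ a := congrArg Subtype.val h3
  exact h4.symm

lemma mi_im_w (a : Fin i) (y : TCell L i) : (TCell.mi a y).im = (y.im.1 * Racg.gen L (y.τ a), y.im.2) := rfl

lemma mem_im (a : Fin i) (y : TCell L i) : y.τ a ∈ y.im.2 := by
  classical
  exact Finset.mem_image_of_mem _ (Finset.mem_univ a)

lemma exists_of_mem_im {v : V} {y : TCell L i} (h : v ∈ y.im.2) : ∃ a, y.τ a = v := by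
  classical
  obtain ⟨a, _, ha⟩ := Finset.mem_image.1 h
  exact ⟨a, ha⟩

/-- the set of the cliques of size `i` -/
abbrev FCl (L : SimpleGraph V) (i : ℕ) : Type _ := {x : RACG L × Finset V // L.IsClique x.2 ∧ x.2.card = i}

variable (L i) in
/-- the inverse of the comparison map on chains -/
noncomputable def Psi : L2 (TCell L i) →L[ℂ] L2 (RACG L × Finset V) :=
  (push (Subtype.val : FCl L i → RACG L × Finset V) Subtype.val_injective).comp
    ((mul (fun x : FCl L i => (eps r (enu x).τ : ℂ)) fun x => eps_norm hr (enu x).inj).comp (pull enu enu_inj))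

lemma Psi_apply (h : L2 (TCell L i)) (x : FCl L i) : Psi L i hr h x.1 = eps r (enu x).τ * h (enu x) := by
  unfold Psi
  rw [ContinuousLinearMap.comp_apply, push_apply]
  rfl

lemma Psi_apply_of_not (h : L2 (TCell L i)) {x : RACG L × Finset V} (hx : ¬ (L.IsClique x.2 ∧ x.2.card = i)) :
    Psi L i hr h x = 0 := by
  unfold Psi
  rw [ContinuousLinearMap.comp_apply, push_apply_of_notMem]
  rintro ⟨y, rfl⟩
  exact hx y.2

variable [DecidableEq V]

lemma Phi_mem {f : E (RACG L) (Finset V)} (hf : f ∈ Ch L (Racg.gen L) Finset.univ i) : Phi L i hr f ∈ TCh L i := by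
  refine ⟨fun π => ?_, fun a => ?_⟩
  · ext y
    show Phi L i hr f (TCell.pm π y) = ((Equiv.Perm.sign π : ℤ) : ℂ) * Phi L i hr f y
    rw [Phi_apply, Phi_apply, im_pm]
    have h1 : eps r (TCell.pm π y).τ = (Equiv.Perm.sign π : ℤ) * eps r y.τ := eps_perm r y.τ π
    rw [h1]
    push_cast
    ring
  · ext y
    show Phi L i hr f (TCell.mi a y) = -Phi L i hr f y
    rw [Phi_apply, Phi_apply, mi_im_w, hf.2 _ _ _ (mem_im a y)]
    show eps r y.τ * -f (y.im.1, y.im.2) = -(eps r y.τ * f y.im)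
    ring

lemma TCh.pm {h : L2 (TCell L i)} (hh : h ∈ TCh L i) (π : Equiv.Perm (Fin i)) (y : TCell L i) :
    h (TCell.pm π y) = ((Equiv.Perm.sign π : ℤ) : ℂ) * h y := by
  have h1 := congrArg (fun u : L2 (TCell L i) => u y) (hh.1 π)
  exact h1

lemma TCh.mi {h : L2 (TCell L i)} (hh : h ∈ TCh L i) (a : Fin i) (y : TCell L i) : h (TCell.mi a y) = -h y := by
  have h1 := congrArg (fun u : L2 (TCell L i) => u y) (hh.2 a)
  exact h1

lemma Psi_mem {h : L2 (TCell L i)} (hh : h ∈ TCh L i) : Psi L i hr h ∈ Ch L (Racg.gen L) Finset.univ i := by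
  refine ⟨fun x hx => ?_, fun g T v hv => ?_⟩
  · by_cases hc : L.IsClique x.2 ∧ x.2.card = i
    · exact ⟨Finset.subset_univ _, hc.2, hc.1⟩
    · exact absurd (Psi_apply_of_not hr h hc) hx
  · by_cases hc : L.IsClique T ∧ T.card = i
    · have h1 := Psi_apply hr h ⟨(g * Racg.gen L v, T), hc⟩
      have h2 := Psi_apply hr h ⟨(g, T), hc⟩
      dsimp only at h1 h2
      rw [h1, h2]
      have h3 : v ∈ (enu (⟨(g, T), hc⟩ : FCl L i)).im.2 := by
        rw [im_enu]
        exact hv
      obtain ⟨a, ha⟩ := exists_of_mem_im h3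
      have h4 : enu (⟨(g * Racg.gen L v, T), hc⟩ : FCl L i) = TCell.mi a (enu ⟨(g, T), hc⟩) := by
        refine TCell.ext ?_ rfl
        show g * Racg.gen L v = g * Racg.gen L ((enu (⟨(g, T), hc⟩ : FCl L i)).τ a)
        rw [ha]
      rw [h4, TCh.mi hh]
      show (eps r (enu (⟨(g, T), hc⟩ : FCl L i)).τ : ℂ) * _ = _
      ring
    · rw [Psi_apply_of_not hr h (x := (g * Racg.gen L v, T)) hc, Psi_apply_of_not hr h (x := (g, T)) hc, neg_zero]

lemma Phi_Psi {h : L2 (TCell L i)} (hh : h ∈ TCh L i) : Phi L i hr (Psi L i hr h) = h := by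
  ext y
  rw [Phi_apply]
  have h1 := Psi_apply hr h ⟨y.im, im_clique y⟩
  dsimp only at h1
  rw [h1]
  obtain ⟨π, hπ⟩ := exists_perm (y := y) (z := enu ⟨y.im, im_clique y⟩) (im_enu ⟨y.im, im_clique y⟩).symm
  rw [hπ, TCh.pm hh]
  have h2 : eps r (TCell.pm π y).τ = (Equiv.Perm.sign π : ℤ) * eps r y.τ := eps_perm r y.τ π
  rw [h2]
  have h3 : ((eps r y.τ : ℤ) : ℂ) * ((eps r y.τ : ℤ) : ℂ) = 1 := by
    exact_mod_cast eps_sq hr y.inj
  have h4 : ((Equiv.Perm.sign π : ℤ) : ℂ) * ((Equiv.Perm.sign π : ℤ) : ℂ) = 1 := by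
    rcases Int.units_eq_one_or (Equiv.Perm.sign π) with h | h <;> rw [h] <;> simp
  push_cast
  linear_combination ((Equiv.Perm.sign π : ℤ) : ℂ) * ((Equiv.Perm.sign π : ℤ) : ℂ) * h y * h3 + h y * h4

lemma Phi_inj {f : E (RACG L) (Finset V)} (hf : f ∈ Ch L (Racg.gen L) Finset.univ i) (h0 : Phi L i hr f = 0) :
    f = 0 := by
  ext x
  by_contra hx
  obtain ⟨_, h1, h2⟩ := hf.1 x hx
  have h3 : Phi L i hr f (enu ⟨x, h2, h1⟩) = 0 := by rw [h0]; rfl
  rw [Phi_apply, im_enu] at h3
  have h5 : ((eps r (enu (⟨x, h2, h1⟩ : FCl L i)).τ : ℤ) : ℂ) ≠ 0 := by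
    intro h6
    have h7 : ((eps r (enu (⟨x, h2, h1⟩ : FCl L i)).τ : ℤ) : ℂ) * ((eps r (enu (⟨x, h2, h1⟩ : FCl L i)).τ : ℤ) : ℂ) = 1 := by
      exact_mod_cast eps_sq hr (enu (⟨x, h2, h1⟩ : FCl L i)).inj
    rw [h6, zero_mul] at h7
    exact zero_ne_one h7
  exact hx ((mul_eq_zero.1 h3).resolve_left h5)

lemma map_Phi_Ch : (Ch L (Racg.gen L) Finset.univ i).map
    ((Phi L i hr : L2 (RACG L × Finset V) →L[ℂ] L2 (TCell L i)) : L2 (RACG L × Finset V) →ₗ[ℂ] L2 (TCell L i)) =
      TCh L i := by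
  refine le_antisymm ?_ fun h hh => ⟨Psi L i hr h, Psi_mem hr hh, Phi_Psi hr hh⟩
  rintro _ ⟨f, hf, rfl⟩
  exact Phi_mem hr hf

include hr in
lemma eps_cell {z : TCell L (i + 1)} : ((eps r z.τ : ℤ) : ℂ) =
    sg r (z.τ 0) (Finset.univ.image z.tail.τ) * ((eps r z.tail.τ : ℤ) : ℂ) := by
  rw [eps_succ]
  push_cast
  have h := prod_sign hr (τ := z.tail.τ) z.tail.inj (v := z.τ 0) (fun b hb => by
    have h1 : b.succ = 0 := z.inj hb
    exact Fin.succ_ne_zero _ h1)
  push_cast at h
  rw [← h]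
  rfl

lemma im_eq (y : TCell L i) : y.im = (y.w, Finset.univ.image y.τ) := by
  refine Prod.ext rfl ?_
  ext v
  constructor
  · intro h
    obtain ⟨a, ha⟩ := exists_of_mem_im h
    exact Finset.mem_image.2 ⟨a, Finset.mem_univ _, ha⟩
  · intro h
    obtain ⟨a, _, ha⟩ := Finset.mem_image.1 h
    rw [← ha]
    exact mem_im a y

lemma im_tail (z : TCell L (i + 1)) : z.im = (z.tail.im.1, insert (z.τ 0) z.tail.im.2) := by
  rw [im_eq, im_eq]
  refine Prod.ext rfl ?_
  ext v
  simp only [Finset.mem_image, Finset.mem_univ, true_and, Finset.mem_insert, TCell.tail_τ]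
  constructor
  · rintro ⟨a, ha⟩
    induction a using Fin.cases with
    | zero => exact Or.inl ha.symm
    | succ a => exact Or.inr ⟨a, ha⟩
  · rintro (h | ⟨a, ha⟩)
    · exact ⟨0, h.symm⟩
    · exact ⟨a.succ, ha⟩

lemma TDD_Phi {f : E (RACG L) (Finset V)} (hf : f ∈ Ch L (Racg.gen L) Finset.univ (i + 1)) :
    TDD L (Phi L (i + 1) hr f) = Phi L i hr (D r f) := by
  ext y
  rw [Phi_apply]
  unfold TDD
  rw [psf_apply]
  have h0 : D r f y.im = ∑ v ∈ (y.im.2)ᶜ, sg r v y.im.2 * f (y.im.1, insert v y.im.2) := D_apply r f y.im.1 y.im.2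
  rw [h0, Finset.mul_sum]
  refine Finset.sum_bij_ne_zero (fun z _ _ => z.τ 0) ?_ ?_ ?_ ?_
  · intro z hz _
    have hz' : z.tail = y := ((TCell.fibre (L := L) (j := i)).fin y).mem_toFinset.1 hz
    rw [Finset.mem_compl, ← hz']
    intro h
    obtain ⟨a, ha⟩ := exists_of_mem_im h
    have h1 : a.succ = 0 := z.inj ha
    exact Fin.succ_ne_zero _ h1
  · intro z hz _ z' hz' _ h
    have h1 : z.tail = y := ((TCell.fibre (L := L) (j := i)).fin y).mem_toFinset.1 hz
    have h2 : z'.tail = y := ((TCell.fibre (L := L) (j := i)).fin y).mem_toFinset.1 hz'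
    have h3 : z.tail = z'.tail := h1.trans h2.symm
    refine TCell.ext (congrArg (fun y : TCell L i => y.w) h3) (funext fun a => ?_)
    induction a using Fin.cases with
    | zero => exact h
    | succ a => exact congrFun (congrArg (fun y : TCell L i => y.τ) h3) a
  · intro v hv h
    have h1 : f (y.im.1, insert v y.im.2) ≠ 0 := fun h' => h (by rw [h', mul_zero, mul_zero])
    obtain ⟨_, h2, h3⟩ := hf.1 _ h1
    have hv' : v ∉ y.im.2 := Finset.mem_compl.1 hv
    have hadj : ∀ a, L.Adj v (y.τ a) := fun a =>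
      h3 (Finset.mem_coe.2 (Finset.mem_insert_self _ _))
        (Finset.mem_coe.2 (Finset.mem_insert_of_mem (mem_im a y))) fun h' => hv' (h' ▸ mem_im a y)
    let z : TCell L (i + 1) := ⟨y.w, Fin.cons v y.τ, fun a b hab => by
      induction a using Fin.cases with
      | zero =>
        induction b using Fin.cases with
        | zero => exact absurd rfl hab
        | succ b => exact hadj b
      | succ a =>
        induction b using Fin.cases with
        | zero => exact (hadj a).symm
        | succ b => exact y.adj a b fun h' => hab (by rw [h'])⟩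
    have hz : z.tail = y := rfl
    refine ⟨z, ((TCell.fibre (L := L) (j := i)).fin y).mem_toFinset.2 hz, ?_, rfl⟩
    rw [Phi_apply, im_tail, hz]
    have h5 : ((eps r z.τ : ℤ) : ℂ) ≠ 0 := by
      intro h6
      have h7 : ((eps r z.τ : ℤ) : ℂ) * ((eps r z.τ : ℤ) : ℂ) = 1 := by
        exact_mod_cast eps_sq hr z.inj
      rw [h6, zero_mul] at h7
      exact zero_ne_one h7
    exact mul_ne_zero h5 h1
  · intro z hz _
    have hz' : z.tail = y := ((TCell.fibre (L := L) (j := i)).fin y).mem_toFinset.1 hz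
    rw [Phi_apply, im_tail, eps_cell hr, hz']
    have h1 : y.im.2 = Finset.univ.image y.τ := congrArg Prod.snd (im_eq y)
    rw [h1]
    ring

lemma map_Phi_Cy : (Cy r L (Racg.gen L) Finset.univ (i + 1)).map
    ((Phi L (i + 1) hr : L2 (RACG L × Finset V) →L[ℂ] L2 (TCell L (i + 1))) :
      L2 (RACG L × Finset V) →ₗ[ℂ] L2 (TCell L (i + 1))) = TCyc L i := by
  refine le_antisymm ?_ ?_
  · rintro _ ⟨f, hf, rfl⟩
    refine ⟨Phi_mem hr hf.1, ?_⟩
    show TDD L (Phi L (i + 1) hr f) = 0
    rw [TDD_Phi hr hf.1]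
    have h1 : D r f = 0 := hf.2
    rw [h1, map_zero]
  · rintro h ⟨hh, hk⟩
    refine ⟨Psi L (i + 1) hr h, ⟨Psi_mem hr hh, ?_⟩, Phi_Psi hr hh⟩
    show D r (Psi L (i + 1) hr h) = 0
    refine Phi_inj hr (D_mem_Ch r L (Racg.gen L) (Psi_mem hr hh)) ?_
    rw [← TDD_Phi hr (Psi_mem hr hh), Phi_Psi hr hh]
    exact hk

include hr in
lemma vd_TCh : vd (RACG L) (TCh L i) = vdim (Ch L (Racg.gen L) Finset.univ i) := by
  rw [← map_Phi_Ch (L := L) (i := i) hr, vd_map_of_injective (equi_Phi hr), vd_fc (mdl_Ch L _ _ _).inv]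
  · exact ⟨(mdl_Ch L (Racg.gen L) Finset.univ i).inv, (mdl_Ch L (Racg.gen L) Finset.univ i).cl⟩
  · exact fun f hf h0 => Phi_inj hr hf h0

include hr in
lemma vd_TCyc : vd (RACG L) (TCyc L i) = vdim (Cy r L (Racg.gen L) Finset.univ (i + 1)) := by
  rw [← map_Phi_Cy (L := L) (i := i) hr, vd_map_of_injective (equi_Phi hr), vd_fc (mdl_Cy r L _ _ _).inv]
  · exact ⟨(mdl_Cy r L (Racg.gen L) Finset.univ (i + 1)).inv, (mdl_Cy r L (Racg.gen L) Finset.univ (i + 1)).cl⟩
  · exact fun f hf h0 => Phi_inj hr hf.1 h0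

omit [DecidableEq V] in
lemma equi_TDD : Equi (RACG L) (TDD L : L2 (TCell L (i + 1)) →L[ℂ] L2 (TCell L i)) :=
  Equi.adjoint fun g f => by
    ext z
    rfl

omit [DecidableEq V] in
lemma mdl_TCh : Mdl (RACG L) (TCh L i) := by
  classical
  constructor
  · rw [← map_Phi_Ch (L := L) (i := i) (rk_inj (V := V))]
    exact (show Inv (Y := RACG L × Finset V) (RACG L) (Ch L (Racg.gen L) Finset.univ i) from
      (mdl_Ch L (Racg.gen L) Finset.univ i).inv).map (equi_Phi rk_inj)
  · have h1 : (TCh L i : Set (L2 (TCell L i))) =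
        (⋂ π : Equiv.Perm (Fin i), {f | TPm L π f = ((Equiv.Perm.sign π : ℤ) : ℂ) • f}) ∩
          ⋂ a : Fin i, {f | TMi L a f = -f} := by
      ext f
      rw [Set.mem_inter_iff, Set.mem_iInter, Set.mem_iInter]
      exact Iff.rfl
    rw [h1]
    refine IsClosed.inter (isClosed_iInter fun π => ?_) (isClosed_iInter fun a => ?_)
    · exact isClosed_eq (TPm L π).continuous (continuous_const_smul _)
    · exact isClosed_eq (TMi L a).continuous continuous_neg

omit [DecidableEq V] in
lemma vd_TBd : vd (RACG L) (TBd L i) = vd (RACG L) (TCh L (i + 1)) - vd (RACG L) (TCyc L i) := by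
  unfold TBd
  rw [vd_closure]
  have h := vd_map_add (equi_TDD (L := L) (i := i)) (mdl_TCh (L := L) (i := i + 1))
  unfold TCyc
  linarith

omit [DecidableEq V] in
/-- **the comparison** -/
theorem tbet_eq_bet [DecidableEq V] (i : ℕ) : tbet L i = bet L i := by
  have hr : Function.Injective (rk : V → ℕ) := rk_inj
  cases i with
  | zero =>
    show vd (RACG L) (TCh L 0) - vd (RACG L) (TBd L 0) =
      vdim (Cy rk L (Racg.gen L) Finset.univ 0) - vdim (Bd rk L (Racg.gen L) Finset.univ 0)
    rw [vd_TBd, vd_TCh hr, vd_TCh hr, vd_TCyc hr, vdim_Bd, Cy_zero]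
  | succ i =>
    show vd (RACG L) (TCyc L i) - vd (RACG L) (TBd L (i + 1)) =
      vdim (Cy rk L (Racg.gen L) Finset.univ (i + 1)) - vdim (Bd rk L (Racg.gen L) Finset.univ (i + 1))
    rw [vd_TBd, vd_TCh hr, vd_TCyc hr, vd_TCyc hr, vdim_Bd]

end phi

end Npc
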