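import Pool.Agent.Npc.Asm
import Pool.Agent.Npc.FinOf
import Pool.Agent.Npc.Res
import Pool.Agent.Npc.Tup

/-!
# NPC cube complexes: the final theorem
-/

set_option autoImplicit false
set_option linter.unusedSectionVars false
set_option linter.unusedVariables false

namespace Npc

open Singer SingerChess

/-- the `ℓ²`-Betti numbers of a group which acts freely and cocompactly on a `CAT(0)` cube complex are bounded by the sum,
over the orbits of vertices, of the `ℓ²`-Betti numbers of the right-angled Coxeter groups of the links -/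
theorem betti_le {X Γ : Type} [Group Γ] [MulAction Γ X] {𝔛 : SimpleGraph X} (h𝔛 : Median 𝔛)
    (hΓ : ∀ (g : Γ) (x y : X), 𝔛.Adj (g • x) (g • y) ↔ 𝔛.Adj x y) (free : ∀ (g : Γ) (x : X), g • x = x → g = 1)
    (F : Finset X) (hF : ∀ x : X, ∃ g : Γ, ∃ f ∈ F, g • f = x) [∀ x, Fintype (𝔛.neighborSet x)] [DecidableEq X]
    {r : X → ℕ} (hr : Function.Injective r) (R : FinRes Γ) (i : ℕ) :
    R.betti i ≤ ∑ x ∈ F, davisBetti (fun y : 𝔛.neighborSet x => r y) (linkG 𝔛 x) i :=
  le_of_rows (fun _ _ _ _ h i => pbet_le_sum h i) (fun _ _ _ _ h R i => Npc.betti_eq h R i)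
    (fun L i => tbet_eq_bet (L := L) i) h𝔛 hΓ free F hF hr R i

end Npc
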