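import Pool.Agent.Npc.Cells
import Pool.Agent.Npc.Fib

/-!
# NPC cube complexes: operators on the chains

`Tl i x`, `Mi i`, `Gl i`, `Pm π` on `L2 (Cell S F j)`, `DD : L2 (Cell S F (j + 1)) →L L2 (Cell S F j)`,
`ind A` = multiplication by the indicator function of the set `A`, `La t x` = translation of the label of `t`.
-/

set_option autoImplicit false
set_option linter.unusedSectionVars false
set_option linter.unusedVariables false

open scoped ComplexConjugate InnerProductSpace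
open Filter Topology

namespace Npc

open Singer

/-! ### multiplication by indicator functions -/

section ind
variable {Y Z : Type*}

open Classical in
/-- multiplication by the indicator function of `A` -/
noncomputable def ind (A : Set Y) : L2 Y →L[ℂ] L2 Y :=
  mul (fun y => if y ∈ A then 1 else 0) (fun y => by split_ifs <;> simp)

open Classical in
lemma ind_apply (A : Set Y) (f : L2 Y) (y : Y) : ind A f y = if y ∈ A then f y else 0 := by
  unfold ind
  rw [mul_apply]
  split_ifs <;> simp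

lemma ind_mem {A : Set Y} {y : Y} (h : y ∈ A) (f : L2 Y) : ind A f y = f y := by
  rw [ind_apply, if_pos h]

lemma ind_notMem {A : Set Y} {y : Y} (h : y ∉ A) (f : L2 Y) : ind A f y = 0 := by
  rw [ind_apply, if_neg h]

lemma ind_ind (A B : Set Y) (f : L2 Y) : ind A (ind B f) = ind (A ∩ B) f := by
  classical
  ext y
  rw [ind_apply, ind_apply, ind_apply]
  by_cases h1 : y ∈ A <;> by_cases h2 : y ∈ B <;> simp [h1, h2]

lemma ind_add {A B : Set Y} (h : Disjoint A B) (f : L2 Y) : ind (A ∪ B) f = ind A f + ind B f := by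
  classical
  ext y
  rw [lp.coeFn_add, Pi.add_apply, ind_apply, ind_apply, ind_apply]
  by_cases h1 : y ∈ A
  · have h2 : y ∉ B := fun h2 => (Set.disjoint_left.1 h) h1 h2
    simp [h1, h2]
  · simp [h1]

lemma ind_eq_self {A : Set Y} {f : L2 Y} : ind A f = f ↔ ∀ y, f y ≠ 0 → y ∈ A := by
  classical
  constructor
  · intro h y hy
    by_contra hA
    rw [← h, ind_notMem hA] at hy
    exact hy rfl
  · intro h
    ext y
    by_cases hA : y ∈ A
    · rw [ind_mem hA]
    · rw [ind_notMem hA]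
      by_contra h1
      exact hA (h y (Ne.symm h1))

lemma inner_ind (A : Set Y) (f g : L2 Y) : ⟪ind A f, g⟫_ℂ = ⟪f, ind A g⟫_ℂ := by
  rw [inner_eq, inner_eq]
  congr 1
  funext y
  by_cases hy : y ∈ A
  · rw [ind_mem hy, ind_mem hy]
  · rw [ind_notMem hy, ind_notMem hy]
    simp

lemma ind_pull {p : Y → Z} (hp : Function.Injective p) (A : Set Z) (f : L2 Z) :
    pull p hp (ind A f) = ind (p ⁻¹' A) (pull p hp f) := by
  classical
  ext y
  rw [pull_apply, ind_apply, ind_apply, pull_apply]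
  rfl

/-- indicator functions and sums over fibres -/
lemma ind_psf {r : Z → Y} {M : ℕ} (h : Fibre r M) (A : Set Y) (f : L2 Z) :
    ind A (psf h f) = psf h (ind (r ⁻¹' A) f) := by
  classical
  ext y
  rw [ind_apply, psf_apply, psf_apply]
  by_cases hy : y ∈ A
  · rw [if_pos hy]
    refine Finset.sum_congr rfl fun z hz => ?_
    have hz' : r z = y := (h.fin y).mem_toFinset.1 hz
    rw [ind_mem]
    show r z ∈ A
    rwa [hz']
  · rw [if_neg hy]
    refine (Finset.sum_eq_zero fun z hz => ?_).symm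
    have hz' : r z = y := (h.fin y).mem_toFinset.1 hz
    rw [ind_notMem]
    show r z ∉ A
    rwa [hz']

end ind

section ops
variable {H P G : Type*} [Group G] [MulAction G H] [MulAction G P]
variable (S : Sys H P G) (F : Type*) [AddCommGroup F] {j : ℕ}

/-- translation of the label of the letter `i` -/
noncomputable def Tl (i : Fin j) (x : F) : L2 (Cell S F j) →L[ℂ] L2 (Cell S F j) :=
  pull (Cell.tl i x) (Function.LeftInverse.injective (g := Cell.tl i (-x))
    fun y => by rw [Cell.tl_tl, neg_add_cancel, Cell.tl_zero])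

/-- the mirror move -/
noncomputable def Mi (i : Fin j) : L2 (Cell S F j) →L[ℂ] L2 (Cell S F j) :=
  pull (Cell.mi i) (Function.LeftInverse.injective (g := Cell.mi i) (Cell.mi_mi i))

/-- the glue move -/
noncomputable def Gl (i : Fin j) : L2 (Cell S F j) →L[ℂ] L2 (Cell S F j) :=
  pull (Cell.gl i) (Function.LeftInverse.injective (g := Cell.gl i) (Cell.gl_gl i))

/-- permutation of the letters -/
noncomputable def Pm (π : Equiv.Perm (Fin j)) : L2 (Cell S F j) →L[ℂ] L2 (Cell S F j) :=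
  pull (Cell.pm π) (Function.LeftInverse.injective (g := Cell.pm π⁻¹)
    fun y => by rw [Cell.pm_pm, mul_inv_cancel, Cell.pm_one])

lemma fibre_tail : Fibre (Cell.tail : Cell S F (j + 1) → Cell S F j) S.bd :=
  ⟨fun y => (Cell.ncard_tail y).1, fun y => (Cell.ncard_tail y).2⟩

/-- the boundary operator: the sum over the insertions of a letter in front -/
noncomputable def DD : L2 (Cell S F (j + 1)) →L[ℂ] L2 (Cell S F j) := psf (fibre_tail S F)

/-- left translation of the label of `t` -/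
noncomputable def lt (t : H) (x : F) (y : Cell S F j) : Cell S F j := ⟨eA t x * y.n, y.k, y.τ, y.dir, y.adj⟩

variable {S F}

lemma lt_lt (t : H) (x x' : F) (y : Cell S F j) : lt S F t x (lt S F t x' y) = lt S F t (x + x') y := by
  refine Cell.ext ?_ rfl rfl
  show eA t x * (eA t x' * y.n) = eA t (x + x') * y.n
  rw [eA_add, mul_assoc]

@[simp] lemma lt_zero (t : H) (y : Cell S F j) : lt S F t 0 y = y := by
  refine Cell.ext ?_ rfl rfl
  show eA t 0 * y.n = y.n
  rw [eA_zero, one_mul]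

variable (S F)

/-- translation of the label of the hyperplane `t` -/
noncomputable def La (t : H) (x : F) : L2 (Cell S F j) →L[ℂ] L2 (Cell S F j) :=
  pull (lt S F t x) (Function.LeftInverse.injective (g := lt S F t (-x))
    fun y => by rw [lt_lt, neg_add_cancel, lt_zero])

variable {S F}

@[simp] lemma Tl_apply (i : Fin j) (x : F) (f : L2 (Cell S F j)) (y : Cell S F j) : Tl S F i x f y = f (y.tl i x) := rfl
@[simp] lemma Mi_apply (i : Fin j) (f : L2 (Cell S F j)) (y : Cell S F j) : Mi S F i f y = f (y.mi i) := rfl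
@[simp] lemma Gl_apply (i : Fin j) (f : L2 (Cell S F j)) (y : Cell S F j) : Gl S F i f y = f (y.gl i) := rfl
@[simp] lemma Pm_apply (π : Equiv.Perm (Fin j)) (f : L2 (Cell S F j)) (y : Cell S F j) :
    Pm S F π f y = f (y.pm π) := rfl
@[simp] lemma La_apply (t : H) (x : F) (f : L2 (Cell S F j)) (y : Cell S F j) : La S F t x f y = f (lt S F t x y) := rfl

lemma DD_apply (f : L2 (Cell S F (j + 1))) (y : Cell S F j) :
    DD S F f y = ∑ z ∈ ((fibre_tail S F).fin y).toFinset, f z := psf_apply _ f y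

lemma mem_fib {y : Cell S F j} {z : Cell S F (j + 1)} : z ∈ ((fibre_tail S F).fin y).toFinset ↔ z.tail = y :=
  (Set.Finite.mem_toFinset _)

/-! ### relations -/

lemma Tl_Tl (i : Fin j) (x x' : F) (f : L2 (Cell S F j)) : Tl S F i x (Tl S F i x' f) = Tl S F i (x + x') f := by
  ext y
  rw [Tl_apply, Tl_apply, Tl_apply, Cell.tl_tl, add_comm]

@[simp] lemma Tl_zero (i : Fin j) (f : L2 (Cell S F j)) : Tl S F i 0 f = f := by
  ext y
  rw [Tl_apply, Cell.tl_zero]

lemma Tl_comm (i i' : Fin j) (x x' : F) (f : L2 (Cell S F j)) :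
    Tl S F i x (Tl S F i' x' f) = Tl S F i' x' (Tl S F i x f) := by
  ext y
  rw [Tl_apply, Tl_apply, Tl_apply, Tl_apply, Cell.tl_comm]

lemma Tl_Mi (i i' : Fin j) (x : F) (f : L2 (Cell S F j)) : Tl S F i x (Mi S F i' f) = Mi S F i' (Tl S F i x f) := by
  ext y
  rw [Tl_apply, Mi_apply, Mi_apply, Tl_apply, Cell.tl_mi]

lemma Tl_Gl (i i' : Fin j) (x : F) (f : L2 (Cell S F j)) : Tl S F i x (Gl S F i' f) = Gl S F i' (Tl S F i x f) := by
  ext y
  rw [Tl_apply, Gl_apply, Gl_apply, Tl_apply, Cell.tl_gl]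

@[simp] lemma Mi_Mi (i : Fin j) (f : L2 (Cell S F j)) : Mi S F i (Mi S F i f) = f := by
  ext y
  rw [Mi_apply, Mi_apply, Cell.mi_mi]

@[simp] lemma Gl_Gl (i : Fin j) (f : L2 (Cell S F j)) : Gl S F i (Gl S F i f) = f := by
  ext y
  rw [Gl_apply, Gl_apply, Cell.gl_gl]

lemma Mi_comm {i i' : Fin j} (h : i ≠ i') (f : L2 (Cell S F j)) :
    Mi S F i (Mi S F i' f) = Mi S F i' (Mi S F i f) := by
  ext y
  rw [Mi_apply, Mi_apply, Mi_apply, Mi_apply, Cell.mi_comm h]

lemma Gl_Mi {i i' : Fin j} (h : i ≠ i') (f : L2 (Cell S F j)) :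
    Gl S F i (Mi S F i' f) = Mi S F i' (Gl S F i f) := by
  ext y
  rw [Gl_apply, Mi_apply, Mi_apply, Gl_apply, Cell.gl_mi h]

lemma Gl_comm {i i' : Fin j} (h : i ≠ i') (f : L2 (Cell S F j)) :
    Gl S F i (Gl S F i' f) = Gl S F i' (Gl S F i f) := by
  ext y
  rw [Gl_apply, Gl_apply, Gl_apply, Gl_apply, Cell.gl_comm h]

lemma Pm_Pm (π ρ : Equiv.Perm (Fin j)) (f : L2 (Cell S F j)) : Pm S F π (Pm S F ρ f) = Pm S F (π * ρ) f := rfl

@[simp] lemma Pm_one (f : L2 (Cell S F j)) : Pm S F 1 f = f := rfl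

lemma Tl_Pm (i : Fin j) (x : F) (π : Equiv.Perm (Fin j)) (f : L2 (Cell S F j)) :
    Tl S F (π i) x (Pm S F π f) = Pm S F π (Tl S F i x f) := rfl

lemma Mi_Pm (i : Fin j) (π : Equiv.Perm (Fin j)) (f : L2 (Cell S F j)) :
    Mi S F (π i) (Pm S F π f) = Pm S F π (Mi S F i f) := rfl

lemma Gl_Pm (i : Fin j) (π : Equiv.Perm (Fin j)) (f : L2 (Cell S F j)) :
    Gl S F (π i) (Pm S F π f) = Pm S F π (Gl S F i f) := rfl

lemma DD_Tl (i : Fin j) (x : F) (f : L2 (Cell S F (j + 1))) : DD S F (Tl S F i.succ x f) = Tl S F i x (DD S F f) :=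
  psf_pull (fibre_tail S F) (p := Cell.tl i.succ x) (q := Cell.tl i.succ (-x)) (p' := Cell.tl i x)
    (q' := Cell.tl i (-x)) (fun y => by rw [Cell.tl_tl, add_neg_cancel, Cell.tl_zero])
    (fun y => by rw [Cell.tl_tl, neg_add_cancel, Cell.tl_zero])
    (fun y => by rw [Cell.tl_tl, add_neg_cancel, Cell.tl_zero])
    (fun y => by rw [Cell.tl_tl, neg_add_cancel, Cell.tl_zero]) (fun y => rfl) f

lemma DD_Mi (i : Fin j) (f : L2 (Cell S F (j + 1))) : DD S F (Mi S F i.succ f) = Mi S F i (DD S F f) :=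
  psf_pull (fibre_tail S F) (p := Cell.mi i.succ) (q := Cell.mi i.succ) (p' := Cell.mi i)
    (q' := Cell.mi i) (Cell.mi_mi _) (Cell.mi_mi _) (Cell.mi_mi _) (Cell.mi_mi _) (fun y => rfl) f

lemma DD_Gl (i : Fin j) (f : L2 (Cell S F (j + 1))) : DD S F (Gl S F i.succ f) = Gl S F i (DD S F f) :=
  psf_pull (fibre_tail S F) (p := Cell.gl i.succ) (q := Cell.gl i.succ) (p' := Cell.gl i)
    (q' := Cell.gl i) (Cell.gl_gl _) (Cell.gl_gl _) (Cell.gl_gl _) (Cell.gl_gl _) (fun y => rfl) f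

lemma ex_inv (π : Equiv.Perm (Fin j)) : (Cell.ex π)⁻¹ = Cell.ex π⁻¹ := by
  rw [inv_eq_iff_mul_eq_one]
  ext1 i
  refine Fin.cases ?_ (fun i => ?_) i
  · rw [Equiv.Perm.mul_apply, Cell.ex_zero, Cell.ex_zero]
    rfl
  · rw [Equiv.Perm.mul_apply, Cell.ex_succ, Cell.ex_succ]
    simp

lemma DD_Pm (π : Equiv.Perm (Fin j)) (f : L2 (Cell S F (j + 1))) :
    DD S F (Pm S F (Cell.ex π) f) = Pm S F π (DD S F f) :=
  psf_pull (fibre_tail S F) (p := Cell.pm (Cell.ex π)) (q := Cell.pm (Cell.ex π)⁻¹) (p' := Cell.pm π)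
    (q' := Cell.pm π⁻¹) (fun y => by rw [Cell.pm_pm, inv_mul_cancel, Cell.pm_one])
    (fun y => by rw [Cell.pm_pm, mul_inv_cancel, Cell.pm_one])
    (fun y => by rw [Cell.pm_pm, inv_mul_cancel, Cell.pm_one])
    (fun y => by rw [Cell.pm_pm, mul_inv_cancel, Cell.pm_one]) (Cell.tail_pm π) f

lemma DD_La (t : H) (x : F) (f : L2 (Cell S F (j + 1))) : DD S F (La S F t x f) = La S F t x (DD S F f) :=
  psf_pull (fibre_tail S F) (p := lt S F t x) (q := lt S F t (-x)) (p' := lt S F t x)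
    (q' := lt S F t (-x)) (fun y => by rw [lt_lt, add_neg_cancel, lt_zero])
    (fun y => by rw [lt_lt, neg_add_cancel, lt_zero])
    (fun y => by rw [lt_lt, add_neg_cancel, lt_zero])
    (fun y => by rw [lt_lt, neg_add_cancel, lt_zero]) (fun y => rfl) f

/-- the two insertions may be exchanged -/
lemma DD_DD_swap (f : L2 (Cell S F (j + 2))) : DD S F (DD S F (Pm S F (Equiv.swap 0 1) f)) = DD S F (DD S F f) := by
  refine ext_inner_right ℂ fun u => ?_
  unfold DD psf
  rw [ContinuousLinearMap.adjoint_inner_left, ContinuousLinearMap.adjoint_inner_left,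
    ContinuousLinearMap.adjoint_inner_left, ContinuousLinearMap.adjoint_inner_left]
  have h1 : ∀ y : Cell S F (j + 2), Cell.pm (Equiv.swap 0 1) (Cell.pm (Equiv.swap 0 1) y) = y := fun y => by
    rw [Cell.pm_pm, Equiv.swap_mul_self, Cell.pm_one]
  refine (inner_pull (Cell.pm (Equiv.swap 0 1)) (Cell.pm (Equiv.swap 0 1)) h1 h1 f _).trans ?_
  refine congrArg (fun v => ⟪f, v⟫_ℂ) ?_
  ext y
  show u (Cell.tail (Cell.tail (Cell.pm (Equiv.swap 0 1) y))) = u (Cell.tail (Cell.tail y))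
  rw [Cell.tail_tail]

lemma La_Tl (t : H) (x : F) (i : Fin j) (x' : F) (f : L2 (Cell S F j)) :
    La S F t x (Tl S F i x' f) = Tl S F i x' (La S F t x f) := by
  ext y
  refine congrArg (f : Cell S F j → ℂ) (Cell.ext ?_ rfl rfl)
  show eA t x * y.n * eA (y.τ i) x' = eA t x * (y.n * eA (y.τ i) x')
  rw [mul_assoc]

lemma La_Mi (t : H) (x : F) (i : Fin j) (f : L2 (Cell S F j)) : La S F t x (Mi S F i f) = Mi S F i (La S F t x f) := by
  ext y
  refine congrArg (f : Cell S F j → ℂ) (Cell.ext ?_ rfl rfl)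
  show eA t x * y.n * sW (y.τ i) = eA t x * (y.n * sW (y.τ i))
  rw [mul_assoc]

lemma La_Gl (t : H) (x : F) (i : Fin j) (f : L2 (Cell S F j)) : La S F t x (Gl S F i f) = Gl S F i (La S F t x f) := by
  ext y
  refine congrArg (f : Cell S F j → ℂ) (Cell.ext ?_ rfl rfl)
  show eA t x * y.n * sW (y.τ i) = eA t x * (y.n * sW (y.τ i))
  rw [mul_assoc]

lemma La_Pm (t : H) (x : F) (π : Equiv.Perm (Fin j)) (f : L2 (Cell S F j)) :
    La S F t x (Pm S F π f) = Pm S F π (La S F t x f) := rfl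

/-- on the cells with `i`-th letter `t`, the two translations of the label agree -/
lemma tl_eq_lt (i : Fin j) (x : F) (y : Cell S F j) : y.tl i x = lt S F (y.τ i) x y := by
  refine Cell.ext ?_ rfl rfl
  show y.n * eA (y.τ i) x = eA (y.τ i) x * y.n
  rw [eA_comm]

end ops

end Npc
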