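import Pool.Agent.Npc.Loc
import Pool.Agent.Npc.Cofs

/-!
# Project NPC: restriction to pieces and extension by zero

Compatibility of `pull p`, `push p` with compositions with bijections (`pull_pce`, `push_pce`) and with sums over fibres
(`pull_psf`, `push_psf`); the chains of the constant states glued and mirrored (`mem_Ch_g`, `mem_Ch_m`).
-/

set_option autoImplicit false
set_option linter.unusedSectionVars false
set_option linter.unusedVariables false

open scoped ComplexConjugate InnerProductSpace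
open Filter Topology

namespace Npc

open Singer

section pce
variable {Y Y' Z Z' : Type*}

theorem pull_pce {p : Y' → Y} (hp : Function.Injective p) {a : Y → Y} (ha : Function.Injective a) {a' : Y' → Y'}
    (ha' : Function.Injective a') (h : ∀ y, a (p y) = p (a' y)) (f : L2 Y) :
    pull a' ha' (pull p hp f) = pull p hp (pull a ha f) := by
  ext y
  rw [pull_apply, pull_apply, pull_apply, pull_apply, h]

theorem push_pce {p : Y' → Y} (hp : Function.Injective p) {a : Y → Y} (ha : Function.Injective a) {a' : Y' → Y'}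
    (ha' : Function.Injective a') (h : ∀ y, a (p y) = p (a' y)) (h' : ∀ y, a y ∈ Set.range p → y ∈ Set.range p)
    (f : L2 Y') : pull a ha (push p hp f) = push p hp (pull a' ha' f) := by
  ext y
  by_cases hy : y ∈ Set.range p
  · obtain ⟨y', rfl⟩ := hy
    rw [pull_apply, h, push_apply, push_apply, pull_apply]
  · rw [pull_apply, push_apply_of_notMem _ _ _ hy, push_apply_of_notMem _ _ _ fun h1 => hy (h' y h1)]

variable {r : Z → Y} {r' : Z' → Y'} {M M' : ℕ} (hr : Fibre r M) (hr' : Fibre r' M')

theorem pull_psf {p : Y' → Y} (hp : Function.Injective p) {q : Z' → Z} (hq : Function.Injective q)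
    (h1 : ∀ z, r (q z) = p (r' z)) (h2 : ∀ z y', r z = p y' → ∃ z', q z' = z) (f : L2 Z) :
    pull p hp (psf hr f) = psf hr' (pull q hq f) := by
  ext y
  rw [pull_apply, psf_apply, psf_apply]
  refine (Finset.sum_bij (fun z _ => q z) ?_ ?_ ?_ ?_).symm
  · intro z hz
    rw [Set.Finite.mem_toFinset] at hz ⊢
    show r (q z) = p y
    have hz' : r' z = y := hz
    rw [h1, hz']
  · intro z _ z' _ h
    exact hq h
  · intro z hz
    rw [Set.Finite.mem_toFinset] at hz
    have hz' : r z = p y := hz
    obtain ⟨z', rfl⟩ := h2 z y hz'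
    refine ⟨z', ?_, rfl⟩
    rw [Set.Finite.mem_toFinset]
    show r' z' = y
    rw [h1] at hz'
    exact hp hz'
  · intro z _
    rfl

theorem push_psf {p : Y' → Y} (hp : Function.Injective p) {q : Z' → Z} (hq : Function.Injective q)
    (h1 : ∀ z, r (q z) = p (r' z)) (h2 : ∀ z y', r z = p y' → ∃ z', q z' = z) (f : L2 Z') :
    psf hr (push q hq f) = push p hp (psf hr' f) := by
  ext y
  by_cases hy : y ∈ Set.range p
  · obtain ⟨y', rfl⟩ := hy
    have h3 := congrArg (fun u : L2 Y' => u y') (pull_psf hr hr' hp hq h1 h2 (push q hq f))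
    simp only [pull_apply, pull_push] at h3
    rw [h3, push_apply]
  · rw [push_apply_of_notMem _ _ _ hy, psf_apply]
    refine Finset.sum_eq_zero fun z hz => ?_
    rw [Set.Finite.mem_toFinset] at hz
    have hz' : r z = y := hz
    refine push_apply_of_notMem _ _ _ ?_
    rintro ⟨z', rfl⟩
    exact hy ⟨r' z', by rw [← h1, hz']⟩

end pce

section const
variable {H P G : Type*} [Group G] [MulAction G H] [MulAction G P]
variable {S : Sys H P G} {F : Type*} [AddCommGroup F] [Fintype F] {j : ℕ}

theorem Gl_Ep (i : Fin j) (ψ : AddChar F ℂ) (f : L2 (Cell S F j)) : Gl S F i (Ep S F i ψ f) = Ep S F i ψ (Gl S F i f) :=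
  av_comm (fun x f => (Tl_Gl i i x f).symm) ψ f

theorem Mi_Ep (i : Fin j) (ψ : AddChar F ℂ) (f : L2 (Cell S F j)) : Mi S F i (Ep S F i ψ f) = Ep S F i ψ (Mi S F i f) :=
  av_comm (fun x f => (Tl_Mi i i x f).symm) ψ f

/-- the chains of the constant state glued -/
theorem mem_Ch_g {f : L2 (Cell S F j)} : f ∈ Ch S F j (fun _ => St.g) ↔
    (∀ π, Pm S F π f = sgn π • f) ∧ ∀ i, Gl S F i f = -f := by
  rw [mem_Ch]
  refine and_congr Iff.rfl (forall_congr' fun i => ⟨fun h => ?_, fun h ψ => ?_⟩)
  · have h1 : ∀ ψ, Gl S F i (Ep S F i ψ f) = -Ep S F i ψ f := fun ψ => by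
      have h2 := h ψ
      rw [rl_g, add_comm] at h2
      exact add_eq_zero_iff_eq_neg.1 h2
    calc Gl S F i f = Gl S F i (∑ ψ, Ep S F i ψ f) := by rw [sum_Ep]
      _ = ∑ ψ, -Ep S F i ψ f := by
        rw [map_sum]
        exact Finset.sum_congr rfl fun ψ _ => h1 ψ
      _ = -f := by rw [Finset.sum_neg_distrib, sum_Ep]
  · rw [rl_g, Gl_Ep, h, map_neg, add_neg_cancel]

/-- the chains of the constant state mirrored -/
theorem mem_Ch_m {f : L2 (Cell S F j)} : f ∈ Ch S F j (fun _ => St.m) ↔
    (∀ π, Pm S F π f = sgn π • f) ∧ ∀ i, Mi S F i f = -f := by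
  rw [mem_Ch]
  refine and_congr Iff.rfl (forall_congr' fun i => ⟨fun h => ?_, fun h ψ => ?_⟩)
  · have h1 : ∀ ψ, Mi S F i (Ep S F i ψ f) = -Ep S F i ψ f := fun ψ => by
      have h2 := h ψ
      rw [rl_m, add_comm] at h2
      exact add_eq_zero_iff_eq_neg.1 h2
    calc Mi S F i f = Mi S F i (∑ ψ, Ep S F i ψ f) := by rw [sum_Ep]
      _ = ∑ ψ, -Ep S F i ψ f := by
        rw [map_sum]
        exact Finset.sum_congr rfl fun ψ _ => h1 ψ
      _ = -f := by rw [Finset.sum_neg_distrib, sum_Ep]
  · rw [rl_m, Mi_Ep, h, map_neg, add_neg_cancel]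

end const

end Npc
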