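import Pool.Agent.Npc.Ex
import Pool.Agent.Npc.Cofs
import Pool.Agent.Singer.ToFin

/-!
# NPC cube complexes: the finite free resolution

`exists_res` : a group without elements of order two which acts freely on the vertices of the cube complex, with
finitely many orbits, has a resolution of finite length by finitely generated free modules.
-/

set_option autoImplicit false
set_option linter.unusedSectionVars false
set_option linter.unusedVariables false

namespace Npc

open Singer

universe u

/-! ### the moves -/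

section moves
variable {H P G : Type*} [Group G] [MulAction G H] [MulAction G P] {S : Sys H P G} {j : ℕ}

namespace PCell

instance lcGl : LeftCommutative (gl : Fin j → PCell S j → PCell S j) :=
  ⟨fun i i' y => by
    by_cases h : i = i'
    · rw [h]
    · exact gl_comm h y⟩

/-- the moves of a set of letters -/
def glA (A : Finset (Fin j)) (y : PCell S j) : PCell S j := A.val.foldr gl y

@[simp] lemma glA_empty (y : PCell S j) : glA ∅ y = y := Multiset.foldr_zero _ _

lemma glA_insert {i : Fin j} {A : Finset (Fin j)} (h : i ∉ A) (y : PCell S j) :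
    glA (insert i A) y = gl i (glA A y) := by
  unfold glA
  rw [Finset.insert_val_of_notMem h, Multiset.foldr_cons]

lemma gl_glA (i : Fin j) (A : Finset (Fin j)) (y : PCell S j) : gl i (glA A y) = glA (symmDiff {i} A) y := by
  by_cases h : i ∈ A
  · have h1 : symmDiff {i} A = A.erase i := by
      ext x
      simp only [Finset.mem_symmDiff, Finset.mem_singleton, Finset.mem_erase]
      constructor
      · rintro (⟨rfl, h2⟩ | ⟨h2, h3⟩)
        · exact absurd h h2
        · exact ⟨h3, h2⟩
      · rintro ⟨h2, h3⟩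
        exact Or.inr ⟨h3, h2⟩
    rw [h1]
    conv_lhs => rw [← Finset.insert_erase h, glA_insert (Finset.notMem_erase i A), gl_gl]
  · have h1 : symmDiff {i} A = insert i A := by
      ext x
      simp only [Finset.mem_symmDiff, Finset.mem_singleton, Finset.mem_insert]
      constructor
      · rintro (⟨h2, h3⟩ | ⟨h2, h3⟩)
        · exact Or.inl h2
        · exact Or.inr h2
      · rintro (h2 | h2)
        · exact Or.inl ⟨h2, by rw [h2]; exact h⟩
        · exact Or.inr ⟨h2, fun h3 => h (by rw [← h3]; exact h2)⟩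
    rw [h1, glA_insert h]

lemma glA_glA (A B : Finset (Fin j)) (y : PCell S j) : glA B (glA A y) = glA (symmDiff B A) y := by
  induction B using Finset.induction_on with
  | empty => rw [glA_empty, ← Finset.bot_eq_empty, bot_symmDiff]
  | insert i B h ih =>
    rw [glA_insert h, ih, gl_glA, ← symmDiff_assoc]
    congr 2
    ext x
    simp only [Finset.mem_symmDiff, Finset.mem_singleton, Finset.mem_insert]
    constructor
    · rintro (⟨h2, h3⟩ | ⟨h2, h3⟩)
      · exact Or.inl h2
      · exact Or.inr h2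
    · rintro (h2 | h2)
      · exact Or.inl ⟨h2, by rw [h2]; exact h⟩
      · exact Or.inr ⟨h2, fun h3 => h (by rw [← h3]; exact h2)⟩

lemma glA_self (A : Finset (Fin j)) (y : PCell S j) : glA A (glA A y) = y := by
  rw [glA_glA, symmDiff_self, Finset.bot_eq_empty, glA_empty]

lemma glA_pm (A : Finset (Fin j)) (π : Equiv.Perm (Fin j)) (y : PCell S j) :
    glA A (pm π y) = pm π (glA (A.map π.toEmbedding) y) := by
  induction A using Finset.induction_on with
  | empty => rw [Finset.map_empty, glA_empty, glA_empty]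
  | insert i A h ih =>
    rw [glA_insert h, ih, gl_pm, Finset.map_insert, glA_insert]
    · rfl
    · rw [Finset.mem_map_equiv]
      simpa using h

lemma glA_smul (A : Finset (Fin j)) (g : G) (y : PCell S j) : glA A (g • y) = g • glA A y := by
  induction A using Finset.induction_on with
  | empty => rw [glA_empty, glA_empty]
  | insert i A h ih => rw [glA_insert h, ih, smul_gl, glA_insert h]

lemma glA_τ (A : Finset (Fin j)) (y : PCell S j) : (glA A y).τ = y.τ := by
  induction A using Finset.induction_on with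
  | empty => rw [glA_empty]
  | insert i A h ih => rw [glA_insert h, gl_τ, ih]

lemma up_glA {x0 : P} {ht : P → ℕ} (hH : Ht S x0 ht) (A : Finset (Fin j)) (i : Fin j) (y : PCell S j) :
    Up ht i (glA A y) ↔ (Up ht i y ↔ i ∉ A) := by
  induction A using Finset.induction_on with
  | empty =>
    rw [glA_empty]
    simp
  | insert i' A h ih =>
    rw [glA_insert h]
    by_cases hi : i = i'
    · subst hi
      rw [up_gl_self hH, ih]
      simp only [h, not_false_eq_true, iff_true, Finset.mem_insert_self, not_true_eq_false, iff_false]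
    · rw [up_gl_ne hH hi, ih, Finset.mem_insert]
      simp only [hi, false_or]

lemma glA_k_inj {x0 : P} {ht : P → ℕ} (hH : Ht S x0 ht) (y : PCell S j) :
    Function.Injective fun A : Finset (Fin j) => (glA A y).k := by
  intro A B h
  have h1 : glA A y = glA B y := PCell.ext h (by rw [glA_τ, glA_τ])
  ext i
  have h2 := up_glA hH A i y
  rw [h1, up_glA hH B i y] at h2
  tauto

/-- the normal form of a move -/
def nf (x : G × Finset (Fin j) × Equiv.Perm (Fin j)) (y : PCell S j) : PCell S j := x.1 • pm x.2.2 (glA x.2.1 y)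

/-- the same orbit -/
def Con (y z : PCell S j) : Prop := ∃ x : G × Finset (Fin j) × Equiv.Perm (Fin j), z = nf x y

lemma gl_nf (i : Fin j) (g : G) (A : Finset (Fin j)) (π : Equiv.Perm (Fin j)) (y : PCell S j) :
    gl i (nf (g, A, π) y) = nf (g, symmDiff {π i} A, π) y := by
  unfold nf
  dsimp only
  rw [smul_gl, gl_pm, gl_glA]

lemma pm_nf (ρ : Equiv.Perm (Fin j)) (g : G) (A : Finset (Fin j)) (π : Equiv.Perm (Fin j)) (y : PCell S j) :
    pm ρ (nf (g, A, π) y) = nf (g, A, π * ρ) y := by
  unfold nf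
  dsimp only
  rw [smul_pm, pm_pm]

lemma smul_nf (h g : G) (A : Finset (Fin j)) (π : Equiv.Perm (Fin j)) (y : PCell S j) :
    h • nf (g, A, π) y = nf (h * g, A, π) y := by
  unfold nf
  dsimp only
  rw [mul_smul]

lemma Con.refl (y : PCell S j) : Con y y := ⟨(1, ∅, 1), by unfold nf; dsimp only; rw [glA_empty, pm_one, one_smul]⟩

lemma Con.gl {y z : PCell S j} (h : Con y z) (i : Fin j) : Con y (PCell.gl i z) := by
  obtain ⟨⟨g, A, π⟩, rfl⟩ := h
  exact ⟨_, gl_nf i g A π y⟩

lemma Con.pm {y z : PCell S j} (h : Con y z) (ρ : Equiv.Perm (Fin j)) : Con y (PCell.pm ρ z) := by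
  obtain ⟨⟨g, A, π⟩, rfl⟩ := h
  exact ⟨_, pm_nf ρ g A π y⟩

lemma Con.smul {y z : PCell S j} (h : Con y z) (g : G) : Con y (g • z) := by
  obtain ⟨⟨g', A, π⟩, rfl⟩ := h
  exact ⟨_, smul_nf g g' A π y⟩

lemma Con.glA {y z : PCell S j} (h : Con y z) (A : Finset (Fin j)) : Con y (PCell.glA A z) := by
  induction A using Finset.induction_on with
  | empty => rwa [glA_empty]
  | insert i A hi ih =>
    rw [glA_insert hi]
    exact ih.gl i

lemma Con.trans {y z w : PCell S j} (h : Con y z) (h' : Con z w) : Con y w := by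
  obtain ⟨⟨g, A, π⟩, rfl⟩ := h'
  exact ((h.glA A).pm π).smul g

lemma Con.symm {y z : PCell S j} (h : Con y z) : Con z y := by
  obtain ⟨⟨g, A, π⟩, rfl⟩ := h
  have h1 := (((Con.refl (nf (g, A, π) y)).smul g⁻¹).pm π⁻¹).glA A
  have h2 : PCell.glA A (PCell.pm π⁻¹ (g⁻¹ • nf (g, A, π) y)) = y := by
    unfold nf
    dsimp only
    rw [inv_smul_smul, pm_pm, mul_inv_cancel, pm_one, glA_self]
  rwa [h2] at h1

/-- the cubes, up to the action of the group -/
def setoid (S : Sys H P G) (j : ℕ) : Setoid (PCell S j) := ⟨Con, Con.refl, Con.symm, Con.trans⟩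

instance finite_qt [Cof G P] : Finite (Quotient (setoid S j)) := by
  refine Finite.of_surjective (fun q : Orb G (PCell S j) => Quotient.mk (setoid S j) q.out) ?_
  intro q
  induction q using Quotient.inductionOn with | h y => ?_
  obtain ⟨g, hg⟩ : ∃ g : G, g • y = (Quotient.mk'' y : Orb G (PCell S j)).out :=
    Quotient.mk_out (s := MulAction.orbitRel G (PCell S j)) y
  refine ⟨Quotient.mk'' y, Quotient.sound ?_⟩
  show Con (Quotient.mk'' y : Orb G (PCell S j)).out y
  rw [← hg]
  exact ((Con.refl y).smul g).symm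

lemma nf_symm {g : G} {A : Finset (Fin j)} {π : Equiv.Perm (Fin j)} {y : PCell S j} (h : nf (g, A, π) y = y) :
    nf (g⁻¹, A.map (π⁻¹).toEmbedding, π⁻¹) y = y := by
  have h1 : PCell.glA A (PCell.pm π⁻¹ (g⁻¹ • nf (g, A, π) y)) = y := by
    unfold nf
    dsimp only
    rw [inv_smul_smul, pm_pm, mul_inv_cancel, pm_one, glA_self]
  rw [h, glA_pm, glA_smul] at h1
  exact h1

/-- a group acting freely on a finite set with `2 ^ n` elements -/
lemma pow_eq_one_of_free {D T : Type*} [Group D] [MulAction D T] {n : ℕ} (hc : Nat.card T = 2 ^ n)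
    (hf : ∀ (g : D) (v : T), g • v = v → g = 1) (g : D) : g ^ 2 ^ n = 1 := by
  classical
  have hfin : Finite T := Nat.finite_of_card_ne_zero (by rw [hc]; positivity)
  have hne : Nonempty T := (Nat.card_pos_iff.1 (by rw [hc]; positivity)).1
  obtain ⟨v0⟩ := hne
  have hD : Finite D := Finite.of_injective (fun g : D => g • v0) fun g g' h => by
    have h1 : (g'⁻¹ * g) • v0 = v0 := by
      rw [mul_smul]
      exact inv_smul_eq_iff.2 h
    exact (inv_mul_eq_one.1 (hf _ _ h1)).symm
  let _ := Fintype.ofFinite D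
  let _ := Fintype.ofFinite T
  let _ := Fintype.ofFinite (Quotient (MulAction.orbitRel D T))
  have h1 := MulAction.sum_card_fixedBy_eq_card_orbits_mul_card_group D T
  rw [Finset.sum_eq_single (1 : D)] at h1
  · have h2 : Fintype.card (MulAction.fixedBy T (1 : D)) = Fintype.card T := by
      refine Fintype.card_congr (Equiv.subtypeUnivEquiv fun v => ?_)
      exact one_smul D v
    rw [h2, ← Nat.card_eq_fintype_card (α := T), hc] at h1
    exact orderOf_dvd_iff_pow_eq_one.1 ((orderOf_dvd_card).trans (Dvd.intro_left _ h1.symm))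
  · intro b _ hb
    rw [Fintype.card_eq_zero_iff]
    exact ⟨fun v => hb (hf b v.1 v.2)⟩
  · intro h
    exact absurd (Finset.mem_univ _) h

lemma eq_one_of_pow {D : Type*} [Group D] (hG : ∀ g : D, g * g = 1 → g = 1) (n : ℕ) {g : D} (h : g ^ 2 ^ n = 1) :
    g = 1 := by
  induction n with
  | zero => rwa [pow_zero, pow_one] at h
  | succ n ih =>
    refine ih (hG _ ?_)
    rw [← pow_add, ← two_mul, ← pow_succ']
    exact h

/-- the stabilizer of a cube is trivial -/
theorem stab {x0 : P} {ht : P → ℕ} (hH : Ht S x0 ht) (hG : ∀ g : G, g * g = 1 → g = 1) {g : G} {A : Finset (Fin j)}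
    {π : Equiv.Perm (Fin j)} {y : PCell S j} (h : nf (g, A, π) y = y) : g = 1 ∧ A = ∅ ∧ π = 1 := by
  classical
  -- the vertices of the cube
  let T : Set P := Set.range fun A : Finset (Fin j) => (glA A y).k
  have hT : ∀ (g : G) (A : Finset (Fin j)) (π : Equiv.Perm (Fin j)), nf (g, A, π) y = y → ∀ v ∈ T, g⁻¹ • v ∈ T := by
    rintro g A π h _ ⟨B, rfl⟩
    refine ⟨symmDiff (B.map π.toEmbedding) A, ?_⟩
    have h1 : glA B y = g • pm π (glA (symmDiff (B.map π.toEmbedding) A) y) := by
      conv_lhs => rw [← h]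
      unfold nf
      dsimp only
      rw [glA_smul, glA_pm, glA_glA]
    show (glA (symmDiff (B.map π.toEmbedding) A) y).k = g⁻¹ • (glA B y).k
    rw [h1, smul_k, inv_smul_smul, pm_k]
  let D : Subgroup G :=
    { carrier := {g | ∀ v, g • v ∈ T ↔ v ∈ T}
      mul_mem' := fun {a b} ha hb v => by
        rw [mul_smul]
        exact (ha _).trans (hb v)
      one_mem' := fun v => by rw [one_smul]
      inv_mem' := fun {a} ha v => by
        have := ha (a⁻¹ • v)
        rw [smul_inv_smul] at this
        exact this.symm }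
  have hgD : g ∈ D := by
    intro v
    constructor
    · intro hv
      have h1 := hT _ _ _ h _ hv
      rwa [inv_smul_smul] at h1
    · intro hv
      have h1 := hT _ _ _ (nf_symm h) _ hv
      rwa [inv_inv] at h1
  let _ : MulAction D T :=
    { smul := fun d v => ⟨(d : G) • (v : P), (d.2 v).2 v.2⟩
      one_smul := fun v => Subtype.ext (one_smul G (v : P))
      mul_smul := fun a b v => Subtype.ext (mul_smul (a : G) (b : G) (v : P)) }
  have hc : Nat.card T = 2 ^ j := by
    rw [← Nat.card_congr (Equiv.ofInjective _ (glA_k_inj hH y)), Nat.card_eq_fintype_card, Fintype.card_finset,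
      Fintype.card_fin]
  have h2 : (⟨g, hgD⟩ : D) ^ 2 ^ j = 1 := pow_eq_one_of_free hc (fun d v hv =>
    Subtype.ext (S.free (d : G) (v : P) (congrArg Subtype.val hv))) _
  have hg : g = 1 := eq_one_of_pow hG j (congrArg Subtype.val h2)
  subst hg
  have h3 : pm π (glA A y) = y := by
    unfold nf at h
    dsimp only at h
    rwa [one_smul] at h
  have hπ : π = 1 := by
    refine Equiv.ext fun i => y.τ_inj ?_
    have h4 : (pm π (glA A y)).τ i = y.τ i := by rw [h3]
    rw [pm_τ, glA_τ] at h4
    exact h4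
  subst hπ
  refine ⟨rfl, ?_, rfl⟩
  rw [pm_one] at h3
  refine glA_k_inj hH y ?_
  show (glA A y).k = (glA ∅ y).k
  rw [h3, glA_empty]

/-- the coordinates of the ordered cubes -/
theorem nf_bij {x0 : P} {ht : P → ℕ} (hH : Ht S x0 ht) (hG : ∀ g : G, g * g = 1 → g = 1) :
    Function.Bijective fun x : Quotient (setoid S j) × (G × Finset (Fin j) × Equiv.Perm (Fin j)) =>
      nf x.2 x.1.out := by
  classical
  constructor
  · rintro ⟨q, g, A, π⟩ ⟨q', g', A', π'⟩ h
    have h0 : nf (g, A, π) q.out = nf (g', A', π') q'.out := h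
    have hq : q = q' := by
      rw [← Quotient.out_eq q, ← Quotient.out_eq q']
      refine Quotient.sound ?_
      show Con q.out q'.out
      have h1 : Con q.out (nf (g, A, π) q.out) := ⟨_, rfl⟩
      have h2 : Con q'.out (nf (g, A, π) q.out) := ⟨_, h0⟩
      exact h1.trans h2.symm
    subst hq
    generalize q.out = y at h0
    have h1 : nf (g⁻¹ * g', symmDiff (A.map (π' * π⁻¹).toEmbedding) A', π' * π⁻¹) y = y := by
      have h2 : PCell.glA A (PCell.pm π⁻¹ (g⁻¹ • nf (g, A, π) y)) = y := by
        unfold nf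
        dsimp only
        rw [inv_smul_smul, pm_pm, mul_inv_cancel, pm_one, glA_self]
      rw [h0] at h2
      unfold nf at h2 ⊢
      dsimp only at h2 ⊢
      rw [← mul_smul, ← smul_pm, pm_pm, glA_pm, glA_smul, glA_glA, smul_pm] at h2
      exact h2
    obtain ⟨hg, hA, hπ⟩ := stab hH hG h1
    have hg' : g = g' := inv_mul_eq_one.1 hg
    have hπ' : π' = π := mul_inv_eq_one.1 hπ
    subst hg' hπ'
    rw [mul_inv_cancel] at hA
    have hA' : A.map (Equiv.toEmbedding (1 : Equiv.Perm (Fin j))) = A := Finset.map_refl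
    rw [hA', ← Finset.bot_eq_empty, symmDiff_eq_bot] at hA
    rw [hA]
  · intro z
    obtain ⟨x, hx⟩ : Con (Quotient.mk (setoid S j) z).out z := Quotient.mk_out (s := setoid S j) z
    exact ⟨(_, x), hx.symm⟩

lemma card_le (y : PCell S j) : j ≤ S.bd := by
  have h : Function.Injective fun i : Fin j => (⟨y.τ i, y.dir i⟩ : {t // t ∈ S.dir y.k}) := fun i i' h =>
    y.τ_inj (congrArg Subtype.val h)
  have h1 := Fintype.card_le_of_injective _ h
  rw [Fintype.card_fin, Fintype.card_coe] at h1
  exact h1.trans (S.card_dir _)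

/-- the sign of a move -/
def sg (x : G × Finset (Fin j) × Equiv.Perm (Fin j)) : ℤˣ := (-1) ^ x.2.1.card * Equiv.Perm.sign x.2.2

lemma sg_gl (i : Fin j) (g : G) (A : Finset (Fin j)) (π : Equiv.Perm (Fin j)) :
    sg (g, symmDiff {i} A, π) = -sg (g, A, π) := by
  unfold sg
  dsimp only
  rw [← neg_mul]
  congr 1
  by_cases h : i ∈ A
  · have h1 : symmDiff {i} A = A.erase i := by
      ext x
      simp only [Finset.mem_symmDiff, Finset.mem_singleton, Finset.mem_erase]
      constructor
      · rintro (⟨rfl, h2⟩ | ⟨h2, h3⟩)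
        · exact absurd h h2
        · exact ⟨h3, h2⟩
      · rintro ⟨h2, h3⟩
        exact Or.inr ⟨h3, h2⟩
    rw [h1]
    conv_rhs => rw [← Finset.card_erase_add_one h, pow_succ]
    simp
  · have h1 : symmDiff {i} A = insert i A := by
      ext x
      simp only [Finset.mem_symmDiff, Finset.mem_singleton, Finset.mem_insert]
      constructor
      · rintro (⟨h2, h3⟩ | ⟨h2, h3⟩)
        · exact Or.inl h2
        · exact Or.inr h2
      · rintro (h2 | h2)
        · exact Or.inl ⟨h2, by rw [h2]; exact h⟩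
        · exact Or.inr ⟨h2, fun h3 => h (by rw [← h3]; exact h2)⟩
    rw [h1, Finset.card_insert_of_notMem h, pow_succ]
    simp

lemma sg_pm (ρ : Equiv.Perm (Fin j)) (g : G) (A : Finset (Fin j)) (π : Equiv.Perm (Fin j)) :
    sg (g, A, π * ρ) = Equiv.Perm.sign ρ * sg (g, A, π) := by
  unfold sg
  dsimp only
  rw [Equiv.Perm.sign_mul]
  exact (mul_assoc _ _ _).symm.trans (mul_comm _ _)

lemma al_glA {M : Type*} [AddCommGroup M] {f : PCell S j → M} (hf : Al f) (A : Finset (Fin j)) (y : PCell S j) :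
    f (glA A y) = ((-1 : ℤˣ) ^ A.card) • f y := by
  induction A using Finset.induction_on with
  | empty => rw [glA_empty, Finset.card_empty, pow_zero, one_smul]
  | insert i A h ih =>
    rw [glA_insert h, hf.gl, ih, Finset.card_insert_of_notMem h, pow_succ', mul_smul, Units.smul_def (-1 : ℤˣ)]
    simp

lemma al_nf {M : Type*} [AddCommGroup M] {f : PCell S j → M} (hf : Al f)
    (x : G × Finset (Fin j) × Equiv.Perm (Fin j)) (y : PCell S j) : f (nf x y) = sg x • f (x.1 • y) := by
  unfold nf sg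
  rw [← smul_pm, hf.alt, ← glA_smul, al_glA hf, smul_smul, mul_comm]

end PCell

end moves

/-! ### the chains in coordinates -/

section coord
variable {G : Type u} {H P : Type*} [Group G] [MulAction G H] [MulAction G P] {S : Sys H P G} {j : ℕ}

open PCell

/-- coordinates of the ordered cubes -/
structure Crd (S : Sys H P G) (j : ℕ) where
  κ : Type u
  ft : Fintype κ
  t : κ → PCell S j
  e : (κ × (G × Finset (Fin j) × Equiv.Perm (Fin j))) ≃ PCell S j
  e_apply : ∀ o x, e (o, x) = nf x (t o)
  emp : S.bd < j → IsEmpty κ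

attribute [instance] Crd.ft

theorem exists_crd [Cof G P] {x0 : P} {ht : P → ℕ} (hH : Ht S x0 ht) (hG : ∀ g : G, g * g = 1 → g = 1) (j : ℕ) :
    Nonempty (Crd S j) := by
  classical
  let _ : Fintype (Quotient (setoid S j)) := Fintype.ofFinite _
  let c : Quotient (setoid S j) ≃ ULift.{u} (Fin (Fintype.card (Quotient (setoid S j)))) :=
    (Fintype.equivFin _).trans Equiv.ulift.symm
  refine ⟨{
    κ := ULift.{u} (Fin (Fintype.card (Quotient (setoid S j))))
    ft := inferInstance
    t := fun o => (c.symm o).out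
    e := (Equiv.prodCongr c.symm (Equiv.refl _)).trans (Equiv.ofBijective _ (nf_bij hH hG))
    e_apply := fun o x => rfl
    emp := fun h => ⟨fun o => ?_⟩ }⟩
  have h1 := card_le (c.symm o).out
  omega

variable (K : Crd S j)

namespace Crd

lemma gl_e (i : Fin j) (o : K.κ) (g : G) (A : Finset (Fin j)) (π : Equiv.Perm (Fin j)) :
    gl i (K.e (o, (g, A, π))) = K.e (o, (g, symmDiff {π i} A, π)) := by
  rw [K.e_apply, K.e_apply, gl_nf]

lemma pm_e (ρ : Equiv.Perm (Fin j)) (o : K.κ) (g : G) (A : Finset (Fin j)) (π : Equiv.Perm (Fin j)) :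
    pm ρ (K.e (o, (g, A, π))) = K.e (o, (g, A, π * ρ)) := by
  rw [K.e_apply, K.e_apply, pm_nf]

lemma smul_e (h : G) (o : K.κ) (g : G) (A : Finset (Fin j)) (π : Equiv.Perm (Fin j)) :
    h • K.e (o, (g, A, π)) = K.e (o, (h * g, A, π)) := by
  rw [K.e_apply, K.e_apply, smul_nf]

/-- the chain with the coordinates `x` -/
noncomputable def fn (x : K.κ → ZG G) (z : PCell S j) : ℤ :=
  ((sg (K.e.symm z).2 : ℤˣ) : ℤ) * (x (K.e.symm z).1).coeff (K.e.symm z).2.1

lemma fn_e (x : K.κ → ZG G) (o : K.κ) (m : G × Finset (Fin j) × Equiv.Perm (Fin j)) :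
    K.fn x (K.e (o, m)) = ((sg m : ℤˣ) : ℤ) * (x o).coeff m.1 := by
  unfold fn
  rw [Equiv.symm_apply_apply]

lemma fn_al (x : K.κ → ZG G) : Al (K.fn x) := by
  classical
  refine ⟨?_, fun ρ z => ?_, fun i z => ?_⟩
  · have hfin : (⋃ o : K.κ, ⋃ g ∈ ((x o).coeff.support : Set G),
        Set.range fun m : Finset (Fin j) × Equiv.Perm (Fin j) => K.e (o, (g, m))).Finite :=
      Set.finite_iUnion fun o => Set.Finite.biUnion (Finset.finite_toSet _) fun g _ => Set.finite_range _
    refine hfin.subset ?_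
    intro z hz
    obtain ⟨⟨o, g, m⟩, rfl⟩ := K.e.surjective z
    have hz' : K.fn x (K.e (o, (g, m))) ≠ 0 := hz
    rw [K.fn_e] at hz'
    refine Set.mem_iUnion.2 ⟨o, Set.mem_iUnion₂.2 ⟨g, ?_, ⟨m, rfl⟩⟩⟩
    rw [Finset.mem_coe, Finsupp.mem_support_iff]
    exact fun h0 => hz' (by rw [h0, mul_zero])
  · obtain ⟨⟨o, g, A, π⟩, rfl⟩ := K.e.surjective z
    rw [K.pm_e, K.fn_e, K.fn_e, sg_pm, Units.val_mul, Units.smul_def, smul_eq_mul, mul_assoc]
  · obtain ⟨⟨o, g, A, π⟩, rfl⟩ := K.e.surjective z
    rw [K.gl_e, K.fn_e, K.fn_e, sg_gl, Units.val_neg, neg_mul]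

end Crd

/-- the chains with finite support -/
def AlS (S : Sys H P G) (j : ℕ) : AddSubgroup (PCell S j → ℤ) where
  carrier := {f | Al f}
  zero_mem' := Al.zero
  add_mem' := Al.add
  neg_mem' := Al.neg

namespace Crd

/-- the coordinates of a chain -/
noncomputable def co (f : AlS S j) (o : K.κ) : ZG G :=
  MonoidAlgebra.ofCoeff (Finsupp.ofSupportFinite (fun g : G => (f : PCell S j → ℤ) (K.e (o, (g, ∅, 1)))) (by
    refine f.2.fin.preimage (f := fun g : G => K.e (o, (g, ∅, 1))) ?_
    intro g _ g' _ hh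
    have h1 := K.e.injective hh
    exact congrArg (fun x => x.2.1) h1))

lemma coeff_co (f : AlS S j) (o : K.κ) (g : G) :
    (K.co f o).coeff g = (f : PCell S j → ℤ) (K.e (o, (g, ∅, 1))) := rfl

/-- chains in coordinates -/
noncomputable def psi : (K.κ → ZG G) ≃+ AlS S j where
  toFun x := ⟨K.fn x, K.fn_al x⟩
  invFun f := K.co f
  left_inv x := by
    funext o
    apply MonoidAlgebra.coeff_injective
    ext g
    rw [K.coeff_co]
    show K.fn x (K.e (o, (g, ∅, 1))) = _
    rw [K.fn_e]
    simp [sg]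
  right_inv f := by
    apply Subtype.ext
    funext z
    obtain ⟨⟨o, g, A, π⟩, rfl⟩ := K.e.surjective z
    show K.fn (K.co f) (K.e (o, (g, A, π))) = (f : PCell S j → ℤ) (K.e (o, (g, A, π)))
    rw [K.fn_e, K.coeff_co, K.e_apply, K.e_apply, al_nf f.2, al_nf f.2]
    have h1 : sg (g, (∅ : Finset (Fin j)), (1 : Equiv.Perm (Fin j))) = 1 := by simp [sg]
    rw [h1, one_smul, Units.smul_def, smul_eq_mul]
  map_add' x y := by
    apply Subtype.ext
    funext z
    show K.fn (x + y) z = K.fn x z + K.fn y z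
    unfold fn
    rw [← mul_add]
    rfl

lemma psi_coe (x : K.κ → ZG G) : (K.psi x : PCell S j → ℤ) = K.fn x := rfl

theorem psi_smul (x : K.κ → ZG G) (h : G) :
    (K.psi (MonoidAlgebra.single h (1 : ℤ) • x) : PCell S j → ℤ) = fun z => (K.psi x : PCell S j → ℤ) (h⁻¹ • z) := by
  funext z
  obtain ⟨⟨o, g, A, π⟩, rfl⟩ := K.e.surjective z
  rw [K.psi_coe, K.psi_coe, K.smul_e, K.fn_e, K.fn_e, Pi.smul_apply, smul_eq_mul, coeff_single_smul]
  rfl

end Crd

/-- the boundary on chains -/
noncomputable def bdS (S : Sys H P G) (j : ℕ) : AlS S (j + 1) →+ AlS S j where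
  toFun f := ⟨bd (f : PCell S (j + 1) → ℤ), bd_mem f.2⟩
  map_zero' := Subtype.ext bd_zero
  map_add' f g := Subtype.ext (bd_add _ _)

lemma bdS_coe (f : AlS S (j + 1)) : (bdS S j f : PCell S j → ℤ) = bd (f : PCell S (j + 1) → ℤ) := rfl

lemma bd_trans (f : PCell S (j + 1) → ℤ) (g : G) : bd (fun z => f (g • z)) = fun y => bd f (g • y) := by
  funext y
  exact (bd_comp (p := fun z : PCell S (j + 1) => g • z) (p' := fun z => g⁻¹ • z) (q := fun y : PCell S j => g • y)
    (q' := fun y => g⁻¹ • y) (fun z => smul_inv_smul g z) (fun z => inv_smul_smul g z) (fun z => inv_smul_smul g z)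
    (fun z => smul_inv_smul g z) (fun z => smul_tail g z) f y).symm

variable (K : ∀ j, Crd S j)

/-- the differential in coordinates, as an additive map -/
noncomputable def cd0 (i : ℕ) : ((K (i + 1)).κ → ZG G) →+ ((K i).κ → ZG G) :=
  ((K i).psi.symm.toAddMonoidHom.comp (bdS S i)).comp (K (i + 1)).psi.toAddMonoidHom

lemma psi_cd0 (i : ℕ) (x : (K (i + 1)).κ → ZG G) : (K i).psi (cd0 K i x) = bdS S i ((K (i + 1)).psi x) := by
  show (K i).psi ((K i).psi.symm (bdS S i ((K (i + 1)).psi x))) = _
  rw [AddEquiv.apply_symm_apply]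

lemma cd0_smul (i : ℕ) (h : G) (x : (K (i + 1)).κ → ZG G) :
    cd0 K i (MonoidAlgebra.single h (1 : ℤ) • x) = MonoidAlgebra.single h (1 : ℤ) • cd0 K i x := by
  apply (K i).psi.injective
  apply Subtype.ext
  rw [psi_cd0, Crd.psi_smul, psi_cd0, bdS_coe, Crd.psi_smul, bd_trans, bdS_coe]

/-- the differential in coordinates -/
noncomputable def cdd (i : ℕ) : ((K (i + 1)).κ → ZG G) →ₗ[ZG G] ((K i).κ → ZG G) := linOf (cd0 K i) (cd0_smul K i)

lemma psi_cdd (i : ℕ) (x : (K (i + 1)).κ → ZG G) : (K i).psi (cdd K i x) = bdS S i ((K (i + 1)).psi x) :=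
  psi_cd0 K i x

/-- the augmentation -/
noncomputable def cag : ((K 0).κ → ZG G) →+ ℤ where
  toFun x := ∑ᶠ z, ((K 0).psi x : PCell S 0 → ℤ) z
  map_zero' := by
    rw [map_zero]
    exact finsum_zero
  map_add' x y := by
    rw [map_add]
    exact finsum_add_distrib ((K 0).psi x).2.fin ((K 0).psi y).2.fin

lemma cag_apply (x : (K 0).κ → ZG G) : cag K x = ∑ᶠ z, ((K 0).psi x : PCell S 0 → ℤ) z := rfl

/-- a chain of degree zero -/
lemma al_single (m : ℤ) (v : PCell S 0) : Al (fun z : PCell S 0 => open Classical in if z = v then m else 0) := by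
  classical
  refine ⟨(Set.finite_singleton v).subset fun z hz => ?_, fun π z => ?_, fun i => i.elim0⟩
  · by_contra h
    exact hz (if_neg h)
  · have hπ : π = 1 := Subsingleton.elim _ _
    rw [hπ, pm_one, Equiv.Perm.sign_one, one_smul]

/-- the resolution -/
theorem exists_res [Cof G P] {x0 : P} {ht : P → ℕ} (hH : Ht S x0 ht) (hG : ∀ g : G, g * g = 1 → g = 1) :
    ∃ R : FinRes G, ∀ i, S.bd < i → IsEmpty (R.ι i) := by
  classical
  let K : ∀ j, Crd S j := fun j => (exists_crd hH hG j).some
  suffices h : ∃ R : FinRes G, ∀ i, IsEmpty (K i).κ → IsEmpty (R.ι i) by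
    obtain ⟨R, hR⟩ := h
    exact ⟨R, fun i hi => hR i ((K i).emp hi)⟩
  refine finRes_of_lin (Γ := G) (fun i => (K i).κ) (fun i => cdd K i) (cag K) ?_ ?_ ?_ ?_
  · intro h x
    rw [cag_apply, cag_apply, Crd.psi_smul]
    exact finsum_comp_equiv (MulAction.toPerm (h⁻¹)) (f := fun z => ((K 0).psi x : PCell S 0 → ℤ) z)
  · intro m
    let v : PCell S 0 := ⟨x0, fun i => i.elim0, fun i => i.elim0, fun i => i.elim0⟩
    refine ⟨(K 0).psi.symm ⟨_, al_single m v⟩, ?_⟩
    rw [cag_apply, AddEquiv.apply_symm_apply]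
    show ∑ᶠ z, (if z = v then m else 0) = m
    rw [finsum_eq_single _ v fun z hz => if_neg hz, if_pos rfl]
  · intro x
    rw [cag_apply, ex_zero hH ((K 0).psi x).2]
    constructor
    · rintro ⟨h, hh, hd⟩
      refine ⟨(K 1).psi.symm ⟨h, hh⟩, ?_⟩
      apply (K 0).psi.injective
      apply Subtype.ext
      rw [psi_cdd, AddEquiv.apply_symm_apply]
      exact hd
    · rintro ⟨y, hy⟩
      refine ⟨(K 1).psi y, ((K 1).psi y).2, ?_⟩
      have h1 := psi_cdd K 0 y
      rw [hy] at h1
      rw [h1]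
      rfl
  · intro i x
    constructor
    · intro h
      have h1 := psi_cdd K i x
      rw [h, map_zero] at h1
      have h2 : bd ((K (i + 1)).psi x : PCell S (i + 1) → ℤ) = 0 := (congrArg Subtype.val h1).symm
      obtain ⟨k, hk, hkd⟩ := ex_succ hH ((K (i + 1)).psi x).2 h2
      refine ⟨(K (i + 2)).psi.symm ⟨k, hk⟩, ?_⟩
      apply (K (i + 1)).psi.injective
      apply Subtype.ext
      rw [psi_cdd, AddEquiv.apply_symm_apply]
      exact hkd
    · rintro ⟨y, rfl⟩
      apply (K i).psi.injective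
      apply Subtype.ext
      rw [psi_cdd, psi_cdd, map_zero, bdS_coe, bdS_coe]
      exact bd_bd ((K (i + 2)).psi y).2

end coord

end Npc
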