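import Pool.Agent.Npc.Fin
import Pool.Agent.Npc.Sph

/-!
# NPC cube complexes: only the singular vertices contribute
-/

set_option autoImplicit false
set_option linter.unusedSectionVars false
set_option linter.unusedVariables false

namespace Npc

open Singer SingerChess SingerCube

/-- only the vertices of `S` contribute if the links of the other vertices are flag homology spheres of dimension
different from `2 * i - 1` -/
theorem betti_le_sing {X Γ : Type} [Group Γ] [MulAction Γ X] {𝔛 : SimpleGraph X} (h𝔛 : Median 𝔛)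
    (hΓ : ∀ (g : Γ) (x y : X), 𝔛.Adj (g • x) (g • y) ↔ 𝔛.Adj x y) (free : ∀ (g : Γ) (x : X), g • x = x → g = 1)
    (F : Finset X) (hF : ∀ x : X, ∃ g : Γ, ∃ f ∈ F, g • f = x) [∀ x, Fintype (𝔛.neighborSet x)] [DecidableEq X]
    (i : ℕ) (S : Finset X) (hS : ∀ x ∈ F, x ∉ S → ∃ n, 2 * i ≠ n ∧ HSphere n (linkG 𝔛 x))
    {r : X → ℕ} (hr : Function.Injective r) (R : FinRes Γ) :
    0 ≤ R.betti i ∧ R.betti i ≤ ∑ x ∈ S, davisBetti (fun y : 𝔛.neighborSet x => r y) (linkG 𝔛 x) i := by
  refine ⟨R.betti_nonneg i, (betti_le h𝔛 hΓ free F hF hr R i).trans ?_⟩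
  have h0 : ∀ x, 0 ≤ davisBetti (fun y : 𝔛.neighborSet x => r y) (linkG 𝔛 x) i := fun x => by
    rw [davisBetti_eq (fun u v huv => Subtype.ext (hr huv))]
    exact bn_nonneg _ _ _ rk_inj _ _
  have h1 : ∑ x ∈ F, davisBetti (fun y : 𝔛.neighborSet x => r y) (linkG 𝔛 x) i =
      ∑ x ∈ F.filter (· ∈ S), davisBetti (fun y : 𝔛.neighborSet x => r y) (linkG 𝔛 x) i := by
    refine (Finset.sum_filter_of_ne fun x hx hne => ?_).symm
    by_contra hxS
    obtain ⟨n, hn, hs⟩ := hS x hx hxS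
    refine hne ?_
    rw [davisBetti_eq (fun u v huv => Subtype.ext (hr huv))]
    exact bet_of_hsphere hs hn
  rw [h1]
  exact Finset.sum_le_sum_of_subset_of_nonneg (fun x hx => (Finset.mem_filter.1 hx).2) fun x _ _ => h0 x

end Npc
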